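import Pool.Agent.Lib.MP_570bef_ntF.Base

/-! JOB FoA.  Characters and orthogonality.

`exists_char`: a nontrivial additive character of the finite field `K` with values in `ℂ` (`AddChar.FiniteField.primitiveChar_to_Complex`, `AddChar.FiniteField..`, or
`AddChar.exists_apply_ne_zero`/`AddChar.doubleDualEmb`-type results: finite abelian group duality gives a character nontrivial at `1 : K`).
`sum_char`: `∑ a, ψ (a * b) = 0` for `b ≠ 0`, `= q` for `b = 0` (`AddChar.sum_mulShift` for primitive characters, `AddChar.IsPrimitive.of_ne_one`; or: the character `a ↦ ψ (a * b)` is nontrivial,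
`AddChar.sum_eq_zero_of_ne_one`).
`norm_char`: values have norm one (`AddChar.norm_apply`).
`orth`: `ψ (lin c F) = ∏ i, ψ (c i * F.coeff i)` (`lin_apply`, `AddChar.map_sum_eq_prod`), so `∑_c ψ (lin c F) = ∏_i ∑_{a : K} ψ (a * F.coeff i)` (`Finset.prod_univ_sum`, `Fintype.piFinset_univ`);
it is `q^(D+1)` if all coefficients `F_i`, `i ≤ D`, vanish, i.e. if `F = 0` (degree `≤ D`), and `0` otherwise. -/

open Polynomial

namespace MP_570bef_ntF

variable {K : Type} [Field K] [Fintype K]

omit [Fintype K] in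
private theorem FoA_map_sum {ι : Type} (ψ : AddChar K ℂ) (s : Finset ι) (f : ι → K) :
    ψ (∑ i ∈ s, f i) = ∏ i ∈ s, ψ (f i) := by
  classical
  induction s using Finset.induction_on with
  | empty => simp
  | insert a s ha ih =>
    rw [Finset.sum_insert ha, Finset.prod_insert ha, AddChar.map_add_eq_mul, ih]

theorem exists_char (K : Type) [Field K] [Fintype K] : ∃ ψ : AddChar K ℂ, ψ ≠ 1 := by
  obtain ⟨ψ, hψ⟩ := (AddChar.exists_apply_ne_zero (a := (1 : K))).mpr one_ne_zero
  refine ⟨ψ, fun h => hψ ?_⟩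
  rw [h]
  rfl

theorem norm_char (ψ : AddChar K ℂ) (a : K) : ‖ψ a‖ = 1 := by
  exact AddChar.norm_apply ψ a

open Classical in
theorem sum_char {ψ : AddChar K ℂ} (hψ : ψ ≠ 1) (b : K) :
    ∑ a : K, ψ (a * b) = if b = 0 then (Fintype.card K : ℂ) else 0 := by
  have h := AddChar.sum_mulShift b (AddChar.IsPrimitive.of_ne_one hψ)
  rw [h]
  split_ifs <;> simp

open Classical in
theorem orth {ψ : AddChar K ℂ} (hψ : ψ ≠ 1) (D : ℕ) (F : K[X]) (hF : F.natDegree ≤ D) :
    ∑ c : Fin (D + 1) → K, ψ (lin c F) = if F = 0 then (Fintype.card K : ℂ) ^ (D + 1) else 0 := by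
  have h1 : ∀ c : Fin (D + 1) → K, ψ (lin c F) = ∏ i : Fin (D + 1), ψ (c i * F.coeff (i : ℕ)) := by
    intro c
    rw [lin_apply, FoA_map_sum]
  have h2 : ∑ c : Fin (D + 1) → K, ∏ i : Fin (D + 1), ψ (c i * F.coeff (i : ℕ))
      = ∏ i : Fin (D + 1), ∑ a : K, ψ (a * F.coeff (i : ℕ)) := by
    rw [Finset.prod_univ_sum, Fintype.piFinset_univ]
  rw [Finset.sum_congr rfl (fun c _ => h1 c), h2]
  split_ifs with h0
  · subst h0
    simp
  · have h3 : ∃ j : Fin (D + 1), F.coeff (j : ℕ) ≠ 0 := by
      by_contra hcon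
      push Not at hcon
      apply h0
      ext j
      by_cases hj : j < D + 1
      · simpa using hcon ⟨j, hj⟩
      · simpa using Polynomial.coeff_eq_zero_of_natDegree_lt (by omega)
    obtain ⟨j, hj⟩ := h3
    apply Finset.prod_eq_zero (Finset.mem_univ j)
    rw [sum_char hψ, if_neg hj]

open Classical in
/-- orthogonality in the argument: sum over all polynomials of degree `≤ e`. -/
theorem orth_SS {ψ : AddChar K ℂ} (hψ : ψ ≠ 1) (e : ℕ) (A : K[X] →ₗ[K] K) :
    ∑ z ∈ SS K e, ψ (A z) =
      if ∀ z : K[X], z.natDegree ≤ e → A z = 0 then (Fintype.card K : ℂ) ^ (e + 1) else 0 := by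
  set w : Fin (e + 1) → K := fun i => A (X ^ (i : ℕ)) with hw
  have h1 : ∀ v : Fin (e + 1) → K, A (toP v) = lin v (toP w) := by
    intro v
    rw [lin_apply]
    unfold toP
    rw [map_sum]
    apply Finset.sum_congr rfl
    intro i _
    have h2 := coeff_toP w (i : ℕ)
    unfold toP at h2
    rw [h2, dif_pos i.2, ← Polynomial.smul_eq_C_mul, map_smul, smul_eq_mul]
  rw [sum_SS, Finset.sum_congr rfl (fun v _ => by rw [h1 v]), orth hψ e (toP w) (natDegree_toP_le w)]
  have h3 : (toP w = 0) ↔ ∀ z : K[X], z.natDegree ≤ e → A z = 0 := by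
    rw [toP_eq_zero]
    constructor
    · intro h z hz
      have h4 := functional_ext (D := e) (A := A) (B := 0) (fun j hj => by
        have h5 := congrFun h ⟨j, by omega⟩
        rw [LinearMap.zero_apply]
        exact h5) (F := z) hz
      simpa using h4
    · intro h
      funext i
      have h6 := i.2
      exact h (X ^ (i : ℕ)) (by rw [Polynomial.natDegree_X_pow]; omega)
  simp only [h3]

end MP_570bef_ntF
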