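import Pool.Agent.Lib.MP_570bef_ntF.Defs

/-! Basic API. -/

open Polynomial

namespace MP_570bef_ntF

variable {K : Type} [Field K]

theorem coeff_toP {n : ℕ} (v : Fin (n + 1) → K) (j : ℕ) :
    (toP v).coeff j = if h : j < n + 1 then v ⟨j, h⟩ else 0 := by
  classical
  unfold toP
  rw [Polynomial.finsetSum_coeff]
  simp only [Polynomial.coeff_C_mul, Polynomial.coeff_X_pow]
  split_ifs with h
  · rw [Finset.sum_eq_single (⟨j, h⟩ : Fin (n + 1))]
    · simp
    · intro b _ hb
      have : j ≠ (b : ℕ) := fun hj => hb (Fin.ext hj.symm)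
      simp [this]
    · simp
  · apply Finset.sum_eq_zero
    intro b _
    have : j ≠ (b : ℕ) := by have := b.2; omega
    simp [this]

theorem natDegree_toP_le {n : ℕ} (v : Fin (n + 1) → K) : (toP v).natDegree ≤ n := by
  rw [Polynomial.natDegree_le_iff_coeff_eq_zero]
  intro N hN
  rw [coeff_toP]
  rw [dif_neg (by omega)]

theorem toP_injective {n : ℕ} : Function.Injective (toP : (Fin (n + 1) → K) → K[X]) := by
  intro v w h
  funext i
  have := congrArg (fun p => Polynomial.coeff p (i : ℕ)) h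
  simp only [coeff_toP] at this
  rw [dif_pos i.2, dif_pos i.2] at this
  exact this

theorem toP_coeff {n : ℕ} {F : K[X]} (h : F.natDegree ≤ n) :
    toP (fun i : Fin (n + 1) => F.coeff (i : ℕ)) = F := by
  ext j
  rw [coeff_toP]
  split_ifs with hj
  · rfl
  · exact (Polynomial.coeff_eq_zero_of_natDegree_lt (by omega)).symm

/-- `toP` as a linear map -/
noncomputable def toPL (K : Type) [Field K] (n : ℕ) : (Fin (n + 1) → K) →ₗ[K] K[X] where
  toFun := toP
  map_add' v w := by
    ext j
    simp only [coeff_toP, Polynomial.coeff_add]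
    split_ifs <;> simp
  map_smul' a v := by
    ext j
    simp only [coeff_toP, Polynomial.coeff_smul, RingHom.id_apply]
    split_ifs <;> simp

@[simp] theorem toPL_apply {n : ℕ} (v : Fin (n + 1) → K) : toPL K n v = toP v := rfl

theorem toP_add {n : ℕ} (v w : Fin (n + 1) → K) : toP (v + w) = toP v + toP w :=
  (toPL K n).map_add v w

theorem toP_sub {n : ℕ} (v w : Fin (n + 1) → K) : toP (v - w) = toP v - toP w :=
  (toPL K n).map_sub v w

theorem toP_zero {n : ℕ} : toP (0 : Fin (n + 1) → K) = 0 := (toPL K n).map_zero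

theorem toP_eq_zero {n : ℕ} {v : Fin (n + 1) → K} : toP v = 0 ↔ v = 0 := by
  constructor
  · intro h
    exact toP_injective (h.trans toP_zero.symm)
  · rintro rfl
    exact toP_zero

section Fin
variable [Fintype K]

theorem mem_SS {n : ℕ} {F : K[X]} : F ∈ SS K n ↔ F.natDegree ≤ n := by
  classical
  unfold SS
  simp only [Finset.mem_image, Finset.mem_univ, true_and]
  constructor
  · rintro ⟨v, rfl⟩
    exact natDegree_toP_le v
  · intro h
    exact ⟨_, toP_coeff h⟩

theorem card_SS (n : ℕ) : (SS K n).card = Fintype.card K ^ (n + 1) := by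
  classical
  unfold SS
  rw [Finset.card_image_of_injective _ toP_injective]
  simp

theorem sum_SS {M : Type*} [AddCommMonoid M] (n : ℕ) (f : K[X] → M) :
    ∑ x ∈ SS K n, f x = ∑ v : Fin (n + 1) → K, f (toP v) := by
  classical
  unfold SS
  rw [Finset.sum_image (fun a _ b _ h => toP_injective h)]

theorem zero_mem_SS (n : ℕ) : (0 : K[X]) ∈ SS K n := by
  rw [mem_SS]; simp

theorem add_mem_SS {n : ℕ} {x y : K[X]} (hx : x ∈ SS K n) (hy : y ∈ SS K n) : x + y ∈ SS K n := by
  rw [mem_SS] at *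
  exact (Polynomial.natDegree_add_le x y).trans (max_le hx hy)

theorem sub_mem_SS {n : ℕ} {x y : K[X]} (hx : x ∈ SS K n) (hy : y ∈ SS K n) : x - y ∈ SS K n := by
  rw [mem_SS] at *
  exact (Polynomial.natDegree_sub_le x y).trans (max_le hx hy)

theorem neg_mem_SS {n : ℕ} {x : K[X]} (hx : x ∈ SS K n) : -x ∈ SS K n := by
  rw [mem_SS] at *
  simpa using hx

theorem mem_QQ {n : ℕ} {x : K[X]} : x ∈ QQ K n ↔ Squarefree x ∧ x.natDegree = n := by
  classical
  unfold QQ
  rw [Finset.mem_filter, mem_SS]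
  exact ⟨fun h => h.2, fun h => ⟨h.2.le, h⟩⟩

theorem mem_MM {n : ℕ} {x : K[X]} : x ∈ MM K n ↔ x.Monic ∧ x.natDegree = n := by
  classical
  unfold MM
  rw [Finset.mem_filter, mem_SS]
  exact ⟨fun h => h.2, fun h => ⟨h.2.le, h⟩⟩

omit [Fintype K] in
theorem mem_ZZ {k n : ℕ} {A : K[X] →ₗ[K] K} {Y : Finset K[X]} {x : K[X]} :
    x ∈ ZZ k n A Y ↔ x ∈ Y ∧ ∀ h : K[X], h.natDegree ≤ n → A (x ^ (k - 1) * h) = 0 := by
  classical
  unfold ZZ
  rw [Finset.mem_filter]

theorem two_le_q : 2 ≤ Fintype.card K := Fintype.one_lt_card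

theorem pow_mem_SS {n k : ℕ} {x : K[X]} (hx : x ∈ SS K n) : x ^ k ∈ SS K (k * n) := by
  rw [mem_SS] at *
  exact (Polynomial.natDegree_pow_le).trans (Nat.mul_le_mul_left k hx)

end Fin

theorem lin_apply {D : ℕ} (c : Fin (D + 1) → K) (F : K[X]) :
    lin c F = ∑ i : Fin (D + 1), c i * F.coeff (i : ℕ) := by
  unfold lin
  simp [Polynomial.lcoeff_apply]

theorem lin_X_pow {D : ℕ} (c : Fin (D + 1) → K) (j : ℕ) (hj : j < D + 1) :
    lin c (X ^ j) = c ⟨j, hj⟩ := by
  classical
  rw [lin_apply]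
  rw [Finset.sum_eq_single (⟨j, hj⟩ : Fin (D + 1))]
  · simp
  · intro b _ hb
    have : (b : ℕ) ≠ j := fun h => hb (Fin.ext h)
    simp [Polynomial.coeff_X_pow, this]
  · simp

theorem lin_add {D : ℕ} (c c' : Fin (D + 1) → K) (F : K[X]) :
    lin (c + c') F = lin c F + lin c' F := by
  simp only [lin_apply, Pi.add_apply, add_mul, Finset.sum_add_distrib]

theorem lin_smul {D : ℕ} (a : K) (c : Fin (D + 1) → K) (F : K[X]) :
    lin (a • c) F = a * lin c F := by
  simp only [lin_apply, Pi.smul_apply, smul_eq_mul, Finset.mul_sum, mul_assoc]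

theorem lin_zero {D : ℕ} (F : K[X]) : lin (0 : Fin (D + 1) → K) F = 0 := by
  simp [lin_apply]

/-- a polynomial of degree `≤ D` on which all `lin c` vanish is zero -/
theorem eq_zero_of_lin {D : ℕ} {F : K[X]} (hF : F.natDegree ≤ D)
    (h : ∀ c : Fin (D + 1) → K, lin c F = 0) : F = 0 := by
  classical
  ext j
  by_cases hj : j < D + 1
  · have := h (Pi.single ⟨j, hj⟩ 1)
    rw [lin_apply, Finset.sum_eq_single (⟨j, hj⟩ : Fin (D + 1))] at this
    · simpa using this
    · intro b _ hb
      simp [hb]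
    · simp
  · simpa using Polynomial.coeff_eq_zero_of_natDegree_lt (by omega)

/-- two linear functionals which agree on `X^j`, `j ≤ D`, agree on degree `≤ D` -/
theorem functional_ext {D : ℕ} {A B : K[X] →ₗ[K] K} (h : ∀ j ≤ D, A (X ^ j) = B (X ^ j))
    {F : K[X]} (hF : F.natDegree ≤ D) : A F = B F := by
  rw [Polynomial.as_sum_range' F (D + 1) (by omega)]
  simp only [map_sum]
  apply Finset.sum_congr rfl
  intro j hj
  rw [Finset.mem_range] at hj
  rw [← Polynomial.C_mul_X_pow_eq_monomial, ← Polynomial.smul_eq_C_mul, map_smul, map_smul,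
    h j (by omega)]

/-- every functional agrees on degree `≤ D` with a functional `lin c` -/
theorem exists_lin (A : K[X] →ₗ[K] K) (D : ℕ) :
    ∃ c : Fin (D + 1) → K, ∀ F : K[X], F.natDegree ≤ D → lin c F = A F := by
  refine ⟨fun i => A (X ^ (i : ℕ)), fun F hF => functional_ext (fun j hj => ?_) hF⟩
  rw [lin_X_pow _ j (by omega)]

/-- if `lin c` vanishes on degree `≤ D` then `c = 0` -/
theorem lin_eq_zero {D : ℕ} {c : Fin (D + 1) → K} (h : ∀ F : K[X], F.natDegree ≤ D → lin c F = 0) :
    c = 0 := by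
  funext i
  have := h (X ^ (i : ℕ)) (by
    rw [Polynomial.natDegree_X_pow]; have := i.2; omega)
  rw [lin_X_pow _ _ i.2] at this
  exact this

@[simp] theorem mulF_apply (A : K[X] →ₗ[K] K) (b z : K[X]) : mulF A b z = A (b * z) := rfl

theorem kill_iff_X (A : K[X] →ₗ[K] K) (D : ℕ) (b : K[X]) (m : ℕ) :
    Kill A D b m ↔ ∀ j : ℕ, j + m ≤ D → A (b * X ^ j) = 0 := by
  constructor
  · intro h j hj
    exact h _ (by rw [Polynomial.natDegree_X_pow]; exact hj)
  · intro h z hz
    have := functional_ext (D := D - m) (A := mulF A b) (B := 0)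
      (fun j hj => by
        rw [mulF_apply, LinearMap.zero_apply]
        exact h j (by omega)) (F := z) (by omega)
    simpa using this

theorem Kill.mul {A : K[X] →ₗ[K] K} {D : ℕ} {b : K[X]} {m : ℕ} (h : Kill A D b m) (y : K[X]) (e : ℕ)
    (hy : y.natDegree ≤ e) : Kill A D (b * y) (m + e) := by
  intro z hz
  rw [mul_assoc]
  apply h
  have := Polynomial.natDegree_mul_le (p := y) (q := z)
  omega

theorem Kill.mono {A : K[X] →ₗ[K] K} {D : ℕ} {b : K[X]} {m m' : ℕ} (h : Kill A D b m) (hm : m ≤ m') :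
    Kill A D b m' := fun z hz => h z (by omega)

theorem kill_mulF {A : K[X] →ₗ[K] K} {D : ℕ} {b y : K[X]} {m e : ℕ} :
    Kill (mulF A b) D y e ↔ ∀ z : K[X], z.natDegree + e ≤ D → A (b * y * z) = 0 := by
  unfold Kill
  simp only [mulF_apply, mul_assoc]

theorem Kill.congr {A B : K[X] →ₗ[K] K} {D : ℕ} (h : ∀ F : K[X], F.natDegree ≤ D → A F = B F)
    {b : K[X]} {e : ℕ} (hb : b.natDegree ≤ e) (hk : Kill A D b e) : Kill B D b e := by
  intro z hz
  rw [← h _ ?_]
  · exact hk z hz
  · have := Polynomial.natDegree_mul_le (p := b) (q := z)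
    omega

/-! API of `cnt`. -/

theorem cnt_eq {α : Type} [Fintype α] (p : α → Prop) [DecidablePred p] :
    cnt p = (Finset.univ.filter p).card := by
  unfold cnt
  congr 1
  ext x
  simp

theorem cnt_mono {α : Type} [Fintype α] {p q : α → Prop} (h : ∀ x, p x → q x) : cnt p ≤ cnt q := by
  classical
  rw [cnt_eq, cnt_eq]
  apply Finset.card_le_card
  intro x hx
  simp only [Finset.mem_filter, Finset.mem_univ, true_and] at *
  exact h x hx

theorem cnt_le_card {α : Type} [Fintype α] (p : α → Prop) : cnt p ≤ Fintype.card α := by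
  classical
  rw [cnt_eq]
  exact Finset.card_le_univ _

/-- union bound -/
theorem cnt_le_sum {α ι : Type} [Fintype α] {p : α → Prop} (s : Finset ι) (q : ι → α → Prop)
    (h : ∀ x, p x → ∃ i ∈ s, q i x) : cnt p ≤ ∑ i ∈ s, cnt (q i) := by
  classical
  rw [cnt_eq]
  calc (Finset.univ.filter p).card ≤ (s.biUnion (fun i => Finset.univ.filter (q i))).card := by
        apply Finset.card_le_card
        intro x hx
        simp only [Finset.mem_filter, Finset.mem_univ, true_and, Finset.mem_biUnion] at *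
        exact h x hx
    _ ≤ ∑ i ∈ s, (Finset.univ.filter (q i)).card := Finset.card_biUnion_le
    _ = ∑ i ∈ s, cnt (q i) := by
        apply Finset.sum_congr rfl
        intro i _
        rw [cnt_eq]

theorem cnt_le_of_injOn {α β : Type} [Fintype α] [Fintype β] {p : α → Prop} {q : β → Prop}
    (f : α → β) (hf : ∀ x, p x → q (f x)) (hinj : ∀ x y, p x → p y → f x = f y → x = y) :
    cnt p ≤ cnt q := by
  classical
  rw [cnt_eq, cnt_eq]
  apply Finset.card_le_card_of_injOn f
  · intro x hx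
    simp only [Finset.coe_filter, Finset.mem_univ, true_and, Set.mem_setOf_eq] at *
    exact hf x hx
  · intro x hx y hy hxy
    simp only [Finset.coe_filter, Finset.mem_univ, true_and, Set.mem_setOf_eq] at *
    exact hinj x y hx hy hxy

@[simp] theorem jac_apply {R σ : Type} (f : R → MvPolynomial σ K) (x : σ → K) (i : R) (j : σ) :
    jac f x i j = MvPolynomial.eval x (MvPolynomial.pderiv j (f i)) := rfl

theorem low_mul_rad {s : ℕ} (γ : Fin s → K[X]) : low γ * rad γ = ∏ e, γ e ^ ((e : ℕ) + 1) := by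
  unfold low rad
  rw [← Finset.prod_mul_distrib]
  apply Finset.prod_congr rfl
  intro e _
  rw [pow_succ]

end MP_570bef_ntF
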