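import Pool.Agent.Lib.MP_570bef_ntF.Base

/-! JOB Bx.  Points on which high powers of the coordinates are polynomials of lower degree.

Let `V` be the `L`-vector space of functions `W → L` (`W` as a subtype `{x // x ∈ W}`), `finrank = W.card`.  For an exponent `β : σ →₀ ℕ` (or `σ → ℕ`) let
`mon β ∈ V`, `mon β x = ∏ i, x i ^ β i`.  Let `S` be the span of the `mon β` with `β i ≤ D` for all `i`; there are `(D+1)^(card σ)` such `β`
(e.g. index by `σ → Fin (D+1)`), so `finrank S ≤ (D+1)^(card σ)` (`finrank_range_le_card` / `finrank_span_le_card`).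
(i) every `mon β` is in `S`: strong induction on the total degree `∑ β i`.  If some `β i ≥ D+1`, write `β = (D+1) e_i + β'`; on `W`:
`mon β = (x_i^(D+1)) * mon β' = (h i)(x) * mon β' = ∑_α coeff_α (h i) * mon (α + β')`, and the total degree of `α + β'` is
`≤ D + (|β| - (D+1)) < |β|` for `α` in the support of `h i` (`MvPolynomial.le_totalDegree`), so each term is in `S` by induction.
Otherwise `β` is in the box.
(ii) hence the restriction to `W` of every polynomial `p : MvPolynomial σ L` is in `S` (`MvPolynomial.eval_eq` / induction on `p`).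
(iii) polynomials give all functions on the finite set `W`: for `x ∈ W` the polynomial `∏_{y ∈ W, y ≠ x} (X_{i(y)} - C (y i(y)))`, where `i(y)` is an index
with `y i(y) ≠ x i(y)`, vanishes at all `y ≠ x` in `W` and not at `x`; so `Pi.single x 1 ∈ S` after scaling, and `S = ⊤`.
So `W.card = finrank V = finrank S ≤ (D+1)^(card σ)`. -/

open Polynomial

namespace MP_570bef_ntF

/-- evaluation of polynomials at the points of `W` -/
private noncomputable def Bx_res {σ : Type} {L : Type} [Field L] (W : Finset (σ → L)) :
    MvPolynomial σ L →ₗ[L] (W → L) where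
  toFun p := fun x => MvPolynomial.eval (x : σ → L) p
  map_add' p q := by
    ext x
    simp
  map_smul' c p := by
    ext x
    simp

private theorem Bx_res_apply {σ : Type} {L : Type} [Field L] (W : Finset (σ → L))
    (p : MvPolynomial σ L) (x : W) : Bx_res W p x = MvPolynomial.eval (x : σ → L) p := rfl

theorem card_le_box {σ : Type} [Fintype σ] [DecidableEq σ] {L : Type} [Field L] (D : ℕ)
    (W : Finset (σ → L)) (h : σ → MvPolynomial σ L) (hdeg : ∀ i, (h i).totalDegree ≤ D)
    (hW : ∀ x ∈ W, ∀ i, x i ^ (D + 1) = MvPolynomial.eval x (h i)) :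
    W.card ≤ (D + 1) ^ Fintype.card σ := by
  classical
  let S : Submodule L (W → L) := Submodule.span L (Set.range fun β : σ → Fin (D + 1) =>
    Bx_res W (MvPolynomial.monomial (Finsupp.equivFunOnFinite.symm fun i => (β i : ℕ)) 1))
  -- all monomials
  have key : ∀ n : ℕ, ∀ β : σ →₀ ℕ, ∑ i, β i = n → Bx_res W (MvPolynomial.monomial β 1) ∈ S := by
    intro n
    induction n using Nat.strong_induction_on with
    | _ n ih =>
      intro β hβ
      by_cases hb : ∃ i, D + 1 ≤ β i
      · obtain ⟨i, hi⟩ := hb
        have hβ' : (β - Finsupp.single i (D + 1)) + Finsupp.single i (D + 1) = β := by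
          ext j
          simp only [Finsupp.coe_add, Finsupp.coe_tsub, Pi.add_apply, Pi.sub_apply]
          by_cases hj : i = j
          · subst hj
            rw [Finsupp.single_eq_same]
            omega
          · rw [Finsupp.single_eq_of_ne (fun e => hj e.symm)]
            omega
        set β' : σ →₀ ℕ := β - Finsupp.single i (D + 1) with hβdef
        have hsum : ∑ j, β' j + (D + 1) = n := by
          rw [← hβ, ← hβ']
          simp only [Finsupp.coe_add, Pi.add_apply, Finset.sum_add_distrib]
          congr 1
          rw [Finset.sum_eq_single i]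
          · rw [Finsupp.single_eq_same]
          · intro j _ hj
            rw [Finsupp.single_eq_of_ne hj]
          · intro hc
            exact absurd (Finset.mem_univ i) hc
        have e1 : Bx_res W (MvPolynomial.monomial β 1) =
            Bx_res W (MvPolynomial.monomial β' 1 * h i) := by
          ext x
          rw [Bx_res_apply, Bx_res_apply, map_mul, ← hW x x.2 i]
          have : (MvPolynomial.monomial β (1 : L)) =
              MvPolynomial.monomial β' 1 * MvPolynomial.X i ^ (D + 1) := by
            rw [MvPolynomial.X_pow_eq_monomial, MvPolynomial.monomial_mul, hβ', mul_one]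
          rw [this, map_mul, map_pow, MvPolynomial.eval_X]
        rw [e1, MvPolynomial.as_sum (h i), Finset.mul_sum, map_sum]
        refine Submodule.sum_mem _ fun α hα => ?_
        rw [MvPolynomial.monomial_mul, one_mul]
        have e2 : (MvPolynomial.monomial (β' + α) (MvPolynomial.coeff α (h i))) =
            MvPolynomial.coeff α (h i) • MvPolynomial.monomial (β' + α) (1 : L) := by
          rw [MvPolynomial.smul_monomial, smul_eq_mul, mul_one]
        rw [e2, map_smul]
        refine Submodule.smul_mem _ _ (ih (∑ j, (β' + α) j) ?_ _ rfl)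
        have h3 : ∑ j, α j ≤ D := by
          have h4 := (MvPolynomial.le_totalDegree hα).trans (hdeg i)
          rwa [Finsupp.sum_fintype _ _ (fun _ => rfl)] at h4
        simp only [Finsupp.coe_add, Pi.add_apply, Finset.sum_add_distrib]
        omega
      · push Not at hb
        have e : (Finsupp.equivFunOnFinite.symm fun i => β i) = β := by
          ext j
          rfl
        refine Submodule.subset_span ⟨fun i => ⟨β i, hb i⟩, ?_⟩
        show Bx_res W (MvPolynomial.monomial (Finsupp.equivFunOnFinite.symm fun i => β i) 1) = _
        rw [e]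
  have hpol : ∀ p : MvPolynomial σ L, Bx_res W p ∈ S := by
    intro p
    rw [MvPolynomial.as_sum p, map_sum]
    refine Submodule.sum_mem _ fun α _ => ?_
    have e2 : (MvPolynomial.monomial α (MvPolynomial.coeff α p)) =
        MvPolynomial.coeff α p • MvPolynomial.monomial α (1 : L) := by
      rw [MvPolynomial.smul_monomial, smul_eq_mul, mul_one]
    rw [e2, map_smul]
    exact Submodule.smul_mem _ _ (key _ α rfl)
  have htop : S = ⊤ := by
    rw [eq_top_iff]
    intro f _
    have h1 : f = ∑ x : W, f x • (Pi.single x (1 : L) : W → L) := by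
      ext y
      simp [Finset.sum_apply, Pi.single_apply]
    rw [h1]
    refine Submodule.sum_mem _ fun x _ => Submodule.smul_mem _ _ ?_
    have hch : ∀ y : σ → L, ∃ q : MvPolynomial σ L, y ≠ x →
        MvPolynomial.eval (x : σ → L) q ≠ 0 ∧ MvPolynomial.eval y q = 0 := by
      intro y
      by_cases hy : y = x
      · exact ⟨0, fun e => absurd hy e⟩
      · obtain ⟨i, hi⟩ := Function.ne_iff.1 hy
        refine ⟨MvPolynomial.X i - MvPolynomial.C (y i), fun _ => ⟨?_, ?_⟩⟩
        · rw [map_sub, MvPolynomial.eval_X, MvPolynomial.eval_C]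
          exact sub_ne_zero.2 hi.symm
        · rw [map_sub, MvPolynomial.eval_X, MvPolynomial.eval_C, sub_self]
    choose q hq using hch
    let Q : MvPolynomial σ L := ∏ y ∈ W.erase x, q y
    have hQ0 : MvPolynomial.eval (x : σ → L) Q ≠ 0 := by
      rw [map_prod]
      exact Finset.prod_ne_zero_iff.2 fun y hy => (hq y (Finset.ne_of_mem_erase hy)).1
    have hQ1 : (Pi.single x (1 : L) : W → L) = (MvPolynomial.eval (x : σ → L) Q)⁻¹ • Bx_res W Q := by
      ext y
      rw [Pi.smul_apply, Bx_res_apply, smul_eq_mul]
      by_cases hy : y = x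
      · subst hy
        rw [Pi.single_eq_same, inv_mul_cancel₀ hQ0]
      · rw [Pi.single_eq_of_ne hy]
        have : MvPolynomial.eval (y : σ → L) Q = 0 := by
          rw [map_prod]
          have hne : (y : σ → L) ≠ x := fun e => hy (Subtype.ext e)
          exact Finset.prod_eq_zero (i := (y : σ → L)) (Finset.mem_erase.2 ⟨hne, y.2⟩) (hq y hne).2
        rw [this, mul_zero]
    rw [hQ1]
    exact Submodule.smul_mem _ _ (hpol Q)
  have h1 : Module.finrank L (W → L) = W.card := by
    rw [Module.finrank_fintype_fun_eq_card, Fintype.card_coe]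
  have h2 : (Set.range fun β : σ → Fin (D + 1) => Bx_res W (MvPolynomial.monomial
      (Finsupp.equivFunOnFinite.symm fun i => (β i : ℕ)) (1 : L))).finrank L ≤
      Fintype.card (σ → Fin (D + 1)) := finrank_range_le_card _
  rw [Fintype.card_fun, Fintype.card_fin] at h2
  rw [← h1, ← finrank_top, ← htop]
  exact h2

end MP_570bef_ntF
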