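import Pool.Agent.Lib.MP_570bef_ntF.Base

/-! JOB CFa.  Coprime forms.

`bezout_forms`.  Say `u.natDegree = e1` (the other case is symmetric: exchange `u` and `v`).  `IsCoprime u v` gives `F = u * a0 + v * b0`
(multiply the Bezout identity by `F`).  Divide: `b0 = u * w + r` with `r = b0 % u`, and `r = 0` or `r.natDegree < u.natDegree = e1`
(if `e1 = 0` then `u` is a nonzero constant and `r = 0`); `Polynomial.natDegree_mod_lt`, `EuclideanDomain.div_add_mod`, `Polynomial.degree_mod_lt`
(use degrees `degree (b0 % u) < degree u` if more convenient).  Then `F = u * (a0 + v * w) + v * r`.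
Put `a := a0 + v * w`, `b := r`.  If `r ≠ 0`: `r.natDegree + 1 ≤ e1`, so `b.natDegree + e2 ≤ e1 - 1 + e2 ≤ D`.
If `a ≠ 0`: `a.natDegree + e1 = (u * a).natDegree = (F - v * r).natDegree ≤ D`, because `(v * r).natDegree ≤ e2 + r.natDegree ≤ D` (or `v * r = 0`).

`kill_of_coprime`.  Write `F = u * a + v * b`; `A (u * a) = 0` because `a = 0` or `a.natDegree + e1 ≤ D` (`Kill`); same for `v * b`. -/

open Polynomial

namespace MP_570bef_ntF

variable {K : Type} [Field K]

private theorem CFa_aux {u v : K[X]} {e2 D : ℕ} (hu0 : u ≠ 0) (hv : v.natDegree ≤ e2)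
    (hco : IsCoprime u v) (hD : u.natDegree + e2 ≤ D + 1) (F : K[X]) (hF : F.natDegree ≤ D) :
    ∃ a b : K[X], F = u * a + v * b ∧ (a = 0 ∨ a.natDegree + u.natDegree ≤ D) ∧
      (b = 0 ∨ b.natDegree + e2 ≤ D) := by
  obtain ⟨p, q, hpq⟩ := hco
  have hdiv : u * (q * F / u) + q * F % u = q * F := EuclideanDomain.div_add_mod (q * F) u
  set w := q * F / u with hw
  set r := q * F % u with hr
  have hF1 : F = u * (p * F + v * w) + v * r := by
    calc F = (p * u + q * v) * F := by rw [hpq, one_mul]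
      _ = u * (p * F) + v * (q * F) := by ring
      _ = u * (p * F) + v * (u * w + r) := by rw [hdiv]
      _ = u * (p * F + v * w) + v * r := by ring
  have hrd : r ≠ 0 → r.natDegree < u.natDegree := by
    intro h
    exact Polynomial.natDegree_lt_natDegree h (Polynomial.degree_mod_lt _ hu0)
  have hvr : (v * r).natDegree ≤ D := by
    by_cases h : r = 0
    · rw [h, mul_zero, Polynomial.natDegree_zero]
      exact Nat.zero_le _
    · have h1 := Polynomial.natDegree_mul_le (p := v) (q := r)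
      have h2 := hrd h
      omega
  refine ⟨p * F + v * w, r, hF1, ?_, ?_⟩
  · by_cases h : p * F + v * w = 0
    · exact Or.inl h
    · right
      have h1 := Polynomial.natDegree_mul hu0 h
      have h2 : u * (p * F + v * w) = F - v * r := by
        linear_combination -hF1
      have h3 := Polynomial.natDegree_sub_le F (v * r)
      rw [← h2, h1] at h3
      have h4 : max F.natDegree (v * r).natDegree ≤ D := max_le hF hvr
      omega
  · by_cases h : r = 0
    · exact Or.inl h
    · right
      have h2 := hrd h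
      omega

theorem bezout_forms {u v : K[X]} {e1 e2 D : ℕ} (hu0 : u ≠ 0) (hv0 : v ≠ 0) (hu : u.natDegree ≤ e1)
    (hv : v.natDegree ≤ e2) (hco : IsCoprime u v) (hex : u.natDegree = e1 ∨ v.natDegree = e2)
    (hD : e1 + e2 ≤ D + 1) (F : K[X]) (hF : F.natDegree ≤ D) :
    ∃ a b : K[X], F = u * a + v * b ∧ (a = 0 ∨ a.natDegree + e1 ≤ D) ∧ (b = 0 ∨ b.natDegree + e2 ≤ D) := by
  rcases hex with h | h
  · subst h
    exact CFa_aux hu0 hv hco hD F hF
  · subst h
    obtain ⟨a, b, h1, h2, h3⟩ := CFa_aux hv0 hu hco.symm (by omega) F hF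
    exact ⟨b, a, by rw [h1, add_comm], h3, h2⟩

theorem kill_of_coprime {A : K[X] →ₗ[K] K} {u v : K[X]} {e1 e2 D : ℕ} (hu0 : u ≠ 0) (hv0 : v ≠ 0)
    (hu : u.natDegree ≤ e1) (hv : v.natDegree ≤ e2) (hco : IsCoprime u v)
    (hex : u.natDegree = e1 ∨ v.natDegree = e2) (hD : e1 + e2 ≤ D + 1)
    (h1 : Kill A D u e1) (h2 : Kill A D v e2) (F : K[X]) (hF : F.natDegree ≤ D) : A F = 0 := by
  obtain ⟨a, b, hF1, ha, hb⟩ := bezout_forms hu0 hv0 hu hv hco hex hD F hF
  have ha' : A (u * a) = 0 := by
    rcases ha with ha | ha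
    · rw [ha, mul_zero, map_zero]
    · exact h1 a ha
  have hb' : A (v * b) = 0 := by
    rcases hb with hb | hb
    · rw [hb, mul_zero, map_zero]
    · exact h2 b hb
  rw [hF1, map_add, ha', hb', add_zero]

end MP_570bef_ntF
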