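import Pool.Agent.Lib.MP_570bef_ntF.CFa

/-! JOB CFb.  Greatest common divisor of two forms.

`form_gcd`.  `G := EuclideanDomain.gcd y b` (or `gcd y b`), `y = G * y'`, `b = G * b'` with `IsCoprime y' b'` (e.g. `EuclideanDomain.gcd_dvd_left`,
`isCoprime_div_gcd_div_gcd`, or: from the Bezout identity `G = y * s + b * t` cancel `G`).  `e := G.natDegree + min (Y - y.natDegree) (m - b.natDegree)`.
`y.natDegree = G.natDegree + y'.natDegree` (`Polynomial.natDegree_mul`, both nonzero), same for `b`.  Everything is then `omega`: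
`y'.natDegree + e = y.natDegree + min .. ≤ Y`, with equality if the minimum is `Y - y.natDegree`; same for `b`.  If `b.natDegree = m` the minimum is `0`.

`kill_gcd`.  Let `z` with `z.natDegree + e ≤ D`.  Then `e ≤ D`.  Apply `kill_of_coprime` to the functional `mulF A G`, the forms `(y', Y - e)` and `(b', m - e)`
and `D' = D - e` (`(Y - e) + (m - e) ≤ (D - e) + 1` from `Y + m ≤ D + 1 + e` and `e ≤ Y`, `e ≤ m`): `Kill (mulF A G) (D - e) y' (Y - e)` because
`A (G * (y' * w)) = A (y * w) = 0` if `w.natDegree + (Y - e) ≤ D - e`, i.e. `w.natDegree + Y ≤ D`.  Conclusion: `A (G * z) = 0` (as `z.natDegree ≤ D - e`). -/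

open Polynomial

namespace MP_570bef_ntF

variable {K : Type} [Field K]

theorem form_gcd {y b : K[X]} (hy : y ≠ 0) (hb : b ≠ 0) {Y m : ℕ} (hyY : y.natDegree ≤ Y)
    (hbm : b.natDegree ≤ m) :
    ∃ (G y' b' : K[X]) (e : ℕ), G ≠ 0 ∧ G.natDegree ≤ e ∧ y = G * y' ∧ b = G * b' ∧
      y'.natDegree + e ≤ Y ∧ b'.natDegree + e ≤ m ∧ IsCoprime y' b' ∧
      (y'.natDegree + e = Y ∨ b'.natDegree + e = m) ∧ (b.natDegree = m → e = G.natDegree) := by
  classical
  set G := EuclideanDomain.gcd y b with hG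
  have hG0 : G ≠ 0 := by
    intro h
    rw [hG, EuclideanDomain.gcd_eq_zero_iff] at h
    exact hy h.1
  obtain ⟨y', hy'⟩ := EuclideanDomain.gcd_dvd_left y b
  obtain ⟨b', hb'⟩ := EuclideanDomain.gcd_dvd_right y b
  rw [← hG] at hy' hb'
  have hy'0 : y' ≠ 0 := by
    rintro rfl
    exact hy (by rw [hy', mul_zero])
  have hb'0 : b' ≠ 0 := by
    rintro rfl
    exact hb (by rw [hb', mul_zero])
  have hco : IsCoprime y' b' := by
    have hbz := EuclideanDomain.gcd_eq_gcd_ab y b
    rw [← hG] at hbz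
    refine ⟨EuclideanDomain.gcdA y b, EuclideanDomain.gcdB y b, ?_⟩
    apply mul_left_cancel₀ hG0
    calc G * (EuclideanDomain.gcdA y b * y' + EuclideanDomain.gcdB y b * b')
        = (G * y') * EuclideanDomain.gcdA y b + (G * b') * EuclideanDomain.gcdB y b := by ring
      _ = y * EuclideanDomain.gcdA y b + b * EuclideanDomain.gcdB y b := by rw [← hy', ← hb']
      _ = G * 1 := by rw [← hbz, mul_one]
  have hd1 : y.natDegree = G.natDegree + y'.natDegree := by
    conv_lhs => rw [hy']
    exact Polynomial.natDegree_mul hG0 hy'0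
  have hd2 : b.natDegree = G.natDegree + b'.natDegree := by
    conv_lhs => rw [hb']
    exact Polynomial.natDegree_mul hG0 hb'0
  refine ⟨G, y', b', G.natDegree + min (Y - y.natDegree) (m - b.natDegree), hG0, ?_, hy', hb', ?_, ?_,
    hco, ?_, ?_⟩
  · omega
  · omega
  · omega
  · omega
  · intro h
    omega

theorem kill_gcd {A : K[X] →ₗ[K] K} {D : ℕ} {G y b y' b' : K[X]} {e Y m : ℕ} (hy : y ≠ 0) (hb : b ≠ 0)
    (h1 : y = G * y') (h2 : b = G * b') (h3 : y'.natDegree + e ≤ Y) (h4 : b'.natDegree + e ≤ m)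
    (h5 : IsCoprime y' b') (h6 : y'.natDegree + e = Y ∨ b'.natDegree + e = m)
    (hD : Y + m ≤ D + 1 + e) (hky : Kill A D y Y) (hkb : Kill A D b m) : Kill A D G e := by
  intro z hz
  have hy'0 : y' ≠ 0 := by
    rintro rfl
    exact hy (by rw [h1, mul_zero])
  have hb'0 : b' ≠ 0 := by
    rintro rfl
    exact hb (by rw [h2, mul_zero])
  have hk := kill_of_coprime (A := mulF A G) (u := y') (v := b') (e1 := Y - e) (e2 := m - e)
    (D := D - e) hy'0 hb'0 (by omega) (by omega) h5 (by omega) (by omega)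
    (by
      intro w hw
      show A (G * (y' * w)) = 0
      rw [← mul_assoc, ← h1]
      exact hky w (by omega))
    (by
      intro w hw
      show A (G * (b' * w)) = 0
      rw [← mul_assoc, ← h2]
      exact hkb w (by omega))
    z (by omega)
  exact hk

end MP_570bef_ntF
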