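import Pool.Agent.Lib.MP_570bef_ntF.CFb

/-! JOB CFc.  The rank `rho`.

`exists_rho`: the property `there is `b ≠ 0` with `b.natDegree ≤ m` and `Kill A D b m`` holds for `m = D + 1` (`b = 1`, the condition `z.natDegree + (D+1) ≤ D`
is never satisfied); take the least `m` (`Nat.find`, classical).
`rho_le`: if `e < m` this contradicts the second half of `IsRho`.
`rho_unique`: by `rho_le` (applied to the witnesses) in both directions.
`rho_dvd`: apply `form_gcd` to `y, b` (with `Y, m`) and `kill_gcd` (`Y + m ≤ D + 1 ≤ D + 1 + e`): `Kill A D G e` with `G ≠ 0`, `G.natDegree ≤ e`; `e ≤ m`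
(from `b'.natDegree + e ≤ m`) and `m ≤ e` (`rho_le`), so `e = m`, hence `b'.natDegree = 0`, `b' = C a` with `a ≠ 0` (as `b = G * b' ≠ 0`), so `G = b * C a⁻¹` and
`y = G * y' = b * (C a⁻¹ * y')`, with `(C a⁻¹ * y').natDegree + m ≤ y'.natDegree + e ≤ Y`.
`rho_zero`: `IsRho A D 0` iff `A` vanishes on degree `≤ D` (a killing form `(b, 0)` has `b = C a`, `a ≠ 0`; `F = b * (C a⁻¹ * F)`). -/

open Polynomial

namespace MP_570bef_ntF

variable {K : Type} [Field K]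

theorem exists_rho (A : K[X] →ₗ[K] K) (D : ℕ) : ∃ m ≤ D + 1, IsRho A D m := by
  classical
  have hex : ∃ m, ∃ b : K[X], b ≠ 0 ∧ b.natDegree ≤ m ∧ Kill A D b m :=
    ⟨D + 1, 1, one_ne_zero, by simp, fun z hz => by omega⟩
  refine ⟨Nat.find hex, Nat.find_le ⟨1, one_ne_zero, by simp, fun z hz => by omega⟩,
    Nat.find_spec hex, fun e he G hG hGe hk => Nat.find_min hex he ⟨G, hG, hGe, hk⟩⟩

theorem rho_le {A : K[X] →ₗ[K] K} {D m : ℕ} (h : IsRho A D m) {G : K[X]} (hG : G ≠ 0) {e : ℕ}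
    (hGe : G.natDegree ≤ e) (hk : Kill A D G e) : m ≤ e := by
  by_contra hc
  push Not at hc
  exact h.2 e hc G hG hGe hk

theorem rho_unique {A : K[X] →ₗ[K] K} {D m m' : ℕ} (h : IsRho A D m) (h' : IsRho A D m') : m = m' := by
  obtain ⟨b, hb, hbm, hk⟩ := h.1
  obtain ⟨b', hb', hbm', hk'⟩ := h'.1
  exact le_antisymm (rho_le h hb' hbm' hk') (rho_le h' hb hbm hk)

theorem rho_dvd {A : K[X] →ₗ[K] K} {D m : ℕ} (h : IsRho A D m) {b : K[X]} (hb : b ≠ 0)
    (hbm : b.natDegree ≤ m) (hk : Kill A D b m) {y : K[X]} (hy : y ≠ 0) {Y : ℕ} (hyY : y.natDegree ≤ Y)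
    (hyk : Kill A D y Y) (hYm : Y + m ≤ D + 1) : ∃ y' : K[X], y = b * y' ∧ y'.natDegree + m ≤ Y := by
  obtain ⟨G, y', b', e, hG, hGe, h1, h2, h3, h4, h5, h6, -⟩ := form_gcd hy hb hyY hbm
  have hkG : Kill A D G e := kill_gcd hy hb h1 h2 h3 h4 h5 h6 (by omega) hyk hk
  have hme : m ≤ e := rho_le h hG hGe hkG
  have hb'0 : b'.natDegree = 0 := by omega
  obtain ⟨a, ha⟩ := natDegree_eq_zero.1 hb'0
  have ha0 : a ≠ 0 := by
    rintro rfl
    apply hb
    rw [h2, ← ha]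
    simp
  have hCa : C a * C a⁻¹ = (1 : K[X]) := by
    rw [← C_mul, mul_inv_cancel₀ ha0, C_1]
  refine ⟨C a⁻¹ * y', ?_, ?_⟩
  · rw [h1, h2, ← ha]
    calc G * y' = G * (C a * C a⁻¹) * y' := by rw [hCa, mul_one]
      _ = G * C a * (C a⁻¹ * y') := by ring
  · rw [natDegree_C_mul (inv_ne_zero ha0)]
    omega

theorem rho_zero {A : K[X] →ₗ[K] K} {D : ℕ} :
    IsRho A D 0 ↔ ∀ F : K[X], F.natDegree ≤ D → A F = 0 := by
  constructor
  · intro h F hF
    obtain ⟨b, hb, hb0, hk⟩ := h.1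
    obtain ⟨a, ha⟩ := natDegree_eq_zero.1 (Nat.le_zero.1 hb0)
    have ha0 : a ≠ 0 := by
      rintro rfl
      apply hb
      rw [← ha]
      simp
    have hCa : C a * C a⁻¹ = (1 : K[X]) := by
      rw [← C_mul, mul_inv_cancel₀ ha0, C_1]
    have h1 : F = b * (C a⁻¹ * F) := by
      rw [← ha, ← mul_assoc, hCa, one_mul]
    rw [h1]
    refine hk _ ?_
    rw [natDegree_C_mul (inv_ne_zero ha0)]
    omega
  · intro h
    refine ⟨⟨1, one_ne_zero, by simp, fun z hz => ?_⟩, fun e he => absurd he (Nat.not_lt_zero e)⟩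
    rw [one_mul]
    exact h z (by omega)

end MP_570bef_ntF
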