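import Pool.Agent.Lib.MP_570bef_ntF.Base

/-! JOB CK.  Two counts.

`card_kill_le`.  Let `d := b.natDegree ≤ m`, leading coefficient `β ≠ 0`.  If `m = D + 1` the bound is trivial (`cnt_le_card`, `q^(D+1)`).  Let `m ≤ D`.
`Kill (lin c) D b m` says `lin c (b * X^j) = 0` for `j + m ≤ D`, i.e. (`lin_apply`) `∑_{i ≤ d} b_i c_{i+j} = 0` for `0 ≤ j ≤ D - m`.  Injection of the set into `Fin m → K`:
`c ↦ (c_0, …, c_{d-1}, c_{d+D-m+1}, …, c_D)` (`d + (D - (d + D - m)) = m` coordinates; e.g. `i ↦ if i < d then c_i else c_{i + (D - m + 1)}` for `i < m`).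
If two elements have the same image, their difference `c` (`lin` is additive in `c`: `lin_add`, `lin_smul`) satisfies the equations and `c_i = 0` for `i < d` and for `i > d + D - m`;
by strong induction on `j ≤ D - m`: `β c_{d+j} = - ∑_{i<d} b_i c_{i+j} = 0`.  So `c = 0`.  `cnt_le_of_injOn`.
`card_mult_le`.  `x = g * z` with `z.natDegree + g.natDegree = x.natDegree ≤ n` (or `x = 0 = g * 0`), so the set is contained in the image of `SS K (n - g.natDegree)` under `z ↦ g * z`; `card_SS`,
`(n - deg g) + 1 = n + 1 - deg g`. -/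

open Polynomial

namespace MP_570bef_ntF

variable {K : Type} [Field K] [Fintype K]

omit [Fintype K] in
private theorem CK_aux (A : K[X] →ₗ[K] K) {b : K[X]} (hb : b ≠ 0) (J : ℕ)
    (h1 : ∀ j < J, A (b * X ^ j) = 0) (h2 : ∀ i < b.natDegree, A (X ^ i) = 0) :
    ∀ i < b.natDegree + J, A (X ^ i) = 0 := by
  intro i
  induction i using Nat.strong_induction_on with
  | _ i ih =>
    intro hi
    rcases Nat.lt_or_ge i b.natDegree with h3 | h3
    · exact h2 i h3
    obtain ⟨j, rfl⟩ := Nat.exists_eq_add_of_le h3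
    have h4 := h1 j (by omega)
    have h5 : b * X ^ j = ∑ k ∈ Finset.range (b.natDegree + 1), b.coeff k • X ^ (k + j) := by
      conv_lhs => rw [b.as_sum_range_C_mul_X_pow]
      rw [Finset.sum_mul]
      refine Finset.sum_congr rfl fun k _ => ?_
      rw [Polynomial.smul_eq_C_mul, pow_add, mul_assoc]
    rw [h5, map_sum, Finset.sum_range_succ, Finset.sum_eq_zero, zero_add, map_smul,
      smul_eq_mul] at h4
    · exact (mul_eq_zero.1 h4).resolve_left (by
        rw [Polynomial.coeff_natDegree]
        exact Polynomial.leadingCoeff_ne_zero.2 hb)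
    · intro k hk
      rw [Finset.mem_range] at hk
      rw [map_smul, ih (k + j) (by omega) (by omega), smul_zero]

theorem card_kill_le (D m : ℕ) (b : K[X]) (hb : b ≠ 0) (hbm : b.natDegree ≤ m) (hm : m ≤ D + 1) :
    cnt (fun c : Fin (D + 1) → K => Kill (lin c) D b m) ≤ Fintype.card K ^ m := by
  classical
  rcases Nat.lt_or_ge D m with hDm | hDm
  · have h1 : m = D + 1 := by omega
    rw [h1]
    refine (cnt_le_card _).trans ?_
    rw [Fintype.card_fun, Fintype.card_fin]
  have h2 : Fintype.card K ^ m = cnt (fun _ : Fin m → K => True) := by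
    rw [cnt_eq, Finset.filter_true, Finset.card_univ, Fintype.card_fun, Fintype.card_fin]
  rw [h2]
  refine cnt_le_of_injOn (fun c : Fin (D + 1) → K => fun i : Fin m =>
    if (i : ℕ) < b.natDegree then lin c (X ^ (i : ℕ)) else lin c (X ^ ((i : ℕ) + (D - m + 1))))
    (fun _ _ => trivial) ?_
  intro c c' hc hc' hf
  have hA : ∀ F : K[X], (lin c - lin c') F = lin c F - lin c' F := fun F => rfl
  have hval : ∀ i : ℕ, i < m → (if i < b.natDegree then lin c (X ^ i) else
      lin c (X ^ (i + (D - m + 1)))) = (if i < b.natDegree then lin c' (X ^ i) else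
      lin c' (X ^ (i + (D - m + 1)))) := fun i hi => congrFun hf ⟨i, hi⟩
  have h3 : ∀ i < b.natDegree + (D - m + 1), (lin c - lin c') (X ^ i) = 0 := by
    refine CK_aux (lin c - lin c') hb (D - m + 1) ?_ ?_
    · intro j hj
      have hz : (X ^ j : K[X]).natDegree + m ≤ D := by
        rw [Polynomial.natDegree_X_pow]
        omega
      rw [hA, hc _ hz, hc' _ hz, sub_zero]
    · intro i hi
      have h4 := hval i (by omega)
      rw [if_pos hi, if_pos hi] at h4
      rw [hA, h4, sub_self]
  have h5 : ∀ i < D + 1, (lin c - lin c') (X ^ i) = 0 := by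
    intro i hi
    rcases Nat.lt_or_ge i (b.natDegree + (D - m + 1)) with h6 | h6
    · exact h3 i h6
    · have h7 := hval (i - (D - m + 1)) (by omega)
      rw [if_neg (by omega), if_neg (by omega), Nat.sub_add_cancel (by omega)] at h7
      rw [hA, h7, sub_self]
  funext i
  have h6 := h5 i i.2
  rw [hA, lin_X_pow c i i.2, lin_X_pow c' i i.2] at h6
  exact sub_eq_zero.1 h6

open Classical in
theorem card_mult_le (n : ℕ) (g : K[X]) (hg : g ≠ 0) (hgn : g.natDegree ≤ n) :
    ((SS K n).filter (fun x => g ∣ x)).card ≤ Fintype.card K ^ (n + 1 - g.natDegree) := by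
  refine (Finset.card_le_card (t := (SS K (n - g.natDegree)).image fun z => g * z) ?_).trans ?_
  · intro x hx
    rw [Finset.mem_filter, mem_SS] at hx
    obtain ⟨hxn, z, rfl⟩ := hx
    rw [Finset.mem_image]
    by_cases hz : z = 0
    · exact ⟨0, zero_mem_SS _, by rw [hz]⟩
    · refine ⟨z, ?_, rfl⟩
      rw [mem_SS]
      rw [Polynomial.natDegree_mul hg hz] at hxn
      omega
  · refine Finset.card_image_le.trans ?_
    rw [card_SS]
    exact Nat.pow_le_pow_right (by have := two_le_q (K := K); omega) (by omega)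

end MP_570bef_ntF
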