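import Pool.Agent.Lib.MP_570bef_ntF.Base

/-! JOB SqD.  `x = δ² y` with `δ` monic and `y` squarefree; number of monic polynomials.

`exists_sq_mul`: strong induction on `natDegree x`.  If `x` is squarefree take `δ = 1`.  Otherwise there is a non-unit `a` with `a * a ∣ x` (`Squarefree` unfolded), `a ≠ 0`, `natDegree a ≥ 1`, `x = a * a * x'`,
`x' ≠ 0` of smaller degree: `x' = δ'^2 * y'`.  Then `x = (a δ')^2 y'`; normalise: with `ℓ` the leading coefficient of `a * δ'`, `δ := C ℓ⁻¹ * (a δ')` is monic, `y := C (ℓ^2) * y'` is squarefree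
(associated to `y'`: `Associated.squarefree_iff` or `Squarefree` of a unit multiple).
`card_MM`: monic polynomials of degree `j` are `X^j + r`, `r` of degree `< j`: `q^j` of them (if `j = 0` only `1`).  Bijection with `Fin j → K` (coefficients below `j`). -/

open Polynomial

namespace MP_570bef_ntF

variable {K : Type} [Field K]

private theorem SqD_aux (n : ℕ) : ∀ x : K[X], x.natDegree = n → x ≠ 0 →
    ∃ δ y : K[X], δ ≠ 0 ∧ Squarefree y ∧ x = δ ^ 2 * y := by
  induction n using Nat.strong_induction_on with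
  | _ n ih =>
    intro x hxn hx
    by_cases hs : Squarefree x
    · exact ⟨1, x, one_ne_zero, hs, by ring⟩
    · unfold Squarefree at hs
      push Not at hs
      obtain ⟨a, ⟨x', hx'⟩, hau⟩ := hs
      have hx'0 : x' ≠ 0 := by
        rintro rfl
        rw [mul_zero] at hx'
        exact hx hx'
      have ha0 : a ≠ 0 := by
        rintro rfl
        rw [mul_zero, zero_mul] at hx'
        exact hx hx'
      have had : 0 < a.natDegree := by
        rw [Nat.pos_iff_ne_zero]
        intro h0
        apply hau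
        rw [Polynomial.isUnit_iff_degree_eq_zero, Polynomial.degree_eq_natDegree ha0, h0]
        rfl
      have hd : x.natDegree = a.natDegree + a.natDegree + x'.natDegree := by
        rw [hx', Polynomial.natDegree_mul (mul_ne_zero ha0 ha0) hx'0,
          Polynomial.natDegree_mul ha0 ha0]
      obtain ⟨δ, y, hδ, hy, h⟩ := ih x'.natDegree (by omega) x' rfl hx'0
      refine ⟨a * δ, y, mul_ne_zero ha0 hδ, hy, ?_⟩
      rw [hx', h]
      ring

theorem exists_sq_mul (x : K[X]) (hx : x ≠ 0) :
    ∃ δ y : K[X], δ.Monic ∧ Squarefree y ∧ x = δ ^ 2 * y := by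
  obtain ⟨δ, y, hδ, hy, h⟩ := SqD_aux _ x rfl hx
  have hl : δ.leadingCoeff ≠ 0 := Polynomial.leadingCoeff_ne_zero.2 hδ
  refine ⟨δ * C (δ.leadingCoeff)⁻¹, C (δ.leadingCoeff) ^ 2 * y,
    Polynomial.monic_mul_leadingCoeff_inv hδ, ?_, ?_⟩
  · have hu : IsUnit (C (δ.leadingCoeff) ^ 2 : K[X]) :=
      (Polynomial.isUnit_C.2 (IsUnit.mk0 _ hl)).pow 2
    intro b hb
    exact hy b ((hu.dvd_mul_left).1 hb)
  · have h1 : C (δ.leadingCoeff)⁻¹ * C (δ.leadingCoeff) = (1 : K[X]) := by
      rw [← Polynomial.C_mul, inv_mul_cancel₀ hl, Polynomial.C_1]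
    rw [h]
    linear_combination (-(δ ^ 2 * y) * (C (δ.leadingCoeff)⁻¹ * C (δ.leadingCoeff) + 1)) * h1

private theorem SqD_coeff {j : ℕ} (v : Fin j → K) (m : ℕ) :
    (∑ i : Fin j, C (v i) * X ^ (i : ℕ) : K[X]).coeff m = if h : m < j then v ⟨m, h⟩ else 0 := by
  classical
  rw [Polynomial.finsetSum_coeff]
  simp only [Polynomial.coeff_C_mul, Polynomial.coeff_X_pow]
  split_ifs with h
  · rw [Finset.sum_eq_single (⟨m, h⟩ : Fin j)]
    · simp
    · intro b _ hb
      have : m ≠ (b : ℕ) := fun hj => hb (Fin.ext hj.symm)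
      simp [this]
    · simp
  · apply Finset.sum_eq_zero
    intro b _
    have : m ≠ (b : ℕ) := by have := b.2; omega
    simp [this]

theorem card_MM [Fintype K] (j : ℕ) : (MM K j).card = Fintype.card K ^ j := by
  classical
  have hlt : ∀ v : Fin j → K, (∑ i : Fin j, C (v i) * X ^ (i : ℕ) : K[X]).degree < (j : ℕ) := by
    intro v
    rw [Polynomial.degree_lt_iff_coeff_zero]
    intro m hm
    rw [SqD_coeff, dif_neg (by omega)]
  have h1 : (Finset.univ : Finset (Fin j → K)).card = (MM K j).card := by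
    refine Finset.card_nbij' (fun v => X ^ j + ∑ i : Fin j, C (v i) * X ^ (i : ℕ))
      (fun p i => p.coeff (i : ℕ)) ?_ ?_ ?_ ?_
    · intro v _
      rw [Finset.mem_coe, mem_MM]
      refine ⟨Polynomial.monic_X_pow_add (hlt v), ?_⟩
      rw [Polynomial.natDegree_add_eq_left_of_degree_lt, Polynomial.natDegree_X_pow]
      rw [Polynomial.degree_X_pow]
      exact hlt v
    · intro p _
      exact Finset.mem_coe.2 (Finset.mem_univ _)
    · intro v _
      funext i
      have hi : (i : ℕ) ≠ j := by have := i.2; omega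
      simp only [Polynomial.coeff_add, SqD_coeff, Polynomial.coeff_X_pow, if_neg hi, zero_add,
        dif_pos i.2]
    · intro p hp
      rw [Finset.mem_coe, mem_MM] at hp
      obtain ⟨hp1, hp2⟩ := hp
      apply Polynomial.ext
      intro m
      simp only [Polynomial.coeff_add, SqD_coeff, Polynomial.coeff_X_pow]
      rcases lt_trichotomy m j with h | h | h
      · rw [if_neg (by omega), dif_pos h, zero_add]
      · rw [if_pos h, dif_neg (by omega), add_zero, h, ← hp2]
        exact hp1.symm
      · rw [if_neg (by omega), dif_neg (by omega), add_zero,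
          Polynomial.coeff_eq_zero_of_natDegree_lt (by omega)]
  rw [← h1]
  simp

end MP_570bef_ntF
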