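import Pool.Agent.Lib.MP_570bef_ntF.CK
import Pool.Agent.Lib.MP_570bef_ntF.SqD

/-! JOB Cnt.  Number of functionals of rank `m` on degree `≤ D` (`m ≤ D + 1`): at most `2 q^(2m)`.

If `IsRho (lin c) D m` there is `b ≠ 0`, `natDegree b ≤ m`, `Kill (lin c) D b m`; divide by the leading coefficient: `b` monic of degree `j ≤ m` (`Kill` is invariant: `A((C a * b) z) = a A(b z)`).
Union bound (`cnt_le_sum`) over `j ≤ m` and `b ∈ MM K j`: `cnt ≤ ∑_{j ≤ m} ∑_{b ∈ MM K j} cnt (Kill (lin c) D b m) ≤ ∑_{j≤m} q^j * q^m` (`card_MM`, `card_kill_le`) `≤ 2 q^m q^m` (geometric sum, `q ≥ 2`). -/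

open Polynomial

namespace MP_570bef_ntF

variable {K : Type} [Field K] [Fintype K]

private theorem Cnt_geom (q m : ℕ) (hq : 2 ≤ q) :
    ∑ j ∈ Finset.range (m + 1), q ^ j ≤ 2 * q ^ m := by
  induction m with
  | zero => simp
  | succ m ih =>
    rw [Finset.sum_range_succ]
    have h1 : 2 * q ^ m ≤ q ^ (m + 1) := by
      rw [pow_succ, mul_comm]
      exact Nat.mul_le_mul_left _ hq
    omega

theorem card_rho_le (D m : ℕ) (hm : m ≤ D + 1) :
    cnt (fun c : Fin (D + 1) → K => IsRho (lin c) D m) ≤ 2 * Fintype.card K ^ (2 * m) := by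
  classical
  have h1 : cnt (fun c : Fin (D + 1) → K => IsRho (lin c) D m) ≤
      ∑ z ∈ (Finset.range (m + 1)).sigma (fun j => MM K j),
        cnt (fun c : Fin (D + 1) → K => Kill (lin c) D z.2 m) := by
    apply cnt_le_sum (s := (Finset.range (m + 1)).sigma (fun j => MM K j))
      (q := fun z c => Kill (lin c) D z.2 m)
    rintro c ⟨⟨b, hb, hbm, hk⟩, -⟩
    have hl : b.leadingCoeff ≠ 0 := Polynomial.leadingCoeff_ne_zero.mpr hb
    have hd : (C b.leadingCoeff⁻¹ * b).natDegree = b.natDegree :=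
      Polynomial.natDegree_C_mul (inv_ne_zero hl)
    refine ⟨⟨b.natDegree, C b.leadingCoeff⁻¹ * b⟩, ?_, ?_⟩
    · rw [Finset.mem_sigma]
      refine ⟨Finset.mem_range.mpr (by show b.natDegree < m + 1; omega), ?_⟩
      rw [mem_MM]
      refine ⟨?_, hd⟩
      rw [Polynomial.Monic, Polynomial.leadingCoeff_mul, Polynomial.leadingCoeff_C]
      exact inv_mul_cancel₀ hl
    · intro z hz
      show lin c (C b.leadingCoeff⁻¹ * b * z) = 0
      rw [mul_assoc, ← Polynomial.smul_eq_C_mul, map_smul, hk z hz, smul_zero]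
  refine h1.trans ?_
  rw [Finset.sum_sigma]
  have hM : ∀ b : K[X], ∀ j : ℕ, j ≤ m → b ∈ MM K j →
      cnt (fun c : Fin (D + 1) → K => Kill (lin c) D b m) ≤ Fintype.card K ^ m := by
    intro b j hj hb
    rw [mem_MM] at hb
    exact card_kill_le D m b hb.1.ne_zero (by omega) hm
  calc ∑ j ∈ Finset.range (m + 1), ∑ b ∈ MM K j,
        cnt (fun c : Fin (D + 1) → K => Kill (lin c) D b m)
      ≤ ∑ j ∈ Finset.range (m + 1), Fintype.card K ^ j * Fintype.card K ^ m := by
        apply Finset.sum_le_sum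
        intro j hj
        rw [Finset.mem_range] at hj
        calc ∑ b ∈ MM K j, cnt (fun c : Fin (D + 1) → K => Kill (lin c) D b m)
            ≤ ∑ b ∈ MM K j, Fintype.card K ^ m :=
              Finset.sum_le_sum (fun b hb => hM b j (by omega) hb)
          _ = Fintype.card K ^ j * Fintype.card K ^ m := by
              rw [Finset.sum_const, card_MM, smul_eq_mul]
    _ = (∑ j ∈ Finset.range (m + 1), Fintype.card K ^ j) * Fintype.card K ^ m := by
        rw [Finset.sum_mul]
    _ ≤ (2 * Fintype.card K ^ m) * Fintype.card K ^ m :=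
        Nat.mul_le_mul_right _ (Cnt_geom _ _ two_le_q)
    _ = 2 * Fintype.card K ^ (2 * m) := by
        rw [two_mul m, pow_add]; ring

end MP_570bef_ntF
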