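import Mathlib

/-! Function field model of Waring's problem (MP_570bef_nt).  Definitions. -/

open Polynomial

namespace MP_570bef_ntF

variable {K : Type} [Field K]

/-- the polynomial with coefficient vector `v` (degree at most `n`) -/
noncomputable def toP {n : ℕ} (v : Fin (n + 1) → K) : K[X] := ∑ i, C (v i) * X ^ (i : ℕ)

open Classical in
/-- the finite set of all polynomials of degree at most `n` -/
noncomputable def SS (K : Type) [Field K] [Fintype K] (n : ℕ) : Finset K[X] :=
  (Finset.univ : Finset (Fin (n + 1) → K)).image toP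

/-- the linear functional `F ↦ ∑_{i ≤ D} c_i F_i` -/
noncomputable def lin {D : ℕ} (c : Fin (D + 1) → K) : K[X] →ₗ[K] K :=
  ∑ i : Fin (D + 1), c i • Polynomial.lcoeff K (i : ℕ)

/-- the linear functional `z ↦ A (b z)` -/
noncomputable def mulF (A : K[X] →ₗ[K] K) (b : K[X]) : K[X] →ₗ[K] K :=
  A ∘ₗ (LinearMap.mulLeft K b)

/-- `(b, m)` kills `A` on polynomials of degree `≤ D`: `A (b z) = 0` for all `z` with `deg z + m ≤ D`.
(`m ≥ deg b`; `m - deg b` is the multiplicity at infinity of the form `(b, m)`.) -/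
def Kill (A : K[X] →ₗ[K] K) (D : ℕ) (b : K[X]) (m : ℕ) : Prop :=
  ∀ z : K[X], z.natDegree + m ≤ D → A (b * z) = 0

/-- `m` is the rank of `A` on polynomials of degree `≤ D`: the least degree of a nonzero killing form. -/
def IsRho (A : K[X] →ₗ[K] K) (D m : ℕ) : Prop :=
  (∃ b : K[X], b ≠ 0 ∧ b.natDegree ≤ m ∧ Kill A D b m) ∧
    ∀ e < m, ∀ G : K[X], G ≠ 0 → G.natDegree ≤ e → ¬ Kill A D G e

open Classical in
/-- additive energy of order `t` of the `k`-th powers of `Y`: number of `(x, y) ∈ Y^t × Y^t` with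
`∑ x_i^k = ∑ y_i^k`. -/
noncomputable def En (k t : ℕ) (Y : Finset K[X]) : ℕ :=
  ((Fintype.piFinset (fun _ : Fin t => Y) ×ˢ Fintype.piFinset (fun _ : Fin t => Y)).filter
    (fun z => ∑ i, z.1 i ^ k = ∑ i, z.2 i ^ k)).card

open Classical in
/-- the elements `x ∈ Y` which are singular points of `x ↦ A (x^k)` on polynomials of degree `≤ n`:
`A (x^(k-1) h) = 0` for all `h` of degree `≤ n`. -/
noncomputable def ZZ (k n : ℕ) (A : K[X] →ₗ[K] K) (Y : Finset K[X]) : Finset K[X] :=
  Y.filter (fun x => ∀ h : K[X], h.natDegree ≤ n → A (x ^ (k - 1) * h) = 0)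

open Classical in
/-- squarefree polynomials of degree exactly `n` -/
noncomputable def QQ (K : Type) [Field K] [Fintype K] (n : ℕ) : Finset K[X] :=
  (SS K n).filter (fun x => Squarefree x ∧ x.natDegree = n)

open Classical in
/-- monic polynomials of degree exactly `n` -/
noncomputable def MM (K : Type) [Field K] [Fintype K] (n : ℕ) : Finset K[X] :=
  (SS K n).filter (fun x => x.Monic ∧ x.natDegree = n)

/-- exponential sum over the `k`-th powers of `Y` -/
noncomputable def fS (ψ : AddChar K ℂ) (k : ℕ) (A : K[X] →ₗ[K] K) (Y : Finset K[X]) : ℂ :=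
  ∑ x ∈ Y, ψ (A (x ^ k))

/-- number of elements of a finite type with property `p` (classical decidability, to avoid instance clashes) -/
noncomputable def cnt {α : Type} [Fintype α] (p : α → Prop) : ℕ :=
  (@Finset.filter α p (Classical.decPred p) Finset.univ).card

/-- Jacobian matrix of a family of polynomials at `x` -/
noncomputable def jac {R σ : Type} (f : R → MvPolynomial σ K) (x : σ → K) : Matrix R σ K :=
  Matrix.of fun i j => MvPolynomial.eval x (MvPolynomial.pderiv j (f i))

/-- apply a linear functional to the coefficients of a multivariate polynomial over `K[X]` -/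
noncomputable def push {σ : Type} (A : K[X] →ₗ[K] K) (p : MvPolynomial σ K[X]) : MvPolynomial σ K :=
  ∑ m ∈ p.support, MvPolynomial.monomial m (A (p.coeff m))

/-- `low γ = ∏ γ_e^e` (`e = 0, …, s-1`) -/
noncomputable def low {s : ℕ} (γ : Fin s → K[X]) : K[X] := ∏ e, γ e ^ (e : ℕ)

/-- `rad γ = ∏ γ_e` -/
noncomputable def rad {s : ℕ} (γ : Fin s → K[X]) : K[X] := ∏ e, γ e

/-- primitive killing divisor: `rad γ` is squarefree, `∏ γ_e^(e+1) = low γ * rad γ` kills `A` on degree `≤ D`,
and no proper divisor of the form `low γ * G`, `G ∣ rad γ`, kills `A`. -/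
def Prim {s : ℕ} (A : K[X] →ₗ[K] K) (D : ℕ) (γ : Fin s → K[X]) : Prop :=
  Squarefree (rad γ) ∧ Kill A D (low γ * rad γ) (low γ * rad γ).natDegree ∧
    ∀ G : K[X], G ∣ rad γ → Kill A D (low γ * G) (low γ * G).natDegree → G.natDegree = (rad γ).natDegree

/-- the tuple of polynomials with coefficient vector `y` and degrees `≤ d_e` -/
noncomputable def gam {s : ℕ} {d : Fin s → ℕ} (y : (Σ e : Fin s, Fin (d e + 1)) → K) : Fin s → K[X] :=
  fun e => toP (fun i : Fin (d e + 1) => y ⟨e, i⟩)

/-- number of functionals `lin c` for which all `x_i` are singular points -/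
noncomputable def Wt {t : ℕ} (k n : ℕ) [Fintype K] (x : Fin t → K[X]) : ℕ :=
  cnt (fun c : Fin (k * n + 1) → K => ∀ i, ∀ h : K[X], h.natDegree ≤ n → lin c (x i ^ (k - 1) * h) = 0)

open Classical in
/-- primitive killing divisors of `A` with `deg rad ≤ n` -/
noncomputable def BB (K : Type) [Field K] [Fintype K] (k n : ℕ) (A : K[X] →ₗ[K] K) :
    Finset (Fin (k - 1) → K[X]) :=
  (Fintype.piFinset (fun _ : Fin (k - 1) => SS K n)).filter
    (fun γ => Prim A (k * n) γ ∧ (rad γ).natDegree ≤ n)

open Classical in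
/-- the kernel `{G of degree ≤ a : A (G H) = 0 for all H of degree ≤ b}` -/
noncomputable def NN (K : Type) [Field K] [Fintype K] (A : K[X] →ₗ[K] K) (a b : ℕ) : Finset K[X] :=
  (SS K a).filter (fun G => ∀ H : K[X], H.natDegree ≤ b → A (G * H) = 0)

open Classical in
/-- the family of pairs `(γ, u)`, `γ ≠ 0` of degree `≤ g`, `u` monic of degree `b` -/
noncomputable def PP (K : Type) [Field K] [Fintype K] (g b : ℕ) : Finset (K[X] × K[X]) :=
  ((SS K g).erase 0) ×ˢ (MM K b)

/-- exponential sum over the family -/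
noncomputable def gS [Fintype K] (ψ : AddChar K ℂ) (k g b : ℕ) (A : K[X] →ₗ[K] K) : ℂ :=
  ∑ p ∈ PP K g b, ψ (A ((p.1 * p.2) ^ k))

/-- constants -/
def C1 (k : ℕ) : ℕ := (2 * (k + 1)) ^ (10 * k ^ 2)

/-- constants -/
def C2 (k : ℕ) : ℕ := 2 ^ (4 * k) * C1 k

end MP_570bef_ntF
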