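import Pool.Agent.Lib.MP_570bef_ntF.LsA

/-! JOB DhB.  DOUBLE HOELDER.  `B := ∑_{x∈X} ∑_{y∈Y} ψ(A((xy)^k))`, `A((xy)^k) = A(x^k y^k)`.

For `s ≥ 1` and a finite set `T`: (P) `(∑_{i∈T} z_i)^s ≤ T.card^(s-1) ∑ z_i^s` for `z_i ≥ 0`.
Step 1.  `‖B‖^k ≤ (∑_y ‖S_y‖)^k ≤ Y.card^(k-1) ∑_y ‖S_y‖^k`, `S_y := ∑_{x∈X} ψ(A(x^k y^k))`.  For every `y` there is `ω_y`, `‖ω_y‖ ≤ 1`, with `‖S_y‖^k = ω_y * S_y^k`, and
`S_y^k = ∑_{x̄ ∈ X^k} ψ(A(σ(x̄) y^k))`, `σ(x̄) := ∑ x̄_i^k` (`Finset.sum_pow'`/`Finset.prod_univ_sum`, `ψ` multiplicative).  So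
`∑_y ‖S_y‖^k = ∑_{x̄ ∈ X^k} T(σ x̄) ≤ ∑_{x̄} ‖T(σ x̄)‖`, `T(G) := ∑_{y∈Y} ω_y ψ(A(G y^k))` (the left side is real, take norms).
Step 2.  (P) with `s = k` on `X^k` (`(X.card^k)` elements): `(∑_{x̄} ‖T(σ x̄)‖)^k ≤ (X.card^k)^(k-1) ∑_{x̄} ‖T(σ x̄)‖^k`.  `‖T(G)‖^k = ω'_G T(G)^k`, `‖ω'_G‖ ≤ 1`,
`T(G)^k = ∑_{ȳ ∈ Y^k} (∏ ω_{ȳ_i}) ψ(A(G σ(ȳ)))`.  So `Z := ∑_{x̄} ‖T(σ x̄)‖^k = ∑_{G ∈ SS K (k a)} ∑_{H ∈ SS K (k b)} a_G b_H ψ(A(G H))` with
`a_G := ω'_G * #{x̄ ∈ X^k : σ x̄ = G}`, `b_H := ∑_{ȳ : σ ȳ = H} ∏ ω_{ȳ_i}`, `‖b_H‖ ≤ #{ȳ : σ ȳ = H}`.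
Step 3.  `∑_G ‖a_G‖² ≤ ∑_G #{x̄ : σ x̄ = G}² = En k k X` and `∑_H ‖b_H‖² ≤ En k k Y`; `large_sieve` (`α = k a`, `β = k b`):  `Z² ≤ En(X) En(Y) q^(kb+1) |NN|`.
Together: `‖B‖^(2k²) = ((‖B‖^k)^k)² ≤ (Y.card^(k(k-1)) * X.card^(k(k-1)) * Z)²`. -/

open Polynomial

namespace MP_570bef_ntF

variable {K : Type} [Field K] [Fintype K]

omit [Fintype K] in
private theorem DhB_char_sum (ψ : AddChar K ℂ) {ι : Type} (s : Finset ι) (f : ι → K) :
    ψ (∑ i ∈ s, f i) = ∏ i ∈ s, ψ (f i) := by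
  classical
  induction s using Finset.induction_on with
  | empty => simp
  | insert i s hi ih => rw [Finset.sum_insert hi, Finset.prod_insert hi, AddChar.map_add_eq_mul, ih]

omit [Fintype K] in
/-- `k`-th power of a weighted exponential sum. -/
private theorem DhB_powsum (ψ : AddChar K ℂ) (k : ℕ) (X : Finset K[X]) (w : K[X] → ℂ)
    (A : K[X] →ₗ[K] K) (G : K[X]) :
    (∑ x ∈ X, w x * ψ (A (x ^ k * G))) ^ k
      = ∑ v ∈ Fintype.piFinset (fun _ : Fin k => X), (∏ i, w (v i)) * ψ (A ((∑ i, v i ^ k) * G)) := by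
  rw [Finset.sum_pow']
  apply Finset.sum_congr rfl
  intro v _
  rw [Finset.prod_mul_distrib, ← DhB_char_sum, ← map_sum, ← Finset.sum_mul]

/-- a unimodular factor turning `z` into `‖z‖` -/
private noncomputable def DhB_u (z : ℂ) : ℂ := if z = 0 then 1 else (‖z‖ : ℂ) / z

private theorem DhB_norm_u (z : ℂ) : ‖DhB_u z‖ = 1 := by
  unfold DhB_u
  split_ifs with h
  · simp
  · rw [norm_div, Complex.norm_real, norm_norm, div_self (by simpa using h)]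

private theorem DhB_u_mul (z : ℂ) : DhB_u z * z = (‖z‖ : ℂ) := by
  unfold DhB_u
  split_ifs with h
  · simp [h]
  · rw [div_mul_cancel₀ _ h]

private theorem DhB_u_pow (z : ℂ) (k : ℕ) : ((‖z‖ ^ k : ℝ) : ℂ) = DhB_u z ^ k * z ^ k := by
  rw [← mul_pow, DhB_u_mul]; push_cast; rfl

open Classical in
private theorem DhB_fiber {M : Type} [AddCommMonoid M] (k a : ℕ) (X : Finset K[X])
    (hX : ∀ x ∈ X, x.natDegree ≤ a) (f : (Fin k → K[X]) → M) :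
    ∑ v ∈ Fintype.piFinset (fun _ : Fin k => X), f v
      = ∑ G ∈ SS K (k * a), ∑ v ∈ (Fintype.piFinset (fun _ : Fin k => X)).filter
          (fun v => ∑ i, v i ^ k = G), f v := by
  rw [Finset.sum_fiberwise_of_maps_to]
  intro v hv
  rw [Fintype.mem_piFinset] at hv
  rw [mem_SS]
  apply Polynomial.natDegree_sum_le_of_forall_le
  intro i _
  exact (Polynomial.natDegree_pow_le).trans (Nat.mul_le_mul_left _ (hX _ (hv i)))

open Classical in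
private theorem DhB_energy (k a : ℕ) (X : Finset K[X]) (hX : ∀ x ∈ X, x.natDegree ≤ a) :
    ∑ G ∈ SS K (k * a), (((Fintype.piFinset (fun _ : Fin k => X)).filter
          (fun v => ∑ i, v i ^ k = G)).card : ℝ) ^ 2 = (En k k X : ℝ) := by
  unfold En
  set P := Fintype.piFinset (fun _ : Fin k => X) with hP
  have h1 : ((P ×ˢ P).filter (fun z => ∑ i, z.1 i ^ k = ∑ i, z.2 i ^ k)).card
      = ∑ G ∈ SS K (k * a), (((P ×ˢ P).filter (fun z => ∑ i, z.1 i ^ k = ∑ i, z.2 i ^ k)).filter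
          (fun z => ∑ i, z.1 i ^ k = G)).card := by
    apply Finset.card_eq_sum_card_fiberwise
    intro z hz
    have hz' := Finset.mem_coe.1 hz
    rw [Finset.mem_filter, Finset.mem_product] at hz'
    have hv := hz'.1.1
    rw [hP, Fintype.mem_piFinset] at hv
    rw [Finset.mem_coe, mem_SS]
    apply Polynomial.natDegree_sum_le_of_forall_le
    intro i _
    exact (Polynomial.natDegree_pow_le).trans (Nat.mul_le_mul_left _ (hX _ (hv i)))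
  have h2 : ((P ×ˢ P).filter (fun z => ∑ i, z.1 i ^ k = ∑ i, z.2 i ^ k)).card
      = ∑ G ∈ SS K (k * a), (P.filter (fun v => ∑ i, v i ^ k = G)).card ^ 2 := by
    rw [h1]
    apply Finset.sum_congr rfl
    intro G _
    rw [sq, ← Finset.card_product]
    congr 1
    ext z
    simp only [Finset.mem_filter, Finset.mem_product]
    constructor
    · rintro ⟨⟨⟨q1, q2⟩, q3⟩, q4⟩
      exact ⟨⟨q1, q4⟩, ⟨q2, q3.symm.trans q4⟩⟩
    · rintro ⟨⟨q1, q4⟩, ⟨q2, q3⟩⟩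
      exact ⟨⟨⟨q1, q2⟩, q4.trans q3.symm⟩, q4⟩
  have h3 := congrArg (fun n : ℕ => (n : ℝ)) h2
  simp only [Nat.cast_sum, Nat.cast_pow] at h3
  rw [← h3]

theorem double_holder {ψ : AddChar K ℂ} (hψ : ψ ≠ 1) (k a b : ℕ) (hk : 1 ≤ k) (X Y : Finset K[X])
    (hX : ∀ x ∈ X, x.natDegree ≤ a) (hY : ∀ y ∈ Y, y.natDegree ≤ b) (A : K[X] →ₗ[K] K) :
    ‖∑ x ∈ X, ∑ y ∈ Y, ψ (A ((x * y) ^ k))‖ ^ (2 * k ^ 2)
      ≤ ((X.card : ℝ) * Y.card) ^ (2 * k * (k - 1)) *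
        ((En k k X : ℝ) * (En k k Y : ℝ) *
          ((Fintype.card K : ℝ) ^ (k * b + 1) * ((NN K A (k * a) (k * b)).card : ℝ))) := by
  classical
  obtain ⟨j, rfl⟩ : ∃ j, k = j + 1 := ⟨k - 1, by omega⟩
  set P := Fintype.piFinset (fun _ : Fin (j + 1) => X) with hP
  set Q := Fintype.piFinset (fun _ : Fin (j + 1) => Y) with hQ
  -- inner sums
  set S : K[X] → ℂ := fun y => ∑ x ∈ X, ψ (A (x ^ (j + 1) * y ^ (j + 1))) with hS
  set w : K[X] → ℂ := fun y => DhB_u (S y) ^ (j + 1) with hw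
  set T : K[X] → ℂ := fun G => ∑ y ∈ Y, w y * ψ (A (y ^ (j + 1) * G)) with hT
  set w' : K[X] → ℂ := fun G => DhB_u (T G) ^ (j + 1) with hw'
  have nw : ∀ y, ‖w y‖ = 1 := by
    intro y; rw [hw]; simp only; rw [norm_pow, DhB_norm_u, one_pow]
  have nw' : ∀ y, ‖w' y‖ = 1 := by
    intro y; rw [hw']; simp only; rw [norm_pow, DhB_norm_u, one_pow]
  set B : ℂ := ∑ x ∈ X, ∑ y ∈ Y, ψ (A ((x * y) ^ (j + 1))) with hB
  have hBS : B = ∑ y ∈ Y, S y := by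
    rw [hB, Finset.sum_comm]
    apply Finset.sum_congr rfl
    intro y _
    rw [hS]
    simp only
    apply Finset.sum_congr rfl
    intro x _
    rw [mul_pow]
  -- Step 1
  set R1 : ℝ := ∑ y ∈ Y, ‖S y‖ ^ (j + 1) with hR1
  have s1 : ‖B‖ ^ (j + 1) ≤ (Y.card : ℝ) ^ j * R1 := by
    calc ‖B‖ ^ (j + 1) ≤ (∑ y ∈ Y, ‖S y‖) ^ (j + 1) := by
          apply pow_le_pow_left₀ (norm_nonneg _)
          rw [hBS]
          exact norm_sum_le _ _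
      _ ≤ (Y.card : ℝ) ^ j * R1 := pow_sum_le_card_mul_sum_pow (fun _ _ => norm_nonneg _) j
  have hSpow : ∀ y, S y ^ (j + 1) = ∑ v ∈ P, ψ (A ((∑ i, v i ^ (j + 1)) * y ^ (j + 1))) := by
    intro y
    have h1 := DhB_powsum ψ (j + 1) X (fun _ => 1) A (y ^ (j + 1))
    simp only [one_mul, Finset.prod_const_one] at h1
    rw [hS]
    exact h1
  have s2 : (R1 : ℂ) = ∑ v ∈ P, T (∑ i, v i ^ (j + 1)) := by
    rw [hR1, Complex.ofReal_sum]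
    have h1 : ∀ y ∈ Y, ((‖S y‖ ^ (j + 1) : ℝ) : ℂ)
        = ∑ v ∈ P, w y * ψ (A (y ^ (j + 1) * (∑ i, v i ^ (j + 1)))) := by
      intro y _
      rw [DhB_u_pow, hSpow, Finset.mul_sum]
      apply Finset.sum_congr rfl
      intro v _
      rw [mul_comm (∑ i, v i ^ (j + 1)) (y ^ (j + 1))]
    rw [Finset.sum_congr rfl h1, Finset.sum_comm]
  have hR1nn : 0 ≤ R1 := Finset.sum_nonneg (fun _ _ => pow_nonneg (norm_nonneg _) _)
  set R2 : ℝ := ∑ v ∈ P, ‖T (∑ i, v i ^ (j + 1))‖ with hR2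
  have s3 : R1 ≤ R2 := by
    have h1 : R1 = ‖(R1 : ℂ)‖ := by rw [Complex.norm_real, Real.norm_of_nonneg hR1nn]
    rw [h1, s2]
    exact norm_sum_le _ _
  -- Step 2
  set Z : ℝ := ∑ v ∈ P, ‖T (∑ i, v i ^ (j + 1))‖ ^ (j + 1) with hZ
  have hPc : (P.card : ℝ) = (X.card : ℝ) ^ (j + 1) := by
    rw [hP, Fintype.card_piFinset]
    simp
  have s4 : R2 ^ (j + 1) ≤ ((X.card : ℝ) ^ (j + 1)) ^ j * Z := by
    rw [← hPc]
    exact pow_sum_le_card_mul_sum_pow (fun _ _ => norm_nonneg _) j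
  have hZnn : 0 ≤ Z := Finset.sum_nonneg (fun _ _ => pow_nonneg (norm_nonneg _) _)
  set cX : K[X] → ℂ := fun G => ((P.filter (fun v => ∑ i, v i ^ (j + 1) = G)).card : ℂ) with hcX
  set aa : K[X] → ℂ := fun G => w' G * cX G with haa
  set bb : K[X] → ℂ := fun H => ∑ v ∈ Q.filter (fun v => ∑ i, v i ^ (j + 1) = H), ∏ i, w (v i) with hbb
  have hTpow : ∀ G, T G ^ (j + 1) = ∑ H ∈ SS K ((j + 1) * b), bb H * ψ (A (H * G)) := by
    intro G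
    have h1 := DhB_powsum ψ (j + 1) Y w A G
    rw [hT]
    simp only
    rw [h1, DhB_fiber (j + 1) b Y hY]
    apply Finset.sum_congr rfl
    intro H _
    rw [hbb]
    simp only
    rw [Finset.sum_mul]
    apply Finset.sum_congr rfl
    intro v hv
    rw [(Finset.mem_filter.1 hv).2]
  have s5 : (Z : ℂ) = ∑ G ∈ SS K ((j + 1) * a), ∑ H ∈ SS K ((j + 1) * b), aa G * bb H * ψ (A (G * H)) := by
    rw [hZ, Complex.ofReal_sum]
    have h1 : ∀ v ∈ P, ((‖T (∑ i, v i ^ (j + 1))‖ ^ (j + 1) : ℝ) : ℂ)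
        = w' (∑ i, v i ^ (j + 1)) * T (∑ i, v i ^ (j + 1)) ^ (j + 1) := by
      intro v _
      rw [DhB_u_pow]
    rw [Finset.sum_congr rfl h1, DhB_fiber (j + 1) a X hX]
    apply Finset.sum_congr rfl
    intro G _
    have h2 : ∀ v ∈ P.filter (fun v => ∑ i, v i ^ (j + 1) = G),
        w' (∑ i, v i ^ (j + 1)) * T (∑ i, v i ^ (j + 1)) ^ (j + 1) = w' G * T G ^ (j + 1) := by
      intro v hv
      rw [(Finset.mem_filter.1 hv).2]
    rw [Finset.sum_congr rfl h2, Finset.sum_const, nsmul_eq_mul, hTpow, Finset.mul_sum, Finset.mul_sum]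
    apply Finset.sum_congr rfl
    intro H _
    rw [haa, hcX]
    simp only
    rw [mul_comm H G]
    ring
  -- Step 3
  have hls := large_sieve hψ ((j + 1) * a) ((j + 1) * b) A aa bb
  rw [← s5, Complex.norm_real, Real.norm_of_nonneg hZnn] at hls
  have ha2 : ∑ G ∈ SS K ((j + 1) * a), ‖aa G‖ ^ 2 = (En (j + 1) (j + 1) X : ℝ) := by
    rw [← DhB_energy (j + 1) a X hX]
    apply Finset.sum_congr rfl
    intro G _
    rw [haa, hcX]
    simp only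
    rw [norm_mul, nw', one_mul, Complex.norm_natCast]
  have hb2 : ∑ H ∈ SS K ((j + 1) * b), ‖bb H‖ ^ 2 ≤ (En (j + 1) (j + 1) Y : ℝ) := by
    rw [← DhB_energy (j + 1) b Y hY]
    apply Finset.sum_le_sum
    intro H _
    apply pow_le_pow_left₀ (norm_nonneg _)
    rw [hbb]
    simp only
    refine (norm_sum_le _ _).trans ?_
    have h1 : ∀ v ∈ Q.filter (fun v => ∑ i, v i ^ (j + 1) = H), ‖∏ i, w (v i)‖ = 1 := by
      intro v _
      rw [norm_prod]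
      exact Finset.prod_eq_one (fun i _ => nw _)
    rw [Finset.sum_congr rfl h1, Finset.sum_const, nsmul_eq_mul, mul_one]
  set NQ : ℝ := (Fintype.card K : ℝ) ^ ((j + 1) * b + 1) * ((NN K A ((j + 1) * a) ((j + 1) * b)).card : ℝ) with hNQ
  have hNQ0 : 0 ≤ NQ := by positivity
  have s6 : Z ^ 2 ≤ (En (j + 1) (j + 1) X : ℝ) * (En (j + 1) (j + 1) Y : ℝ) * NQ := by
    rw [ha2] at hls
    refine hls.trans ?_
    apply mul_le_mul_of_nonneg_right _ hNQ0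
    exact mul_le_mul_of_nonneg_left hb2 (Nat.cast_nonneg _)
  -- assembling
  have s7 : (‖B‖ ^ (j + 1)) ^ (j + 1) ≤ ((X.card : ℝ) * Y.card) ^ ((j + 1) * j) * Z := by
    calc (‖B‖ ^ (j + 1)) ^ (j + 1) ≤ ((Y.card : ℝ) ^ j * R1) ^ (j + 1) :=
          pow_le_pow_left₀ (by positivity) s1 _
      _ = ((Y.card : ℝ) ^ j) ^ (j + 1) * R1 ^ (j + 1) := mul_pow _ _ _
      _ ≤ ((Y.card : ℝ) ^ j) ^ (j + 1) * R2 ^ (j + 1) := by
          apply mul_le_mul_of_nonneg_left _ (by positivity)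
          exact pow_le_pow_left₀ hR1nn s3 _
      _ ≤ ((Y.card : ℝ) ^ j) ^ (j + 1) * (((X.card : ℝ) ^ (j + 1)) ^ j * Z) := by
          apply mul_le_mul_of_nonneg_left s4 (by positivity)
      _ = ((X.card : ℝ) * Y.card) ^ ((j + 1) * j) * Z := by
          rw [mul_pow, ← pow_mul, ← pow_mul, mul_comm j (j + 1)]
          ring
  have e1 : 2 * (j + 1) ^ 2 = (j + 1) * (j + 1) * 2 := by ring
  have e2 : 2 * (j + 1) * (j + 1 - 1) = (j + 1) * j * 2 := by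
    simp only [Nat.add_sub_cancel]
    ring
  rw [e1, e2, pow_mul, pow_mul ‖B‖, pow_mul _ _ 2]
  calc ((‖B‖ ^ (j + 1)) ^ (j + 1)) ^ 2 ≤ (((X.card : ℝ) * Y.card) ^ ((j + 1) * j) * Z) ^ 2 :=
        pow_le_pow_left₀ (by positivity) s7 _
    _ = (((X.card : ℝ) * Y.card) ^ ((j + 1) * j)) ^ 2 * Z ^ 2 := mul_pow _ _ _
    _ ≤ (((X.card : ℝ) * Y.card) ^ ((j + 1) * j)) ^ 2 *
        ((En (j + 1) (j + 1) X : ℝ) * (En (j + 1) (j + 1) Y : ℝ) * NQ) := by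
        apply mul_le_mul_of_nonneg_left s6 (by positivity)

end MP_570bef_ntF
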