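import Pool.Agent.Lib.MP_570bef_ntF.Base

/-! JOB DvA.  A nonzero polynomial `x` has at most `2^(natDegree x)` monic divisors.

`Multiset` `S := UniqueFactorizationMonoid.normalizedFactors x` (monic irreducible factors with multiplicity).  `S.card ≤ natDegree x` (each factor has degree `≥ 1`, the product is associated to `x`).
Every monic divisor `u` of `x` is the product of the multiset `normalizedFactors u ≤ S` (`UniqueFactorizationMonoid.dvd_iff_normalizedFactors_le_normalizedFactors`, `prod_normalizedFactors` up to associates; both are monic,
so equal: `Polynomial.eq_of_monic_of_associated`).  So the set is contained in the image of `S.powerset.toFinset` under `Multiset.prod`, `Multiset.card_powerset = 2^card`.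
(Alternative: induction on `natDegree x`: if `x = π * x'` with `π` monic irreducible, every monic divisor of `x` is a divisor of `x'` or `π` times a divisor of `x'`; so the number at most doubles while the degree drops by `≥ 1`.) -/

open Polynomial

namespace MP_570bef_ntF

variable {K : Type} [Field K] [Fintype K]

open Classical in
theorem card_monic_divisors (N : ℕ) (x : K[X]) (hx : x ≠ 0) :
    ((SS K N).filter (fun u => u.Monic ∧ u ∣ x)).card ≤ 2 ^ x.natDegree := by
  obtain ⟨d, hd⟩ : ∃ d, d = x.natDegree := ⟨_, rfl⟩
  induction d using Nat.strong_induction_on generalizing x with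
  | _ d ih =>
    by_cases hunit : IsUnit x
    · have hsub : (SS K N).filter (fun u => u.Monic ∧ u ∣ x) ⊆ {1} := by
        intro u hu
        rw [Finset.mem_filter] at hu
        rw [Finset.mem_singleton]
        exact hu.2.1.eq_one_of_isUnit (isUnit_of_dvd_unit hu.2.2 hunit)
      calc _ ≤ ({1} : Finset K[X]).card := Finset.card_le_card hsub
        _ = 1 := Finset.card_singleton _
        _ ≤ 2 ^ x.natDegree := Nat.one_le_two_pow
    · obtain ⟨p, hpm, hpi, x', rfl⟩ := Polynomial.exists_monic_irreducible_factor x hunit
      have hx' : x' ≠ 0 := right_ne_zero_of_mul hx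
      have hp0 : p ≠ 0 := hpm.ne_zero
      have hdeg : (p * x').natDegree = p.natDegree + x'.natDegree :=
        Polynomial.natDegree_mul hp0 hx'
      have hp1 : 0 < p.natDegree := hpi.natDegree_pos
      have hih := ih x'.natDegree (by omega) x' hx' rfl
      have hsub : (SS K N).filter (fun u => u.Monic ∧ u ∣ p * x') ⊆
          (SS K N).filter (fun u => u.Monic ∧ u ∣ x') ∪
            ((SS K N).filter (fun u => u.Monic ∧ u ∣ x')).image (fun u => p * u) := by
        intro u hu
        rw [Finset.mem_filter] at hu
        obtain ⟨huN, hum, hux⟩ := hu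
        rw [Finset.mem_union]
        by_cases hpu : p ∣ u
        · right
          obtain ⟨u', rfl⟩ := hpu
          rw [Finset.mem_image]
          refine ⟨u', ?_, rfl⟩
          have hu'm : u'.Monic := hpm.of_mul_monic_left hum
          rw [Finset.mem_filter]
          refine ⟨?_, hu'm, (mul_dvd_mul_iff_left hp0).mp hux⟩
          rw [mem_SS] at huN ⊢
          rw [Polynomial.natDegree_mul hp0 hu'm.ne_zero] at huN
          omega
        · left
          rw [Finset.mem_filter]
          exact ⟨huN, hum, ((hpi.coprime_iff_not_dvd).mpr hpu).symm.dvd_of_dvd_mul_left hux⟩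
      calc _ ≤ _ := Finset.card_le_card hsub
        _ ≤ _ := Finset.card_union_le _ _
        _ ≤ 2 ^ x'.natDegree + 2 ^ x'.natDegree := Nat.add_le_add hih (Finset.card_image_le.trans hih)
        _ = 2 ^ (x'.natDegree + 1) := by ring
        _ ≤ 2 ^ (p * x').natDegree := Nat.pow_le_pow_right (by norm_num) (by omega)

end MP_570bef_ntF
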