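import Pool.Agent.Lib.MP_570bef_ntF.DvA
import Pool.Agent.Lib.MP_570bef_ntF.CK
import Pool.Agent.Lib.MP_570bef_ntF.SqD

/-! JOB DvB.  `∑_{u monic of degree b} q^(deg gcd(β, u)) ≤ 2^(deg β) q^b`.

For `u ∈ MM K b` let `G(u) := normalize (EuclideanDomain.gcd β u)` — a monic divisor of `β` and of `u` of the same degree as the gcd (nonzero since `β ≠ 0`), degree `≤ b`.  Group the sum by the value `G` of `G(u)`:
`∑_u q^(deg gcd) ≤ ∑_{G monic, G ∣ β, deg G ≤ b} q^(deg G) * #{u ∈ MM K b : G ∣ u}` and `#{u ∈ MM K b : G ∣ u} ≤ q^(b - deg G)`: `u = G * z` with `z` monic of degree `b - deg G` (`card_MM` is in SqD; here directly: the map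
`z ↦ G z` from monic `z` of degree `b - deg G`; their number is `q^(b - deg G)`, or use the injection `u ↦` quotient minus `X^(b-deg G)` into `SS K (b - deg G - 1)` (if `b = deg G` then `u = G`)).
You may import `Pool.Agent.Lib.MP_570bef_ntF.SqD` and use `card_MM`.  The number of `G` is at most `2^(deg β)` (`card_monic_divisors`). -/

open Polynomial

namespace MP_570bef_ntF

variable {K : Type} [Field K] [Fintype K]

open Classical in
private theorem DvB_count (b : ℕ) (G : K[X]) (hG : G.Monic) :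
    ((MM K b).filter (fun u => G ∣ u)).card ≤ Fintype.card K ^ (b - G.natDegree) := by
  rw [← card_MM (K := K) (b - G.natDegree)]
  refine (Finset.card_le_card
    (t := (MM K (b - G.natDegree)).image (fun z => G * z)) ?_).trans Finset.card_image_le
  intro u hu
  rw [Finset.mem_filter, mem_MM] at hu
  obtain ⟨⟨hu1, hu2⟩, z, rfl⟩ := hu
  have hz : z.Monic := hG.of_mul_monic_left hu1
  rw [hG.natDegree_mul hz] at hu2
  exact Finset.mem_image.2 ⟨z, mem_MM.2 ⟨hz, by omega⟩, rfl⟩

open Classical in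
theorem sum_gcd_le (b : ℕ) (β : K[X]) (hβ : β ≠ 0) :
    ∑ u ∈ MM K b, Fintype.card K ^ (EuclideanDomain.gcd β u).natDegree
      ≤ 2 ^ β.natDegree * Fintype.card K ^ b := by
  obtain ⟨g, hg⟩ : ∃ g : K[X] → K[X], ∀ u, g u = EuclideanDomain.gcd β u *
    C (EuclideanDomain.gcd β u).leadingCoeff⁻¹ := ⟨_, fun _ => rfl⟩
  have h0 : ∀ u, EuclideanDomain.gcd β u ≠ 0 := fun u h =>
    hβ (EuclideanDomain.gcd_eq_zero_iff.1 h).1
  have hmon : ∀ u, (g u).Monic := fun u => by
    rw [hg]
    exact Polynomial.monic_mul_leadingCoeff_inv (h0 u)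
  have hdeg : ∀ u, (g u).natDegree = (EuclideanDomain.gcd β u).natDegree := fun u => by
    rw [hg]
    exact Polynomial.natDegree_mul_leadingCoeff_inv _ (h0 u)
  have hunit : ∀ u, IsUnit (C (EuclideanDomain.gcd β u).leadingCoeff⁻¹) := fun u => by
    rw [Polynomial.isUnit_C, isUnit_iff_ne_zero]
    exact inv_ne_zero (Polynomial.leadingCoeff_ne_zero.2 (h0 u))
  have hd1 : ∀ u, g u ∣ β := fun u => by
    rw [hg, (hunit u).mul_right_dvd]
    exact EuclideanDomain.gcd_dvd_left β u
  have hd2 : ∀ u, g u ∣ u := fun u => by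
    rw [hg, (hunit u).mul_right_dvd]
    exact EuclideanDomain.gcd_dvd_right β u
  have hmaps : ∀ u ∈ MM K b, g u ∈ (SS K b).filter (fun u => u.Monic ∧ u ∣ β) := by
    intro u hu
    rw [Finset.mem_filter, mem_SS]
    refine ⟨?_, hmon u, hd1 u⟩
    rw [mem_MM] at hu
    rw [← hu.2]
    exact Polynomial.natDegree_le_of_dvd (hd2 u) hu.1.ne_zero
  rw [← Finset.sum_fiberwise_of_maps_to hmaps]
  have hstep : ∀ G ∈ (SS K b).filter (fun u => u.Monic ∧ u ∣ β),
      ∑ u ∈ (MM K b).filter (fun u => g u = G),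
        Fintype.card K ^ (EuclideanDomain.gcd β u).natDegree ≤ Fintype.card K ^ b := by
    intro G hG
    rw [Finset.mem_filter, mem_SS] at hG
    have h1 : ∀ u ∈ (MM K b).filter (fun u => g u = G),
        Fintype.card K ^ (EuclideanDomain.gcd β u).natDegree = Fintype.card K ^ G.natDegree := by
      intro u hu
      rw [Finset.mem_filter] at hu
      rw [← hdeg, hu.2]
    rw [Finset.sum_congr rfl h1, Finset.sum_const, smul_eq_mul]
    have h2 : ((MM K b).filter (fun u => g u = G)).card ≤
        Fintype.card K ^ (b - G.natDegree) := by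
      refine (Finset.card_le_card ?_).trans (DvB_count b G hG.2.1)
      intro u hu
      rw [Finset.mem_filter] at hu ⊢
      refine ⟨hu.1, ?_⟩
      rw [← hu.2]
      exact hd2 u
    calc ((MM K b).filter (fun u => g u = G)).card * Fintype.card K ^ G.natDegree
        ≤ Fintype.card K ^ (b - G.natDegree) * Fintype.card K ^ G.natDegree :=
          Nat.mul_le_mul_right _ h2
      _ = Fintype.card K ^ b := by
          rw [← pow_add, Nat.sub_add_cancel hG.1]
  refine (Finset.sum_le_sum hstep).trans ?_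
  rw [Finset.sum_const, smul_eq_mul]
  exact Nat.mul_le_mul_right _ (card_monic_divisors b β hβ)

end MP_570bef_ntF
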