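import Pool.Agent.Lib.MP_570bef_ntF.FoB

/-! JOB FoC.  Energies of unions and dilates.

`En_mono`: `X ⊆ Y` gives an inclusion of the sets counted.
`En_mul_left`: `δ ≠ 0`.  `(δ x)^k` : `∑ (δ x_i)^k = δ^k ∑ x_i^k`, so tuples of `δ Y` (all of the form `δ x_i`) with equal sums correspond to tuples of `Y` with equal sums (cancel `δ^k ≠ 0`);
the map `x ↦ δ x` on tuples is a bijection of the two sets counted.
`En_union`: choose for every `x ∈ X` an index `i(x) ∈ I` with `x ∈ Xi (i x)`; `X_i' := {x ∈ X : i(x) = i} ⊆ Xi i`.  Take `ψ` from `exists_char`, `D := k * n`.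
`fS ψ k (lin c) X = ∑_{i ∈ I} fS ψ k (lin c) X_i'` (`Finset.sum_fiberwise_of_maps_to`), power mean inequality: `‖∑_{i∈I} z_i‖^(2t) ≤ I.card^(2t-1) ∑ ‖z_i‖^(2t)`
(`norm_sum_le`, `inner_le..`/`pow_arith_mean_le_arith_mean_pow` or `Real.pow_sum_div_card_le_sum_pow`; `t ≥ 1`).  Sum over `c`, `energy_eq` for `X` and for the `X_i'` and `En_mono`; cancel `q^(D+1) > 0`.
(If `x ∈ X` then `x ∈ Xi i` has degree `≤ n`.) -/

open Polynomial

namespace MP_570bef_ntF

variable {K : Type} [Field K] [Fintype K]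

theorem En_mono (k t : ℕ) {X Y : Finset K[X]} (h : X ⊆ Y) : En k t X ≤ En k t Y := by
  classical
  unfold En
  apply Finset.card_le_card
  intro z hz
  rw [Finset.mem_filter, Finset.mem_product, Fintype.mem_piFinset, Fintype.mem_piFinset] at *
  exact ⟨⟨fun i => h (hz.1.1 i), fun i => h (hz.1.2 i)⟩, hz.2⟩

open Classical in
theorem En_mul_left (k t : ℕ) (δ : K[X]) (hδ : δ ≠ 0) (Y : Finset K[X]) :
    En k t (Y.image (fun y => δ * y)) = En k t Y := by
  symm
  unfold En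
  have hcancel : ∀ a b : K[X], δ * a = δ * b → a = b := fun a b h => mul_left_cancel₀ hδ h
  apply Finset.card_bij
    (fun (z : (Fin t → K[X]) × (Fin t → K[X])) _ =>
      ((fun i => δ * z.1 i, fun i => δ * z.2 i) : (Fin t → K[X]) × (Fin t → K[X])))
  · intro z hz
    rw [Finset.mem_filter, Finset.mem_product, Fintype.mem_piFinset, Fintype.mem_piFinset] at *
    refine ⟨⟨fun i => Finset.mem_image_of_mem _ (hz.1.1 i),
      fun i => Finset.mem_image_of_mem _ (hz.1.2 i)⟩, ?_⟩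
    simp only [mul_pow]
    rw [← Finset.mul_sum, ← Finset.mul_sum, hz.2]
  · intro z _ z' _ h
    have h1 := congrArg Prod.fst h
    have h2 := congrArg Prod.snd h
    refine Prod.ext (funext fun i => hcancel _ _ (congrFun h1 i))
      (funext fun i => hcancel _ _ (congrFun h2 i))
  · intro b hb
    rw [Finset.mem_filter, Finset.mem_product, Fintype.mem_piFinset, Fintype.mem_piFinset] at hb
    obtain ⟨⟨h1, h2⟩, h3⟩ := hb
    have h1' : ∀ i, ∃ y ∈ Y, δ * y = b.1 i := fun i => by simpa [Finset.mem_image] using h1 i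
    have h2' : ∀ i, ∃ y ∈ Y, δ * y = b.2 i := fun i => by simpa [Finset.mem_image] using h2 i
    choose u hu hu' using h1'
    choose v hv hv' using h2'
    refine ⟨(u, v), ?_, ?_⟩
    · rw [Finset.mem_filter, Finset.mem_product, Fintype.mem_piFinset, Fintype.mem_piFinset]
      refine ⟨⟨hu, hv⟩, ?_⟩
      apply mul_left_cancel₀ (pow_ne_zero k hδ)
      show δ ^ k * ∑ i, u i ^ k = δ ^ k * ∑ i, v i ^ k
      rw [Finset.mul_sum, Finset.mul_sum]
      calc ∑ i, δ ^ k * u i ^ k = ∑ i, b.1 i ^ k := by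
            apply Finset.sum_congr rfl; intro i _; rw [← hu' i, mul_pow]
        _ = ∑ i, b.2 i ^ k := h3
        _ = ∑ i, δ ^ k * v i ^ k := by
            apply Finset.sum_congr rfl; intro i _; rw [← hv' i, mul_pow]
    · exact Prod.ext (funext hu') (funext hv')

theorem En_union (k t n : ℕ) (ht : 1 ≤ t) {ι : Type} (I : Finset ι) (X : Finset K[X]) (Xi : ι → Finset K[X])
    (hcov : ∀ x ∈ X, ∃ i ∈ I, x ∈ Xi i) (hdeg : ∀ i ∈ I, ∀ x ∈ Xi i, x.natDegree ≤ n) :
    En k t X ≤ I.card ^ (2 * t - 1) * ∑ i ∈ I, En k t (Xi i) := by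
  classical
  obtain ⟨ψ, hψ⟩ := exists_char K
  rcases X.eq_empty_or_nonempty with hX | ⟨x0, hx0⟩
  · subst hX
    have : En k t (∅ : Finset K[X]) = 0 := by
      unfold En
      rw [Finset.card_eq_zero, Finset.filter_eq_empty_iff]
      intro z hz
      rw [Finset.mem_product, Fintype.mem_piFinset] at hz
      exact absurd (hz.1 ⟨0, by omega⟩) (Finset.notMem_empty _)
    rw [this]
    exact Nat.zero_le _
  obtain ⟨i0, hi0, _⟩ := hcov x0 hx0
  -- the index map
  have hch : ∀ x : K[X], ∃ i, x ∈ X → (i ∈ I ∧ x ∈ Xi i) := by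
    intro x
    by_cases hx : x ∈ X
    · obtain ⟨i, hi, hxi⟩ := hcov x hx
      exact ⟨i, fun _ => ⟨hi, hxi⟩⟩
    · exact ⟨i0, fun h => absurd h hx⟩
  choose ix hix using hch
  set X' : ι → Finset K[X] := fun i => X.filter (fun x => ix x = i) with hX'
  have hsub : ∀ i, X' i ⊆ Xi i := by
    intro i x hx
    rw [hX', Finset.mem_filter] at hx
    rw [← hx.2]
    exact (hix x hx.1).2
  have hXdeg : ∀ x ∈ X, x.natDegree ≤ n := fun x hx => hdeg _ (hix x hx).1 x (hix x hx).2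
  have hX'deg : ∀ i, ∀ x ∈ X' i, x.natDegree ≤ n := by
    intro i x hx
    rw [hX', Finset.mem_filter] at hx
    exact hXdeg x hx.1
  have hsum : ∀ c : Fin (k * n + 1) → K, fS ψ k (lin c) X = ∑ i ∈ I, fS ψ k (lin c) (X' i) := by
    intro c
    unfold fS
    rw [hX']
    exact (Finset.sum_fiberwise_of_maps_to (fun x hx => (hix x hx).1) _).symm
  have hcard : 0 < I.card := Finset.card_pos.mpr ⟨i0, hi0⟩
  -- power mean
  have hpm : ∀ c : Fin (k * n + 1) → K, ‖fS ψ k (lin c) X‖ ^ (2 * t)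
      ≤ (I.card : ℝ) ^ (2 * t - 1) * ∑ i ∈ I, ‖fS ψ k (lin c) (X' i)‖ ^ (2 * t) := by
    intro c
    rw [hsum c]
    have h1 : ‖∑ i ∈ I, fS ψ k (lin c) (X' i)‖ ^ (2 * t)
        ≤ (∑ i ∈ I, ‖fS ψ k (lin c) (X' i)‖) ^ (2 * t) :=
      pow_le_pow_left₀ (norm_nonneg _) (norm_sum_le _ _) _
    refine h1.trans ?_
    have h3 := pow_sum_div_card_le_sum_pow (s := I)
      (f := fun i => ‖fS ψ k (lin c) (X' i)‖) (fun i _ => norm_nonneg _) (2 * t - 1)
    have h4 : 2 * t - 1 + 1 = 2 * t := by omega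
    rw [h4] at h3
    have h5 : (0 : ℝ) < (I.card : ℝ) ^ (2 * t - 1) := by
      have : (0 : ℝ) < (I.card : ℝ) := by exact_mod_cast hcard
      positivity
    rw [div_le_iff₀ h5] at h3
    exact h3.trans (le_of_eq (mul_comm _ _))
  have hE := energy_eq hψ k t n (k * n) le_rfl X hXdeg
  have hE' : ∀ i ∈ I, ∑ c : Fin (k * n + 1) → K, ‖fS ψ k (lin c) (X' i)‖ ^ (2 * t)
      = (Fintype.card K : ℝ) ^ (k * n + 1) * (En k t (X' i) : ℝ) :=
    fun i _ => energy_eq hψ k t n (k * n) le_rfl (X' i) (hX'deg i)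
  have hq : (0 : ℝ) < (Fintype.card K : ℝ) ^ (k * n + 1) := by
    have : (0 : ℝ) < (Fintype.card K : ℝ) := by exact_mod_cast Fintype.card_pos
    positivity
  have hfin : (Fintype.card K : ℝ) ^ (k * n + 1) * (En k t X : ℝ)
      ≤ (Fintype.card K : ℝ) ^ (k * n + 1) *
        ((I.card : ℝ) ^ (2 * t - 1) * ∑ i ∈ I, (En k t (Xi i) : ℝ)) := by
    rw [← hE]
    calc ∑ c : Fin (k * n + 1) → K, ‖fS ψ k (lin c) X‖ ^ (2 * t)
        ≤ ∑ c : Fin (k * n + 1) → K, (I.card : ℝ) ^ (2 * t - 1) *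
            ∑ i ∈ I, ‖fS ψ k (lin c) (X' i)‖ ^ (2 * t) := Finset.sum_le_sum fun c _ => hpm c
      _ = (I.card : ℝ) ^ (2 * t - 1) * ∑ i ∈ I, ((Fintype.card K : ℝ) ^ (k * n + 1) * (En k t (X' i) : ℝ)) := by
          rw [← Finset.mul_sum, Finset.sum_comm]
          congr 1
          exact Finset.sum_congr rfl hE'
      _ ≤ (I.card : ℝ) ^ (2 * t - 1) * ∑ i ∈ I, ((Fintype.card K : ℝ) ^ (k * n + 1) * (En k t (Xi i) : ℝ)) := by
          apply mul_le_mul_of_nonneg_left _ (by positivity)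
          apply Finset.sum_le_sum
          intro i _
          apply mul_le_mul_of_nonneg_left _ hq.le
          exact_mod_cast En_mono k t (hsub i)
      _ = _ := by rw [← Finset.mul_sum]; ring
  have := le_of_mul_le_mul_left hfin hq
  exact_mod_cast this

end MP_570bef_ntF
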