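import Pool.Agent.Lib.MP_570bef_ntF.J1
import Pool.Agent.Lib.MP_570bef_ntF.FoC
import Pool.Agent.Lib.MP_570bef_ntF.SqD

/-! JOB J2.  THE SHARP `2k`-TH MOMENT for all polynomials of degree `≤ n`.  `q = card K`.

For `n' ≤ n` and `j` with `2 j ≤ n'` let `G (n', j) := (MM K j).biUnion (fun δ => (QQ K (n' - 2*j)).image (fun y => δ^2 * y))`.  By `En_union` with `I = MM K j` (`q^j` elements, `card_MM`), `En_mul_left` (`δ^2 ≠ 0`) and `En_QQ_le`:
`En (G (n', j)) ≤ (q^j)^(2k-1) * (q^j * (C1^(n'-2j+1) * q^(k(n'-2j)+k^2+k))) = C1^(n'-2j+1) q^(2kj + k(n'-2j) + k^2 + k) ≤ C1^(n+1) q^(kn+k^2+k)`.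
Every `x ∈ SS K n` is `0` or lies in some `G (n', j)` with `n' = x.natDegree`, `x = δ^2 y` (`exists_sq_mul`), `j = δ.natDegree`, `y.natDegree = n' - 2j`.
`En_union` with the index set `I := {none} ∪ {some (n', j) : n' ≤ n, 2 j ≤ n'}` (e.g. `Option (ℕ × ℕ)`; `I.card ≤ (n+1)^2 + 1`), `Xi none = {0}`, `En k k {0} = 1`:
`En (SS K n) ≤ ((n+1)^2+1)^(2k-1) * (1 + (n+1)^2 * C1^(n+1) q^(kn+k^2+k)) ≤ ((n+1)^2+1)^(2k) * C1^(n+1) q^(kn+k^2+k)`, and `(n+1)^2 + 1 ≤ 4^(n+1)`, so the constant is at most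
`(2^(4k))^(n+1) * C1^(n+1) = C2^(n+1)`. -/

open Polynomial

namespace MP_570bef_ntF

variable {K : Type} [Field K] [Fintype K]

open Classical in
/-- products `δ² y` with `δ` monic of degree `j`, `y` squarefree of degree `n' - 2j` -/
private noncomputable def J2_G (K : Type) [Field K] [Fintype K] (n' j : ℕ) : Finset K[X] :=
  (MM K j).biUnion (fun δ => (QQ K (n' - 2 * j)).image (fun y => δ ^ 2 * y))

private theorem J2_C1_pos (k : ℕ) : 1 ≤ C1 k := by
  unfold C1
  exact Nat.one_le_pow _ _ (by omega)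

private theorem J2_G_natDegree {n' j : ℕ} (h2 : 2 * j ≤ n') {x : K[X]} (hx : x ∈ J2_G K n' j) :
    x.natDegree ≤ n' := by
  classical
  unfold J2_G at hx
  simp only [Finset.mem_biUnion, Finset.mem_image] at hx
  obtain ⟨δ, hδ, y, hy, rfl⟩ := hx
  rw [mem_MM] at hδ
  rw [mem_QQ] at hy
  have h1 := Polynomial.natDegree_mul_le (p := δ ^ 2) (q := y)
  have h3 := Polynomial.natDegree_pow_le (p := δ) (n := 2)
  have := hδ.2
  have := hy.2
  omega

private theorem J2_En_G (k n n' j : ℕ) (hk2 : 2 ≤ k) (hchar : ∀ j : ℕ, 1 ≤ j → j ≤ k → (j : K) ≠ 0)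
    (hn : n' ≤ n) (h2 : 2 * j ≤ n') :
    En k k (J2_G K n' j) ≤ C1 k ^ (n + 1) * Fintype.card K ^ (k * n + k ^ 2 + k) := by
  classical
  have hq : 1 ≤ Fintype.card K := Fintype.card_pos
  have h := En_union (K := K) k k n' (by omega) (MM K j) (J2_G K n' j)
    (fun δ => (QQ K (n' - 2 * j)).image (fun y => δ ^ 2 * y))
    (by
      intro x hx
      unfold J2_G at hx
      rw [Finset.mem_biUnion] at hx
      exact hx)
    (by
      intro δ hδ x hx
      apply J2_G_natDegree h2
      unfold J2_G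
      rw [Finset.mem_biUnion]
      exact ⟨δ, hδ, hx⟩)
  refine h.trans ?_
  have hB : ∀ δ ∈ MM K j, En k k ((QQ K (n' - 2 * j)).image (fun y => δ ^ 2 * y))
      ≤ C1 k ^ (n' - 2 * j + 1) * Fintype.card K ^ (k * (n' - 2 * j) + k ^ 2 + k) := by
    intro δ hδ
    rw [mem_MM] at hδ
    rw [En_mul_left k k (δ ^ 2) (pow_ne_zero _ hδ.1.ne_zero)]
    exact En_QQ_le k _ hk2 hchar
  calc (MM K j).card ^ (2 * k - 1) * ∑ δ ∈ MM K j, En k k ((QQ K (n' - 2 * j)).image (fun y => δ ^ 2 * y))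
      ≤ (MM K j).card ^ (2 * k - 1) * ((MM K j).card *
        (C1 k ^ (n' - 2 * j + 1) * Fintype.card K ^ (k * (n' - 2 * j) + k ^ 2 + k))) := by
        apply Nat.mul_le_mul_left
        rw [← smul_eq_mul (MM K j).card]
        exact Finset.sum_le_card_nsmul _ _ _ hB
    _ = C1 k ^ (n' - 2 * j + 1) * Fintype.card K ^ (2 * k * j + (k * (n' - 2 * j) + k ^ 2 + k)) := by
        rw [card_MM]
        have e : (2 * k * j) = j * (2 * k - 1) + j := by
          obtain ⟨m, hm⟩ : ∃ m, 2 * k = m + 1 := ⟨2 * k - 1, by omega⟩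
          rw [hm]
          simp only [Nat.add_sub_cancel]
          ring
        rw [e, pow_add _ (j * (2 * k - 1) + j), pow_add _ (j * (2 * k - 1)), pow_mul]
        ring
    _ ≤ C1 k ^ (n + 1) * Fintype.card K ^ (k * n + k ^ 2 + k) := by
        apply Nat.mul_le_mul
        · exact Nat.pow_le_pow_right (J2_C1_pos k) (by omega)
        · apply Nat.pow_le_pow_right hq
          have e : 2 * k * j + k * (n' - 2 * j) = k * n' := by
            obtain ⟨m, hm⟩ : ∃ m, n' = 2 * j + m := ⟨n' - 2 * j, by omega⟩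
            rw [hm]
            simp only [Nat.add_sub_cancel_left]
            ring
          have : k * n' ≤ k * n := Nat.mul_le_mul_left k hn
          omega

private theorem J2_cover (n : ℕ) (x : K[X]) (hx : x.natDegree ≤ n) (hx0 : x ≠ 0) :
    ∃ n' j, n' ≤ n ∧ 2 * j ≤ n' ∧ x ∈ J2_G K n' j := by
  classical
  obtain ⟨δ, y, hδ, hy, hxy⟩ := exists_sq_mul x hx0
  have hy0 : y ≠ 0 := by
    rintro rfl
    exact hx0 (by rw [hxy, mul_zero])
  have hd : x.natDegree = 2 * δ.natDegree + y.natDegree := by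
    rw [hxy, Polynomial.natDegree_mul (pow_ne_zero _ hδ.ne_zero) hy0, Polynomial.natDegree_pow]
  refine ⟨x.natDegree, δ.natDegree, hx, by omega, ?_⟩
  unfold J2_G
  rw [Finset.mem_biUnion]
  refine ⟨δ, mem_MM.2 ⟨hδ, rfl⟩, ?_⟩
  rw [Finset.mem_image]
  exact ⟨y, mem_QQ.2 ⟨hy, by omega⟩, hxy.symm⟩

omit [Fintype K] in
private theorem J2_En_zero (k : ℕ) : En k k ({0} : Finset K[X]) ≤ 1 := by
  classical
  unfold En
  refine (Finset.card_filter_le _ _).trans ?_
  rw [Finset.card_product, Fintype.card_piFinset]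
  simp

private theorem J2_arith (n : ℕ) : (n + 1) ^ 2 + 1 ≤ 4 ^ (n + 1) := by
  induction n with
  | zero => norm_num
  | succ m ih =>
    rw [pow_succ 4 (m + 1)]
    nlinarith

theorem En_SS_le (k n : ℕ) (hk2 : 2 ≤ k) (hchar : ∀ j : ℕ, 1 ≤ j → j ≤ k → (j : K) ≠ 0) :
    En k k (SS K n) ≤ C2 k ^ (n + 1) * Fintype.card K ^ (k * n + k ^ 2 + k) := by
  classical
  have hq : 1 ≤ Fintype.card K := Fintype.card_pos
  set T := C1 k ^ (n + 1) * Fintype.card K ^ (k * n + k ^ 2 + k) with hT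
  have hT1 : 1 ≤ T := by
    rw [hT]
    exact Nat.mul_pos (Nat.pow_pos (J2_C1_pos k)) (Nat.pow_pos hq)
  set I : Finset (Option (ℕ × ℕ)) := Finset.insertNone
    (((Finset.range (n + 1)) ×ˢ (Finset.range (n + 1))).filter (fun p => 2 * p.2 ≤ p.1)) with hI
  set Xi : Option (ℕ × ℕ) → Finset K[X] := fun o => o.elim {0} (fun p => J2_G K p.1 p.2) with hXi
  have hIc : I.card ≤ (n + 1) ^ 2 + 1 := by
    rw [hI, Finset.card_insertNone]
    have := Finset.card_filter_le ((Finset.range (n + 1)) ×ˢ (Finset.range (n + 1)))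
      (fun p => 2 * p.2 ≤ p.1)
    rw [Finset.card_product, Finset.card_range] at this
    have e : (n + 1) ^ 2 = (n + 1) * (n + 1) := by ring
    omega
  have h := En_union (K := K) k k n (by omega) I (SS K n) Xi
    (by
      intro x hx
      rw [mem_SS] at hx
      by_cases hx0 : x = 0
      · refine ⟨none, ?_, ?_⟩
        · rw [hI]; exact Finset.none_mem_insertNone
        · simp [hXi, hx0]
      · obtain ⟨n', j, h1, h2, h3⟩ := J2_cover n x hx hx0
        refine ⟨some (n', j), ?_, ?_⟩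
        · rw [hI, Finset.some_mem_insertNone, Finset.mem_filter, Finset.mem_product]
          simp only [Finset.mem_range]
          exact ⟨⟨by omega, by omega⟩, h2⟩
        · simpa [hXi] using h3)
    (by
      intro i hi x hx
      rcases i with _ | ⟨n', j⟩
      · have : x = 0 := by simpa [hXi] using hx
        rw [this]; simp
      · rw [hI, Finset.some_mem_insertNone, Finset.mem_filter, Finset.mem_product] at hi
        simp only [Finset.mem_range] at hi
        have hx' : x ∈ J2_G K n' j := by simpa [hXi] using hx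
        exact (J2_G_natDegree hi.2 hx').trans (by omega))
  have hEi : ∀ i ∈ I, En k k (Xi i) ≤ T := by
    intro i hi
    rcases i with _ | ⟨n', j⟩
    · have : Xi none = {0} := rfl
      rw [this]
      exact (J2_En_zero k).trans hT1
    · rw [hI, Finset.some_mem_insertNone, Finset.mem_filter, Finset.mem_product] at hi
      simp only [Finset.mem_range] at hi
      exact J2_En_G k n n' j hk2 hchar (by omega) hi.2
  calc En k k (SS K n) ≤ I.card ^ (2 * k - 1) * ∑ i ∈ I, En k k (Xi i) := h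
    _ ≤ I.card ^ (2 * k - 1) * (I.card * T) := by
        apply Nat.mul_le_mul_left
        rw [← smul_eq_mul I.card]
        exact Finset.sum_le_card_nsmul _ _ _ hEi
    _ = I.card ^ (2 * k) * T := by
        obtain ⟨m, hm⟩ : ∃ m, 2 * k = m + 1 := ⟨2 * k - 1, by omega⟩
        rw [hm]
        simp only [Nat.add_sub_cancel]
        rw [pow_succ]
        ring
    _ ≤ (4 ^ (n + 1)) ^ (2 * k) * T :=
        Nat.mul_le_mul_right _ (Nat.pow_le_pow_left (hIc.trans (J2_arith n)) _)
    _ = C2 k ^ (n + 1) * Fintype.card K ^ (k * n + k ^ 2 + k) := by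
        rw [hT]
        unfold C2
        rw [mul_pow, ← mul_assoc]
        congr 2
        rw [← pow_mul, ← pow_mul, show (4 : ℕ) = 2 ^ 2 by norm_num, ← pow_mul]
        congr 1
        ring

end MP_570bef_ntF
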