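import Pool.Agent.Lib.MP_570bef_ntF.CFc
import Pool.Agent.Lib.MP_570bef_ntF.DhB
import Pool.Agent.Lib.MP_570bef_ntF.J2
import Pool.Agent.Lib.MP_570bef_ntF.SqD

/-! JOB High.  The family sum at a functional of high rank.  `q = card K`.

`card_NN_le`: `N := NN K A (k g) (k b)`.  If `N = {0}`: `q^g ≤ q^(k g)` (`k ≥ 1`).  Otherwise take `G₀ ≠ 0` in `N`: `(G₀, k g)` kills `A` on degree `≤ k (g+b)` (`z.natDegree + k g ≤ k g + k b` means `z.natDegree ≤ k b`), so `m ≤ k g` (`rho_le`),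
and, `β` being the witness of rank `m`, every nonzero `G ∈ N` is `β y'` with `natDegree y' + m ≤ k g` (`rho_dvd` with `Y = k g`; `k g + m ≤ 2 k g ≤ k(g+b)`).  So `N ⊆ image of SS K (k g - m)` under `y' ↦ β y'`, and
`N.card ≤ q^(k g - m + 1)`, `N.card * q^g ≤ q^(k g - m + 1 + g) ≤ q^(k g)` as `m ≥ g + 1`.
`high_bound`: `double_holder` with `X := (SS K g).erase 0`, `Y := MM K b` (`gS` is the double sum, `Finset.sum_product`), `En X ≤ En (SS K g)`, `En Y ≤ En (SS K b)` (`En_mono`), `En_SS_le`.  `X.card ≤ q^(g+1)`, `Y.card = q^b` — keep `N0 := X.card * Y.card`.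
`‖gS‖^(2k²) ≤ N0^(2k(k-1)) * (C2^(g+1) q^(kg+k²+k) * C2^(b+1) q^(kb+k²+k) * q^(kb+1) * NN.card)`; multiply by `q^g` and use `card_NN_le`:
`q^g ‖gS‖^(2k²) ≤ N0^(2k(k-1)) * C2^(g+b+2) * q^(kg+kb+2k²+2k + kb+1 + kg)`. -/

open Polynomial

namespace MP_570bef_ntF

variable {K : Type} [Field K] [Fintype K]

theorem card_NN_le (k g b m : ℕ) (hk : 1 ≤ k) (hgb : g ≤ b) (hgm : g < m) (A : K[X] →ₗ[K] K)
    (hρ : IsRho A (k * (g + b)) m) :
    (NN K A (k * g) (k * b)).card * Fintype.card K ^ g ≤ Fintype.card K ^ (k * g) := by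
  classical
  have hq : 1 ≤ Fintype.card K := Fintype.card_pos
  have hmem : ∀ G : K[X], G ∈ NN K A (k * g) (k * b) ↔
      G.natDegree ≤ k * g ∧ ∀ H : K[X], H.natDegree ≤ k * b → A (G * H) = 0 := by
    intro G
    unfold NN
    rw [Finset.mem_filter, mem_SS]
  have hexp : k * (g + b) = k * g + k * b := Nat.mul_add k g b
  by_cases h0 : ∀ G ∈ NN K A (k * g) (k * b), G = 0
  · have h1 : (NN K A (k * g) (k * b)).card ≤ 1 := by
      apply Finset.card_le_one.2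
      intro x hx y hy
      rw [h0 x hx, h0 y hy]
    calc (NN K A (k * g) (k * b)).card * Fintype.card K ^ g ≤ 1 * Fintype.card K ^ g :=
          Nat.mul_le_mul_right _ h1
      _ = Fintype.card K ^ g := one_mul _
      _ ≤ Fintype.card K ^ (k * g) := Nat.pow_le_pow_right hq (Nat.le_mul_of_pos_left g hk)
  · push Not at h0
    obtain ⟨G0, hG0, hne⟩ := h0
    rw [hmem] at hG0
    have hkill : ∀ G : K[X], G ∈ NN K A (k * g) (k * b) → Kill A (k * (g + b)) G (k * g) := by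
      intro G hG z hz
      rw [hmem] at hG
      exact hG.2 z (by omega)
    have hmg : m ≤ k * g := rho_le hρ hne hG0.1 (hkill G0 ((hmem G0).2 hG0))
    obtain ⟨β, hβ0, hβm, hβk⟩ := hρ.1
    have hkgb : k * g ≤ k * b := Nat.mul_le_mul_left k hgb
    have hsub : NN K A (k * g) (k * b) ⊆ (SS K (k * g - m)).image (fun y => β * y) := by
      intro G hG
      rw [Finset.mem_image]
      by_cases hG1 : G = 0
      · exact ⟨0, zero_mem_SS _, by rw [hG1, mul_zero]⟩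
      · obtain ⟨y', hy1, hy2⟩ := rho_dvd hρ hβ0 hβm hβk hG1 ((hmem G).1 hG).1 (hkill G hG) (by omega)
        exact ⟨y', mem_SS.2 (by omega), hy1.symm⟩
    calc (NN K A (k * g) (k * b)).card * Fintype.card K ^ g
        ≤ Fintype.card K ^ (k * g - m + 1) * Fintype.card K ^ g := by
          apply Nat.mul_le_mul_right
          rw [← card_SS]
          exact (Finset.card_le_card hsub).trans Finset.card_image_le
      _ = Fintype.card K ^ (k * g - m + 1 + g) := (pow_add _ _ _).symm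
      _ ≤ Fintype.card K ^ (k * g) := Nat.pow_le_pow_right hq (by omega)

theorem High_real (N q C E1 E2 M S : ℝ) (k g b : ℕ) (hN : 0 ≤ N) (hq : 0 ≤ q) (hC : 0 ≤ C)
    (hE1 : 0 ≤ E1) (hE2 : 0 ≤ E2) (hM : 0 ≤ M)
    (key : S ≤ N ^ (2 * k * (k - 1)) * (E1 * E2 * (q ^ (k * b + 1) * M)))
    (h1 : E1 ≤ C ^ (g + 1) * q ^ (k * g + k ^ 2 + k)) (h2 : E2 ≤ C ^ (b + 1) * q ^ (k * b + k ^ 2 + k))
    (h3 : M * q ^ g ≤ q ^ (k * g)) :
    q ^ g * S ≤ N ^ (2 * k * (k - 1)) *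
      (C ^ (g + b + 2) * q ^ (2 * k * (g + b) + 2 * k ^ 2 + 2 * k + 1)) := by
  have a0 : 0 ≤ C ^ (g + 1) * q ^ (k * g + k ^ 2 + k) := by positivity
  calc q ^ g * S ≤ q ^ g * (N ^ (2 * k * (k - 1)) * (E1 * E2 * (q ^ (k * b + 1) * M))) :=
        mul_le_mul_of_nonneg_left key (pow_nonneg hq _)
    _ = N ^ (2 * k * (k - 1)) * (E1 * E2 * (q ^ (k * b + 1) * (M * q ^ g))) := by ring
    _ ≤ N ^ (2 * k * (k - 1)) * ((C ^ (g + 1) * q ^ (k * g + k ^ 2 + k)) *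
          (C ^ (b + 1) * q ^ (k * b + k ^ 2 + k)) * (q ^ (k * b + 1) * q ^ (k * g))) := by
        apply mul_le_mul_of_nonneg_left _ (pow_nonneg hN _)
        apply mul_le_mul
        · exact mul_le_mul h1 h2 hE2 a0
        · exact mul_le_mul_of_nonneg_left h3 (pow_nonneg hq _)
        · positivity
        · positivity
    _ = _ := by ring

theorem high_bound {ψ : AddChar K ℂ} (hψ : ψ ≠ 1) (k g b m : ℕ) (hk2 : 2 ≤ k)
    (hchar : ∀ j : ℕ, 1 ≤ j → j ≤ k → (j : K) ≠ 0) (hgb : g ≤ b) (hgm : g < m)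
    (A : K[X] →ₗ[K] K) (hρ : IsRho A (k * (g + b)) m) :
    (Fintype.card K : ℝ) ^ g * ‖gS ψ k g b A‖ ^ (2 * k ^ 2)
      ≤ ((PP K g b).card : ℝ) ^ (2 * k * (k - 1)) *
        ((C2 k : ℝ) ^ (g + b + 2) * (Fintype.card K : ℝ) ^ (2 * k * (g + b) + 2 * k ^ 2 + 2 * k + 1)) := by
  classical
  have hk1 : 1 ≤ k := by omega
  have hPP : PP K g b = ((SS K g).erase 0) ×ˢ (MM K b) := rfl
  have hX : ∀ x ∈ (SS K g).erase 0, x.natDegree ≤ g := fun x hx => mem_SS.1 (Finset.mem_of_mem_erase hx)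
  have hY : ∀ y ∈ MM K b, y.natDegree ≤ b := fun y hy => (mem_MM.1 hy).2.le
  have hgS : gS ψ k g b A = ∑ x ∈ (SS K g).erase 0, ∑ y ∈ MM K b, ψ (A ((x * y) ^ k)) := by
    unfold gS
    rw [hPP, Finset.sum_product]
  have hcard : ((PP K g b).card : ℝ) = (((SS K g).erase 0).card : ℝ) * ((MM K b).card : ℝ) := by
    rw [hPP, Finset.card_product, Nat.cast_mul]
  have key := double_holder hψ k g b hk1 ((SS K g).erase 0) (MM K b) hX hY A
  rw [← hgS, ← hcard] at key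
  have hE1 : (En k k ((SS K g).erase 0) : ℝ) ≤
      (C2 k : ℝ) ^ (g + 1) * (Fintype.card K : ℝ) ^ (k * g + k ^ 2 + k) := by
    exact_mod_cast (En_mono k k (Finset.erase_subset _ _)).trans (En_SS_le k g hk2 hchar)
  have hE2 : (En k k (MM K b) : ℝ) ≤
      (C2 k : ℝ) ^ (b + 1) * (Fintype.card K : ℝ) ^ (k * b + k ^ 2 + k) := by
    exact_mod_cast (En_mono k k (fun y hy => mem_SS.2 (hY y hy))).trans (En_SS_le k b hk2 hchar)
  have hN : ((NN K A (k * g) (k * b)).card : ℝ) * (Fintype.card K : ℝ) ^ g ≤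
      (Fintype.card K : ℝ) ^ (k * g) := by
    exact_mod_cast card_NN_le k g b m hk1 hgb hgm A hρ
  exact High_real ((PP K g b).card : ℝ) (Fintype.card K : ℝ) (C2 k : ℝ) _ _ _ _ k g b
    (Nat.cast_nonneg _) (Nat.cast_nonneg _) (Nat.cast_nonneg _) (Nat.cast_nonneg _)
    (Nat.cast_nonneg _) (Nat.cast_nonneg _) key hE1 hE2 hN

end MP_570bef_ntF
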