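import Pool.Agent.Lib.MP_570bef_ntF.FoB
import Pool.Agent.Lib.MP_570bef_ntF.DvA
import Pool.Agent.Lib.MP_570bef_ntF.J2

/-! JOB Mom.  The `2k`-th moment and the counting formula of the family.  `n = g + b`, `q = card K`.

`moment_family`: `energy_weight` with `Y := (SS K n).erase 0`, `P := PP K g b`, `φ p := p.1 * p.2` (nonzero of degree `≤ n`), `w = 1`, `t = k`, `D = k n`, `M := 2^n`: the fibre over `x ≠ 0`: `p.2` is a monic divisor of `x` (in `SS K b`) and determines
`p.1` (`p.1 * p.2 = x`), so the fibre injects into the set of `card_monic_divisors` (`2^(natDegree x) ≤ 2^n`).  `En Y ≤ En (SS K n)` (`En_mono`).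
`count_formula`: expand `gS^s = ∑_{p̄ ∈ P^s} ψ(lin c (∑ (p_i.1 p_i.2)^k))` (`Finset.prod_univ_sum`/`Finset.sum_pow'`), multiply by `ψ(-(lin c F))`, sum over `c`, `orth` (`natDegree (∑ .. - F) ≤ k n`). -/

open Polynomial

namespace MP_570bef_ntF

variable {K : Type} [Field K] [Fintype K]

omit [Fintype K] in
theorem Mom_natDegree_le (k g b : ℕ) (x y : K[X]) (hx : x.natDegree ≤ g) (hy : y.natDegree ≤ b) :
    ((x * y) ^ k).natDegree ≤ k * (g + b) := by
  refine (Polynomial.natDegree_pow_le).trans (Nat.mul_le_mul_left k ?_)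
  exact (Polynomial.natDegree_mul_le).trans (Nat.add_le_add hx hy)

omit [Fintype K] in
theorem Mom_map_sum {ι : Type} (ψ : AddChar K ℂ) (s : Finset ι) (f : ι → K) :
    ψ (∑ i ∈ s, f i) = ∏ i ∈ s, ψ (f i) := by
  classical
  induction s using Finset.induction_on with
  | empty => simp
  | insert a s ha ih => rw [Finset.sum_insert ha, Finset.prod_insert ha, AddChar.map_add_eq_mul, ih]

theorem Mom_mem_PP (g b : ℕ) (p : K[X] × K[X]) :
    p ∈ PP K g b ↔ (p.1 ≠ 0 ∧ p.1.natDegree ≤ g) ∧ (p.2.Monic ∧ p.2.natDegree = b) := by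
  classical
  unfold PP
  rw [Finset.mem_product, Finset.mem_erase, mem_SS, mem_MM]

theorem moment_family {ψ : AddChar K ℂ} (hψ : ψ ≠ 1) (k g b : ℕ) (hk : 1 ≤ k) :
    ∑ c : Fin (k * (g + b) + 1) → K, ‖gS ψ k g b (lin c)‖ ^ (2 * k)
      ≤ ((2 : ℝ) ^ (g + b)) ^ (2 * k) *
        ((Fintype.card K : ℝ) ^ (k * (g + b) + 1) * (En k k (SS K (g + b)) : ℝ)) := by
  classical
  have key := energy_weight (K := K) hψ k k (g + b) (k * (g + b)) le_rfl ((SS K (g + b)).erase 0)
    (fun y hy => mem_SS.1 (Finset.mem_of_mem_erase hy)) (PP K g b) (fun p => p.1 * p.2)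
    (fun p hp => by
      rw [Mom_mem_PP] at hp
      rw [Finset.mem_erase, mem_SS]
      refine ⟨mul_ne_zero hp.1.1 hp.2.1.ne_zero, ?_⟩
      have := Polynomial.natDegree_mul_le (p := p.1) (q := p.2)
      omega)
    (2 ^ (g + b))
    (fun x hx => by
      rw [Finset.mem_erase, mem_SS] at hx
      calc ((PP K g b).filter (fun p => p.1 * p.2 = x)).card
          ≤ ((SS K b).filter (fun u => u.Monic ∧ u ∣ x)).card := by
            apply Finset.card_le_card_of_injOn (fun p => p.2)
            · intro p hp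
              simp only [Finset.coe_filter, Set.mem_setOf_eq] at hp ⊢
              have h1 := hp.1
              rw [Mom_mem_PP] at h1
              rw [mem_SS]
              exact ⟨h1.2.2.le, h1.2.1, ⟨p.1, by rw [← hp.2, mul_comm]⟩⟩
            · intro p hp p' hp' h
              simp only [Finset.coe_filter, Set.mem_setOf_eq] at hp hp'
              have h1 := hp.1
              rw [Mom_mem_PP] at h1
              have h : p.2 = p'.2 := h
              have h2 : p.1 * p.2 = p'.1 * p.2 := by rw [hp.2, h, hp'.2]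
              have h3 : p.1 = p'.1 := mul_right_cancel₀ h1.2.1.ne_zero h2
              exact Prod.ext h3 h
        _ ≤ 2 ^ x.natDegree := card_monic_divisors b x hx.1
        _ ≤ 2 ^ (g + b) := Nat.pow_le_pow_right (by norm_num) hx.2)
    (fun _ => 1) (fun p _ => by simp)
  simp only [one_mul] at key
  have hE : (En k k ((SS K (g + b)).erase 0) : ℝ) ≤ (En k k (SS K (g + b)) : ℝ) := by
    exact_mod_cast En_mono k k (Finset.erase_subset _ _)
  have hg : ∀ c : Fin (k * (g + b) + 1) → K, gS ψ k g b (lin c) =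
      ∑ p ∈ PP K g b, ψ (lin c ((p.1 * p.2) ^ k)) := fun c => rfl
  simp only [hg]
  refine key.trans ?_
  rw [Nat.cast_pow, Nat.cast_ofNat]
  have h0 : (0 : ℝ) ≤ ((2 : ℝ) ^ (g + b)) ^ (2 * k) := pow_nonneg (pow_nonneg (by norm_num) _) _
  have h1 : (0 : ℝ) ≤ (Fintype.card K : ℝ) ^ (k * (g + b) + 1) := pow_nonneg (Nat.cast_nonneg _) _
  exact mul_le_mul_of_nonneg_left (mul_le_mul_of_nonneg_left hE h1) h0

open Classical in
theorem count_formula {ψ : AddChar K ℂ} (hψ : ψ ≠ 1) (k g b s : ℕ) (hk : 1 ≤ k) (F : K[X])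
    (hF : F.natDegree ≤ k * (g + b)) :
    ∑ c : Fin (k * (g + b) + 1) → K, gS ψ k g b (lin c) ^ s * ψ (-(lin c F)) =
      (Fintype.card K : ℂ) ^ (k * (g + b) + 1) *
        (((Fintype.piFinset (fun _ : Fin s => PP K g b)).filter
          (fun p => ∑ i, ((p i).1 * (p i).2) ^ k = F)).card : ℂ) := by
  have h1 : ∀ c : Fin (k * (g + b) + 1) → K, gS ψ k g b (lin c) ^ s * ψ (-(lin c F)) =
      ∑ p ∈ Fintype.piFinset (fun _ : Fin s => PP K g b),
        ψ (lin c ((∑ i, ((p i).1 * (p i).2) ^ k) - F)) := by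
    intro c
    unfold gS
    rw [Finset.sum_pow', Finset.sum_mul]
    apply Finset.sum_congr rfl
    intro p _
    rw [sub_eq_add_neg, (lin c).map_add, map_sum, (lin c).map_neg, AddChar.map_add_eq_mul, Mom_map_sum]
  rw [Finset.sum_congr rfl (fun c _ => h1 c), Finset.sum_comm]
  have h2 : ∀ p ∈ Fintype.piFinset (fun _ : Fin s => PP K g b),
      ∑ c : Fin (k * (g + b) + 1) → K, ψ (lin c ((∑ i, ((p i).1 * (p i).2) ^ k) - F)) =
        if ∑ i, ((p i).1 * (p i).2) ^ k = F then (Fintype.card K : ℂ) ^ (k * (g + b) + 1) else 0 := by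
    intro p hp
    rw [Fintype.mem_piFinset] at hp
    rw [orth hψ]
    · simp only [sub_eq_zero]
    · refine (Polynomial.natDegree_sub_le _ _).trans (max_le ?_ hF)
      apply Polynomial.natDegree_sum_le_of_forall_le
      intro i _
      have := (Mom_mem_PP g b (p i)).1 (hp i)
      exact Mom_natDegree_le k g b _ _ this.1.2 this.2.2.le
  rw [Finset.sum_congr rfl h2, ← Finset.sum_filter, Finset.sum_const, nsmul_eq_mul, mul_comm]

end MP_570bef_ntF
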