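import Pool.Agent.Lib.MP_570bef_ntF.Low
import Pool.Agent.Lib.MP_570bef_ntF.Cnt
import Pool.Agent.Lib.MP_570bef_ntF.High
import Pool.Agent.Lib.MP_570bef_ntF.Mom

/-! Final assembly. -/

open Polynomial

namespace MP_570bef_ntF

variable {K : Type} [Field K] [Fintype K]

theorem card_PP (g b : ℕ) :
    ((PP K g b).card : ℝ) = ((Fintype.card K : ℝ) ^ (g + 1) - 1) * (Fintype.card K : ℝ) ^ b := by
  classical
  unfold PP
  rw [Finset.card_product, Finset.card_erase_of_mem (zero_mem_SS g), card_SS, card_MM]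
  have h1 : 1 ≤ Fintype.card K ^ (g + 1) := Nat.one_le_pow _ _ (by have := two_le_q (K := K); omega)
  push_cast [Nat.cast_sub h1]
  ring

theorem card_PP_ge (g b : ℕ) :
    (Fintype.card K : ℝ) ^ (g + 1 + b) / 2 ≤ ((PP K g b).card : ℝ) := by
  rw [card_PP, pow_add]
  have hq : (2 : ℝ) ≤ Fintype.card K := by exact_mod_cast two_le_q (K := K)
  have h1 : (2 : ℝ) ≤ (Fintype.card K : ℝ) ^ (g + 1) := by
    calc (2 : ℝ) ≤ (Fintype.card K : ℝ) := hq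
      _ = (Fintype.card K : ℝ) ^ 1 := (pow_one _).symm
      _ ≤ _ := pow_le_pow_right₀ (by linarith) (by omega)
  have h2 : (0 : ℝ) < (Fintype.card K : ℝ) ^ b := by positivity
  nlinarith

/-- low rank part -/
theorem low_part {ψ : AddChar K ℂ} (hψ : ψ ≠ 1) (k g b : ℕ) (hk : 2 ≤ k) (hkK : (k : K) ≠ 0)
    (hgb : g ≤ b) (hq : (16 * (16 * (k : ℝ)) ^ (2 * k + 1)) ^ k ≤ (Fintype.card K : ℝ)) (m : ℕ) (hm : 1 ≤ m)
    (hmg : m ≤ g) (A : K[X] →ₗ[K] K) (hρ : IsRho A (k * (g + b)) m) :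
    ‖gS ψ k g b A‖ ^ (2 * k + 1) * (2 * (Fintype.card K : ℝ) ^ (2 * m))
      ≤ 2 * (1 / 16) ^ m * ((PP K g b).card : ℝ) ^ (2 * k + 1) := by
  set q : ℝ := (Fintype.card K : ℝ) with hqdef
  have hq2 : (2 : ℝ) ≤ q := by rw [hqdef]; exact_mod_cast two_le_q (K := K)
  have hk0 : (0 : ℝ) < k := by exact_mod_cast (by omega : 0 < k)
  set T : ℝ := q ^ ((1 : ℝ) / k) with hT
  have hT0 : 0 < T := by rw [hT]; positivity
  have hTk : T ^ k = q := by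
    rw [hT, ← Real.rpow_natCast, ← Real.rpow_mul (by linarith)]
    rw [one_div, inv_mul_cancel₀ hk0.ne', Real.rpow_one]
  have hTge : 16 * (16 * (k : ℝ)) ^ (2 * k + 1) ≤ T := by
    have : (16 * (16 * (k : ℝ)) ^ (2 * k + 1)) ^ k ≤ T ^ k := by rw [hTk]; exact hq
    exact le_of_pow_le_pow_left₀ (by omega) hT0.le this
  have hq0 : q ≠ 0 := by linarith
  have hττ : ((2 * (k : ℝ) / T) ^ m) ^ k * q ^ m = ((2 * (k : ℝ)) ^ k) ^ m := by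
    have h0 : ((2 * (k : ℝ) / T) ^ m) ^ k = ((2 * (k : ℝ) / T) ^ k) ^ m := by
      rw [← pow_mul, ← pow_mul, mul_comm m k]
    rw [h0, ← mul_pow, div_pow, hTk, div_mul_cancel₀ _ hq0]
  have hb := low_bound hψ k g b m hk hkK hgb hmg A hρ ((2 * k / T) ^ m) (by positivity) hττ.ge
  have hP : q ^ (g + 1) * q ^ b ≤ 2 * ((PP K g b).card : ℝ) := by
    have := card_PP_ge (K := K) g b
    rw [← hqdef, pow_add] at this
    linarith
  have h8 : (4 : ℝ) * 2 ^ m ≤ 8 ^ m := by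
    obtain ⟨j, rfl⟩ : ∃ j, m = j + 1 := ⟨m - 1, by omega⟩
    have : (2 : ℝ) ^ j ≤ 8 ^ j := pow_le_pow_left₀ (by norm_num) (by norm_num) j
    rw [pow_succ, pow_succ]; linarith
  have hN0 : (0 : ℝ) ≤ ((PP K g b).card : ℝ) := by positivity
  have h1 : ‖gS ψ k g b A‖ ≤ (16 * k / T) ^ m * ((PP K g b).card : ℝ) := by
    calc ‖gS ψ k g b A‖ ≤ 2 * (2 * k / T) ^ m * 2 ^ m * (q ^ (g + 1) * q ^ b) := hb
      _ ≤ 2 * (2 * k / T) ^ m * 2 ^ m * (2 * ((PP K g b).card : ℝ)) := by gcongr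
      _ = (2 * k / T) ^ m * (4 * 2 ^ m) * ((PP K g b).card : ℝ) := by ring
      _ ≤ (2 * k / T) ^ m * 8 ^ m * ((PP K g b).card : ℝ) := by gcongr
      _ = (16 * k / T) ^ m * ((PP K g b).card : ℝ) := by
          rw [← mul_pow]; congr 2; ring
  have h2 : ‖gS ψ k g b A‖ ^ (2 * k + 1) ≤
      ((16 * k / T) ^ m * ((PP K g b).card : ℝ)) ^ (2 * k + 1) := by gcongr
  have h3 : ((16 * k / T) ^ m) ^ (2 * k + 1) * (2 * q ^ (2 * m)) ≤ 2 * (1 / 16) ^ m := by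
    have e1 : ((16 * (k : ℝ) / T) ^ m) ^ (2 * k + 1) * (2 * q ^ (2 * m)) =
        2 * ((16 * k) ^ (2 * k + 1) / T) ^ m := by
      have hq' : q ^ (2 * m) = (T ^ (2 * k)) ^ m := by
        rw [← pow_mul, ← hTk, ← pow_mul]; congr 1; ring
      rw [hq', div_pow, div_pow, div_pow]
      have hTT : T ^ (2 * k + 1) = T ^ (2 * k) * T := pow_succ _ _
      have : (T ^ m) ^ (2 * k + 1) = (T ^ (2 * k)) ^ m * T ^ m := by
        rw [← pow_mul, mul_comm, pow_mul, hTT, mul_pow]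
      rw [this]
      have hTm : T ^ m ≠ 0 := by positivity
      have hTkm : (T ^ (2 * k)) ^ m ≠ 0 := by positivity
      field_simp
      rw [← pow_mul, ← pow_mul]
      congr 1
      ring
    rw [e1]
    have e2 : (16 * (k : ℝ)) ^ (2 * k + 1) / T ≤ 1 / 16 := by
      rw [div_le_div_iff₀ hT0 (by norm_num)]; linarith
    have e3 : 0 ≤ (16 * (k : ℝ)) ^ (2 * k + 1) / T := by positivity
    have := pow_le_pow_left₀ e3 e2 m
    linarith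
  calc ‖gS ψ k g b A‖ ^ (2 * k + 1) * (2 * q ^ (2 * m))
      ≤ ((16 * k / T) ^ m * ((PP K g b).card : ℝ)) ^ (2 * k + 1) * (2 * q ^ (2 * m)) := by gcongr
    _ = (((16 * k / T) ^ m) ^ (2 * k + 1) * (2 * q ^ (2 * m))) * ((PP K g b).card : ℝ) ^ (2 * k + 1) := by
        rw [mul_pow]; ring
    _ ≤ 2 * (1 / 16) ^ m * ((PP K g b).card : ℝ) ^ (2 * k + 1) := by gcongr

/-- constant -/
def C3 (k : ℕ) : ℕ := 4 ^ k * C2 k ^ 2 * 8 ^ (2 * k ^ 2) * 4 ^ (2 * k ^ 3) * C2 k ^ (2 * k ^ 2)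

/-- exponent -/
def E3 (k : ℕ) : ℕ := 2 * k ^ 4 + 4 * k ^ 2 + 1

theorem C2_pos (k : ℕ) : 1 ≤ C2 k := by
  unfold C2 C1
  exact Nat.one_le_iff_ne_zero.mpr (by positivity)

/-- high rank part -/
theorem high_part {ψ : AddChar K ℂ} (hψ : ψ ≠ 1) (k g b m : ℕ) (hk2 : 2 ≤ k)
    (hchar : ∀ j : ℕ, 1 ≤ j → j ≤ k → (j : K) ≠ 0) (hgb : g ≤ b) (hgm : g < m)
    (hq : C3 k ^ 4 ≤ Fintype.card K) (hn : g + b + 1 + 4 * E3 k ≤ 4 * g)
    (A : K[X] →ₗ[K] K) (hρ : IsRho A (k * (g + b)) m) :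
    ‖gS ψ k g b A‖ * (8 * (4 ^ (k * (g + b) + k) * (C2 k : ℝ) ^ (g + b + 1)
      * (Fintype.card K : ℝ) ^ (k ^ 2 + 1))) ≤ ((PP K g b).card : ℝ) := by
  have h := high_bound hψ k g b m hk2 hchar hgb hgm A hρ
  have hN := card_PP_ge (K := K) g b
  set q : ℝ := (Fintype.card K : ℝ) with hqdef
  set N : ℝ := ((PP K g b).card : ℝ) with hNdef
  set S : ℝ := ‖gS ψ k g b A‖ with hSdef
  set c : ℝ := (C2 k : ℝ) with hc
  set n : ℕ := g + b with hn'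
  have hq2 : (2 : ℝ) ≤ q := by rw [hqdef]; exact_mod_cast two_le_q (K := K)
  have hq0 : (0 : ℝ) < q := by linarith
  have hc1 : (1 : ℝ) ≤ c := by rw [hc]; exact_mod_cast C2_pos k
  have hS0 : 0 ≤ S := norm_nonneg _
  have hN0 : 0 ≤ N := by positivity
  -- lower bound for N^(2k)
  have hN2 : q ^ (2 * k * n + 2 * k) ≤ 4 ^ k * N ^ (2 * k) := by
    have h1 : q ^ (n + 1) ≤ 2 * N := by
      have e : g + 1 + b = n + 1 := by omega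
      rw [e] at hN; linarith
    have h2 : (q ^ (n + 1)) ^ (2 * k) ≤ (2 * N) ^ (2 * k) := by gcongr
    rw [← pow_mul, mul_pow] at h2
    have e1 : (n + 1) * (2 * k) = 2 * k * n + 2 * k := by ring
    have e2 : (2 : ℝ) ^ (2 * k) = 4 ^ k := by rw [pow_mul]; norm_num
    rw [e1, e2] at h2
    exact h2
  -- q^g S^(2k^2) ≤ N^(2k^2) 4^k c^(n+2) q^(2k^2+1)
  have hmain : q ^ g * S ^ (2 * k ^ 2) ≤ N ^ (2 * k ^ 2) * (4 ^ k * c ^ (n + 2) * q ^ (2 * k ^ 2 + 1)) := by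
    calc q ^ g * S ^ (2 * k ^ 2) ≤ N ^ (2 * k * (k - 1)) *
        (c ^ (n + 2) * q ^ (2 * k * n + 2 * k ^ 2 + 2 * k + 1)) := h
      _ = N ^ (2 * k * (k - 1)) * (c ^ (n + 2) * (q ^ (2 * k * n + 2 * k) * q ^ (2 * k ^ 2 + 1))) := by
          rw [← pow_add]; congr 3; ring
      _ ≤ N ^ (2 * k * (k - 1)) * (c ^ (n + 2) * ((4 ^ k * N ^ (2 * k)) * q ^ (2 * k ^ 2 + 1))) := by gcongr
      _ = (N ^ (2 * k * (k - 1)) * N ^ (2 * k)) * (4 ^ k * c ^ (n + 2) * q ^ (2 * k ^ 2 + 1)) := by ring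
      _ = N ^ (2 * k ^ 2) * (4 ^ k * c ^ (n + 2) * q ^ (2 * k ^ 2 + 1)) := by
          rw [← pow_add]
          congr 2
          obtain ⟨j, rfl⟩ : ∃ j, k = j + 1 := ⟨k - 1, by omega⟩
          simp only [Nat.add_sub_cancel]
          ring
  -- the constant
  set M : ℝ := 8 * (4 ^ (k * n + k) * c ^ (n + 1) * q ^ (k ^ 2 + 1)) with hM
  have hM0 : 0 ≤ M := by positivity
  have hMpow : 4 ^ k * c ^ (n + 2) * q ^ (2 * k ^ 2 + 1) * M ^ (2 * k ^ 2) ≤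
      ((C3 k : ℕ) : ℝ) ^ (n + 1) * q ^ (E3 k) := by
    have e1 : M ^ (2 * k ^ 2) = 8 ^ (2 * k ^ 2) * (4 ^ (2 * k ^ 3)) ^ (n + 1) *
        (c ^ (2 * k ^ 2)) ^ (n + 1) * q ^ (2 * k ^ 2 * (k ^ 2 + 1)) := by
      rw [hM, mul_pow, mul_pow, mul_pow, ← pow_mul, ← pow_mul, ← pow_mul, ← pow_mul, ← pow_mul]
      have a1 : (k * n + k) * (2 * k ^ 2) = 2 * k ^ 3 * (n + 1) := by ring
      have a2 : (n + 1) * (2 * k ^ 2) = 2 * k ^ 2 * (n + 1) := by ring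
      have a3 : (k ^ 2 + 1) * (2 * k ^ 2) = 2 * k ^ 2 * (k ^ 2 + 1) := by ring
      rw [a1, a2, a3]
      ring
    have e2 : ((C3 k : ℕ) : ℝ) ^ (n + 1) = (4 ^ k) ^ (n + 1) * (c ^ 2) ^ (n + 1) *
        (8 ^ (2 * k ^ 2)) ^ (n + 1) * (4 ^ (2 * k ^ 3)) ^ (n + 1) * (c ^ (2 * k ^ 2)) ^ (n + 1) := by
      unfold C3
      push_cast
      rw [mul_pow, mul_pow, mul_pow, mul_pow]
    have e3 : q ^ (E3 k) = q ^ (2 * k ^ 2 + 1) * q ^ (2 * k ^ 2 * (k ^ 2 + 1)) := by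
      rw [← pow_add]; congr 1; unfold E3; ring
    rw [e1, e2, e3]
    have b1 : (4 : ℝ) ^ k ≤ (4 ^ k) ^ (n + 1) := by
      calc (4 : ℝ) ^ k = (4 ^ k) ^ 1 := (pow_one _).symm
        _ ≤ _ := pow_le_pow_right₀ (one_le_pow₀ (by norm_num)) (by omega)
    have b2 : c ^ (n + 2) ≤ (c ^ 2) ^ (n + 1) := by
      rw [← pow_mul]; exact pow_le_pow_right₀ hc1 (by omega)
    have b3 : (8 : ℝ) ^ (2 * k ^ 2) ≤ (8 ^ (2 * k ^ 2)) ^ (n + 1) := by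
      calc (8 : ℝ) ^ (2 * k ^ 2) = (8 ^ (2 * k ^ 2)) ^ 1 := (pow_one _).symm
        _ ≤ _ := pow_le_pow_right₀ (one_le_pow₀ (by norm_num)) (by omega)
    calc 4 ^ k * c ^ (n + 2) * q ^ (2 * k ^ 2 + 1) *
          (8 ^ (2 * k ^ 2) * (4 ^ (2 * k ^ 3)) ^ (n + 1) * (c ^ (2 * k ^ 2)) ^ (n + 1) *
            q ^ (2 * k ^ 2 * (k ^ 2 + 1)))
        = (4 ^ k * c ^ (n + 2) * 8 ^ (2 * k ^ 2)) * ((4 ^ (2 * k ^ 3)) ^ (n + 1) *
            (c ^ (2 * k ^ 2)) ^ (n + 1) * (q ^ (2 * k ^ 2 + 1) * q ^ (2 * k ^ 2 * (k ^ 2 + 1)))) := by ring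
      _ ≤ ((4 ^ k) ^ (n + 1) * (c ^ 2) ^ (n + 1) * (8 ^ (2 * k ^ 2)) ^ (n + 1)) *
            ((4 ^ (2 * k ^ 3)) ^ (n + 1) *
            (c ^ (2 * k ^ 2)) ^ (n + 1) * (q ^ (2 * k ^ 2 + 1) * q ^ (2 * k ^ 2 * (k ^ 2 + 1)))) := by
          gcongr
      _ = _ := by ring
  have hC3 : ((C3 k : ℕ) : ℝ) ^ (n + 1) * q ^ (E3 k) ≤ q ^ g := by
    have h4 : (((C3 k : ℕ) : ℝ) ^ (n + 1) * q ^ (E3 k)) ^ 4 ≤ (q ^ g) ^ 4 := by
      have h5 : ((C3 k : ℕ) : ℝ) ^ 4 ≤ q := by rw [hqdef]; exact_mod_cast hq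
      calc (((C3 k : ℕ) : ℝ) ^ (n + 1) * q ^ (E3 k)) ^ 4
          = (((C3 k : ℕ) : ℝ) ^ 4) ^ (n + 1) * q ^ (4 * E3 k) := by
            rw [mul_pow, ← pow_mul, ← pow_mul, ← pow_mul]; congr 2 <;> ring
        _ ≤ q ^ (n + 1) * q ^ (4 * E3 k) := by gcongr
        _ = q ^ (n + 1 + 4 * E3 k) := (pow_add _ _ _).symm
        _ ≤ q ^ (4 * g) := pow_le_pow_right₀ (by linarith) (by omega)
        _ = (q ^ g) ^ 4 := by rw [← pow_mul]; congr 1; ring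
    exact le_of_pow_le_pow_left₀ (by norm_num) (by positivity) h4
  have hfin : (S * M) ^ (2 * k ^ 2) ≤ N ^ (2 * k ^ 2) := by
    have hqg : 0 < q ^ g := by positivity
    have : q ^ g * (S * M) ^ (2 * k ^ 2) ≤ q ^ g * N ^ (2 * k ^ 2) := by
      calc q ^ g * (S * M) ^ (2 * k ^ 2) = (q ^ g * S ^ (2 * k ^ 2)) * M ^ (2 * k ^ 2) := by
            rw [mul_pow]; ring
        _ ≤ (N ^ (2 * k ^ 2) * (4 ^ k * c ^ (n + 2) * q ^ (2 * k ^ 2 + 1))) * M ^ (2 * k ^ 2) := by gcongr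
        _ = N ^ (2 * k ^ 2) * (4 ^ k * c ^ (n + 2) * q ^ (2 * k ^ 2 + 1) * M ^ (2 * k ^ 2)) := by ring
        _ ≤ N ^ (2 * k ^ 2) * (((C3 k : ℕ) : ℝ) ^ (n + 1) * q ^ (E3 k)) := by gcongr
        _ ≤ N ^ (2 * k ^ 2) * q ^ g := by gcongr
        _ = q ^ g * N ^ (2 * k ^ 2) := mul_comm _ _
    exact le_of_mul_le_mul_left this hqg
  exact le_of_pow_le_pow_left₀ (by positivity) hN0 hfin

/-- second moment over the high part -/
theorem moment_norm {ψ : AddChar K ℂ} (hψ : ψ ≠ 1) (k g b : ℕ) (hk2 : 2 ≤ k)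
    (hchar : ∀ j : ℕ, 1 ≤ j → j ≤ k → (j : K) ≠ 0) :
    ∑ c : Fin (k * (g + b) + 1) → K, ‖gS ψ k g b (lin c)‖ ^ (2 * k)
      ≤ (4 ^ (k * (g + b) + k) * (C2 k : ℝ) ^ (g + b + 1) * (Fintype.card K : ℝ) ^ (k ^ 2 + 1))
        * ((PP K g b).card : ℝ) ^ (2 * k) := by
  have h := moment_family hψ k g b (by omega)
  have hE : (En k k (SS K (g + b)) : ℝ) ≤
      (C2 k : ℝ) ^ (g + b + 1) * (Fintype.card K : ℝ) ^ (k * (g + b) + k ^ 2 + k) := by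
    exact_mod_cast En_SS_le k (g + b) hk2 hchar
  have hN := card_PP_ge (K := K) g b
  set q : ℝ := (Fintype.card K : ℝ) with hqdef
  set N : ℝ := ((PP K g b).card : ℝ) with hNdef
  set c : ℝ := (C2 k : ℝ) with hc
  set n : ℕ := g + b with hn'
  have hq2 : (2 : ℝ) ≤ q := by rw [hqdef]; exact_mod_cast two_le_q (K := K)
  have hq0 : (0 : ℝ) < q := by linarith
  have hc1 : (1 : ℝ) ≤ c := by rw [hc]; exact_mod_cast C2_pos k
  have hN0 : 0 ≤ N := by positivity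
  have hN2 : q ^ (2 * k * n + 2 * k) ≤ 4 ^ k * N ^ (2 * k) := by
    have h1 : q ^ (n + 1) ≤ 2 * N := by
      have e : g + 1 + b = n + 1 := by omega
      rw [e] at hN; linarith
    have h2 : (q ^ (n + 1)) ^ (2 * k) ≤ (2 * N) ^ (2 * k) := by gcongr
    rw [← pow_mul, mul_pow] at h2
    have e1 : (n + 1) * (2 * k) = 2 * k * n + 2 * k := by ring
    have e2 : (2 : ℝ) ^ (2 * k) = 4 ^ k := by rw [pow_mul]; norm_num
    rw [e1, e2] at h2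
    exact h2
  calc _ ≤ ((2 : ℝ) ^ n) ^ (2 * k) * (q ^ (k * n + 1) * (En k k (SS K n) : ℝ)) := h
    _ ≤ ((2 : ℝ) ^ n) ^ (2 * k) * (q ^ (k * n + 1) * (c ^ (n + 1) * q ^ (k * n + k ^ 2 + k))) := by gcongr
    _ = 4 ^ (k * n) * c ^ (n + 1) * q ^ (2 * k * n + k ^ 2 + k + 1) := by
        have e1 : ((2 : ℝ) ^ n) ^ (2 * k) = 4 ^ (k * n) := by
          rw [← pow_mul, (by norm_num : (4 : ℝ) = 2 ^ 2), ← pow_mul]; congr 1; ring
        have e2 : q ^ (2 * k * n + k ^ 2 + k + 1) = q ^ (k * n + 1) * q ^ (k * n + k ^ 2 + k) := by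
          rw [← pow_add]; congr 1; ring
        rw [e1, e2]; ring
    _ ≤ 4 ^ (k * n) * c ^ (n + 1) * (q ^ (2 * k * n + 2 * k) * q ^ (k ^ 2 + 1)) := by
        rw [← pow_add]
        have hexp : 2 * k * n + k ^ 2 + k + 1 ≤ 2 * k * n + 2 * k + (k ^ 2 + 1) := by omega
        have := pow_le_pow_right₀ (by linarith : (1 : ℝ) ≤ q) hexp
        gcongr
    _ ≤ 4 ^ (k * n) * c ^ (n + 1) * ((4 ^ k * N ^ (2 * k)) * q ^ (k ^ 2 + 1)) := by gcongr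
    _ = (4 ^ (k * n + k) * c ^ (n + 1) * q ^ (k ^ 2 + 1)) * N ^ (2 * k) := by
        rw [pow_add]; ring

end MP_570bef_ntF
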