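import Pool.Agent.Lib.MP_570bef_ntF.Fin

/-! Final assembly, second part. -/

open Polynomial

namespace MP_570bef_ntF

variable {K : Type} [Field K] [Fintype K]

theorem gS_norm_le (ψ : AddChar K ℂ) (k g b : ℕ) (A : K[X] →ₗ[K] K) :
    ‖gS ψ k g b A‖ ≤ ((PP K g b).card : ℝ) := by
  unfold gS
  calc ‖∑ p ∈ PP K g b, ψ (A ((p.1 * p.2) ^ k))‖ ≤ ∑ p ∈ PP K g b, ‖ψ (A ((p.1 * p.2) ^ k))‖ :=
        norm_sum_le _ _
    _ = ∑ p ∈ PP K g b, (1 : ℝ) := Finset.sum_congr rfl (fun p _ => norm_char ψ _)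
    _ = _ := by simp

theorem gS_zero (ψ : AddChar K ℂ) (k g b : ℕ) :
    gS ψ k g b (lin (0 : Fin (k * (g + b) + 1) → K)) = ((PP K g b).card : ℂ) := by
  unfold gS
  simp [lin_zero]

open Classical in
/-- the total contribution of the nonzero functionals is smaller than the main term -/
theorem minor_lt {ψ : AddChar K ℂ} (hψ : ψ ≠ 1) (k g b : ℕ) (hk2 : 2 ≤ k)
    (hchar : ∀ j : ℕ, 1 ≤ j → j ≤ k → (j : K) ≠ 0) (hgb : g ≤ b)
    (hq1 : (16 * (16 * (k : ℝ)) ^ (2 * k + 1)) ^ k ≤ (Fintype.card K : ℝ))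
    (hq2 : C3 k ^ 4 ≤ Fintype.card K) (hn : g + b + 1 + 4 * E3 k ≤ 4 * g) :
    ∑ c ∈ (Finset.univ : Finset (Fin (k * (g + b) + 1) → K)).erase 0, ‖gS ψ k g b (lin c)‖ ^ (2 * k + 1)
      < ((PP K g b).card : ℝ) ^ (2 * k + 1) := by
  set N : ℝ := ((PP K g b).card : ℝ) with hN
  set q : ℝ := (Fintype.card K : ℝ) with hq
  have hqq : (2 : ℝ) ≤ q := by rw [hq]; exact_mod_cast two_le_q (K := K)
  have hNpos : 0 < N := by
    have := card_PP_ge (K := K) g b
    rw [← hq, ← hN] at this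
    have h0 : (0 : ℝ) < q ^ (g + 1 + b) := by positivity
    linarith
  set D : ℕ := k * (g + b) with hD
  set S : (Fin (D + 1) → K) → ℝ := fun c => ‖gS ψ k g b (lin c)‖ with hS
  have hkK : (k : K) ≠ 0 := hchar k (by omega) le_rfl
  set M : ℝ := (4 ^ (k * (g + b) + k) * (C2 k : ℝ) ^ (g + b + 1) * q ^ (k ^ 2 + 1)) with hM
  have hMpos : 0 < M := by
    have : 1 ≤ C2 k := C2_pos k
    have h1 : (0 : ℝ) < (C2 k : ℝ) := by exact_mod_cast this
    positivity
  -- pointwise: each nonzero c is low (for some m) or high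
  have hpt : ∀ c ∈ (Finset.univ : Finset (Fin (D + 1) → K)).erase 0,
      S c ^ (2 * k + 1) ≤ (∑ m ∈ Finset.Icc 1 g, if IsRho (lin c) D m then S c ^ (2 * k + 1) else 0)
        + (N / (8 * M)) * S c ^ (2 * k) := by
    intro c hc
    have hc0 : c ≠ 0 := (Finset.mem_erase.mp hc).1
    obtain ⟨m, hmD, hρ⟩ := exists_rho (lin c) D
    have hm1 : 1 ≤ m := by
      rcases Nat.eq_zero_or_pos m with h0 | h0
      · subst h0
        exact absurd (lin_eq_zero (rho_zero.mp hρ)) hc0
      · exact h0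
    have hS0 : 0 ≤ S c := norm_nonneg _
    by_cases hmg : m ≤ g
    · have h1 : S c ^ (2 * k + 1) ≤
          ∑ m ∈ Finset.Icc 1 g, if IsRho (lin c) D m then S c ^ (2 * k + 1) else 0 := by
        have h2 := Finset.single_le_sum (f := fun m => if IsRho (lin c) D m then S c ^ (2 * k + 1) else 0)
          (s := Finset.Icc 1 g) (fun i _ => by
            split_ifs <;> positivity) (Finset.mem_Icc.mpr ⟨hm1, hmg⟩)
        rw [if_pos hρ] at h2
        exact h2
      have h3 : 0 ≤ (N / (8 * M)) * S c ^ (2 * k) := by positivity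
      linarith
    · have h1 := high_part hψ k g b m hk2 hchar hgb (by omega) hq2 hn (lin c) hρ
      have h2 : S c ≤ N / (8 * M) := by
        rw [le_div_iff₀ (by positivity)]
        exact h1
      have h3 : 0 ≤ ∑ m ∈ Finset.Icc 1 g, if IsRho (lin c) D m then S c ^ (2 * k + 1) else 0 :=
        Finset.sum_nonneg (fun i _ => by split_ifs <;> positivity)
      have h5 : 0 ≤ S c ^ (2 * k) := by positivity
      have h4 : S c ^ (2 * k + 1) ≤ (N / (8 * M)) * S c ^ (2 * k) := by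
        rw [pow_succ, mul_comm]; gcongr
      linarith
  have hlow : ∑ c : Fin (D + 1) → K,
      (∑ m ∈ Finset.Icc 1 g, if IsRho (lin c) D m then S c ^ (2 * k + 1) else 0)
        ≤ (2 / 15) * N ^ (2 * k + 1) := by
    rw [Finset.sum_comm]
    have hm : ∀ m ∈ Finset.Icc 1 g,
        ∑ c : Fin (D + 1) → K, (if IsRho (lin c) D m then S c ^ (2 * k + 1) else 0)
          ≤ 2 * (1 / 16) ^ m * N ^ (2 * k + 1) := by
      intro m hm
      rw [Finset.mem_Icc] at hm
      have hmD : m ≤ D + 1 := by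
        have : g + b ≤ D := by rw [hD]; nlinarith
        omega
      have hcnt : (cnt (fun c : Fin (D + 1) → K => IsRho (lin c) D m) : ℝ) ≤ 2 * q ^ (2 * m) := by
        rw [hq]; exact_mod_cast card_rho_le D m hmD
      -- bound each term by 2 (1/16)^m N^s / (2 q^(2m))
      have hterm : ∀ c : Fin (D + 1) → K, (if IsRho (lin c) D m then S c ^ (2 * k + 1) else 0) ≤
          (if IsRho (lin c) D m then 2 * (1 / 16) ^ m * N ^ (2 * k + 1) / (2 * q ^ (2 * m)) else 0) := by
        intro c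
        split_ifs with h
        · rw [le_div_iff₀ (by positivity)]
          exact low_part hψ k g b hk2 hkK hgb hq1 m hm.1 hm.2 (lin c) h
        · exact le_rfl
      calc ∑ c : Fin (D + 1) → K, (if IsRho (lin c) D m then S c ^ (2 * k + 1) else 0)
          ≤ ∑ c : Fin (D + 1) → K,
            (if IsRho (lin c) D m then 2 * (1 / 16) ^ m * N ^ (2 * k + 1) / (2 * q ^ (2 * m)) else 0) :=
            Finset.sum_le_sum (fun c _ => hterm c)
        _ = (cnt (fun c : Fin (D + 1) → K => IsRho (lin c) D m) : ℝ) *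
            (2 * (1 / 16) ^ m * N ^ (2 * k + 1) / (2 * q ^ (2 * m))) := by
            rw [← Finset.sum_filter, Finset.sum_const, cnt_eq, nsmul_eq_mul]
        _ ≤ (2 * q ^ (2 * m)) * (2 * (1 / 16) ^ m * N ^ (2 * k + 1) / (2 * q ^ (2 * m))) := by gcongr
        _ = 2 * (1 / 16) ^ m * N ^ (2 * k + 1) := by
            field_simp
    calc _ ≤ ∑ m ∈ Finset.Icc 1 g, 2 * (1 / 16) ^ m * N ^ (2 * k + 1) := Finset.sum_le_sum hm
      _ = (2 * N ^ (2 * k + 1)) * ∑ m ∈ Finset.Icc 1 g, (1 / 16 : ℝ) ^ m := by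
          rw [Finset.mul_sum]; apply Finset.sum_congr rfl; intro m _; ring
      _ ≤ (2 * N ^ (2 * k + 1)) * (1 / 15) := by
          gcongr
          have : ∀ G : ℕ, ∑ m ∈ Finset.Icc 1 G, (1 / 16 : ℝ) ^ m = (1 - (1 / 16) ^ G) / 15 := by
            intro G
            induction G with
            | zero => simp
            | succ n ih =>
              rw [Finset.sum_Icc_succ_top (by omega), ih, pow_succ]; ring
          rw [this]
          have : (0 : ℝ) ≤ (1 / 16) ^ g := by positivity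
          linarith
      _ = (2 / 15) * N ^ (2 * k + 1) := by ring
  have hmom := moment_norm hψ k g b hk2 hchar
  have hmom' : ∑ c : Fin (D + 1) → K, S c ^ (2 * k) ≤ M * N ^ (2 * k) := hmom
  calc ∑ c ∈ (Finset.univ : Finset (Fin (D + 1) → K)).erase 0, S c ^ (2 * k + 1)
      ≤ ∑ c ∈ (Finset.univ : Finset (Fin (D + 1) → K)).erase 0,
        ((∑ m ∈ Finset.Icc 1 g, if IsRho (lin c) D m then S c ^ (2 * k + 1) else 0)
        + (N / (8 * M)) * S c ^ (2 * k)) := Finset.sum_le_sum hpt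
    _ ≤ ∑ c : Fin (D + 1) → K,
        ((∑ m ∈ Finset.Icc 1 g, if IsRho (lin c) D m then S c ^ (2 * k + 1) else 0)
        + (N / (8 * M)) * S c ^ (2 * k)) := by
        apply Finset.sum_le_sum_of_subset_of_nonneg (Finset.erase_subset _ _)
        intro c _ _
        have h3 : 0 ≤ ∑ m ∈ Finset.Icc 1 g, if IsRho (lin c) D m then S c ^ (2 * k + 1) else 0 :=
          Finset.sum_nonneg (fun i _ => by
            have : 0 ≤ S c := norm_nonneg _
            split_ifs <;> positivity)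
        have : 0 ≤ S c := norm_nonneg _
        positivity
    _ = (∑ c : Fin (D + 1) → K,
        (∑ m ∈ Finset.Icc 1 g, if IsRho (lin c) D m then S c ^ (2 * k + 1) else 0))
        + (N / (8 * M)) * ∑ c : Fin (D + 1) → K, S c ^ (2 * k) := by
        rw [Finset.sum_add_distrib, Finset.mul_sum]
    _ ≤ (2 / 15) * N ^ (2 * k + 1) + (N / (8 * M)) * (M * N ^ (2 * k)) := by gcongr
    _ = (2 / 15) * N ^ (2 * k + 1) + (1 / 8) * N ^ (2 * k + 1) := by
        rw [pow_succ]; field_simp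
    _ < N ^ (2 * k + 1) := by
        have : 0 < N ^ (2 * k + 1) := by positivity
        linarith

theorem waring_aux (k g b : ℕ) (hk2 : 2 ≤ k)
    (hchar : ∀ j : ℕ, 1 ≤ j → j ≤ k → (j : K) ≠ 0) (hgb : g ≤ b)
    (hq1 : (16 * (16 * (k : ℝ)) ^ (2 * k + 1)) ^ k ≤ (Fintype.card K : ℝ))
    (hq2 : C3 k ^ 4 ≤ Fintype.card K) (hn : g + b + 1 + 4 * E3 k ≤ 4 * g)
    (F : K[X]) (hF : F.natDegree ≤ k * (g + b)) :
    ∃ x : Fin (2 * k + 1) → K[X], (∀ i, (x i).natDegree ≤ g + b) ∧ ∑ i, x i ^ k = F := by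
  classical
  obtain ⟨ψ, hψ⟩ := exists_char K
  by_contra hcon
  have hempty : ((Fintype.piFinset (fun _ : Fin (2 * k + 1) => PP K g b)).filter
          (fun p => ∑ i, ((p i).1 * (p i).2) ^ k = F)) = ∅ := by
    rw [Finset.filter_eq_empty_iff]
    intro p hp hpF
    apply hcon
    refine ⟨fun i => (p i).1 * (p i).2, fun i => ?_, hpF⟩
    have hi := (Fintype.mem_piFinset.mp hp) i
    unfold PP at hi
    rw [Finset.mem_product, Finset.mem_erase, mem_SS, mem_MM] at hi
    calc ((p i).1 * (p i).2).natDegree ≤ (p i).1.natDegree + (p i).2.natDegree :=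
          Polynomial.natDegree_mul_le
      _ ≤ g + b := by omega
  have hcf := count_formula hψ k g b (2 * k + 1) (by omega) F hF
  have hcard0 : (((Fintype.piFinset (fun _ : Fin (2 * k + 1) => PP K g b)).filter
          (fun p => ∑ i, ((p i).1 * (p i).2) ^ k = F)).card : ℂ) = 0 := by
    have : ((Fintype.piFinset (fun _ : Fin (2 * k + 1) => PP K g b)).filter
          (fun p => ∑ i, ((p i).1 * (p i).2) ^ k = F)).card = 0 := by
      rw [Finset.card_eq_zero]; convert hempty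
    rw [this]; simp
  have hzero : ∑ c : Fin (k * (g + b) + 1) → K,
      gS ψ k g b (lin c) ^ (2 * k + 1) * ψ (-(lin c F)) = 0 := by
    rw [hcf]
    convert mul_zero _
  rw [← Finset.add_sum_erase _ _ (Finset.mem_univ (0 : Fin (k * (g + b) + 1) → K))] at hzero
  rw [gS_zero, lin_zero, neg_zero, AddChar.map_zero_eq_one, mul_one] at hzero
  have hnorm : ((PP K g b).card : ℝ) ^ (2 * k + 1) ≤
      ∑ c ∈ (Finset.univ : Finset (Fin (k * (g + b) + 1) → K)).erase 0,
        ‖gS ψ k g b (lin c)‖ ^ (2 * k + 1) := by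
    have h1 : ((PP K g b).card : ℂ) ^ (2 * k + 1) =
        -∑ c ∈ (Finset.univ : Finset (Fin (k * (g + b) + 1) → K)).erase 0,
          gS ψ k g b (lin c) ^ (2 * k + 1) * ψ (-(lin c F)) := eq_neg_of_add_eq_zero_left hzero
    have h2 := congrArg norm h1
    rw [norm_neg, norm_pow, Complex.norm_natCast] at h2
    rw [h2]
    calc _ ≤ ∑ c ∈ (Finset.univ : Finset (Fin (k * (g + b) + 1) → K)).erase 0,
          ‖gS ψ k g b (lin c) ^ (2 * k + 1) * ψ (-(lin c F))‖ := norm_sum_le _ _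
      _ = _ := by
          apply Finset.sum_congr rfl
          intro c _
          rw [norm_mul, norm_pow, norm_char, mul_one]
  exact absurd hnorm (not_le.mpr (minor_lt hψ k g b hk2 hchar hgb hq1 hq2 hn))

/-- the constant `q₀(k)` -/
def Q0 (k : ℕ) : ℕ := (16 * (16 * k) ^ (2 * k + 1)) ^ k + C3 k ^ 4

theorem waring_ff (k : ℕ) (hk2 : 2 ≤ k) (K : Type) [Field K] [Fintype K]
    (hchar : ∀ j : ℕ, 1 ≤ j → j ≤ k → (j : K) ≠ 0) (hq : Q0 k ≤ Fintype.card K) (n : ℕ)
    (hn : 4 * E3 k + 3 ≤ n) (F : K[X]) (hF : F.natDegree ≤ k * n) :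
    ∃ x : Fin (2 * k + 1) → K[X], (∀ i, (x i).natDegree ≤ n) ∧ ∑ i, x i ^ k = F := by
  have e : n / 2 + (n - n / 2) = n := by omega
  have h := waring_aux (K := K) k (n / 2) (n - n / 2) hk2 hchar (by omega)
    (by
      have h1 : (16 * (16 * k) ^ (2 * k + 1)) ^ k ≤ Fintype.card K := by
        unfold Q0 at hq; omega
      exact_mod_cast h1)
    (by unfold Q0 at hq; omega) (by omega) F (by rw [e]; exact hF)
  rw [e] at h
  exact h

end MP_570bef_ntF
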