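import Pool.Agent.Lib.MP_570bef_ntF.FoA

/-! JOB FoB.  Energies as moments.

`energy_weight`: `‖z‖^(2t) = z^t * conj z^t`; expand both powers (`Finset.sum_pow'`-type: `(∑ p ∈ P, a p)^t = ∑_{p̄ ∈ P^t} ∏ i, a (p̄ i)`, Mathlib `Finset.sum_pow'` or `Finset.prod_univ_sum`
with `Fintype.piFinset (fun _ : Fin t => P)`), sum over `c`:
`∑_c ‖..‖^(2t) = ∑_{p̄, p̄'} (∏ w (p̄ i)) (∏ conj (w (p̄' i))) ∑_c ψ (lin c (∑ φ(p̄ i)^k - ∑ φ(p̄' i)^k))` (`ψ` multiplicative, `conj (ψ a) = ψ (-a)` : `AddChar.map_neg_eq_conj`), by `orth`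
(the argument has degree `≤ k n ≤ D`) equal to `q^(D+1) * ∑_{(p̄, p̄') : ∑ φ^k = ∑ φ'^k} ..`, whose norm is at most `q^(D+1) * #{(p̄, p̄') ∈ P^t × P^t : ∑ φ(p̄ i)^k = ∑ φ(p̄' i)^k}`;
the map `(p̄, p̄') ↦ (φ ∘ p̄, φ ∘ p̄')` into the set counted by `En k t Y` has fibres of size at most `M^(2t)`.
`energy_eq`: the same computation with `P = Y`, `φ = id`, `w = 1` (equality everywhere). -/

open Polynomial

namespace MP_570bef_ntF

variable {K : Type} [Field K] [Fintype K]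

omit [Fintype K] in
theorem FoB_char_sum (ψ : AddChar K ℂ) {ι : Type} (s : Finset ι) (f : ι → K) :
    ψ (∑ i ∈ s, f i) = ∏ i ∈ s, ψ (f i) := by
  classical
  induction s using Finset.induction_on with
  | empty => simp
  | insert a s ha ih => rw [Finset.sum_insert ha, Finset.prod_insert ha, AddChar.map_add_eq_mul, ih]

/-- expansion of a power of the exponential sum -/
theorem FoB_pow {ψ : AddChar K ℂ} (k t D : ℕ) {ι : Type} (P : Finset ι) (φ : ι → K[X]) (w : ι → ℂ)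
    (c : Fin (D + 1) → K) :
    (∑ p ∈ P, w p * ψ (lin c (φ p ^ k))) ^ t
      = ∑ x ∈ Fintype.piFinset (fun _ : Fin t => P),
          (∏ i, w (x i)) * ψ (lin c (∑ i, φ (x i) ^ k)) := by
  classical
  rw [Finset.sum_pow']
  apply Finset.sum_congr rfl
  intro x _
  rw [Finset.prod_mul_distrib, map_sum, FoB_char_sum]

open Classical in
theorem FoB_main {ψ : AddChar K ℂ} (hψ : ψ ≠ 1) (k t n D : ℕ) (hD : k * n ≤ D)
    {ι : Type} (P : Finset ι) (φ : ι → K[X]) (hφ : ∀ p ∈ P, (φ p).natDegree ≤ n) (w : ι → ℂ) :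
    ((∑ c : Fin (D + 1) → K, ‖∑ p ∈ P, w p * ψ (lin c (φ p ^ k))‖ ^ (2 * t) : ℝ) : ℂ)
      = ∑ x ∈ Fintype.piFinset (fun _ : Fin t => P), ∑ y ∈ Fintype.piFinset (fun _ : Fin t => P),
          (∏ i, w (x i)) * (starRingEnd ℂ) (∏ i, w (y i)) *
            (if ∑ i, φ (x i) ^ k = ∑ i, φ (y i) ^ k then (Fintype.card K : ℂ) ^ (D + 1) else 0) := by
  have hdeg : ∀ x ∈ Fintype.piFinset (fun _ : Fin t => P), (∑ i, φ (x i) ^ k).natDegree ≤ D := by
    intro x hx
    rw [Fintype.mem_piFinset] at hx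
    apply Polynomial.natDegree_sum_le_of_forall_le
    intro i _
    refine (Polynomial.natDegree_pow_le).trans (le_trans ?_ hD)
    exact Nat.mul_le_mul_left k (hφ _ (hx i))
  have h1 : ∀ c : Fin (D + 1) → K,
      ((‖∑ p ∈ P, w p * ψ (lin c (φ p ^ k))‖ ^ (2 * t) : ℝ) : ℂ)
      = ∑ x ∈ Fintype.piFinset (fun _ : Fin t => P), ∑ y ∈ Fintype.piFinset (fun _ : Fin t => P),
          (∏ i, w (x i)) * (starRingEnd ℂ) (∏ i, w (y i)) *
            ψ (lin c (∑ i, φ (x i) ^ k - ∑ i, φ (y i) ^ k)) := by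
    intro c
    set S := ∑ p ∈ P, w p * ψ (lin c (φ p ^ k)) with hS
    have h2 : ((‖S‖ ^ (2 * t) : ℝ) : ℂ) = S ^ t * (starRingEnd ℂ) (S ^ t) := by
      rw [Complex.mul_conj, Complex.normSq_eq_norm_sq, norm_pow, ← pow_mul]
      push_cast
      ring_nf
    rw [h2, hS, FoB_pow, map_sum, Finset.sum_mul_sum]
    apply Finset.sum_congr rfl
    intro x _
    apply Finset.sum_congr rfl
    intro y _
    rw [map_mul, map_sub, AddChar.map_sub_eq_div, div_eq_mul_inv, ← AddChar.map_neg_eq_inv,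
      AddChar.map_neg_eq_conj]
    ring
  push_cast
  have h3 : ∀ c : Fin (D + 1) → K, ((‖∑ p ∈ P, w p * ψ (lin c (φ p ^ k))‖ : ℝ) : ℂ) ^ (2 * t)
      = ((‖∑ p ∈ P, w p * ψ (lin c (φ p ^ k))‖ ^ (2 * t) : ℝ) : ℂ) := by
    intro c; push_cast; rfl
  rw [Finset.sum_congr rfl (fun c _ => (h3 c).trans (h1 c)), Finset.sum_comm]
  apply Finset.sum_congr rfl
  intro x hx
  rw [Finset.sum_comm]
  apply Finset.sum_congr rfl
  intro y hy
  rw [← Finset.mul_sum, orth hψ D _ ((Polynomial.natDegree_sub_le _ _).trans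
    (max_le (hdeg x hx) (hdeg y hy)))]
  simp only [sub_eq_zero]

theorem energy_eq {ψ : AddChar K ℂ} (hψ : ψ ≠ 1) (k t n D : ℕ) (hD : k * n ≤ D) (Y : Finset K[X])
    (hY : ∀ y ∈ Y, y.natDegree ≤ n) :
    ∑ c : Fin (D + 1) → K, ‖fS ψ k (lin c) Y‖ ^ (2 * t) = (Fintype.card K : ℝ) ^ (D + 1) * (En k t Y : ℝ) := by
  classical
  have h := FoB_main hψ k t n D hD Y id (by simpa using hY) (fun _ => 1)
  have h0 : ∀ c : Fin (D + 1) → K, (∑ p ∈ Y, (1 : ℂ) * ψ (lin c (id p ^ k))) = fS ψ k (lin c) Y := by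
    intro c; simp [fS]
  simp only [h0] at h
  have h2 : (∑ x ∈ Fintype.piFinset (fun _ : Fin t => Y), ∑ y ∈ Fintype.piFinset (fun _ : Fin t => Y),
          (∏ _i : Fin t, (1 : ℂ)) * (starRingEnd ℂ) (∏ _i : Fin t, (1 : ℂ)) *
            (if ∑ i, (id (x i) : K[X]) ^ k = ∑ i, (id (y i) : K[X]) ^ k then (Fintype.card K : ℂ) ^ (D + 1) else 0))
        = (((Fintype.card K : ℝ) ^ (D + 1) * (En k t Y : ℝ) : ℝ) : ℂ) := by
    unfold En
    rw [Finset.card_filter, Finset.sum_product]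
    push_cast
    rw [Finset.mul_sum]
    apply Finset.sum_congr rfl
    intro x _
    rw [Finset.mul_sum]
    apply Finset.sum_congr rfl
    intro y _
    simp only [Finset.prod_const_one, map_one, mul_one, one_mul, id]
    split_ifs with h1 <;> simp
  rw [h2] at h
  exact_mod_cast h

open Classical in
theorem energy_weight {ψ : AddChar K ℂ} (hψ : ψ ≠ 1) (k t n D : ℕ) (hD : k * n ≤ D) (Y : Finset K[X])
    (hY : ∀ y ∈ Y, y.natDegree ≤ n) {ι : Type} (P : Finset ι) (φ : ι → K[X]) (hφ : ∀ p ∈ P, φ p ∈ Y)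
    (M : ℕ) (hM : ∀ x ∈ Y, (P.filter (fun p => φ p = x)).card ≤ M) (w : ι → ℂ) (hw : ∀ p ∈ P, ‖w p‖ ≤ 1) :
    ∑ c : Fin (D + 1) → K, ‖∑ p ∈ P, w p * ψ (lin c (φ p ^ k))‖ ^ (2 * t)
      ≤ (M : ℝ) ^ (2 * t) * ((Fintype.card K : ℝ) ^ (D + 1) * (En k t Y : ℝ)) := by
  have h := FoB_main hψ k t n D hD P φ (fun p hp => hY _ (hφ p hp)) w
  have hpos : 0 ≤ ∑ c : Fin (D + 1) → K, ‖∑ p ∈ P, w p * ψ (lin c (φ p ^ k))‖ ^ (2 * t) :=
    Finset.sum_nonneg (fun c _ => by positivity)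
  have hnorm := congrArg norm h
  rw [Complex.norm_real, Real.norm_eq_abs, abs_of_nonneg hpos] at hnorm
  rw [hnorm]
  have hq : (0 : ℝ) ≤ (Fintype.card K : ℝ) ^ (D + 1) := by positivity
  have hw1 : ∀ x ∈ Fintype.piFinset (fun _ : Fin t => P), ‖∏ i, w (x i)‖ ≤ 1 := by
    intro x hx
    rw [Fintype.mem_piFinset] at hx
    rw [norm_prod]
    exact Finset.prod_le_one (fun i _ => norm_nonneg _) (fun i _ => hw _ (hx i))
  -- the norm bound
  have h1 : ‖∑ x ∈ Fintype.piFinset (fun _ : Fin t => P), ∑ y ∈ Fintype.piFinset (fun _ : Fin t => P),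
          (∏ i, w (x i)) * (starRingEnd ℂ) (∏ i, w (y i)) *
            (if ∑ i, φ (x i) ^ k = ∑ i, φ (y i) ^ k then (Fintype.card K : ℂ) ^ (D + 1) else 0)‖
      ≤ ∑ x ∈ Fintype.piFinset (fun _ : Fin t => P), ∑ y ∈ Fintype.piFinset (fun _ : Fin t => P),
            (if ∑ i, φ (x i) ^ k = ∑ i, φ (y i) ^ k then (Fintype.card K : ℝ) ^ (D + 1) else 0) := by
    refine (norm_sum_le _ _).trans (Finset.sum_le_sum fun x hx => ?_)
    refine (norm_sum_le _ _).trans (Finset.sum_le_sum fun y hy => ?_)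
    rw [norm_mul, norm_mul, RCLike.norm_conj]
    have h3 : ‖∏ i, w (x i)‖ * ‖∏ i, w (y i)‖ ≤ 1 :=
      mul_le_one₀ (hw1 x hx) (norm_nonneg _) (hw1 y hy)
    split_ifs with hxy
    · rw [norm_pow, Complex.norm_natCast]
      calc ‖∏ i, w (x i)‖ * ‖∏ i, w (y i)‖ * (Fintype.card K : ℝ) ^ (D + 1)
          ≤ 1 * (Fintype.card K : ℝ) ^ (D + 1) := mul_le_mul_of_nonneg_right h3 hq
        _ = _ := one_mul _
    · simp
  refine h1.trans ?_
  -- count
  set T := ((Fintype.piFinset (fun _ : Fin t => P)) ×ˢ (Fintype.piFinset (fun _ : Fin t => P))).filter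
    (fun z => ∑ i, φ (z.1 i) ^ k = ∑ i, φ (z.2 i) ^ k) with hT
  have h4 : (∑ x ∈ Fintype.piFinset (fun _ : Fin t => P), ∑ y ∈ Fintype.piFinset (fun _ : Fin t => P),
            (if ∑ i, φ (x i) ^ k = ∑ i, φ (y i) ^ k then (Fintype.card K : ℝ) ^ (D + 1) else 0))
      = (Fintype.card K : ℝ) ^ (D + 1) * (T.card : ℝ) := by
    rw [hT, Finset.card_filter, Finset.sum_product]
    push_cast
    rw [Finset.mul_sum]
    apply Finset.sum_congr rfl
    intro x _
    rw [Finset.mul_sum]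
    apply Finset.sum_congr rfl
    intro y _
    split_ifs with h1 <;> simp
  rw [h4]
  have h5 : T.card ≤ M ^ (2 * t) * En k t Y := by
    unfold En
    apply Finset.card_le_mul_card_image_of_maps_to
      (f := fun z : (Fin t → ι) × (Fin t → ι) => ((fun i => φ (z.1 i), fun i => φ (z.2 i)) :
        (Fin t → K[X]) × (Fin t → K[X])))
    · intro z hz
      rw [hT, Finset.mem_filter, Finset.mem_product, Fintype.mem_piFinset, Fintype.mem_piFinset] at hz
      rw [Finset.mem_filter, Finset.mem_product, Fintype.mem_piFinset, Fintype.mem_piFinset]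
      exact ⟨⟨fun i => hφ _ (hz.1.1 i), fun i => hφ _ (hz.1.2 i)⟩, hz.2⟩
    · intro b hb
      rw [Finset.mem_filter, Finset.mem_product, Fintype.mem_piFinset, Fintype.mem_piFinset] at hb
      have hsub : T.filter (fun z => ((fun i => φ (z.1 i), fun i => φ (z.2 i)) :
          (Fin t → K[X]) × (Fin t → K[X])) = b)
          ⊆ (Fintype.piFinset (fun i : Fin t => P.filter (fun p => φ p = b.1 i))) ×ˢ
            (Fintype.piFinset (fun i : Fin t => P.filter (fun p => φ p = b.2 i))) := by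
        intro z hz
        rw [Finset.mem_filter, hT, Finset.mem_filter, Finset.mem_product, Fintype.mem_piFinset,
          Fintype.mem_piFinset] at hz
        obtain ⟨⟨⟨hz1, hz2⟩, _⟩, hz3⟩ := hz
        rw [Finset.mem_product, Fintype.mem_piFinset, Fintype.mem_piFinset]
        have e1 : (fun i => φ (z.1 i)) = b.1 := congrArg Prod.fst hz3
        have e2 : (fun i => φ (z.2 i)) = b.2 := congrArg Prod.snd hz3
        constructor
        · intro i
          rw [Finset.mem_filter]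
          exact ⟨hz1 i, congrFun e1 i⟩
        · intro i
          rw [Finset.mem_filter]
          exact ⟨hz2 i, congrFun e2 i⟩
      refine (Finset.card_le_card hsub).trans ?_
      rw [Finset.card_product, Fintype.card_piFinset, Fintype.card_piFinset, two_mul, pow_add]
      apply Nat.mul_le_mul
      · calc ∏ i : Fin t, (P.filter (fun p => φ p = b.1 i)).card ≤ ∏ _i : Fin t, M :=
              Finset.prod_le_prod' (fun i _ => hM _ (hb.1.1 i))
          _ = M ^ t := by simp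
      · calc ∏ i : Fin t, (P.filter (fun p => φ p = b.2 i)).card ≤ ∏ _i : Fin t, M :=
              Finset.prod_le_prod' (fun i _ => hM _ (hb.1.2 i))
          _ = M ^ t := by simp
  have h6 : (T.card : ℝ) ≤ (M : ℝ) ^ (2 * t) * (En k t Y : ℝ) := by exact_mod_cast h5
  calc (Fintype.card K : ℝ) ^ (D + 1) * (T.card : ℝ)
      ≤ (Fintype.card K : ℝ) ^ (D + 1) * ((M : ℝ) ^ (2 * t) * (En k t Y : ℝ)) :=
        mul_le_mul_of_nonneg_left h6 hq
    _ = _ := by ring

end MP_570bef_ntF
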