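import Pool.Agent.Lib.MP_570bef_ntF.Base

/-! JOB Gs.  Elementary bound for `∑ χ(y^k)` over a finite field `F` (`Q` elements), `χ` a nontrivial additive character, `k ≥ 2`.

`S(α) := ∑_y χ(α y^k)`.  (1) `∑_{α∈F} ‖S(α)‖² = Q * #{(y,y') : y^k = y'^k}` (orthogonality: `∑_α χ(α β) = 0` for `β ≠ 0`, `AddChar.sum_mulShift` with primitivity of a nontrivial character,
or `AddChar.sum_eq_zero_of_ne_one` applied to the shifted character).  The number of pairs is `≤ 1 + (Q-1) k ≤ k Q` : for fixed `y' ≠ 0` at most `k` roots of `T^k = y'^k` (`Polynomial.card_nthRoots`), for `y' = 0` only `y = 0`.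
(2) For `w ≠ 0`: `S(w^k) = S(1)` (substitute `y ↦ w⁻¹ y`, `Fintype.sum_equiv` / `Equiv.mulLeft₀`).  So `(Q-1) ‖S(1)‖² = ∑_{w≠0} ‖S(w^k)‖² ≤ k ∑_α ‖S(α)‖²` (each `α` is `w^k` for at most `k` values `w`) `≤ k * Q * (k Q)`.
(3) `Q ≤ 2 (Q-1)`, so `‖S(1)‖² ≤ 2 k² Q`, and `‖S(1)‖ ≤ Q`.  Hence `‖S(1)‖^k * Q = ‖S‖² ‖S‖^(k-2) Q ≤ 2 k² Q * Q^(k-2) * Q = 2 k² Q^k ≤ (2k)^k Q^k` (`k ≥ 2`). -/

open Polynomial

namespace MP_570bef_ntF

private theorem Gs_fib {F : Type} [Field F] [Fintype F] [DecidableEq F] (k : ℕ) (hk : 0 < k) (c : F) :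
    ((Finset.univ.filter fun y : F => y ^ k = c).card : ℕ) ≤ k := by
  have h1 : (Finset.univ.filter fun y : F => y ^ k = c) ⊆ (nthRoots k c).toFinset := by
    intro y hy
    rw [Finset.mem_filter] at hy
    rw [Multiset.mem_toFinset, mem_nthRoots hk]
    exact hy.2
  exact (Finset.card_le_card h1).trans ((Multiset.toFinset_card_le _).trans (card_nthRoots k c))

private theorem Gs_two {F : Type} [Field F] [Fintype F] (χ : AddChar F ℂ) (hχ : χ ≠ 1) (k : ℕ)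
    (hk : 0 < k) : ∑ α : F, ‖∑ y : F, χ (α * y ^ k)‖ ^ 2 ≤
      (k : ℝ) * (Fintype.card F : ℝ) ^ 2 := by
  classical
  have hprim : χ.IsPrimitive := AddChar.IsPrimitive.of_ne_one hχ
  have h1 : ∀ α : F, ((‖∑ y : F, χ (α * y ^ k)‖ ^ 2 : ℝ) : ℂ) =
      ∑ y : F, ∑ z : F, χ (α * (y ^ k - z ^ k)) := by
    intro α
    have h2 : ((‖∑ y : F, χ (α * y ^ k)‖ ^ 2 : ℝ) : ℂ) =
        (∑ y : F, χ (α * y ^ k)) * (starRingEnd ℂ) (∑ y : F, χ (α * y ^ k)) := by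
      rw [Complex.mul_conj, Complex.normSq_eq_norm_sq]
    rw [h2, map_sum, Finset.sum_mul_sum]
    refine Finset.sum_congr rfl fun y _ => Finset.sum_congr rfl fun z _ => ?_
    rw [← AddChar.map_neg_eq_conj, ← AddChar.map_add_eq_mul]
    congr 1
    ring
  have h3 : ((∑ α : F, ‖∑ y : F, χ (α * y ^ k)‖ ^ 2 : ℝ) : ℂ) =
      ∑ y : F, ∑ z : F, if y ^ k = z ^ k then ((Fintype.card F : ℕ) : ℂ) else 0 := by
    rw [Complex.ofReal_sum, Finset.sum_congr rfl fun α _ => h1 α, Finset.sum_comm]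
    refine Finset.sum_congr rfl fun y _ => ?_
    rw [Finset.sum_comm]
    refine Finset.sum_congr rfl fun z _ => ?_
    rw [AddChar.sum_mulShift _ hprim]
    by_cases h : y ^ k = z ^ k
    · rw [if_pos h, if_pos (sub_eq_zero.2 h)]
    · rw [if_neg h, if_neg (fun h' => h (sub_eq_zero.1 h'))]
      norm_num
  have h4 : ∑ α : F, ‖∑ y : F, χ (α * y ^ k)‖ ^ 2 =
      ∑ y : F, ∑ z : F, if y ^ k = z ^ k then (Fintype.card F : ℝ) else 0 := by
    apply Complex.ofReal_injective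
    rw [h3, Complex.ofReal_sum]
    refine Finset.sum_congr rfl fun y _ => ?_
    rw [Complex.ofReal_sum]
    refine Finset.sum_congr rfl fun z _ => ?_
    by_cases h : y ^ k = z ^ k
    · rw [if_pos h, if_pos h]
      norm_num
    · rw [if_neg h, if_neg h]
      norm_num
  rw [h4]
  have h5 : ∀ y : F, (∑ z : F, if y ^ k = z ^ k then (Fintype.card F : ℝ) else 0) ≤
      (k : ℝ) * (Fintype.card F : ℝ) := by
    intro y
    rw [← Finset.sum_filter, Finset.sum_const, nsmul_eq_mul]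
    refine mul_le_mul_of_nonneg_right ?_ (Nat.cast_nonneg _)
    have h6 : (Finset.univ.filter fun z : F => y ^ k = z ^ k) =
        Finset.univ.filter fun z : F => z ^ k = y ^ k :=
      Finset.filter_congr fun z _ => eq_comm
    rw [h6]
    exact_mod_cast Gs_fib k hk (y ^ k)
  calc ∑ y : F, (∑ z : F, if y ^ k = z ^ k then (Fintype.card F : ℝ) else 0)
      ≤ ∑ _y : F, (k : ℝ) * (Fintype.card F : ℝ) := Finset.sum_le_sum fun y _ => h5 y
    _ = (k : ℝ) * (Fintype.card F : ℝ) ^ 2 := by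
      rw [Finset.sum_const, Finset.card_univ, nsmul_eq_mul]
      ring

private theorem Gs_three {F : Type} [Field F] [Fintype F] (χ : AddChar F ℂ) (hχ : χ ≠ 1) (k : ℕ)
    (hk : 0 < k) : ‖∑ y : F, χ (y ^ k)‖ ^ 2 ≤ 2 * (k : ℝ) ^ 2 * (Fintype.card F : ℝ) := by
  classical
  set S : F → ℝ := fun α => ‖∑ y : F, χ (α * y ^ k)‖ ^ 2 with hS
  have hq : 2 ≤ Fintype.card F := Fintype.one_lt_card
  have hqr : (2 : ℝ) ≤ (Fintype.card F : ℝ) := by exact_mod_cast hq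
  have h0 : ∀ α, 0 ≤ S α := fun α => by positivity
  have h1 : ∀ w : F, w ≠ 0 → S (w ^ k) = S 1 := by
    intro w hw
    rw [hS]
    show ‖∑ y : F, χ (w ^ k * y ^ k)‖ ^ 2 = ‖∑ y : F, χ (1 * y ^ k)‖ ^ 2
    congr 2
    refine Fintype.sum_equiv (Equiv.mulLeft₀ w hw) _ _ fun y => ?_
    show χ (w ^ k * y ^ k) = χ (1 * (w * y) ^ k)
    rw [one_mul, mul_pow]
  have h2 : ∑ w : F, S (w ^ k) ≤ (k : ℝ) * ∑ α : F, S α := by
    have h3 : ∑ w : F, S (w ^ k) = ∑ α : F, ∑ w ∈ Finset.univ.filter (fun w : F => w ^ k = α),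
        S (w ^ k) := (Finset.sum_fiberwise Finset.univ (fun w : F => w ^ k) fun w => S (w ^ k)).symm
    rw [h3, Finset.mul_sum]
    refine Finset.sum_le_sum fun α _ => ?_
    have h4 : ∑ w ∈ Finset.univ.filter (fun w : F => w ^ k = α), S (w ^ k) =
        ∑ _w ∈ Finset.univ.filter (fun w : F => w ^ k = α), S α := by
      refine Finset.sum_congr rfl fun w hw => ?_
      rw [(Finset.mem_filter.1 hw).2]
    rw [h4, Finset.sum_const, nsmul_eq_mul]
    refine mul_le_mul_of_nonneg_right ?_ (h0 α)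
    exact_mod_cast Gs_fib k hk α
  have h3 : ((Fintype.card F : ℝ) - 1) * S 1 ≤ ∑ w : F, S (w ^ k) := by
    have h4 : ∑ w ∈ Finset.univ.erase (0 : F), S (w ^ k) = ((Fintype.card F : ℝ) - 1) * S 1 := by
      rw [Finset.sum_congr rfl fun w hw => h1 w (Finset.ne_of_mem_erase hw), Finset.sum_const,
        Finset.card_erase_of_mem (Finset.mem_univ _), Finset.card_univ, nsmul_eq_mul,
        Nat.cast_sub (by omega), Nat.cast_one]
    rw [← h4]
    exact Finset.sum_le_sum_of_subset_of_nonneg (Finset.erase_subset _ _) fun w _ _ => h0 _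
  have h4 : ∑ α : F, S α ≤ (k : ℝ) * (Fintype.card F : ℝ) ^ 2 := Gs_two χ hχ k hk
  have h5 : ((Fintype.card F : ℝ) - 1) * S 1 ≤ (k : ℝ) * ((k : ℝ) * (Fintype.card F : ℝ) ^ 2) :=
    h3.trans (h2.trans (mul_le_mul_of_nonneg_left h4 (Nat.cast_nonneg _)))
  have h6 : S 1 = ‖∑ y : F, χ (y ^ k)‖ ^ 2 := by
    rw [hS]
    show ‖∑ y : F, χ (1 * y ^ k)‖ ^ 2 = _
    simp only [one_mul]
  rw [← h6]
  have h7 : (Fintype.card F : ℝ) * S 1 ≤
      (Fintype.card F : ℝ) * (2 * (k : ℝ) ^ 2 * (Fintype.card F : ℝ)) := by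
    have h8 : (Fintype.card F : ℝ) * S 1 ≤ 2 * (((Fintype.card F : ℝ) - 1) * S 1) := by
      nlinarith [h0 1]
    nlinarith
  exact le_of_mul_le_mul_left h7 (by linarith)

theorem gauss_pow {F : Type} [Field F] [Fintype F] (χ : AddChar F ℂ) (hχ : χ ≠ 1) (k : ℕ) (hk : 2 ≤ k) :
    ‖∑ y : F, χ (y ^ k)‖ ^ k * (Fintype.card F : ℝ) ≤ (2 * (k : ℝ)) ^ k * (Fintype.card F : ℝ) ^ k := by
  obtain ⟨m, rfl⟩ : ∃ m, k = m + 2 := ⟨k - 2, by omega⟩
  have h1 := Gs_three χ hχ (m + 2) (by omega)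
  have h2 : ‖∑ y : F, χ (y ^ (m + 2))‖ ≤ (Fintype.card F : ℝ) := by
    refine (norm_sum_le _ _).trans ?_
    rw [Finset.sum_congr rfl fun y _ => AddChar.norm_apply χ (y ^ (m + 2)), Finset.sum_const,
      Finset.card_univ, nsmul_eq_mul, mul_one]
  have h3 : ‖∑ y : F, χ (y ^ (m + 2))‖ ^ m ≤ (Fintype.card F : ℝ) ^ m :=
    pow_le_pow_left₀ (norm_nonneg _) h2 m
  set s : ℝ := ‖∑ y : F, χ (y ^ (m + 2))‖ with hs
  set q : ℝ := (Fintype.card F : ℝ) with hq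
  set K : ℝ := ((m + 2 : ℕ) : ℝ) with hK
  have hq0 : 0 ≤ q := Nat.cast_nonneg _
  have hs0 : 0 ≤ s := norm_nonneg _
  have hK2 : 2 ≤ K := by
    rw [hK]
    exact_mod_cast Nat.le_add_left 2 m
  have h4 : s ^ (m + 2) * q ≤ 2 * K ^ 2 * q ^ (m + 2) := by
    calc s ^ (m + 2) * q = s ^ m * s ^ 2 * q := by ring
      _ ≤ q ^ m * (2 * K ^ 2 * q) * q :=
        mul_le_mul_of_nonneg_right (mul_le_mul h3 h1 (by positivity) (by positivity)) hq0
      _ = 2 * K ^ 2 * q ^ (m + 2) := by ring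
  refine h4.trans (mul_le_mul_of_nonneg_right ?_ (by positivity))
  calc 2 * K ^ 2 ≤ 1 * (2 * K) ^ 2 := by nlinarith
    _ ≤ (2 * K) ^ m * (2 * K) ^ 2 :=
      mul_le_mul_of_nonneg_right (one_le_pow₀ (by linarith)) (by positivity)
    _ = (2 * K) ^ (m + 2) := by ring

end MP_570bef_ntF
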