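import Pool.Agent.Lib.MP_570bef_ntF.MvA

/-! JOB Mv.  The mean value inequality.

`En k t Y` counts pairs `(x, y) ∈ Y^t × Y^t` with `∑ x_i^k = ∑ y_i^k`; each pair has `Wt y ≤ Wt x` or `Wt x ≤ Wt y`; by symmetry (exchange `x` and `y`)
`En ≤ 2 * #{(x, y) : ∑ x_i^k = ∑ y_i^k, Wt y ≤ Wt x} = 2 * ∑_{x ∈ Y^t} #{y ∈ Y^t : ..}`.  By `mv_fibre`, `q^(kn+1) * En ≤ 2 * 2^(..) (k+1)^(kn+1) q^(t(n+1)) * ∑_{x ∈ Y^t} Wt k n x`.
Finally `∑_{x ∈ Y^t} Wt k n x = ∑_x ∑_c 1[all x_i ∈ ZZ k n (lin c) Y] = ∑_c (ZZ k n (lin c) Y).card ^ t` (double counting, `Fintype.card_piFinset`; `cnt_eq`, `Finset.card_filter`, `Finset.sum_comm`). -/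

open Polynomial

namespace MP_570bef_ntF

variable {K : Type} [Field K] [Fintype K]

open Classical in
private theorem Mv_sum_Wt (k n t : ℕ) (Y : Finset K[X]) :
    ∑ x ∈ Fintype.piFinset (fun _ : Fin t => Y), Wt k n x
      = ∑ c : Fin (k * n + 1) → K, (ZZ k n (lin c) Y).card ^ t := by
  have h1 : ∀ c : Fin (k * n + 1) → K, (ZZ k n (lin c) Y).card ^ t
      = ((Fintype.piFinset (fun _ : Fin t => Y)).filter
          (fun x => ∀ i, ∀ h : K[X], h.natDegree ≤ n → lin c (x i ^ (k - 1) * h) = 0)).card := by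
    intro c
    have : (Fintype.piFinset (fun _ : Fin t => Y)).filter
          (fun x => ∀ i, ∀ h : K[X], h.natDegree ≤ n → lin c (x i ^ (k - 1) * h) = 0)
          = Fintype.piFinset (fun _ : Fin t => ZZ k n (lin c) Y) := by
      ext x
      simp only [Finset.mem_filter, Fintype.mem_piFinset, mem_ZZ]
      exact ⟨fun h i => ⟨h.1 i, h.2 i⟩, fun h => ⟨fun i => (h i).1, fun i => (h i).2⟩⟩
    rw [this, Fintype.card_piFinset]
    simp
  have h2 : ∀ x : Fin t → K[X], Wt k n x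
      = ∑ c : Fin (k * n + 1) → K,
          if (∀ i, ∀ h : K[X], h.natDegree ≤ n → lin c (x i ^ (k - 1) * h) = 0) then 1 else 0 := by
    intro x
    unfold Wt
    rw [cnt_eq, Finset.card_filter]
  simp only [h1, h2, Finset.card_filter]
  rw [Finset.sum_comm]

theorem mv_bound (k n t : ℕ) (hk : (k : K) ≠ 0) (Y : Finset K[X]) (hY : ∀ y ∈ Y, y.natDegree ≤ n) :
    Fintype.card K ^ (k * n + 1) * En k t Y
      ≤ 2 * (2 ^ ((k * n + 1) + t * (n + 1)) * (k + 1) ^ (k * n + 1) * Fintype.card K ^ (t * (n + 1)))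
          * ∑ c : Fin (k * n + 1) → K, (ZZ k n (lin c) Y).card ^ t := by
  classical
  set P := Fintype.piFinset (fun _ : Fin t => Y) with hP
  set A := (P ×ˢ P).filter (fun z : (Fin t → K[X]) × (Fin t → K[X]) =>
    ∑ i, z.2 i ^ k = ∑ i, z.1 i ^ k ∧ Wt k n z.2 ≤ Wt k n z.1) with hA
  set B := (P ×ˢ P).filter (fun z : (Fin t → K[X]) × (Fin t → K[X]) =>
    ∑ i, z.1 i ^ k = ∑ i, z.2 i ^ k ∧ Wt k n z.1 ≤ Wt k n z.2) with hB
  have hE : En k t Y ≤ A.card + B.card := by
    unfold En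
    refine le_trans ?_ (Finset.card_union_le A B)
    apply Finset.card_le_card
    intro z hz
    simp only [Finset.mem_filter, Finset.mem_product] at hz
    rw [Finset.mem_union, hA, hB]
    simp only [Finset.mem_filter, Finset.mem_product]
    rcases le_total (Wt k n z.2) (Wt k n z.1) with h | h
    · left; exact ⟨hz.1, hz.2.symm, h⟩
    · right; exact ⟨hz.1, hz.2, h⟩
  have hBA : B.card ≤ A.card := by
    apply Finset.card_le_card_of_injOn Prod.swap
    · intro z hz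
      simp only [hB, hA, Finset.coe_filter, Finset.mem_product, Set.mem_ofPred_eq, Prod.swap] at hz ⊢
      exact ⟨⟨hz.1.2, hz.1.1⟩, hz.2⟩
    · intro z _ w _ h
      exact Prod.swap_injective h
  have hAc : A.card = ∑ x ∈ P, (P.filter
      (fun y => ∑ i, y i ^ k = ∑ i, x i ^ k ∧ Wt k n y ≤ Wt k n x)).card := by
    rw [hA, Finset.card_filter, Finset.sum_product]
    apply Finset.sum_congr rfl
    intro x _
    rw [Finset.card_filter]
  have hAm : Fintype.card K ^ (k * n + 1) * A.card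
      ≤ (2 ^ ((k * n + 1) + t * (n + 1)) * (k + 1) ^ (k * n + 1) * Fintype.card K ^ (t * (n + 1)))
          * ∑ c : Fin (k * n + 1) → K, (ZZ k n (lin c) Y).card ^ t := by
    rw [hAc, Finset.mul_sum, ← Mv_sum_Wt, Finset.mul_sum]
    apply Finset.sum_le_sum
    intro x hx
    rw [Fintype.mem_piFinset] at hx
    exact mv_fibre k n t hk Y hY x (fun i => hY _ (hx i))
  calc Fintype.card K ^ (k * n + 1) * En k t Y
      ≤ Fintype.card K ^ (k * n + 1) * (2 * A.card) := by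
        apply Nat.mul_le_mul_left
        omega
    _ = 2 * (Fintype.card K ^ (k * n + 1) * A.card) := by ring
    _ ≤ 2 * ((2 ^ ((k * n + 1) + t * (n + 1)) * (k + 1) ^ (k * n + 1) * Fintype.card K ^ (t * (n + 1)))
          * ∑ c : Fin (k * n + 1) → K, (ZZ k n (lin c) Y).card ^ t) := Nat.mul_le_mul_left 2 hAm
    _ = _ := by ring

end MP_570bef_ntF
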