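import Pool.Agent.Lib.MP_570bef_ntF.KdE
import Pool.Agent.Lib.MP_570bef_ntF.Mv

/-! JOB J1.  The sharp `2k`-th moment for squarefree polynomials (arithmetic of the constants).  `q = card K ≥ 2`.

`mv_bound` with `t = k`, `Y = QQ K n` and `sum_ZZ_le`:
`q^(kn+1) * En ≤ 2 * 2^((kn+1)+k(n+1)) (k+1)^(kn+1) q^(k(n+1)) * ((n+1)^(k-1) 2^(kn+1+n+k-1) (k^2+1)^n q^(k-1))^(k-1) * (n+1)^(k-1) q^(k(n+1)+(k-1))`.
Powers of `q` on the right: `k(n+1) + (k-1)^2 + k(n+1) + (k-1) = (kn+1) + (kn + k^2 + k - 1)`; so after division by `q^(kn+1)` the power is `q^(kn+k^2+k-1) ≤ q^(kn+k^2+k)`.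
Constants: with `n + 1 ≤ 2^n` (or `≤ 2^(n+1)`), `k^2 + 1 ≤ (k+1)^2`, everything is at most `2^a (k+1)^b` with
`a = 2kn + k + 2 + (k-1)^2 n + (kn+n+k)(k-1) + (k-1) n ≤ 10 k^2 (n+1)` and `b = kn + 1 + 2n(k-1) ≤ 10 k^2 (n+1)` (write `k = j + 2` and use `nlinarith`/`ring_nf` in `ℕ`), and
`C1 k ^ (n+1) = (2(k+1))^(10k^2 (n+1)) = 2^(10k^2(n+1)) (k+1)^(10k^2(n+1))`. -/

open Polynomial

namespace MP_570bef_ntF

variable {K : Type} [Field K] [Fintype K]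

theorem J1_arith (a n q u v w e1 e2 e3 e4 : ℕ) :
    2 * (2 ^ e1 * v ^ e3 * q ^ e4) * ((u ^ a * (2 ^ e2 * w ^ n * q ^ a)) ^ a * (u ^ a * q ^ (e4 + a)))
      = 2 ^ (1 + e1 + e2 * a) * u ^ (a * a + a) * v ^ e3 * w ^ (n * a) * q ^ (e4 + a * a + (e4 + a)) := by
  ring

theorem J1_bound (a n q u v w e1 e2 e3 e4 P R : ℕ) (hu : u ≤ 2 ^ n) (hw : w ≤ v ^ 2) (hv : 0 < v) (hq : 0 < q)
    (hP : 1 + e1 + e2 * a + n * (a * a + a) ≤ P) (hQ : e3 + 2 * (n * a) ≤ P)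
    (hR : e4 + a * a + (e4 + a) ≤ R) :
    2 * (2 ^ e1 * v ^ e3 * q ^ e4) * ((u ^ a * (2 ^ e2 * w ^ n * q ^ a)) ^ a * (u ^ a * q ^ (e4 + a)))
      ≤ (2 * v) ^ P * q ^ R := by
  rw [J1_arith]
  have h1 : u ^ (a * a + a) ≤ (2 ^ n) ^ (a * a + a) := Nat.pow_le_pow_left hu _
  have h2 : w ^ (n * a) ≤ (v ^ 2) ^ (n * a) := Nat.pow_le_pow_left hw _
  calc 2 ^ (1 + e1 + e2 * a) * u ^ (a * a + a) * v ^ e3 * w ^ (n * a) * q ^ (e4 + a * a + (e4 + a))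
      ≤ 2 ^ (1 + e1 + e2 * a) * (2 ^ n) ^ (a * a + a) * v ^ e3 * (v ^ 2) ^ (n * a)
          * q ^ (e4 + a * a + (e4 + a)) := by
        gcongr
    _ = 2 ^ (1 + e1 + e2 * a + n * (a * a + a)) * v ^ (e3 + 2 * (n * a))
          * q ^ (e4 + a * a + (e4 + a)) := by
        rw [← pow_mul, ← pow_mul]
        ring
    _ ≤ 2 ^ P * v ^ P * q ^ R := by
        have h3 : 2 ^ (1 + e1 + e2 * a + n * (a * a + a)) ≤ 2 ^ P := Nat.pow_le_pow_right (by norm_num) hP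
        have h4 : v ^ (e3 + 2 * (n * a)) ≤ v ^ P := Nat.pow_le_pow_right hv hQ
        have h5 : q ^ (e4 + a * a + (e4 + a)) ≤ q ^ R := Nat.pow_le_pow_right hq hR
        exact Nat.mul_le_mul (Nat.mul_le_mul h3 h4) h5
    _ = (2 * v) ^ P * q ^ R := by rw [mul_pow]

theorem En_QQ_le (k n : ℕ) (hk2 : 2 ≤ k) (hchar : ∀ j : ℕ, 1 ≤ j → j ≤ k → (j : K) ≠ 0) :
    En k k (QQ K n) ≤ C1 k ^ (n + 1) * Fintype.card K ^ (k * n + k ^ 2 + k) := by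
  have hk : (k : K) ≠ 0 := hchar k (by omega) le_rfl
  have hY : ∀ y ∈ QQ K n, y.natDegree ≤ n := fun y hy => (mem_QQ.mp hy).2.le
  have h1 := mv_bound k n k hk (QQ K n) hY
  have h2 := sum_ZZ_le (K := K) k n hk2 hchar
  have hq : 0 < Fintype.card K := Fintype.card_pos
  obtain ⟨a, rfl⟩ : ∃ a, k = a + 1 := ⟨k - 1, by omega⟩
  simp only [Nat.add_sub_cancel] at h2
  have h3 := h1.trans (Nat.mul_le_mul_left _ h2)
  have hu : n + 1 ≤ 2 ^ n := Nat.lt_two_pow_self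
  have hw : (a + 1) ^ 2 + 1 ≤ (a + 1 + 1) ^ 2 := by nlinarith
  have h4 := J1_bound a n (Fintype.card K) (n + 1) (a + 1 + 1) ((a + 1) ^ 2 + 1)
    (((a + 1) * n + 1) + (a + 1) * (n + 1)) ((a + 1) * n + 1 + (n + a)) ((a + 1) * n + 1)
    ((a + 1) * (n + 1)) (10 * (a + 1) ^ 2 * (n + 1))
    (((a + 1) * n + 1) + ((a + 1) * n + (a + 1) ^ 2 + (a + 1))) hu hw (by omega) hq
    (by nlinarith [Nat.zero_le (n * a), Nat.zero_le (n * a * a), Nat.zero_le (a * a)])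
    (by nlinarith [Nat.zero_le (n * a), Nat.zero_le (n * a * a), Nat.zero_le (a * a)])
    (by nlinarith)
  have h5 := h3.trans h4
  have h6 : (2 * (a + 1 + 1)) ^ (10 * (a + 1) ^ 2 * (n + 1)) *
      Fintype.card K ^ (((a + 1) * n + 1) + ((a + 1) * n + (a + 1) ^ 2 + (a + 1)))
      = Fintype.card K ^ ((a + 1) * n + 1) *
        (C1 (a + 1) ^ (n + 1) * Fintype.card K ^ ((a + 1) * n + (a + 1) ^ 2 + (a + 1))) := by
    unfold C1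
    rw [← pow_mul, pow_add (Fintype.card K) ((a + 1) * n + 1)]
    ring
  rw [h6] at h5
  exact Nat.le_of_mul_le_mul_left h5 (pow_pos hq _)

end MP_570bef_ntF
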