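import Pool.Agent.Lib.MP_570bef_ntF.Base

/-! JOB KdA.  Divisors of `x^s`.

Induction on `s` (for all `b`).  `s = 0`: `b ∣ 1`, so `b` is associated to `1`, the empty product (`Fin 0`), and the empty product `1` divides `x`.
Step `s + 1`: `b ∣ x^(s+1)`.  `g := EuclideanDomain.gcd b x` (or `gcd`), `b = g * b1`, `x = g * x'`, `IsCoprime b1 x'`.  `g * b1 ∣ (g * x')^(s+1)` gives `b1 ∣ g^s * x'^(s+1)`, and `b1` is coprime to
`x'^(s+1)` (`IsCoprime.pow_right`), so `b1 ∣ g^s`, so `b1 ∣ x^s`.  Induction: `γ' : Fin s → K[X]` with `b1 ~ ∏ γ'_e^(e+1)` and `∏ γ'_e ∣ x`.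
`∏ γ'_e ∣ ∏ γ'_e^(e+1)` (`Finset.prod_dvd_prod_of_dvd`), so `∏ γ'_e ∣ b1 ∣ b`, hence `∏ γ'_e ∣ g`: `g = (∏ γ'_e) * γ0`.
Put `γ := Fin.cons γ0 γ'`.  `∏_e γ_e^(e+1) = γ0 * ∏ γ'_e^(e+2) = γ0 * (∏ γ'_e) * ∏ γ'_e^(e+1) = g * ∏ γ'_e^(e+1) ~ g * b1 = b`; `∏ γ_e = γ0 * ∏ γ'_e = g ∣ x`
(`Fin.prod_univ_succ`). -/

open Polynomial

namespace MP_570bef_ntF

variable {K : Type} [Field K]

theorem exists_factor (s : ℕ) {x b : K[X]} (hx : x ≠ 0) (hb : b ≠ 0) (h : b ∣ x ^ s) :
    ∃ γ : Fin s → K[X], Associated b (∏ e, γ e ^ ((e : ℕ) + 1)) ∧ rad γ ∣ x := by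
  classical
  induction s generalizing b with
  | zero =>
    refine ⟨fun _ => 1, ?_, ?_⟩
    · rw [Finset.univ_eq_empty, Finset.prod_empty]
      rw [pow_zero] at h
      exact associated_one_iff_isUnit.mpr (isUnit_of_dvd_one h)
    · unfold rad
      rw [Finset.univ_eq_empty, Finset.prod_empty]
      exact one_dvd x
  | succ s ih =>
    obtain ⟨b1, hb1⟩ := EuclideanDomain.gcd_dvd_left b x
    obtain ⟨x', hx'⟩ := EuclideanDomain.gcd_dvd_right b x
    have hab := EuclideanDomain.gcd_eq_gcd_ab b x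
    set g := EuclideanDomain.gcd b x with hg
    have hg0 : g ≠ 0 := by
      intro h0
      rw [h0, zero_mul] at hb1
      exact hb hb1
    have hb10 : b1 ≠ 0 := by
      intro h0
      rw [h0, mul_zero] at hb1
      exact hb hb1
    have hcop : IsCoprime b1 x' := by
      refine ⟨EuclideanDomain.gcdA b x, EuclideanDomain.gcdB b x, ?_⟩
      apply mul_left_cancel₀ hg0
      calc g * (EuclideanDomain.gcdA b x * b1 + EuclideanDomain.gcdB b x * x')
          = (g * b1) * EuclideanDomain.gcdA b x + (g * x') * EuclideanDomain.gcdB b x := by ring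
        _ = b * EuclideanDomain.gcdA b x + x * EuclideanDomain.gcdB b x := by
            rw [← hb1, ← hx']
        _ = g * 1 := by rw [← hab, mul_one]
    have hd1 : b1 ∣ g ^ s * x' ^ (s + 1) := by
      have h1 : g * b1 ∣ g * (g ^ s * x' ^ (s + 1)) := by
        have h2 : g * (g ^ s * x' ^ (s + 1)) = x ^ (s + 1) := by
          conv_rhs => rw [hx']
          rw [mul_pow]
          ring
        rw [h2, ← hb1]
        exact h
      exact (mul_dvd_mul_iff_left hg0).mp h1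
    have hd2 : b1 ∣ g ^ s := (hcop.pow_right (n := s + 1)).dvd_of_dvd_mul_right hd1
    have hgx : g ∣ x := ⟨x', hx'⟩
    have hd3 : b1 ∣ x ^ s := hd2.trans (pow_dvd_pow_of_dvd hgx s)
    obtain ⟨γ', hγ', hr'⟩ := ih hb10 hd3
    have hd4 : rad γ' ∣ ∏ e, γ' e ^ ((e : ℕ) + 1) := by
      unfold rad
      apply Finset.prod_dvd_prod_of_dvd
      intro e _
      exact dvd_pow_self _ (Nat.succ_ne_zero _)
    have hd5 : rad γ' ∣ b1 := hd4.trans hγ'.symm.dvd
    have hd6 : rad γ' ∣ b := by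
      rw [hb1]
      exact hd5.mul_left g
    obtain ⟨γ0, hγ0⟩ : rad γ' ∣ g := EuclideanDomain.dvd_gcd hd6 hr'
    refine ⟨Fin.cons γ0 γ', ?_, ?_⟩
    · have h3 : (∏ e : Fin (s + 1), (Fin.cons γ0 γ' : Fin (s + 1) → K[X]) e ^ ((e : ℕ) + 1))
          = g * ∏ e, γ' e ^ ((e : ℕ) + 1) := by
        rw [Fin.prod_univ_succ]
        simp only [Fin.cons_zero, Fin.cons_succ, Fin.val_zero, Fin.val_succ, zero_add, pow_one]
        have h4 : ∀ e : Fin s, γ' e ^ ((e : ℕ) + 1 + 1) = γ' e * γ' e ^ ((e : ℕ) + 1) := by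
          intro e
          rw [pow_succ' (γ' e) ((e : ℕ) + 1)]
        rw [Finset.prod_congr rfl (fun e _ => h4 e), Finset.prod_mul_distrib, hγ0]
        unfold rad
        ring
      rw [h3]
      rw [hb1]
      exact Associated.mul_left g hγ'
    · have h5 : rad (Fin.cons γ0 γ' : Fin (s + 1) → K[X]) = g := by
        have h6 : rad (Fin.cons γ0 γ' : Fin (s + 1) → K[X]) = γ0 * rad γ' := by
          unfold rad
          rw [Fin.prod_univ_succ]
          simp only [Fin.cons_zero, Fin.cons_succ]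
        rw [h6, hγ0]
        ring
      rw [h5]
      exact hgx

end MP_570bef_ntF
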