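import Pool.Agent.Lib.MP_570bef_ntF.KdA

/-! JOB KdB.  Every singular point has a primitive killing divisor.

`x ≠ 0`.  The divisor `x^(k-1)` of `x^(k-1)` satisfies `Kill A (k n) (x^(k-1)) (natDegree (x^(k-1)))`: its degree is `(k-1) n`, and `z.natDegree + (k-1) n ≤ k n` means `z.natDegree ≤ n`
(`k n = (k-1) n + n` as `k ≥ 1`).  So the set of naturals `{natDegree b : b ∣ x^(k-1), Kill A (k n) b (natDegree b)}` is nonempty; let `b` have minimal degree.
`exists_factor (k-1)`: `γ` with `b ~ ∏ γ_e^(e+1) = low γ * rad γ` (`low_mul_rad`), `rad γ ∣ x`.  `Squarefree (rad γ)` (`Squarefree.squarefree_of_dvd`).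
`Kill` and `natDegree` are invariant under multiplication by a nonzero constant (`b = (low γ * rad γ) * C a`): so `Kill A (k n) (low γ * rad γ) _`.
If `G ∣ rad γ` and `low γ * G` kills `A` (with its exact degree) then `low γ * G ∣ low γ * rad γ ∣ .. b ∣ x^(k-1)`, so by minimality
`natDegree (low γ * G) ≥ natDegree b = natDegree (low γ * rad γ)`; all are nonzero, so `G.natDegree ≥ (rad γ).natDegree`, and `≤` because `G ∣ rad γ`, `rad γ ≠ 0`. -/

open Polynomial

namespace MP_570bef_ntF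

variable {K : Type} [Field K]

theorem exists_prim (k n : ℕ) (hk : 1 ≤ k) (A : K[X] →ₗ[K] K) (x : K[X]) (hsq : Squarefree x)
    (hn : x.natDegree = n) (hx : ∀ h : K[X], h.natDegree ≤ n → A (x ^ (k - 1) * h) = 0) :
    ∃ γ : Fin (k - 1) → K[X], Prim A (k * n) γ ∧ rad γ ∣ x := by
  classical
  have hx0 : x ≠ 0 := hsq.ne_zero
  have hex : ∃ m : ℕ, ∃ b : K[X], b ∣ x ^ (k - 1) ∧ Kill A (k * n) b b.natDegree ∧
      b.natDegree = m := by
    refine ⟨_, x ^ (k - 1), dvd_rfl, ?_, rfl⟩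
    intro z hz
    apply hx
    rw [Polynomial.natDegree_pow, hn] at hz
    obtain ⟨j, rfl⟩ : ∃ j, k = j + 1 := ⟨k - 1, by omega⟩
    rw [Nat.add_sub_cancel, Nat.add_mul, Nat.one_mul] at hz
    omega
  obtain ⟨b, hbd, hbk, hbm⟩ := Nat.find_spec hex
  have hmin : ∀ b' : K[X], b' ∣ x ^ (k - 1) → Kill A (k * n) b' b'.natDegree →
      b.natDegree ≤ b'.natDegree := by
    intro b' h1 h2
    rw [hbm]
    exact Nat.find_min' hex ⟨b', h1, h2, rfl⟩
  have hb0 : b ≠ 0 := by
    rintro rfl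
    exact pow_ne_zero _ hx0 (zero_dvd_iff.1 hbd)
  obtain ⟨γ, hγ, hr⟩ := exists_factor (k - 1) hx0 hb0 hbd
  rw [← low_mul_rad] at hγ
  have hl0 : low γ * rad γ ≠ 0 := (hγ.ne_zero_iff).1 hb0
  have hlow : low γ ≠ 0 := left_ne_zero_of_mul hl0
  have hrad : rad γ ≠ 0 := right_ne_zero_of_mul hl0
  have hdeg : b.natDegree = (low γ * rad γ).natDegree :=
    le_antisymm (Polynomial.natDegree_le_of_dvd hγ.dvd hl0)
      (Polynomial.natDegree_le_of_dvd hγ.dvd' hb0)
  refine ⟨γ, ⟨hsq.squarefree_of_dvd hr, ?_, ?_⟩, hr⟩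
  · obtain ⟨u, hu⟩ := hγ
    intro z hz
    rw [← hdeg] at hz
    rw [← hu, mul_assoc]
    apply hbk
    have h1 := Polynomial.natDegree_mul_le (p := (u : K[X])) (q := z)
    have h2 : (u : K[X]).natDegree = 0 := Polynomial.natDegree_eq_zero_of_isUnit u.isUnit
    omega
  · intro G hG hk'
    have hG0 : G ≠ 0 := by
      rintro rfl
      exact hrad (zero_dvd_iff.1 hG)
    have h1 : low γ * G ∣ x ^ (k - 1) :=
      ((mul_dvd_mul_left _ hG).trans hγ.dvd').trans hbd
    have h2 := hmin _ h1 hk'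
    rw [hdeg, Polynomial.natDegree_mul hlow hrad, Polynomial.natDegree_mul hlow hG0] at h2
    have h3 := Polynomial.natDegree_le_of_dvd hG hrad
    omega

end MP_570bef_ntF
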