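import Pool.Agent.Lib.MP_570bef_ntF.CFb

/-! JOB KdK.  The kernel of the Jacobian at a primitive killing divisor has dimension at most `k - 1`.

Write `γ = gam y`, `Γ := natDegree (rad γ) = ∑ d e ≤ n`, `lo := low γ`, all `γ e ≠ 0` (`rad γ` squarefree, so nonzero), `natDegree lo = ∑ e * d e ≤ (k-2) * Γ` (here `e ≤ k - 2`),
`natDegree (lo * rad γ) = natDegree lo + Γ ≤ (k-1) Γ ≤ k n`.  Let `v` be in the set, `Yv := ∑ e, (e+1) * (gam v e * ∏_{e' ≠ e} γ e')`, `natDegree Yv ≤ Γ` (`natDegree (gam v e) ≤ d e`).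
`A'' := mulF A lo`, `D'' := k n - natDegree lo`.
(1) `Kill A'' D'' (rad γ) Γ`: if `z.natDegree + Γ ≤ D''` then `z.natDegree + natDegree (lo * rad γ) ≤ k n`, use `Prim`.
(2) `Kill A'' D'' Yv Γ`: by `kill_iff_X` and the hypothesis on `v` (`j + Γ ≤ D''` iff `j + natDegree (lo * rad γ) ≤ k n`).
(3) Claim: `Yv = C μ * rad γ` for some `μ`.  If `Yv = 0`, `μ = 0`.  Otherwise `form_gcd` with `y := Yv`, `b := rad γ`, `Y = m = Γ` gives `G, y', b', e0` with `e0 = natDegree G` (exact degree of `rad γ`),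
and `kill_gcd` applies: `Γ + Γ ≤ D'' + 1 + e0` because `2 Γ + (k-2) Γ = k Γ ≤ k n`.  So `Kill A'' D'' G (natDegree G)`, i.e. `Kill A (k n) (lo * G) (natDegree (lo * G))`
(`natDegree (lo * G) = natDegree lo + natDegree G`), `G ∣ rad γ`, so `natDegree G = Γ` by `Prim`.  Then `b'` is a nonzero constant and `natDegree y' + Γ ≤ Γ`, so `y'` is a constant: `Yv = C μ * rad γ`.
(4) For each `e`: modulo `γ e` all summands of `Yv` except the `e`-th vanish, and `rad γ ≡ 0`; so `γ e ∣ (e+1) * gam v e * ∏_{e' ≠ e} γ e'`.  `(e+1 : K) ≠ 0` (`1 ≤ e+1 ≤ k`), and `γ e` is coprime to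
`∏_{e' ≠ e} γ e'` (`rad γ = γ e * ∏_{e' ≠ e} γ e'` is squarefree: `Squarefree` of a product gives `IsRelPrime` / `IsCoprime`, e.g. `squarefree_mul_iff`), so `γ e ∣ gam v e`; degrees:
`natDegree (gam v e) ≤ d e = natDegree (γ e)`, so `gam v e = C (μ_e) * γ e` for some `μ_e : K`.
(5) So `v` is determined by `(μ_e) : Fin (k-1) → K` (`v ⟨e, i⟩ = (gam v e).coeff i`, `coeff_toP`): `cnt_le_of_injOn` into `Fin (k-1) → K` (all elements), cardinality `q^(k-1)`. -/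

open Polynomial

namespace MP_570bef_ntF

variable {K : Type} [Field K] [Fintype K]

theorem KdK_dvd {F G H : K[X]} (h : Squarefree (F * G)) (hd : F ∣ H * G) : F ∣ H := by
  have h1 : IsRelPrime F G := (squarefree_mul_iff.1 h).1
  have h2 : IsCoprime F G := h1.isCoprime
  exact h2.dvd_of_dvd_mul_right hd

theorem KdK_const {F G : K[X]} (hF : F ≠ 0) (hd : F ∣ G) (hdeg : G.natDegree ≤ F.natDegree) :
    ∃ μ : K, G = C μ * F := by
  obtain ⟨w, rfl⟩ := hd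
  by_cases hw : w = 0
  · exact ⟨0, by rw [hw, mul_zero, map_zero, zero_mul]⟩
  · rw [Polynomial.natDegree_mul hF hw] at hdeg
    obtain ⟨μ, hμ⟩ := Polynomial.natDegree_eq_zero.1 (show w.natDegree = 0 by omega)
    exact ⟨μ, by rw [hμ, mul_comm]⟩

theorem KdK_natCast (m : ℕ) (hm : (m : K) ≠ 0) {F G : K[X]} (hd : F ∣ (m : K[X]) * G) : F ∣ G := by
  have h1 : (m : K[X]) = C (m : K) := (Polynomial.C_eq_natCast m).symm
  have h2 : G = C ((m : K)⁻¹) * ((m : K[X]) * G) := by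
    rw [h1, ← mul_assoc, ← C_mul, inv_mul_cancel₀ hm, C_1, one_mul]
  rw [h2]
  exact hd.mul_left _

theorem KdK_deg {s : ℕ} {γ : Fin s → K[X]} {d : Fin s → ℕ} (hγ : ∀ e, γ e ≠ 0)
    (hdeg : ∀ e, (γ e).natDegree = d e) : (rad γ).natDegree = ∑ e, d e ∧
      (low γ).natDegree = ∑ e : Fin s, (e : ℕ) * d e ∧ low γ ≠ 0 ∧ rad γ ≠ 0 := by
  refine ⟨?_, ?_, ?_, ?_⟩
  · unfold rad
    rw [Polynomial.natDegree_prod _ _ (fun e _ => hγ e)]
    exact Finset.sum_congr rfl fun e _ => hdeg e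
  · unfold low
    rw [Polynomial.natDegree_prod _ _ (fun e _ => pow_ne_zero _ (hγ e))]
    refine Finset.sum_congr rfl fun e _ => ?_
    rw [Polynomial.natDegree_pow, hdeg]
  · unfold low
    exact Finset.prod_ne_zero_iff.2 fun e _ => pow_ne_zero _ (hγ e)
  · unfold rad
    exact Finset.prod_ne_zero_iff.2 fun e _ => hγ e

theorem KdK_low (k n : ℕ) (hk2 : 2 ≤ k) (d : Fin (k - 1) → ℕ) (hd : ∑ e, d e ≤ n) :
    (∑ e : Fin (k - 1), (e : ℕ) * d e) + 2 * ∑ e, d e ≤ k * n := by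
  have h1 : (∑ e : Fin (k - 1), (e : ℕ) * d e) ≤ (k - 2) * ∑ e, d e := by
    rw [Finset.mul_sum]
    refine Finset.sum_le_sum fun e _ => Nat.mul_le_mul_right _ ?_
    have := e.2
    omega
  have h2 : (k - 2) * (∑ e, d e) + 2 * ∑ e, d e = k * ∑ e, d e := by
    rw [← add_mul]
    congr 1
    omega
  have h3 : k * ∑ e, d e ≤ k * n := Nat.mul_le_mul_left k hd
  omega

/-- the claim (3) -/
theorem KdK_main (k n : ℕ) (hk2 : 2 ≤ k) (A : K[X] →ₗ[K] K) (d : Fin (k - 1) → ℕ)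
    (hd : ∑ e, d e ≤ n) {γ : Fin (k - 1) → K[X]} (hdeg : ∀ e, (γ e).natDegree = d e)
    (hprim : Prim A (k * n) γ) {Y : K[X]} (hY : Y.natDegree ≤ ∑ e, d e)
    (hv : ∀ j : ℕ, j + (low γ * rad γ).natDegree ≤ k * n → A (low γ * Y * X ^ j) = 0) :
    ∃ μ : K, Y = C μ * rad γ := by
  have hr0 : rad γ ≠ 0 := hprim.1.ne_zero
  have hγ : ∀ e, γ e ≠ 0 := by
    intro e
    have h1 : rad γ = ∏ e, γ e := rfl
    rw [h1] at hr0
    exact Finset.prod_ne_zero_iff.1 hr0 e (Finset.mem_univ e)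
  obtain ⟨hrd, hld, hl0, -⟩ := KdK_deg hγ hdeg
  have hlow := KdK_low k n hk2 d hd
  by_cases hY0 : Y = 0
  · exact ⟨0, by rw [hY0, map_zero, zero_mul]⟩
  have hLR : (low γ * rad γ).natDegree = (∑ e : Fin (k - 1), (e : ℕ) * d e) + ∑ e, d e := by
    rw [Polynomial.natDegree_mul hl0 hr0, hrd, hld]
  have hk1 : Kill (mulF A (low γ)) (k * n - (low γ).natDegree) (rad γ) (∑ e, d e) := by
    intro z hz
    rw [mulF_apply, ← mul_assoc]
    apply hprim.2.1
    rw [hLR]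
    rw [hld] at hz
    omega
  have hk2' : Kill (mulF A (low γ)) (k * n - (low γ).natDegree) Y (∑ e, d e) := by
    rw [kill_iff_X]
    intro j hj
    rw [mulF_apply, ← mul_assoc]
    apply hv
    rw [hLR]
    rw [hld] at hj
    omega
  obtain ⟨G, y', b', e0, hG0, hGe, h1, h2, h3, h4, h5, h6, h7⟩ :=
    form_gcd hY0 hr0 hY (le_of_eq hrd)
  have he0 : e0 = G.natDegree := h7 hrd
  have hkG := kill_gcd (A := mulF A (low γ)) (D := k * n - (low γ).natDegree) hY0 hr0 h1 h2 h3 h4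
    h5 h6 (by rw [hld]; omega) hk2' hk1
  have hkG2 : Kill A (k * n) (low γ * G) (low γ * G).natDegree := by
    intro z hz
    rw [Polynomial.natDegree_mul hl0 hG0] at hz
    rw [mul_assoc]
    have h8 := hkG z (by rw [he0]; omega)
    rwa [mulF_apply] at h8
  have hGr : G ∣ rad γ := ⟨b', h2⟩
  have h9 := hprim.2.2 G hGr hkG2
  rw [hrd] at h9
  have hb0 : b' ≠ 0 := by
    rintro rfl
    rw [mul_zero] at h2
    exact hr0 h2
  obtain ⟨c1, hc1⟩ := Polynomial.natDegree_eq_zero.1 (show y'.natDegree = 0 by omega)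
  obtain ⟨c2, hc2⟩ := Polynomial.natDegree_eq_zero.1 (show b'.natDegree = 0 by omega)
  have hc20 : c2 ≠ 0 := by
    rintro rfl
    rw [map_zero] at hc2
    exact hb0 hc2.symm
  refine ⟨c1 * c2⁻¹, ?_⟩
  rw [h1, h2, ← hc1, ← hc2]
  have h10 : C (c1 * c2⁻¹) * C c2 = C c1 := by
    rw [← C_mul, mul_assoc, inv_mul_cancel₀ hc20, mul_one]
  calc G * C c1 = G * (C (c1 * c2⁻¹) * C c2) := by rw [h10]
    _ = C (c1 * c2⁻¹) * (G * C c2) := by ring

/-- the claim (4) -/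
theorem KdK_each (k n : ℕ) (hk2 : 2 ≤ k) (hchar : ∀ j : ℕ, 1 ≤ j → j ≤ k → (j : K) ≠ 0)
    (A : K[X] →ₗ[K] K) (d : Fin (k - 1) → ℕ) (hd : ∑ e, d e ≤ n)
    {γ : Fin (k - 1) → K[X]} (hdeg : ∀ e, (γ e).natDegree = d e) (hprim : Prim A (k * n) γ)
    (u : Fin (k - 1) → K[X]) (hu : ∀ e, (u e).natDegree ≤ d e)
    (hv : ∀ j : ℕ, j + (low γ * rad γ).natDegree ≤ k * n →
        A (low γ * (∑ e : Fin (k - 1), (((e : ℕ) + 1 : ℕ) : K[X]) *
          (u e * ∏ e' ∈ Finset.univ.erase e, γ e')) * X ^ j) = 0) (e : Fin (k - 1)) :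
    ∃ μ : K, u e = C μ * γ e := by
  have hr0 : rad γ ≠ 0 := hprim.1.ne_zero
  have hγ : ∀ e, γ e ≠ 0 := by
    intro e
    have h1 : rad γ = ∏ e, γ e := rfl
    rw [h1] at hr0
    exact Finset.prod_ne_zero_iff.1 hr0 e (Finset.mem_univ e)
  have hY : (∑ e : Fin (k - 1), (((e : ℕ) + 1 : ℕ) : K[X]) *
      (u e * ∏ e' ∈ Finset.univ.erase e, γ e')).natDegree ≤ ∑ e, d e := by
    refine Polynomial.natDegree_sum_le_of_forall_le _ _ fun e _ => ?_
    refine Polynomial.natDegree_mul_le.trans ?_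
    rw [Polynomial.natDegree_natCast, zero_add]
    refine Polynomial.natDegree_mul_le.trans ?_
    rw [Polynomial.natDegree_prod _ _ (fun e' _ => hγ e'), ← Finset.add_sum_erase _ d (Finset.mem_univ e)]
    exact Nat.add_le_add (hu e) (le_of_eq (Finset.sum_congr rfl fun e' _ => hdeg e'))
  obtain ⟨μ, hμ⟩ := KdK_main k n hk2 A d hd hdeg hprim hY hv
  have hrad : rad γ = γ e * ∏ e' ∈ Finset.univ.erase e, γ e' :=
    (Finset.mul_prod_erase Finset.univ γ (Finset.mem_univ e)).symm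
  have h1 : γ e ∣ ∑ e : Fin (k - 1), (((e : ℕ) + 1 : ℕ) : K[X]) *
      (u e * ∏ e' ∈ Finset.univ.erase e, γ e') := by
    rw [hμ, hrad]
    exact (Dvd.intro _ rfl).mul_left _
  rw [← Finset.add_sum_erase _ _ (Finset.mem_univ e)] at h1
  have h2 : γ e ∣ ∑ e'' ∈ Finset.univ.erase e, (((e'' : ℕ) + 1 : ℕ) : K[X]) *
      (u e'' * ∏ e' ∈ Finset.univ.erase e'', γ e') := by
    refine Finset.dvd_sum fun e'' he'' => ?_
    refine Dvd.dvd.mul_left (Dvd.dvd.mul_left (Finset.dvd_prod_of_mem γ ?_) _) _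
    exact Finset.mem_erase.2 ⟨(Finset.ne_of_mem_erase he'').symm, Finset.mem_univ e⟩
  have h3 : γ e ∣ (((e : ℕ) + 1 : ℕ) : K[X]) * (u e * ∏ e' ∈ Finset.univ.erase e, γ e') :=
    (dvd_add_left h2).1 h1
  have h4 : γ e ∣ u e * ∏ e' ∈ Finset.univ.erase e, γ e' := by
    refine KdK_natCast _ (hchar _ (by omega) ?_) h3
    have := e.2
    omega
  exact KdK_const (hγ e) (KdK_dvd (hrad ▸ hprim.1) h4) (by rw [hdeg]; exact hu e)

theorem kd_kernel (k n : ℕ) (hk2 : 2 ≤ k) (hchar : ∀ j : ℕ, 1 ≤ j → j ≤ k → (j : K) ≠ 0)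
    (A : K[X] →ₗ[K] K) (d : Fin (k - 1) → ℕ) (hd : ∑ e, d e ≤ n)
    (y : (Σ e : Fin (k - 1), Fin (d e + 1)) → K) (hdeg : ∀ e, (gam y e).natDegree = d e)
    (hprim : Prim A (k * n) (gam y)) :
    cnt (fun v : (Σ e : Fin (k - 1), Fin (d e + 1)) → K =>
      ∀ j : ℕ, j + (low (gam y) * rad (gam y)).natDegree ≤ k * n →
        A (low (gam y) * (∑ e : Fin (k - 1), (((e : ℕ) + 1 : ℕ) : K[X]) *
          (gam v e * ∏ e' ∈ Finset.univ.erase e, gam y e')) * X ^ j) = 0)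
      ≤ Fintype.card K ^ (k - 1) := by
  classical
  have hex : ∀ v : (Σ e : Fin (k - 1), Fin (d e + 1)) → K, ∀ e, ∃ μ : K,
      (∀ j : ℕ, j + (low (gam y) * rad (gam y)).natDegree ≤ k * n →
        A (low (gam y) * (∑ e : Fin (k - 1), (((e : ℕ) + 1 : ℕ) : K[X]) *
          (gam v e * ∏ e' ∈ Finset.univ.erase e, gam y e')) * X ^ j) = 0) →
      gam v e = C μ * gam y e := by
    intro v e
    by_cases h : ∀ j : ℕ, j + (low (gam y) * rad (gam y)).natDegree ≤ k * n →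
        A (low (gam y) * (∑ e : Fin (k - 1), (((e : ℕ) + 1 : ℕ) : K[X]) *
          (gam v e * ∏ e' ∈ Finset.univ.erase e, gam y e')) * X ^ j) = 0
    · obtain ⟨μ, hμ⟩ := KdK_each k n hk2 hchar A d hd hdeg hprim (gam v)
        (fun e => natDegree_toP_le _) h e
      exact ⟨μ, fun _ => hμ⟩
    · exact ⟨0, fun h' => absurd h' h⟩
  choose f hf using hex
  refine (cnt_le_of_injOn (q := fun _ : Fin (k - 1) → K => True) f (fun _ _ => trivial) ?_).trans ?_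
  · intro v w hv hw hvw
    have h1 : ∀ e, gam v e = gam w e := by
      intro e
      rw [hf v e hv, hf w e hw, hvw]
    funext x
    obtain ⟨e, i⟩ := x
    have h2 := toP_injective (h1 e)
    exact congrFun h2 i
  · refine (cnt_le_card _).trans (le_of_eq ?_)
    rw [Fintype.card_fun, Fintype.card_fin]

end MP_570bef_ntF
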