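import Pool.Agent.Lib.MP_570bef_ntF.Base

/-! JOB Mi.  A matrix of rank `≥ r` has a nonzero minor of size `r`.

(1) There is a set `I` of `r` rows which are linearly independent: the rank is the dimension of the span of the rows (`Matrix.rank_eq_finrank_span_row`);
take a linearly independent subfamily spanning the row space (`exists_linearIndependent'`, `Submodule.exists_fun_fin_finrank_span_eq`, or the like) and `r` elements of it.
(2) The submatrix `M_I` (`r` rows) has linearly independent rows, so rank `r` (`LinearIndependent.rank_matrix`), so its columns span a space of dimension `r`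
(`Matrix.rank_eq_finrank_span_cols`, `Matrix.rank_transpose`); choose `r` linearly independent columns `J`.
(3) The square submatrix (rows `I`, columns `J`) has linearly independent columns, so `det ≠ 0` (`Matrix.linearIndependent_cols_iff_isUnit` / `..rows..`, `Matrix.isUnit_iff_isUnit_det`).
(4) For every bijection `e : J ≃ I` the matrix `fun a b : J => M (e a) b` is obtained from one of them by a permutation of the rows, so its determinant is `±`
(`Matrix.det_permute'`, `Matrix.det_permute`, or argue for every `e` directly as in (3): the rows `M (e a)` restricted to `J` are linearly independent because linear independence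
does not depend on the indexing: compose with the equivalence `e`). -/

open Polynomial

namespace MP_570bef_ntF

private theorem Mi_rows {R σ : Type} [Fintype R] [Fintype σ] [DecidableEq R] {K : Type} [Field K]
    (M : Matrix R σ K) (r : ℕ) (hr : r ≤ M.rank) :
    ∃ I : Finset R, I.card = r ∧ LinearIndependent K (fun i : I => M (i : R)) := by
  classical
  obtain ⟨κ, a, ha, hspan, hli⟩ := exists_linearIndependent' K (fun i : R => M i)
  have : Finite κ := Finite.of_injective a ha
  let _ : Fintype κ := Fintype.ofFinite κ
  have hcard : Fintype.card κ = M.rank := by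
    rw [Matrix.rank_eq_finrank_span_row]
    have h1 := finrank_span_eq_card hli
    rw [← h1, hspan]
    rfl
  obtain ⟨T, hT, hTc⟩ := Finset.exists_subset_card_eq (s := (Finset.univ : Finset κ)) (n := r)
    (by rw [Finset.card_univ, hcard]; exact hr)
  refine ⟨T.map ⟨a, ha⟩, by rw [Finset.card_map]; exact hTc, ?_⟩
  have hsec : ∀ i : (T.map ⟨a, ha⟩ : Finset R), ∃ k : κ, a k = i := by
    rintro ⟨i, hi⟩
    obtain ⟨k, _, hk⟩ := Finset.mem_map.mp hi
    exact ⟨k, hk⟩
  choose g hg using hsec
  have hginj : Function.Injective g := by
    intro x y hxy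
    apply Subtype.ext
    rw [← hg x, ← hg y, hxy]
  have h2 := hli.comp g hginj
  have h3 : (((fun i : R => M i) ∘ a) ∘ g) = (fun i : (T.map ⟨a, ha⟩ : Finset R) => M (i : R)) := by
    funext i
    simp only [Function.comp_apply]
    rw [hg i]
  rw [← h3]
  exact h2

theorem exists_minor {R σ : Type} [Fintype R] [Fintype σ] [DecidableEq R] [DecidableEq σ] {K : Type} [Field K]
    (M : Matrix R σ K) (r : ℕ) (hr : r ≤ M.rank) :
    ∃ (I : Finset R) (J : Finset σ), I.card = r ∧ J.card = r ∧
      ∀ e : J ≃ I, (Matrix.of fun a b : J => M (e a) b).det ≠ 0 := by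
  classical
  obtain ⟨I, hI, hIl⟩ := Mi_rows M r hr
  set M' : Matrix I σ K := Matrix.of fun (i : I) (j : σ) => M (i : R) j with hM'
  have hM'l : LinearIndependent K M'.row := hIl
  have hM'r : M'.rank = r := by
    rw [hM'l.rank_matrix, Fintype.card_coe, hI]
  have hM't : r ≤ M'.transpose.rank := by
    rw [Matrix.rank_transpose, hM'r]
  obtain ⟨J, hJ, hJl⟩ := Mi_rows M'.transpose r hM't
  refine ⟨I, J, hI, hJ, fun e => ?_⟩
  set N : Matrix J J K := Matrix.of fun a b : J => M (e a) b with hN
  have hNl : LinearIndependent K N.transpose.row := by
    have h3 := hJl.map' (LinearEquiv.funCongrLeft K K e).toLinearMap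
      (LinearEquiv.ker _)
    exact h3
  rw [Matrix.linearIndependent_rows_iff_isUnit, Matrix.isUnit_iff_isUnit_det,
    Matrix.det_transpose] at hNl
  exact hNl.ne_zero

end MP_570bef_ntF
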