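import Pool.Agent.Lib.MP_570bef_ntF.Sl
import Pool.Agent.Lib.MP_570bef_ntF.Mi

/-! JOB Rc.  RANK COUNT.

For `x` in the set, `exists_minor (jac f x) r` gives `(I, J)`, `I.card = J.card = r`.  For each pair `(I, J)` of subsets with `I.card = J.card = r` fix one bijection
`e_{I,J} : J ≃ I` (`Finset.equivOfCardEq` or `Fintype.equivOfCardEq`).  Union bound (`cnt_le_sum`) over the `≤ 2^(card R) * 2^(card σ)` pairs
(`Finset.univ : Finset (Finset R × Finset σ)` filtered), each term times `q^r` is `≤ (D+1)^r * q^(card σ)` by `card_slice`. -/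

open Polynomial

namespace MP_570bef_ntF

theorem rank_count {R σ : Type} [Fintype R] [Fintype σ] [DecidableEq R] [DecidableEq σ] {K : Type} [Field K]
    [Fintype K] (D : ℕ) (f : R → MvPolynomial σ K) (hdeg : ∀ i, (f i).totalDegree ≤ D) (r : ℕ) :
    cnt (fun x : σ → K => (∀ i, MvPolynomial.eval x (f i) = 0) ∧ r ≤ (jac f x).rank)
      * Fintype.card K ^ r
      ≤ 2 ^ (Fintype.card R + Fintype.card σ) * (D + 1) ^ r * Fintype.card K ^ Fintype.card σ := by
  classical
  -- the pairs of index sets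
  obtain ⟨s, hs⟩ : ∃ s : Finset (Finset R × Finset σ),
      s = Finset.univ.filter fun p : Finset R × Finset σ => p.1.card = r ∧ p.2.card = r := ⟨_, rfl⟩
  have hmem : ∀ p ∈ s, p.1.card = r ∧ p.2.card = r := by
    intro p hp
    rw [hs, Finset.mem_filter] at hp
    exact hp.2
  obtain ⟨Q, hQ⟩ : ∃ Q : Finset R × Finset σ → (σ → K) → Prop,
      Q = fun p x => ∃ e : p.2 ≃ p.1, e = (if h : p.2.card = p.1.card then
        Finset.equivOfCardEq h else e) ∧ (∀ i, MvPolynomial.eval x (f i) = 0) ∧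
        (Matrix.of fun a b : p.2 => jac f x (e a) b).det ≠ 0 := ⟨_, rfl⟩
  have h1 : ∀ p ∈ s, cnt (Q p) * Fintype.card K ^ r ≤
      (D + 1) ^ r * Fintype.card K ^ Fintype.card σ := by
    intro p hp
    obtain ⟨hp1, hp2⟩ := hmem p hp
    have hpe : p.2.card = p.1.card := by rw [hp1, hp2]
    have h2 := card_slice D f hdeg p.1 p.2 (Finset.equivOfCardEq hpe)
    rw [hp2] at h2
    refine le_trans (Nat.mul_le_mul_right _ (cnt_mono ?_)) h2
    intro x hx
    rw [hQ] at hx
    obtain ⟨e, he, hx1, hx2⟩ := hx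
    rw [dif_pos hpe] at he
    rw [← he]
    exact ⟨hx1, hx2⟩
  have h2 : cnt (fun x : σ → K => (∀ i, MvPolynomial.eval x (f i) = 0) ∧ r ≤ (jac f x).rank) ≤
      ∑ p ∈ s, cnt (Q p) := by
    refine cnt_le_sum s Q ?_
    rintro x ⟨hx1, hx2⟩
    obtain ⟨I, J, hI, hJ, hdet⟩ := exists_minor (jac f x) r hx2
    refine ⟨(I, J), ?_, ?_⟩
    · rw [hs, Finset.mem_filter]
      exact ⟨Finset.mem_univ _, hI, hJ⟩
    · rw [hQ]
      have hpe : J.card = I.card := by rw [hI, hJ]
      refine ⟨Finset.equivOfCardEq hpe, ?_, hx1, hdet _⟩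
      rw [dif_pos hpe]
  have h3 : s.card ≤ 2 ^ (Fintype.card R + Fintype.card σ) := by
    refine (Finset.card_le_univ s).trans ?_
    rw [Fintype.card_prod, Fintype.card_finset, Fintype.card_finset, pow_add]
  calc _ ≤ (∑ p ∈ s, cnt (Q p)) * Fintype.card K ^ r := Nat.mul_le_mul_right _ h2
    _ = ∑ p ∈ s, cnt (Q p) * Fintype.card K ^ r := Finset.sum_mul _ _ _
    _ ≤ ∑ _p ∈ s, (D + 1) ^ r * Fintype.card K ^ Fintype.card σ := Finset.sum_le_sum h1
    _ = s.card * ((D + 1) ^ r * Fintype.card K ^ Fintype.card σ) := by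
      rw [Finset.sum_const, smul_eq_mul]
    _ ≤ 2 ^ (Fintype.card R + Fintype.card σ) * ((D + 1) ^ r * Fintype.card K ^ Fintype.card σ) :=
      Nat.mul_le_mul_right _ h3
    _ = _ := (mul_assoc _ _ _).symm

end MP_570bef_ntF
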