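import Pool.Agent.Lib.MP_570bef_ntF.Base

/-! JOB Rk.  Kernels and ranks over a finite field.

`card_ker`: the kernel of `M.mulVecLin` is a subspace of dimension `card σ - M.rank` (rank-nullity `LinearMap.finrank_range_add_finrank_ker`, `Matrix.rank = finrank (range mulVecLin)`),
its cardinality is `q^(dim)` (`Module.card_eq_pow_finrank`).  `card_left_ker`: `Matrix.vecMul c M = Mᵀ.mulVec c` (`Matrix.mulVec_transpose`), `Matrix.rank_transpose`.
`le_rank_of_ker`: if the kernel has at most `q^a` elements then `card σ ≤ rank + a` (from `card_ker`, `q ≥ 2`, `Nat.pow_le_pow_iff_right`-type monotonicity). -/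

open Polynomial

namespace MP_570bef_ntF

theorem card_ker {R σ : Type} [Fintype R] [Fintype σ] [DecidableEq R] [DecidableEq σ] {K : Type} [Field K]
    [Fintype K] (M : Matrix R σ K) :
    cnt (fun v : σ → K => M.mulVec v = 0) * Fintype.card K ^ M.rank = Fintype.card K ^ Fintype.card σ := by
  classical
  have h1 : cnt (fun v : σ → K => M.mulVec v = 0) = Nat.card (LinearMap.ker M.mulVecLin) := by
    rw [cnt_eq, ← Fintype.card_subtype, ← Nat.card_eq_fintype_card]
    exact Nat.card_congr (Equiv.subtypeEquivRight fun v => by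
      rw [LinearMap.mem_ker, Matrix.mulVecLin_apply])
  have h2 : Nat.card (LinearMap.ker M.mulVecLin) =
      Fintype.card K ^ Module.finrank K (LinearMap.ker M.mulVecLin) := by
    rw [Module.natCard_eq_pow_finrank (K := K), Nat.card_eq_fintype_card]
  have h3 : Module.finrank K (LinearMap.range M.mulVecLin) +
      Module.finrank K (LinearMap.ker M.mulVecLin) = Fintype.card σ := by
    rw [LinearMap.finrank_range_add_finrank_ker, Module.finrank_fintype_fun_eq_card]
  rw [h1, h2, ← pow_add, ← h3, add_comm]
  rfl

theorem card_left_ker {R σ : Type} [Fintype R] [Fintype σ] [DecidableEq R] [DecidableEq σ] {K : Type} [Field K]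
    [Fintype K] (M : Matrix R σ K) :
    cnt (fun c : R → K => Matrix.vecMul c M = 0) * Fintype.card K ^ M.rank = Fintype.card K ^ Fintype.card R := by
  have h1 := card_ker (Matrix.transpose M)
  rw [Matrix.rank_transpose] at h1
  rw [← h1]
  congr 2
  funext c
  rw [Matrix.mulVec_transpose]

theorem le_rank_of_ker {R σ : Type} [Fintype R] [Fintype σ] [DecidableEq R] [DecidableEq σ] {K : Type} [Field K]
    [Fintype K] (M : Matrix R σ K) (a : ℕ)
    (h : cnt (fun v : σ → K => M.mulVec v = 0) ≤ Fintype.card K ^ a) :
    Fintype.card σ ≤ M.rank + a := by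
  have h1 := card_ker M
  have h2 : Fintype.card K ^ Fintype.card σ ≤ Fintype.card K ^ (M.rank + a) := by
    rw [← h1, pow_add, mul_comm]
    exact Nat.mul_le_mul_left _ h
  exact (Nat.pow_le_pow_iff_right two_le_q).1 h2

end MP_570bef_ntF
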