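import Pool.Agent.Lib.MP_570bef_ntF.KdS
import Pool.Agent.Lib.MP_570bef_ntF.KdK
import Pool.Agent.Lib.MP_570bef_ntF.Rc
import Pool.Agent.Lib.MP_570bef_ntF.Rk

/-! JOB KdC.  Number of primitive killing divisors with given degrees.

`s = k - 1`, `Γ := ∑ d e ≤ n`, `P := ∑ (e+1) * d e ≤ (k-1) Γ ≤ k n`, `R := k n + 1 - P`, `σ := Σ e, Fin (d e + 1)`, `card σ = Γ + (k-1)` (`Fintype.card_sigma`).  `f` from `kd_system A (k-1) d R`
(total degree `≤ (k-1) k ≤ k^2`).  Let `y` be in the set: all `gam y e ≠ 0` (as `rad` is squarefree), `natDegree (low * rad) = P` (`low_mul_rad`, `natDegree_prod_of_ne_zero`-type lemma).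
(1) `eval y (f j) = A (low * rad * X^j) = 0` for `j < R` (`Kill`, `j + P ≤ k n`).
(2) `(jac f y).mulVec v j = ∑_{(e,i)} A ((e+1) * (low * ∏_{e'≠e} γ_e') * X^i * X^j) * v ⟨e,i⟩ = A (low * (∑ e, (e+1) * (gam v e * ∏_{e'≠e} γ_e')) * X^j)` by linearity of `A`
(`Fintype.sum_sigma`, `gam v e = ∑ i, C (v ⟨e,i⟩) * X^i`, `A (C a * p) = a * A p` via `smul`).  So `kd_kernel` says that `cnt (fun v => (jac f y).mulVec v = 0) ≤ q^(k-1)`
(`j < R ↔ j + P ≤ k n`), and `le_rank_of_ker`: `Γ + (k-1) ≤ rank + (k-1)`, so `Γ ≤ rank`.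
(3) `rank_count` with `D = k^2`, `r = Γ`: `# * q^Γ ≤ 2^(R + Γ + (k-1)) * (k^2+1)^Γ * q^(Γ + (k-1))`; divide by `q^Γ > 0`, and `R ≤ k n + 1`, `Γ ≤ n`. -/

open Polynomial

namespace MP_570bef_ntF

variable {K : Type} [Field K] [Fintype K]

private theorem KdC_mulVec (A : K[X] →ₗ[K] K) {s R : ℕ} {d : Fin s → ℕ}
    (f : Fin R → MvPolynomial (Σ e : Fin s, Fin (d e + 1)) K)
    (y v : (Σ e : Fin s, Fin (d e + 1)) → K) (j : Fin R)
    (hf : ∀ (e : Fin s) (i : Fin (d e + 1)),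
        MvPolynomial.eval y (MvPolynomial.pderiv ⟨e, i⟩ (f j)) =
          A ((((e : ℕ) + 1 : ℕ) : K[X]) * (low (gam y) * ∏ e' ∈ Finset.univ.erase e, gam y e')
            * X ^ (i : ℕ) * X ^ (j : ℕ))) :
    (jac f y).mulVec v j = A (low (gam y) * (∑ e : Fin s, (((e : ℕ) + 1 : ℕ) : K[X]) *
          (gam v e * ∏ e' ∈ Finset.univ.erase e, gam y e')) * X ^ (j : ℕ)) := by
  rw [Matrix.mulVec, dotProduct, Fintype.sum_sigma, Finset.mul_sum, Finset.sum_mul, map_sum]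
  refine Finset.sum_congr rfl (fun e _ => ?_)
  have h1 : low (gam y) * ((((e : ℕ) + 1 : ℕ) : K[X]) *
      (gam v e * ∏ e' ∈ Finset.univ.erase e, gam y e')) * X ^ (j : ℕ) =
      ∑ i : Fin (d e + 1), v ⟨e, i⟩ • ((((e : ℕ) + 1 : ℕ) : K[X]) *
        (low (gam y) * ∏ e' ∈ Finset.univ.erase e, gam y e') * X ^ (i : ℕ) * X ^ (j : ℕ)) := by
    have h2 : gam v e = ∑ i : Fin (d e + 1), C (v ⟨e, i⟩) * X ^ (i : ℕ) := rfl
    rw [h2, Finset.sum_mul, Finset.mul_sum, Finset.mul_sum, Finset.sum_mul]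
    refine Finset.sum_congr rfl (fun i _ => ?_)
    rw [Polynomial.smul_eq_C_mul]
    ring
  rw [h1, map_sum]
  refine Finset.sum_congr rfl (fun i _ => ?_)
  rw [map_smul, smul_eq_mul, ← hf e i, mul_comm]
  rfl

private theorem KdC_deg {s : ℕ} {d : Fin s → ℕ} (y : (Σ e : Fin s, Fin (d e + 1)) → K)
    (hdeg : ∀ e, (gam y e).natDegree = d e) (hne : ∀ e, gam y e ≠ 0) :
    (low (gam y) * rad (gam y)).natDegree = ∑ e : Fin s, ((e : ℕ) + 1) * d e := by
  rw [low, rad, ← Finset.prod_mul_distrib, Polynomial.natDegree_prod _ _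
    (fun e _ => mul_ne_zero (pow_ne_zero _ (hne e)) (hne e))]
  refine Finset.sum_congr rfl (fun e _ => ?_)
  rw [Polynomial.natDegree_mul (pow_ne_zero _ (hne e)) (hne e), Polynomial.natDegree_pow, hdeg e]
  ring

theorem kd_count (k n : ℕ) (hk2 : 2 ≤ k) (hchar : ∀ j : ℕ, 1 ≤ j → j ≤ k → (j : K) ≠ 0)
    (A : K[X] →ₗ[K] K) (d : Fin (k - 1) → ℕ) (hd : ∑ e, d e ≤ n) :
    cnt (fun y : (Σ e : Fin (k - 1), Fin (d e + 1)) → K =>
      (∀ e, (gam y e).natDegree = d e) ∧ Prim A (k * n) (gam y))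
      ≤ 2 ^ (k * n + 1 + (n + (k - 1))) * (k ^ 2 + 1) ^ n * Fintype.card K ^ (k - 1) := by
  obtain ⟨Γ, hΓ⟩ : ∃ Γ, Γ = ∑ e, d e := ⟨_, rfl⟩
  obtain ⟨P, hP⟩ : ∃ P, P = ∑ e : Fin (k - 1), ((e : ℕ) + 1) * d e := ⟨_, rfl⟩
  rw [← hΓ] at hd
  have hPle : P ≤ k * n := by
    have h1 : P ≤ ∑ e : Fin (k - 1), k * d e := by
      rw [hP]
      refine Finset.sum_le_sum (fun e _ => Nat.mul_le_mul_right _ ?_)
      have := e.2
      omega
    rw [← Finset.mul_sum, ← hΓ] at h1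
    exact h1.trans (Nat.mul_le_mul_left k hd)
  obtain ⟨R, hR⟩ : ∃ R, R = k * n + 1 - P := ⟨_, rfl⟩
  have hcard : Fintype.card (Σ e : Fin (k - 1), Fin (d e + 1)) = Γ + (k - 1) := by
    rw [Fintype.card_sigma]
    simp only [Fintype.card_fin, Finset.sum_add_distrib, Finset.sum_const, Finset.card_univ,
      smul_eq_mul, mul_one]
    rw [hΓ]
  obtain ⟨f, hfd, hfe, hfj⟩ := kd_system A (k - 1) d R
  have hfd' : ∀ j, (f j).totalDegree ≤ k ^ 2 := by
    intro j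
    refine (hfd j).trans ?_
    have h1 : k - 1 + 1 = k := by omega
    rw [h1, pow_two]
    exact Nat.mul_le_mul_right k (Nat.sub_le k 1)
  have hmono : cnt (fun y : (Σ e : Fin (k - 1), Fin (d e + 1)) → K =>
      (∀ e, (gam y e).natDegree = d e) ∧ Prim A (k * n) (gam y)) ≤
      cnt (fun y : (Σ e : Fin (k - 1), Fin (d e + 1)) → K =>
        (∀ i, MvPolynomial.eval y (f i) = 0) ∧ Γ ≤ (jac f y).rank) := by
    refine cnt_mono (fun y hy => ?_)
    obtain ⟨hdeg, hprim⟩ := hy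
    have hne : ∀ e, gam y e ≠ 0 := by
      have h1 : rad (gam y) ≠ 0 := hprim.1.ne_zero
      intro e
      exact Finset.prod_ne_zero_iff.1 h1 e (Finset.mem_univ e)
    have hD := KdC_deg y hdeg hne
    rw [← hP] at hD
    refine ⟨fun j => ?_, ?_⟩
    · rw [hfe]
      refine hprim.2.1 _ ?_
      rw [hD, Polynomial.natDegree_X_pow]
      have := j.2
      omega
    · have h1 := kd_kernel k n hk2 hchar A d (by rw [← hΓ]; exact hd) y hdeg hprim
      have h2 : cnt (fun v : (Σ e : Fin (k - 1), Fin (d e + 1)) → K => (jac f y).mulVec v = 0) ≤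
          Fintype.card K ^ (k - 1) := by
        refine le_trans (cnt_mono (fun v hv => ?_)) h1
        intro j hj
        rw [hD] at hj
        have hjR : j < R := by omega
        have h3 := KdC_mulVec A f y v ⟨j, hjR⟩ (fun e i => hfj y ⟨j, hjR⟩ e i)
        rw [hv] at h3
        exact h3.symm
      have h3 := le_rank_of_ker (jac f y) (k - 1) h2
      rw [hcard] at h3
      omega
  have hq : 0 < Fintype.card K := Fintype.card_pos
  have hrc := rank_count (k ^ 2) f hfd' Γ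
  rw [hcard, Fintype.card_fin] at hrc
  have h1 : cnt (fun y : (Σ e : Fin (k - 1), Fin (d e + 1)) → K =>
      (∀ i, MvPolynomial.eval y (f i) = 0) ∧ Γ ≤ (jac f y).rank) ≤
      2 ^ (R + (Γ + (k - 1))) * (k ^ 2 + 1) ^ Γ * Fintype.card K ^ (k - 1) := by
    refine Nat.le_of_mul_le_mul_right ?_ (pow_pos hq Γ)
    refine hrc.trans (le_of_eq ?_)
    rw [pow_add (Fintype.card K) Γ (k - 1)]
    ring
  refine hmono.trans (h1.trans ?_)
  refine Nat.mul_le_mul_right _ (Nat.mul_le_mul ?_ ?_)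
  · exact Nat.pow_le_pow_right (by norm_num) (by omega)
  · exact Nat.pow_le_pow_right (Nat.succ_pos _) hd

end MP_570bef_ntF
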