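import Pool.Agent.Lib.MP_570bef_ntF.KdB
import Pool.Agent.Lib.MP_570bef_ntF.KdC
import Pool.Agent.Lib.MP_570bef_ntF.CK

/-! JOB KdD.  For one functional `A`.

`card_ZZ_le`: for `x ∈ ZZ k n A (QQ K n)` (`x` squarefree of degree `n`, `mem_ZZ`, `mem_QQ`) `exists_prim` gives `γ` with `Prim A (k n) γ`, `rad γ ∣ x`; `rad γ ≠ 0`, so `natDegree (rad γ) ≤ n` and
all `γ e` divide `x`, so `γ e ∈ SS K n`: `γ ∈ BB K k n A`.  So `ZZ` is contained in the union over `γ ∈ BB` of `{x ∈ SS K n : rad γ ∣ x}`; `Finset.card_biUnion_le`, `card_mult_le`.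
`card_BB_le`: map `γ ∈ BB` to its degree vector `δ : Fin (k-1) → Fin (n+1)` (`natDegree (γ e) ≤ n`); there are `(n+1)^(k-1)` vectors.  For a fixed vector `d` (with `∑ d e = natDegree (rad γ) ≤ n`;
the fibre is empty otherwise; all `γ e ≠ 0`), the map `γ ↦ y`, `y ⟨e, i⟩ := (γ e).coeff i` is injective on the fibre, `gam y = γ` (`toP_coeff`), so the fibre has at most the number of elements of `kd_count`. -/

open Polynomial

namespace MP_570bef_ntF

variable {K : Type} [Field K] [Fintype K]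

theorem card_ZZ_le (k n : ℕ) (hk : 1 ≤ k) (A : K[X] →ₗ[K] K) :
    (ZZ k n A (QQ K n)).card ≤ ∑ γ ∈ BB K k n A, Fintype.card K ^ (n + 1 - (rad γ).natDegree) := by
  classical
  refine (Finset.card_le_card (t := (BB K k n A).biUnion fun γ =>
    (SS K n).filter fun x => rad γ ∣ x) ?_).trans ?_
  · intro x hx
    rw [mem_ZZ, mem_QQ] at hx
    obtain ⟨⟨hsq, hn⟩, hh⟩ := hx
    obtain ⟨γ, hγ, hdvd⟩ := exists_prim k n hk A x hsq hn hh
    have hx0 : x ≠ 0 := hsq.ne_zero
    rw [Finset.mem_biUnion]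
    refine ⟨γ, ?_, ?_⟩
    · unfold BB
      rw [Finset.mem_filter, Fintype.mem_piFinset]
      refine ⟨fun e => ?_, hγ, ?_⟩
      · rw [mem_SS, ← hn]
        exact Polynomial.natDegree_le_of_dvd
          ((Finset.dvd_prod_of_mem γ (Finset.mem_univ e)).trans hdvd) hx0
      · rw [← hn]
        exact Polynomial.natDegree_le_of_dvd hdvd hx0
    · rw [Finset.mem_filter, mem_SS]
      exact ⟨hn.le, hdvd⟩
  · refine Finset.card_biUnion_le.trans (Finset.sum_le_sum fun γ hγ => ?_)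
    unfold BB at hγ
    rw [Finset.mem_filter] at hγ
    exact card_mult_le n (rad γ) hγ.2.1.1.ne_zero hγ.2.2

theorem card_BB_le (k n : ℕ) (hk2 : 2 ≤ k) (hchar : ∀ j : ℕ, 1 ≤ j → j ≤ k → (j : K) ≠ 0)
    (A : K[X] →ₗ[K] K) :
    (BB K k n A).card ≤ (n + 1) ^ (k - 1) *
      (2 ^ (k * n + 1 + (n + (k - 1))) * (k ^ 2 + 1) ^ n * Fintype.card K ^ (k - 1)) := by
  classical
  obtain ⟨B, hB⟩ : ∃ B : ℕ, B = 2 ^ (k * n + 1 + (n + (k - 1))) * (k ^ 2 + 1) ^ n *
      Fintype.card K ^ (k - 1) := ⟨_, rfl⟩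
  rw [← hB]
  have hmem : ∀ γ, γ ∈ BB K k n A ↔ (∀ e, (γ e).natDegree ≤ n) ∧ Prim A (k * n) γ ∧
      (rad γ).natDegree ≤ n := by
    intro γ
    unfold BB
    rw [Finset.mem_filter, Fintype.mem_piFinset]
    simp only [mem_SS]
  have h1 := Finset.card_le_mul_card_image (f := fun γ : Fin (k - 1) → K[X] =>
    fun e => (γ e).natDegree) (BB K k n A) B ?_
  · refine h1.trans ?_
    rw [mul_comm]
    refine Nat.mul_le_mul_right _ ?_
    refine (Finset.card_le_card
      (t := Fintype.piFinset fun _ : Fin (k - 1) => Finset.range (n + 1)) ?_).trans ?_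
    · intro d hd
      rw [Finset.mem_image] at hd
      obtain ⟨γ, hγ, rfl⟩ := hd
      rw [Fintype.mem_piFinset]
      intro e
      rw [Finset.mem_range]
      exact Nat.lt_succ_of_le (((hmem γ).1 hγ).1 e)
    · rw [Fintype.card_piFinset]
      simp
  · intro d hd
    rw [Finset.mem_image] at hd
    obtain ⟨γ0, hγ0, hd0⟩ := hd
    have hγ0' := (hmem γ0).1 hγ0
    have hsum : ∑ e, d e ≤ n := by
      refine le_trans (le_of_eq ?_) hγ0'.2.2
      rw [← hd0]
      unfold rad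
      rw [Polynomial.natDegree_prod]
      intro e he h0
      exact hγ0'.2.1.1.ne_zero (Finset.prod_eq_zero he h0)
    have hcnt := kd_count k n hk2 hchar A d hsum
    rw [← hB] at hcnt
    refine le_trans ?_ hcnt
    rw [cnt_eq]
    have hgam : ∀ γ : Fin (k - 1) → K[X], (∀ e, (γ e).natDegree = d e) →
        gam (d := d) (fun z => (γ z.1).coeff (z.2 : ℕ)) = γ := by
      intro γ hγ
      funext e
      have h9 : toP (fun i : Fin (d e + 1) => (γ e).coeff (i : ℕ)) = γ e := toP_coeff (hγ e).le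
      exact h9
    have hfib : ∀ γ, γ ∈ (BB K k n A).filter (fun γ : Fin (k - 1) → K[X] =>
        (fun e => (γ e).natDegree) = d) → (∀ e, (γ e).natDegree = d e) ∧ γ ∈ BB K k n A := by
      intro γ hγ
      rw [Finset.mem_filter] at hγ
      exact ⟨fun e => congrFun hγ.2 e, hγ.1⟩
    refine Finset.card_le_card_of_injOn
      (fun γ : Fin (k - 1) → K[X] => fun z : (Σ e : Fin (k - 1), Fin (d e + 1)) =>
        (γ z.1).coeff (z.2 : ℕ)) ?_ ?_
    · intro γ hγ
      have h8 := hfib γ (Finset.mem_coe.1 hγ)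
      rw [Finset.mem_coe, Finset.mem_filter]
      refine ⟨Finset.mem_univ _, ?_⟩
      rw [hgam γ h8.1]
      exact ⟨h8.1, ((hmem γ).1 h8.2).2.1⟩
    · intro γ hγ γ' hγ' heq
      have h8 := hfib γ (Finset.mem_coe.1 hγ)
      have h8' := hfib γ' (Finset.mem_coe.1 hγ')
      have h9 := congrArg (gam (d := d)) heq
      rw [hgam γ h8.1, hgam γ' h8'.1] at h9
      exact h9

end MP_570bef_ntF
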