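import Pool.Agent.Lib.MP_570bef_ntF.KdD

/-! JOB KdE.  The `k`-th moment of `|Z_c|` over all functionals.  `q = card K`, `B := (n+1)^(k-1) * (2^(..) * (k^2+1)^n * q^(k-1))` (bound of `card_BB_le`).

(1) `card_ZZ_le` and the power mean inequality `(∑_{i∈s} z_i)^k ≤ s.card^(k-1) * ∑ z_i^k` (Mathlib `inner_le` not needed: `pow_sum_div_card_le_sum_pow` over an ordered field, cast to `ℝ`):
`(ZZ ..).card^k ≤ B^(k-1) * ∑_{γ ∈ BB K k n (lin c)} q^(k (n+1-Γ_γ))`, `Γ_γ = natDegree (rad γ) ≤ n`.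
(2) Sum over `c` and exchange: `∑_c ∑_{γ ∈ BB(c)} w(γ) ≤ ∑_{γ ∈ T} w(γ) * cnt (fun c => Kill (lin c) (k n) (low γ * rad γ) (natDegree (low γ * rad γ)))`, where `T` is the set of `γ ∈ (SS K n)^(k-1)` with
`rad γ ≠ 0`, `Γ_γ ≤ n` (`BB(c) ⊆ T` and membership gives the `Kill`).  `card_kill_le`: the count is `≤ q^(natDegree (low γ * rad γ))`, and
`natDegree (low γ * rad γ) = ∑ (e+1) natDegree (γ e) ≤ (k-1) Γ_γ ≤ k n + 1`.
(3) Group `T` by the degree vector (`≤ (n+1)^(k-1)` vectors `d`, `∑ d e = Γ ≤ n`): the number of `γ` with degree vector `d` is `≤ ∏ q^(d e + 1) = q^(Γ + (k-1))` (`γ e ∈ SS K (d e)`, `card_SS`).  Each vector contributes at most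
`q^(Γ + (k-1)) * q^(k (n+1-Γ)) * q^((k-1) Γ) = q^(k(n+1) + (k-1))` (exponents: `Γ + (k-1) + k(n+1) - kΓ + (k-1)Γ`). -/

open Polynomial

namespace MP_570bef_ntF

variable {K : Type} [Field K] [Fintype K]

omit [Fintype K] in
/-- natural degree of the product -/
private theorem KdE_deg {k : ℕ} (γ : Fin (k - 1) → K[X]) (hr : rad γ ≠ 0) :
    low γ * rad γ ≠ 0 ∧ (rad γ).natDegree = ∑ e, (γ e).natDegree ∧
      (low γ * rad γ).natDegree ≤ (k - 1) * (rad γ).natDegree := by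
  have hg : ∀ e, γ e ≠ 0 := by
    intro e he
    exact hr (Finset.prod_eq_zero (Finset.mem_univ e) he)
  have h1 : (rad γ).natDegree = ∑ e, (γ e).natDegree :=
    Polynomial.natDegree_prod _ _ fun e _ => hg e
  refine ⟨?_, h1, ?_⟩
  · rw [low_mul_rad]
    exact Finset.prod_ne_zero_iff.2 fun e _ => pow_ne_zero _ (hg e)
  · rw [low_mul_rad, Polynomial.natDegree_prod _ _ fun e _ => pow_ne_zero _ (hg e), h1,
      Finset.mul_sum]
    refine Finset.sum_le_sum fun e _ => ?_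
    rw [Polynomial.natDegree_pow]
    exact Nat.mul_le_mul_right _ (by have := e.2; omega)

open Classical in
/-- the possible tuples -/
private noncomputable def KdE_T (K : Type) [Field K] [Fintype K] (k n : ℕ) :
    Finset (Fin (k - 1) → K[X]) :=
  (Fintype.piFinset (fun _ : Fin (k - 1) => SS K n)).filter
    (fun γ => rad γ ≠ 0 ∧ (rad γ).natDegree ≤ n)

private theorem KdE_mem {k n : ℕ} {γ : Fin (k - 1) → K[X]} : γ ∈ KdE_T K k n ↔
    (∀ e, (γ e).natDegree ≤ n) ∧ rad γ ≠ 0 ∧ (rad γ).natDegree ≤ n := by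
  classical
  unfold KdE_T
  rw [Finset.mem_filter, Fintype.mem_piFinset]
  simp only [mem_SS]

/-- the sum over the tuples, grouped by the degree vector -/
private theorem KdE_sum (k n : ℕ) (hk : 2 ≤ k) :
    ∑ γ ∈ KdE_T K k n, Fintype.card K ^ (k * (n + 1) - (rad γ).natDegree) ≤
      (n + 1) ^ (k - 1) * Fintype.card K ^ (k * (n + 1) + (k - 1)) := by
  classical
  have h1 := Finset.sum_fiberwise_of_maps_to (s := KdE_T K k n)
    (t := (Finset.univ : Finset (Fin (k - 1) → Fin (n + 1))))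
    (g := fun γ e => (⟨min (γ e).natDegree n, by omega⟩ : Fin (n + 1)))
    (fun _ _ => Finset.mem_univ _)
    (fun γ => Fintype.card K ^ (k * (n + 1) - (rad γ).natDegree))
  rw [← h1]
  have h2 : ∀ d ∈ (Finset.univ : Finset (Fin (k - 1) → Fin (n + 1))),
      (∑ γ ∈ (KdE_T K k n).filter
        (fun γ => (fun e => (⟨min (γ e).natDegree n, by omega⟩ : Fin (n + 1))) = d),
        Fintype.card K ^ (k * (n + 1) - (rad γ).natDegree)) ≤
        Fintype.card K ^ (k * (n + 1) + (k - 1)) := by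
    intro d _
    obtain ⟨S, hS⟩ : ∃ S : Finset (Fin (k - 1) → K[X]), S = (KdE_T K k n).filter
        (fun γ => (fun e => (⟨min (γ e).natDegree n, by omega⟩ : Fin (n + 1))) = d) := ⟨_, rfl⟩
    rw [← hS]
    have hmem : ∀ γ ∈ S, (∀ e, (γ e).natDegree = (d e : ℕ)) ∧ rad γ ≠ 0 ∧
        (rad γ).natDegree ≤ n := by
      intro γ hγ
      rw [hS, Finset.mem_filter, KdE_mem] at hγ
      obtain ⟨⟨h3, h4, h5⟩, h6⟩ := hγ
      refine ⟨fun e => ?_, h4, h5⟩
      have h7 := congrArg (fun v : Fin (n + 1) => (v : ℕ)) (congrFun h6 e)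
      simp only [] at h7
      rw [min_eq_left (h3 e)] at h7
      exact h7
    have hrad : ∀ γ ∈ S, (rad γ).natDegree = ∑ e, (d e : ℕ) := by
      intro γ hγ
      obtain ⟨h3, h4, -⟩ := hmem γ hγ
      rw [(KdE_deg γ h4).2.1]
      exact Finset.sum_congr rfl fun e _ => h3 e
    rcases S.eq_empty_or_nonempty with he | ⟨γ₀, hγ₀⟩
    · rw [he, Finset.sum_empty]
      exact Nat.zero_le _
    · have hD : ∑ e, (d e : ℕ) ≤ n := by
        rw [← hrad γ₀ hγ₀]
        exact (hmem γ₀ hγ₀).2.2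
      have hcard : S.card ≤ Fintype.card K ^ (∑ e, (d e : ℕ) + (k - 1)) := by
        have h3 : S ⊆ Fintype.piFinset (fun e : Fin (k - 1) => SS K (d e : ℕ)) := by
          intro γ hγ
          rw [Fintype.mem_piFinset]
          intro e
          rw [mem_SS]
          exact ((hmem γ hγ).1 e).le
        refine (Finset.card_le_card h3).trans (le_of_eq ?_)
        rw [Fintype.card_piFinset]
        simp only [card_SS]
        rw [Finset.prod_pow_eq_pow_sum, Finset.sum_add_distrib]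
        congr 1
        simp
      rw [Finset.sum_congr rfl fun γ hγ => by rw [hrad γ hγ], Finset.sum_const, smul_eq_mul]
      refine (Nat.mul_le_mul_right _ hcard).trans (le_of_eq ?_)
      rw [← pow_add]
      congr 1
      have h4 : n + 1 ≤ k * (n + 1) := Nat.le_mul_of_pos_left _ (by omega)
      omega
  refine (Finset.sum_le_sum h2).trans (le_of_eq ?_)
  rw [Finset.sum_const, smul_eq_mul, Finset.card_univ]
  simp

theorem sum_ZZ_le (k n : ℕ) (hk2 : 2 ≤ k) (hchar : ∀ j : ℕ, 1 ≤ j → j ≤ k → (j : K) ≠ 0) :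
    ∑ c : Fin (k * n + 1) → K, (ZZ k n (lin c) (QQ K n)).card ^ k ≤
      ((n + 1) ^ (k - 1) * (2 ^ (k * n + 1 + (n + (k - 1))) * (k ^ 2 + 1) ^ n
        * Fintype.card K ^ (k - 1))) ^ (k - 1)
      * ((n + 1) ^ (k - 1) * Fintype.card K ^ (k * (n + 1) + (k - 1))) := by
  classical
  obtain ⟨q, hq⟩ : ∃ q, q = Fintype.card K := ⟨_, rfl⟩
  obtain ⟨B, hB⟩ : ∃ B, B = (n + 1) ^ (k - 1) * (2 ^ (k * n + 1 + (n + (k - 1))) * (k ^ 2 + 1) ^ n
        * Fintype.card K ^ (k - 1)) := ⟨_, rfl⟩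
  rw [← hB]
  -- one functional
  have h1 : ∀ c : Fin (k * n + 1) → K, (ZZ k n (lin c) (QQ K n)).card ^ k ≤
      B ^ (k - 1) * ∑ γ ∈ BB K k n (lin c), (q ^ (n + 1 - (rad γ).natDegree)) ^ k := by
    intro c
    have h2 := card_ZZ_le k n (by omega) (lin c)
    have h3 := card_BB_le k n hk2 hchar (lin c)
    rw [← hB] at h3
    have h4 := pow_sum_le_card_mul_sum_pow (s := BB K k n (lin c))
      (f := fun γ => q ^ (n + 1 - (rad γ).natDegree)) (fun _ _ => Nat.zero_le _) (k - 1)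
    have hk1 : k - 1 + 1 = k := by omega
    rw [hk1] at h4
    calc (ZZ k n (lin c) (QQ K n)).card ^ k
        ≤ (∑ γ ∈ BB K k n (lin c), q ^ (n + 1 - (rad γ).natDegree)) ^ k := by
          rw [hq]
          exact Nat.pow_le_pow_left h2 k
      _ ≤ (BB K k n (lin c)).card ^ (k - 1) *
          ∑ γ ∈ BB K k n (lin c), (q ^ (n + 1 - (rad γ).natDegree)) ^ k := h4
      _ ≤ B ^ (k - 1) * ∑ γ ∈ BB K k n (lin c), (q ^ (n + 1 - (rad γ).natDegree)) ^ k :=
          Nat.mul_le_mul_right _ (Nat.pow_le_pow_left h3 _)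
  refine (Finset.sum_le_sum fun c _ => h1 c).trans ?_
  rw [← Finset.mul_sum]
  refine Nat.mul_le_mul_left _ ?_
  -- exchange of the sums
  have h5 : ∀ c : Fin (k * n + 1) → K,
      ∑ γ ∈ BB K k n (lin c), (q ^ (n + 1 - (rad γ).natDegree)) ^ k ≤
      ∑ γ ∈ KdE_T K k n, if Kill (lin c) (k * n) (low γ * rad γ) (low γ * rad γ).natDegree then
        (q ^ (n + 1 - (rad γ).natDegree)) ^ k else 0 := by
    intro c
    rw [← Finset.sum_filter]
    refine Finset.sum_le_sum_of_subset ?_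
    intro γ hγ
    unfold BB at hγ
    rw [Finset.mem_filter, Fintype.mem_piFinset] at hγ
    obtain ⟨h6, ⟨h7, h8, -⟩, h9⟩ := hγ
    rw [Finset.mem_filter, KdE_mem]
    exact ⟨⟨fun e => mem_SS.1 (h6 e), h7.ne_zero, h9⟩, h8⟩
  refine (Finset.sum_le_sum fun c _ => h5 c).trans ?_
  rw [Finset.sum_comm]
  refine le_trans (Finset.sum_le_sum fun γ hγ => ?_) (KdE_sum (K := K) k n hk2)
  rw [KdE_mem] at hγ
  obtain ⟨-, h6, h7⟩ := hγ
  obtain ⟨h8, -, h9⟩ := KdE_deg γ h6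
  have h10 : (k - 1) * (rad γ).natDegree ≤ (k - 1) * n := Nat.mul_le_mul_left _ h7
  have h11 : (k - 1) * n ≤ k * n := Nat.mul_le_mul_right _ (by omega)
  have h12 := card_kill_le (K := K) (k * n) (low γ * rad γ).natDegree (low γ * rad γ) h8 le_rfl
    (by omega)
  rw [cnt_eq, ← hq] at h12
  rw [← Finset.sum_filter, Finset.sum_const, smul_eq_mul, ← hq]
  refine (Nat.mul_le_mul_right _ h12).trans ?_
  rw [← pow_mul, ← pow_add]
  refine Nat.pow_le_pow_right (by rw [hq]; exact Fintype.card_pos) ?_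
  obtain ⟨Γ, hΓ⟩ : ∃ Γ, Γ = (rad γ).natDegree := ⟨_, rfl⟩
  rw [← hΓ] at h7 h9 ⊢
  obtain ⟨r, rfl⟩ : ∃ r, k = r + 1 := ⟨k - 1, by omega⟩
  obtain ⟨z, rfl⟩ : ∃ z, n = Γ + z := ⟨n - Γ, by omega⟩
  have e1 : Γ + z + 1 - Γ = z + 1 := by omega
  rw [e1]
  have h9' : (low γ * rad γ).natDegree ≤ r * Γ := h9
  have e3 : (r + 1) * (Γ + z + 1) - Γ = r * Γ + (z + 1) * (r + 1) := by
    have : (r + 1) * (Γ + z + 1) = r * Γ + (z + 1) * (r + 1) + Γ := by ring
    omega
  rw [e3]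
  omega

end MP_570bef_ntF
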