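import Pool.Agent.Lib.MP_570bef_ntF.Pu

/-! JOB KdS.  The polynomial system of killing divisors.

`L e := ∑ i : Fin (d e + 1), X ⟨e, i⟩ * C ((X : K[X])^(i : ℕ)) : MvPolynomial _ K[X]`, `P j := (∏ e, L e ^ (e+1)) * C (X^j)`, `f j := push A (P j)`.
`totalDegree (P j) ≤ ∑ (e+1) ≤ s * (s+1)` (`totalDegree_finset_prod`, `totalDegree_pow`, `totalDegree (L e) ≤ 1`; each `e + 1 ≤ s + 1` and there are `s` factors).
`eval_push`: `eval (C ∘ y) (L e) = gam y e`.
`pderiv ⟨e, i⟩ (L e') = if e' = e then C (X^i) else 0`, so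
`pderiv ⟨e, i⟩ (∏ e', L e' ^ (e'+1)) = (e+1) * L e ^ e * C (X^i) * ∏_{e' ≠ e} L e' ^ (e'+1)` (`Derivation.leibniz_of..`/`Finset.prod` via `Finset.mul_prod_erase`, induction), and
`L e ^ e * ∏_{e' ≠ e} L e'^(e'+1) = (∏_{e'} L e'^e') * ∏_{e' ≠ e} L e'`.  Evaluate: `low (gam y) * ∏_{e' ≠ e} gam y e'`. -/

open Polynomial

namespace MP_570bef_ntF

variable {K : Type} [Field K]

/-- the generic polynomial of degree `≤ d e` -/
private noncomputable def KdS_L (K : Type) [Field K] {s : ℕ} (d : Fin s → ℕ) (e : Fin s) :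
    MvPolynomial (Σ e : Fin s, Fin (d e + 1)) K[X] :=
  ∑ i : Fin (d e + 1), MvPolynomial.C ((X : K[X]) ^ (i : ℕ)) * MvPolynomial.X ⟨e, i⟩

private theorem KdS_eval {s : ℕ} (d : Fin s → ℕ) (e : Fin s) (y : (Σ e : Fin s, Fin (d e + 1)) → K) :
    MvPolynomial.eval (fun i => (C (y i) : K[X])) (KdS_L K d e) = gam y e := by
  unfold KdS_L gam toP
  rw [map_sum]
  apply Finset.sum_congr rfl
  intro i _
  rw [map_mul, MvPolynomial.eval_C, MvPolynomial.eval_X, mul_comm]

private theorem KdS_deg {s : ℕ} (d : Fin s → ℕ) (e : Fin s) : (KdS_L K d e).totalDegree ≤ 1 := by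
  unfold KdS_L
  apply MvPolynomial.totalDegree_finsetSum_le
  intro i _
  refine (MvPolynomial.totalDegree_mul _ _).trans ?_
  rw [MvPolynomial.totalDegree_C, MvPolynomial.totalDegree_X]

private theorem KdS_pd {s : ℕ} (d : Fin s → ℕ) (e : Fin s) (i : Fin (d e + 1)) :
    MvPolynomial.pderiv ⟨e, i⟩ (KdS_L K d e) = MvPolynomial.C (X ^ (i : ℕ)) := by
  classical
  unfold KdS_L
  rw [map_sum, Finset.sum_eq_single i]
  · rw [MvPolynomial.pderiv_C_mul, MvPolynomial.pderiv_X_self, mul_one]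
  · intro b _ hb
    rw [MvPolynomial.pderiv_C_mul, MvPolynomial.pderiv_X_of_ne, mul_zero]
    intro h
    apply hb
    simpa using h
  · intro h
    exact absurd (Finset.mem_univ _) h

private theorem KdS_pd0 {s : ℕ} (d : Fin s → ℕ) (e : Fin s) (i : Fin (d e + 1)) (e' : Fin s) (h : e' ≠ e) :
    MvPolynomial.pderiv ⟨e, i⟩ (KdS_L K d e') = 0 := by
  classical
  unfold KdS_L
  rw [map_sum]
  apply Finset.sum_eq_zero
  intro b _
  rw [MvPolynomial.pderiv_C_mul, MvPolynomial.pderiv_X_of_ne, mul_zero]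
  intro h'
  exact h (congrArg Sigma.fst h')

private theorem KdS_prod {σ ι : Type} [DecidableEq ι] {R : Type} [CommRing R] (j : σ)
    (F : ι → MvPolynomial σ R) (S : Finset ι) (h : ∀ a ∈ S, MvPolynomial.pderiv j (F a) = 0) :
    MvPolynomial.pderiv j (∏ a ∈ S, F a) = 0 := by
  induction S using Finset.induction_on with
  | empty => rw [Finset.prod_empty, MvPolynomial.pderiv_one]
  | insert a S ha ih =>
    rw [Finset.prod_insert ha, MvPolynomial.pderiv_mul, h a (Finset.mem_insert_self a S),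
      ih (fun b hb => h b (Finset.mem_insert_of_mem hb)), zero_mul, mul_zero, add_zero]

/-- the system -/
private noncomputable def KdS_P (K : Type) [Field K] {s : ℕ} (d : Fin s → ℕ) (j : ℕ) :
    MvPolynomial (Σ e : Fin s, Fin (d e + 1)) K[X] :=
  MvPolynomial.C ((X : K[X]) ^ j) * ∏ e : Fin s, KdS_L K d e ^ ((e : ℕ) + 1)

private theorem KdS_Pdeg {s : ℕ} (d : Fin s → ℕ) (j : ℕ) : (KdS_P K d j).totalDegree ≤ s * (s + 1) := by
  unfold KdS_P
  refine (MvPolynomial.totalDegree_mul _ _).trans ?_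
  rw [MvPolynomial.totalDegree_C, zero_add]
  refine (MvPolynomial.totalDegree_finsetProd _ _).trans ?_
  calc ∑ e : Fin s, (KdS_L K d e ^ ((e : ℕ) + 1)).totalDegree ≤ ∑ _e : Fin s, (s + 1) := by
        apply Finset.sum_le_sum
        intro e _
        refine (MvPolynomial.totalDegree_pow _ _).trans ?_
        have h1 := KdS_deg (K := K) d e
        have h2 := e.2
        calc ((e : ℕ) + 1) * (KdS_L K d e).totalDegree ≤ ((e : ℕ) + 1) * 1 := Nat.mul_le_mul_left _ h1
          _ ≤ s + 1 := by omega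
    _ = s * (s + 1) := by rw [Finset.sum_const, Finset.card_univ, Fintype.card_fin, smul_eq_mul]

private theorem KdS_Pd {s : ℕ} (d : Fin s → ℕ) (j : ℕ) (e : Fin s) (i : Fin (d e + 1)) :
    MvPolynomial.pderiv ⟨e, i⟩ (KdS_P K d j) = MvPolynomial.C ((X : K[X]) ^ j) *
      (((((e : ℕ) + 1 : ℕ) : MvPolynomial (Σ e : Fin s, Fin (d e + 1)) K[X]) * KdS_L K d e ^ (e : ℕ) *
        MvPolynomial.C (X ^ (i : ℕ))) * ∏ e' ∈ Finset.univ.erase e, KdS_L K d e' ^ ((e' : ℕ) + 1)) := by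
  unfold KdS_P
  rw [MvPolynomial.pderiv_C_mul, ← Finset.mul_prod_erase Finset.univ _ (Finset.mem_univ e),
    MvPolynomial.pderiv_mul, MvPolynomial.pderiv_pow, KdS_pd, KdS_prod _ _ (Finset.univ.erase e),
    mul_zero, add_zero, Nat.add_sub_cancel]
  intro a ha
  rw [MvPolynomial.pderiv_pow, KdS_pd0 d e i a (Finset.ne_of_mem_erase ha), mul_zero]

theorem kd_system (A : K[X] →ₗ[K] K) (s : ℕ) (d : Fin s → ℕ) (R : ℕ) :
    ∃ f : Fin R → MvPolynomial (Σ e : Fin s, Fin (d e + 1)) K,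
      (∀ j, (f j).totalDegree ≤ s * (s + 1)) ∧
      (∀ (y : (Σ e : Fin s, Fin (d e + 1)) → K) (j : Fin R),
        MvPolynomial.eval y (f j) = A ((low (gam y) * rad (gam y)) * X ^ (j : ℕ))) ∧
      (∀ (y : (Σ e : Fin s, Fin (d e + 1)) → K) (j : Fin R) (e : Fin s) (i : Fin (d e + 1)),
        MvPolynomial.eval y (MvPolynomial.pderiv ⟨e, i⟩ (f j)) =
          A ((((e : ℕ) + 1 : ℕ) : K[X]) * (low (gam y) * ∏ e' ∈ Finset.univ.erase e, gam y e')
            * X ^ (i : ℕ) * X ^ (j : ℕ))) := by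
  refine ⟨fun j => push A (KdS_P K d (j : ℕ)), fun j => ?_, fun y j => ?_, fun y j e i => ?_⟩
  · exact (totalDegree_push A _).trans (KdS_Pdeg d _)
  · rw [eval_push]
    congr 1
    unfold KdS_P
    rw [map_mul, MvPolynomial.eval_C, map_prod, low_mul_rad, mul_comm]
    congr 1
    apply Finset.prod_congr rfl
    intro e _
    rw [map_pow, KdS_eval]
  · rw [pderiv_push, eval_push, KdS_Pd]
    congr 1
    have h1 : low (gam y) = gam y e ^ (e : ℕ) * ∏ e' ∈ Finset.univ.erase e, gam y e' ^ (e' : ℕ) := by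
      unfold low
      rw [Finset.mul_prod_erase Finset.univ (fun e' => gam y e' ^ (e' : ℕ)) (Finset.mem_univ e)]
    have h2 : MvPolynomial.eval (fun i => (C (y i) : K[X]))
        (∏ e' ∈ Finset.univ.erase e, KdS_L K d e' ^ ((e' : ℕ) + 1)) =
        (∏ e' ∈ Finset.univ.erase e, gam y e' ^ (e' : ℕ)) * ∏ e' ∈ Finset.univ.erase e, gam y e' := by
      rw [map_prod, ← Finset.prod_mul_distrib]
      apply Finset.prod_congr rfl
      intro e' _
      rw [map_pow, KdS_eval, pow_succ]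
    rw [h1, map_mul, map_mul, h2, map_mul, map_mul, MvPolynomial.eval_C, MvPolynomial.eval_C,
      map_pow, KdS_eval, map_natCast]
    ring

end MP_570bef_ntF
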