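import Pool.Agent.Lib.MP_570bef_ntF.CFc

/-! JOB Tr.  Transfer of the rank to the functional `A(u^k ·)`.

`n = g + b`, `g ≤ b`, `m ≤ g`, `IsRho A (k n) m` with witness `β` (`β ≠ 0`, `natDegree β ≤ m`, `Kill A (k n) β m`); `u` monic of degree `b` (exact), `u ≠ 0`.  Let `m'` with `IsRho (mulF A (u^k)) (k g) m'` (`exists_rho`), witness `b'`.
(1) `m' ≤ m`: `(β, m)` kills `mulF A (u^k)` on degree `≤ k g`: `A(u^k β z) = A(β (u^k z))`, degree `k b + z.natDegree + m ≤ k n`.  `rho_le`.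
(2) `y := u^k * b' ≠ 0`, `Y := k b + m'`, `natDegree y ≤ Y`, `Kill A (k n) y Y` (`z.natDegree + Y ≤ k n` means `z.natDegree + m' ≤ k g`).  `Y + m ≤ k n + 1` because `m' + m ≤ 2 g ≤ k g`.
`rho_dvd`: `u^k b' = β y'`, `natDegree y' + m ≤ k b + m'`.
(3) `natDegree y' = k b + natDegree b' - natDegree β` (`natDegree_mul`), so `m - natDegree β ≤ m' - natDegree b'` i.e. `m + natDegree b' ≤ m' + natDegree β`.
(4) `natDegree β ≤ natDegree b' + k * natDegree (gcd β u)`: with `G := gcd β u` (`EuclideanDomain.gcd`), `β = G β1`, `u = G u1`, `IsCoprime β1 u1`; `β1 ∣ β ∣ (G u1)^k b' = G^k u1^k b'`, coprime to `u1^k`, so `β1 ∣ G^k b'`... sharper: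
`G β1 y' = G^k u1^k b'`; we only need: `β ∣ G^k * b'`: indeed `β1 ∣ G^(k-1) b'` because `G β1 ∣ G^k u1^k b'` gives `β1 ∣ G^(k-1) u1^k b'` (cancel `G ≠ 0`, `k ≥ 1`) and `β1` is coprime to `u1^k`.
So `natDegree β ≤ k * natDegree G + natDegree b'`.
Together `m ≤ m' + natDegree β - natDegree b' ≤ m' + k * natDegree G`. -/

open Polynomial

namespace MP_570bef_ntF

variable {K : Type} [Field K]

open Classical in
theorem transfer (k g b m : ℕ) (hk : 2 ≤ k) (hgb : g ≤ b) (hmg : m ≤ g) (A : K[X] →ₗ[K] K)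
    (hρ : IsRho A (k * (g + b)) m) (β : K[X]) (hβ : β ≠ 0) (hβm : β.natDegree ≤ m)
    (hkill : Kill A (k * (g + b)) β m) (u : K[X]) (hu : u.Monic) (hub : u.natDegree = b) :
    ∃ m' : ℕ, m' ≤ m ∧ IsRho (mulF A (u ^ k)) (k * g) m' ∧
      m ≤ m' + k * (EuclideanDomain.gcd β u).natDegree := by
  obtain ⟨m', -, hρ'⟩ := exists_rho (mulF A (u ^ k)) (k * g)
  obtain ⟨b', hb'0, hb'm, hb'k⟩ := hρ'.1
  have hu0 : u ≠ 0 := hu.ne_zero
  have huk : (u ^ k).natDegree = k * b := by rw [hu.natDegree_pow, hub]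
  have huk0 : u ^ k ≠ 0 := pow_ne_zero _ hu0
  have hkgb : k * (g + b) = k * g + k * b := by ring
  have h1 : m' ≤ m := by
    refine rho_le hρ' hβ hβm ?_
    intro z hz
    rw [mulF_apply]
    have e1 : u ^ k * (β * z) = β * (u ^ k * z) := by ring
    rw [e1]
    apply hkill
    have h2 := Polynomial.natDegree_mul_le (p := u ^ k) (q := z)
    rw [huk] at h2
    rw [hkgb]
    omega
  refine ⟨m', h1, hρ', ?_⟩
  have hy0 : u ^ k * b' ≠ 0 := mul_ne_zero huk0 hb'0
  have hydeg : (u ^ k * b').natDegree = k * b + b'.natDegree := by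
    rw [Polynomial.natDegree_mul huk0 hb'0, huk]
  have h2g : 2 * g ≤ k * g := Nat.mul_le_mul_right g hk
  obtain ⟨y', hy', hy'deg⟩ := rho_dvd hρ hβ hβm hkill hy0 (Y := k * b + m')
    (by rw [hydeg]; omega)
    (by
      intro z hz
      have e1 : u ^ k * b' * z = u ^ k * (b' * z) := by ring
      rw [e1, ← mulF_apply]
      apply hb'k
      rw [hkgb] at hz
      omega)
    (by rw [hkgb]; omega)
  have hy'0 : y' ≠ 0 := by
    rintro rfl
    rw [mul_zero] at hy'
    exact hy0 hy'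
  have h3 : k * b + b'.natDegree = β.natDegree + y'.natDegree := by
    rw [← hydeg, hy', Polynomial.natDegree_mul hβ hy'0]
  have h4 : β.natDegree ≤ b'.natDegree + k * (EuclideanDomain.gcd β u).natDegree := by
    obtain ⟨β1, hβ1⟩ := EuclideanDomain.gcd_dvd_left β u
    obtain ⟨u1, hu1⟩ := EuclideanDomain.gcd_dvd_right β u
    have hbez := EuclideanDomain.gcd_eq_gcd_ab β u
    set G : K[X] := EuclideanDomain.gcd β u with hG
    have hG0 : G ≠ 0 := by
      intro h
      rw [h, zero_mul] at hβ1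
      exact hβ hβ1
    have hco : IsCoprime β1 u1 := by
      refine ⟨EuclideanDomain.gcdA β u, EuclideanDomain.gcdB β u, ?_⟩
      apply mul_left_cancel₀ hG0
      calc G * (EuclideanDomain.gcdA β u * β1 + EuclideanDomain.gcdB β u * u1)
          = (G * β1) * EuclideanDomain.gcdA β u + (G * u1) * EuclideanDomain.gcdB β u := by ring
        _ = β * EuclideanDomain.gcdA β u + u * EuclideanDomain.gcdB β u := by
            rw [← hβ1, ← hu1]
        _ = G * 1 := by rw [← hbez, mul_one]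
    have hk1 : k = (k - 1) + 1 := by omega
    have hdv : β1 ∣ u1 ^ k * (G ^ (k - 1) * b') := by
      refine ⟨y', ?_⟩
      apply mul_left_cancel₀ hG0
      have e2 : G * (u1 ^ k * (G ^ (k - 1) * b')) = (G * u1) ^ k * b' := by
        rw [mul_pow]
        have e3 : G ^ k = G ^ (k - 1) * G := by
          conv_lhs => rw [hk1]
          rw [pow_succ]
        rw [e3]
        ring
      have e4 : G * (β1 * y') = (G * β1) * y' := by ring
      rw [e2, e4, ← hu1, ← hβ1, hy']
    have hdv2 : β1 ∣ G ^ (k - 1) * b' := (hco.pow_right).dvd_of_dvd_mul_left hdv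
    have hdv3 : β ∣ G ^ k * b' := by
      have e3 : G ^ k = G * G ^ (k - 1) := by
        conv_lhs => rw [hk1]
        rw [pow_succ, mul_comm]
      rw [e3, mul_assoc]
      conv_lhs => rw [hβ1]
      exact mul_dvd_mul_left G hdv2
    have h5 := Polynomial.natDegree_le_of_dvd hdv3 (mul_ne_zero (pow_ne_zero _ hG0) hb'0)
    rw [Polynomial.natDegree_mul (pow_ne_zero _ hG0) hb'0, Polynomial.natDegree_pow] at h5
    omega
  omega

end MP_570bef_ntF
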