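import Pool.Agent.Lib.MP_570bef_ntF.Lr
import Pool.Agent.Lib.MP_570bef_ntF.Tr
import Pool.Agent.Lib.MP_570bef_ntF.DvB

/-! JOB Low.  The family sum at a functional of low rank.  `q = card K`.  `τ ≥ 0` is any real number with `((2k)^k)^m ≤ τ^k q^m`.

`gS = ∑_{u ∈ MM K b} ∑_{γ ∈ SS g, γ ≠ 0} ψ(A((γ u)^k))` and `A((γ u)^k) = mulF A (u^k) (γ^k)`, so the inner sum is `S_u - 1`, `S_u := fS ψ k (mulF A (u^k)) (SS K g)` (the term `γ = 0` is `ψ 0 = 1`, `k ≥ 1`).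
Let `β` be the witness of `IsRho A (k (g+b)) m`.  For `u ∈ MM K b`: `transfer` gives `m' ≤ m`, `m ≤ m' + k δ`, `δ := natDegree (gcd β u)`, and `low_rank_sum` (`m' ≤ m ≤ g`):
`‖S_u‖^k q^m ≤ ‖S_u‖^k q^(m'+kδ) ≤ ((2k)^k)^m' q^(k(g+1)) q^(kδ) ≤ ((2k)^k)^m q^(k(g+1+δ)) ≤ τ^k q^m q^(k(g+1+δ))`; so `‖S_u‖ ≤ τ q^(g+1+δ)` (`k`-th roots: `pow_le_pow_left` contrapositive / `le_of_pow_le_pow_left`).
`1 ≤ τ q^(g+1)`: `1 ≤ ((2k)^k)^m ≤ τ^k q^m ≤ τ^k q^(k(g+1)) = (τ q^(g+1))^k` (`m ≤ g`).  So `‖S_u - 1‖ ≤ 2 τ q^(g+1) q^δ`.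
Sum over `u`: `sum_gcd_le` gives `∑_u q^δ ≤ 2^(natDegree β) q^b ≤ 2^m q^b`. -/

open Polynomial

namespace MP_570bef_ntF

variable {K : Type} [Field K] [Fintype K]

/-- the bound for one complete sum -/
private theorem Low_one {q τ S c : ℝ} {k g m m' δ : ℕ} (hq : 1 ≤ q) (hk : k ≠ 0) (hc : 1 ≤ c)
    (hτ0 : 0 ≤ τ) (hS : 0 ≤ S) (hmg : m ≤ g) (hm' : m' ≤ m) (hm : m ≤ m' + k * δ)
    (hτ : c ^ m ≤ τ ^ k * q ^ m) (h : S ^ k * q ^ m' ≤ c ^ m' * q ^ (k * (g + 1))) :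
    S + 1 ≤ 2 * τ * q ^ (g + 1) * q ^ δ := by
  have hq0 : 0 < q := by linarith
  have h1 : S ^ k * q ^ m ≤ (τ * q ^ (g + 1 + δ)) ^ k * q ^ m := by
    calc S ^ k * q ^ m ≤ S ^ k * q ^ (m' + k * δ) :=
          mul_le_mul_of_nonneg_left (pow_le_pow_right₀ hq hm) (by positivity)
      _ = (S ^ k * q ^ m') * q ^ (k * δ) := by rw [pow_add]; ring
      _ ≤ (c ^ m' * q ^ (k * (g + 1))) * q ^ (k * δ) := mul_le_mul_of_nonneg_right h (by positivity)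
      _ ≤ (c ^ m * q ^ (k * (g + 1))) * q ^ (k * δ) := by
          have h2 : c ^ m' ≤ c ^ m := pow_le_pow_right₀ hc hm'
          exact mul_le_mul_of_nonneg_right (mul_le_mul_of_nonneg_right h2 (by positivity))
            (by positivity)
      _ ≤ ((τ ^ k * q ^ m) * q ^ (k * (g + 1))) * q ^ (k * δ) :=
          mul_le_mul_of_nonneg_right (mul_le_mul_of_nonneg_right hτ (by positivity)) (by positivity)
      _ = (τ * q ^ (g + 1 + δ)) ^ k * q ^ m := by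
          rw [mul_pow, ← pow_mul, pow_mul', pow_mul']
          ring
  have h2 : S ^ k ≤ (τ * q ^ (g + 1 + δ)) ^ k := le_of_mul_le_mul_right h1 (by positivity)
  have h3 : S ≤ τ * q ^ (g + 1 + δ) := (pow_le_pow_iff_left₀ hS (by positivity) hk).1 h2
  have h4 : (1 : ℝ) ^ k ≤ (τ * q ^ (g + 1)) ^ k := by
    calc (1 : ℝ) ^ k = 1 := one_pow k
      _ ≤ c ^ m := one_le_pow₀ hc
      _ ≤ τ ^ k * q ^ m := hτ
      _ ≤ τ ^ k * q ^ (k * (g + 1)) := by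
          refine mul_le_mul_of_nonneg_left (pow_le_pow_right₀ hq ?_) (by positivity)
          have : 1 * (g + 1) ≤ k * (g + 1) := Nat.mul_le_mul_right _ (Nat.one_le_iff_ne_zero.2 hk)
          omega
      _ = (τ * q ^ (g + 1)) ^ k := by rw [mul_pow, ← pow_mul, Nat.mul_comm]
  have h5 : 1 ≤ τ * q ^ (g + 1) := (pow_le_pow_iff_left₀ zero_le_one (by positivity) hk).1 h4
  have h6 : 1 ≤ q ^ δ := one_le_pow₀ hq
  have h7 : τ * q ^ (g + 1) ≤ τ * q ^ (g + 1) * q ^ δ := le_mul_of_one_le_right (by positivity) h6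
  have h8 : τ * q ^ (g + 1 + δ) = τ * q ^ (g + 1) * q ^ δ := by rw [pow_add]; ring
  linarith

open Classical in
theorem low_bound {ψ : AddChar K ℂ} (hψ : ψ ≠ 1) (k g b m : ℕ) (hk : 2 ≤ k) (hkK : (k : K) ≠ 0)
    (hgb : g ≤ b) (hmg : m ≤ g) (A : K[X] →ₗ[K] K) (hρ : IsRho A (k * (g + b)) m) (τ : ℝ) (hτ0 : 0 ≤ τ)
    (hτ : ((2 * (k : ℝ)) ^ k) ^ m ≤ τ ^ k * (Fintype.card K : ℝ) ^ m) :
    ‖gS ψ k g b A‖ ≤ 2 * τ * 2 ^ m * ((Fintype.card K : ℝ) ^ (g + 1) * (Fintype.card K : ℝ) ^ b) := by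
  obtain ⟨β, hβ0, hβm, hkill⟩ := hρ.1
  have hq2 : (2 : ℝ) ≤ (Fintype.card K : ℝ) := by exact_mod_cast two_le_q (K := K)
  have hq : (1 : ℝ) ≤ (Fintype.card K : ℝ) := by linarith
  have hk0 : k ≠ 0 := by omega
  have hk2 : (2 : ℝ) ≤ (k : ℝ) := by exact_mod_cast hk
  have hc : (1 : ℝ) ≤ (2 * (k : ℝ)) ^ k := one_le_pow₀ (by linarith)
  have hsum : gS ψ k g b A = ∑ u ∈ MM K b, (fS ψ k (mulF A (u ^ k)) (SS K g) - 1) := by
    rw [gS, PP, Finset.sum_product_right]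
    apply Finset.sum_congr rfl
    intro u _
    have h1 : ∑ x ∈ (SS K g).erase 0, ψ (A ((x * u) ^ k)) =
        ∑ x ∈ (SS K g).erase 0, ψ (mulF A (u ^ k) (x ^ k)) := by
      apply Finset.sum_congr rfl
      intro x _
      rw [mulF_apply, mul_comm x u, mul_pow]
    rw [h1, Finset.sum_erase_eq_sub (zero_mem_SS g), fS]
    congr 1
    rw [zero_pow hk0, map_zero, AddChar.map_zero_eq_one]
  have hone : ∀ u ∈ MM K b, ‖fS ψ k (mulF A (u ^ k)) (SS K g) - 1‖ ≤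
      2 * τ * (Fintype.card K : ℝ) ^ (g + 1) *
        (Fintype.card K : ℝ) ^ (EuclideanDomain.gcd β u).natDegree := by
    intro u hu
    rw [mem_MM] at hu
    obtain ⟨m', h1, h2, h3⟩ := transfer k g b m hk hgb hmg A hρ β hβ0 hβm hkill u hu.1 hu.2
    have h4 := low_rank_sum hψ k hk hkK m' g (mulF A (u ^ k)) (h1.trans hmg) h2
    have h5 := Low_one hq hk0 hc hτ0 (norm_nonneg (fS ψ k (mulF A (u ^ k)) (SS K g))) hmg h1 h3 hτ h4
    refine le_trans (norm_sub_le _ _) ?_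
    rw [norm_one]
    exact h5
  have hgcd : (∑ u ∈ MM K b, (Fintype.card K : ℝ) ^ (EuclideanDomain.gcd β u).natDegree) ≤
      2 ^ m * (Fintype.card K : ℝ) ^ b := by
    have h1 := sum_gcd_le (K := K) b β hβ0
    have h2 : (∑ u ∈ MM K b, (Fintype.card K : ℝ) ^ (EuclideanDomain.gcd β u).natDegree) ≤
        2 ^ β.natDegree * (Fintype.card K : ℝ) ^ b := by exact_mod_cast h1
    refine h2.trans ?_
    have h3 : (2 : ℝ) ^ β.natDegree ≤ 2 ^ m := pow_le_pow_right₀ (by norm_num) hβm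
    exact mul_le_mul_of_nonneg_right h3 (by positivity)
  rw [hsum]
  calc ‖∑ u ∈ MM K b, (fS ψ k (mulF A (u ^ k)) (SS K g) - 1)‖
      ≤ ∑ u ∈ MM K b, ‖fS ψ k (mulF A (u ^ k)) (SS K g) - 1‖ := norm_sum_le _ _
    _ ≤ ∑ u ∈ MM K b, 2 * τ * (Fintype.card K : ℝ) ^ (g + 1) *
        (Fintype.card K : ℝ) ^ (EuclideanDomain.gcd β u).natDegree := Finset.sum_le_sum hone
    _ = 2 * τ * (Fintype.card K : ℝ) ^ (g + 1) *
        ∑ u ∈ MM K b, (Fintype.card K : ℝ) ^ (EuclideanDomain.gcd β u).natDegree := by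
        rw [Finset.mul_sum]
    _ ≤ 2 * τ * (Fintype.card K : ℝ) ^ (g + 1) * (2 ^ m * (Fintype.card K : ℝ) ^ b) :=
        mul_le_mul_of_nonneg_left hgcd (by positivity)
    _ = 2 * τ * 2 ^ m * ((Fintype.card K : ℝ) ^ (g + 1) * (Fintype.card K : ℝ) ^ b) := by ring

end MP_570bef_ntF
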