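import Pool.Agent.Lib.MP_570bef_ntF.CFc
import Pool.Agent.Lib.MP_570bef_ntF.FoA

/-! JOB LrI.  Step (i): `π² ∣ b`.  `d = natDegree π ≥ 1`, `b = π * b1`, `π ∣ b1`, `b ≠ 0`, `natDegree b ≤ m ≤ g`, `Kill A (k g) b m`, `m = rho`.  Then `b1.natDegree ≤ m - d`, `2 d ≤ m`, `d ≤ g`.

Let `e := g - m + d`.  For `z ∈ SS K e`: `b1 * z ∈ SS K g`, and the map `x ↦ x + b1 * z` is a permutation of `SS K g`.  So `q^(e+1) * fS = ∑_{x∈SS g} ∑_{z∈SS e} ψ(A((x + b1 z)^k))`.
(1) `A((x + b1 z)^k) = A(x^k) + k * A(x^(k-1) * (b1 * z))`: the binomial terms with `(b1 z)^j`, `j ≥ 2`, are of the form `A(b * w)` with `w.natDegree + m ≤ k g`: `b1 * b1 = b * b2` where `b1 = π * b2`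
(`natDegree b2 ≤ m - 2d`), so `x^(k-j) (b1 z)^j = b * (b2 * b1^(j-2) * z^j * x^(k-j))` and the degree of the cofactor is at most `(m-2d) + (j-2)(m-d) + j e + (k-j) g = k g - m` (check: `j(m-d) + j e = j g`); `Kill` gives `0`
(`add_pow`, `Finset.sum_range_succ'`; or write `(x+y)^k = x^k + k x^(k-1) y + y² * R` (`Polynomial.powAddExpansion`) — the cofactor `R` has degree `≤ (k-2) g`, `y = b1 z`, `y² R = b * (b2 z² R)` of degree `≤ k g - m`).
(2) `∑_{z∈SS e} ψ(k A(x^(k-1) b1 z)) = q^(e+1)` if `A(x^(k-1) b1 z) = 0` for all `z ∈ SS e`, else `0` (`orth_SS` with the functional `k • mulF A (x^(k-1) * b1)`, `(k : K) ≠ 0`).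
(3) If `π ∣ x` (`x = π x'`), it is `0` for all `z ∈ SS e`: `x^(k-1) b1 z = b * (π^(k-2) x'^(k-1) z)` with `(k-2) d + (k-1)(g-d) + e = k g - m`.. (compute: `(k-2)d + (k-1)(g-d) + g - m + d = k g - m`), `k ≥ 2`.
(4) Conversely suppose `π ∤ x`, `x ≠ 0`, and `A(x^(k-1) b1 z) = 0` for all `z ∈ SS e`.  The functional `mulF A b1` on degree `≤ D1 := k g - (m - d)` is killed by `(π, d)` (`A(b1 π z) = A (b z) = 0` for `z.natDegree + m ≤ k g`) and by
`(x^(k-1), (k-1) g)` (`z.natDegree + (k-1) g ≤ D1` means `z.natDegree ≤ e`), `IsCoprime (x^(k-1)) π`, `π` has exact degree `d`, and `(k-1) g + d ≤ D1 + 1` (as `m ≤ g`).  `kill_of_coprime`: `A(b1 w) = 0` for `w.natDegree ≤ D1`, i.e.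
`Kill A (k g) b1 (m - d)`, `b1 ≠ 0`, `b1.natDegree ≤ m - d < m`: contradiction with `IsRho`.
(5) So `fS ψ k A (SS g) = ∑_{x ∈ SS g, π ∣ x} ψ(A(x^k))`, and `x = π x'`, `x' ∈ SS K (g - d)` is a bijection; `A((π x')^k) = mulF A (π^k) (x'^k)`. -/

open Polynomial

namespace MP_570bef_ntF

variable {K : Type} [Field K] [Fintype K]

omit [Fintype K] in
private theorem LrI_exp (x y : K[X]) (g : ℕ) (hx : x.natDegree ≤ g) (hy : y.natDegree ≤ g) (n : ℕ) :
    ∃ R : K[X], (x + y) ^ (n + 2) = x ^ (n + 2) + (n + 2) • (x ^ (n + 1) * y) + y ^ 2 * R ∧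
      R.natDegree ≤ n * g := by
  induction n with
  | zero =>
    refine ⟨1, ?_, by simp⟩
    simp only [nsmul_eq_mul]
    push_cast
    ring
  | succ n ih =>
    obtain ⟨R, h1, h2⟩ := ih
    refine ⟨x * R + (n + 2) • x ^ (n + 1) + y * R, ?_, ?_⟩
    · have h3 : (x + y) ^ (n + 1 + 2) = (x + y) ^ (n + 2) * (x + y) := pow_succ _ _
      rw [h3, h1]
      simp only [nsmul_eq_mul]
      push_cast
      ring
    · have e1 : (x * R).natDegree ≤ (n + 1) * g := by
        have := Polynomial.natDegree_mul_le (p := x) (q := R)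
        have e : (n + 1) * g = n * g + g := by ring
        omega
      have e2 : (y * R).natDegree ≤ (n + 1) * g := by
        have := Polynomial.natDegree_mul_le (p := y) (q := R)
        have e : (n + 1) * g = n * g + g := by ring
        omega
      have e3 : ((n + 2) • x ^ (n + 1)).natDegree ≤ (n + 1) * g :=
        (Polynomial.natDegree_smul_le _ _).trans
          ((Polynomial.natDegree_pow_le).trans (Nat.mul_le_mul_left _ hx))
      exact (Polynomial.natDegree_add_le _ _).trans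
        (max_le ((Polynomial.natDegree_add_le _ _).trans (max_le e1 e3)) e2)

theorem step_i {ψ : AddChar K ℂ} (hψ : ψ ≠ 1) (k g m : ℕ) (hk : 2 ≤ k) (hkK : (k : K) ≠ 0) (hmg : m ≤ g)
    (A : K[X] →ₗ[K] K) (hρ : IsRho A (k * g) m) (π b1 : K[X]) (hπ : Irreducible π) (hb : π * b1 ≠ 0)
    (hbm : (π * b1).natDegree ≤ m) (hkill : Kill A (k * g) (π * b1) m) (hdvd : π ∣ b1) :
    fS ψ k A (SS K g) = fS ψ k (mulF A (π ^ k)) (SS K (g - π.natDegree)) := by
  classical
  obtain ⟨b2, rfl⟩ := hdvd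
  obtain ⟨n, rfl⟩ : ∃ n, k = n + 2 := ⟨k - 2, by omega⟩
  have hπ0 : π ≠ 0 := hπ.ne_zero
  have hb1 : π * b2 ≠ 0 := right_ne_zero_of_mul hb
  have hb2 : b2 ≠ 0 := right_ne_zero_of_mul hb1
  obtain ⟨d, hd⟩ : ∃ d, d = π.natDegree := ⟨_, rfl⟩
  have hd1 : 1 ≤ d := by rw [hd]; exact hπ.natDegree_pos
  have hD1 : (π * b2).natDegree = d + b2.natDegree := by
    rw [Polynomial.natDegree_mul hπ0 hb2, hd]
  have hD2 : (π * (π * b2)).natDegree = d + (d + b2.natDegree) := by
    rw [Polynomial.natDegree_mul hπ0 hb1, hD1, hd]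
  rw [hD2] at hbm
  rw [← hd]
  obtain ⟨e, he⟩ : ∃ e, e = g - m + d := ⟨_, rfl⟩
  have he' : e + m = g + d := by omega
  -- the expansion
  have hexp : ∀ x ∈ SS K g, ∀ z ∈ SS K e, A ((x + π * b2 * z) ^ (n + 2)) =
      A (x ^ (n + 2)) + ((((n + 2 : ℕ) : K)) • mulF A (x ^ (n + 1) * (π * b2))) z := by
    intro x hx z hz
    rw [mem_SS] at hx hz
    have hy : (π * b2 * z).natDegree ≤ g := by
      have := Polynomial.natDegree_mul_le (p := π * b2) (q := z)
      omega
    obtain ⟨R, h1, h2⟩ := LrI_exp x (π * b2 * z) g hx hy n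
    rw [h1, map_add, map_add, map_nsmul]
    have h3 : (π * b2 * z) ^ 2 * R = π * (π * b2) * (b2 * z ^ 2 * R) := by ring
    have h4 : A ((π * b2 * z) ^ 2 * R) = 0 := by
      rw [h3]
      apply hkill
      have h5 := Polynomial.natDegree_mul_le (p := b2 * z ^ 2) (q := R)
      have h6 := Polynomial.natDegree_mul_le (p := b2) (q := z ^ 2)
      have h7 := Polynomial.natDegree_pow_le (p := z) (n := 2)
      have h8 : (n + 2) * g = n * g + 2 * g := by ring
      omega
    rw [h4, add_zero, LinearMap.smul_apply, mulF_apply, smul_eq_mul, nsmul_eq_mul]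
    have h9 : x ^ (n + 1) * (π * b2) * z = x ^ (n + 1) * (π * b2 * z) := by ring
    rw [h9]
  -- the kernel
  have hker : ∀ x ∈ SS K g, (∀ z : K[X], z.natDegree ≤ e →
      ((((n + 2 : ℕ) : K)) • mulF A (x ^ (n + 1) * (π * b2))) z = 0) ↔ π ∣ x := by
    intro x hx
    rw [mem_SS] at hx
    constructor
    · intro h
      by_contra hc
      have h1 : ∀ z : K[X], z.natDegree ≤ e → A (π * b2 * (x ^ (n + 1) * z)) = 0 := by
        intro z hz
        have h2 := h z hz
        rw [LinearMap.smul_apply, mulF_apply, smul_eq_mul] at h2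
        have h3 := (mul_eq_zero.1 h2).resolve_left hkK
        have h4 : π * b2 * (x ^ (n + 1) * z) = x ^ (n + 1) * (π * b2) * z := by ring
        rw [h4]
        exact h3
      have hx0 : x ≠ 0 := by
        rintro rfl
        exact hc (dvd_zero _)
      have hco : IsCoprime π (x ^ (n + 1)) := by
        apply IsCoprime.pow_right
        exact (Irreducible.coprime_iff_not_dvd hπ).2 hc
      have hD8 : (n + 2) * g = (n + 1) * g + g := by ring
      have h5 : ∀ F : K[X], F.natDegree ≤ (n + 2) * g - m + d → mulF A (π * b2) F = 0 := by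
        intro F hF
        refine kill_of_coprime (A := mulF A (π * b2)) (u := π) (v := x ^ (n + 1)) (e1 := d)
          (e2 := (n + 1) * g) (D := (n + 2) * g - m + d) hπ0 (pow_ne_zero _ hx0) (le_of_eq hd.symm)
          ((Polynomial.natDegree_pow_le).trans (Nat.mul_le_mul_left _ hx)) hco
          (Or.inl hd.symm) ?_ ?_ ?_ F hF
        · omega
        · intro z hz
          rw [mulF_apply]
          have h6 : π * b2 * (π * z) = π * (π * b2) * z := by ring
          rw [h6]
          apply hkill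
          omega
        · intro z hz
          rw [mulF_apply]
          apply h1
          omega
      refine hρ.2 (m - d) (by omega) (π * b2) hb1 (by omega) ?_
      intro z hz
      have h6 := h5 z (by omega)
      rw [mulF_apply] at h6
      exact h6
    · rintro ⟨x', rfl⟩ z hz
      rw [LinearMap.smul_apply, mulF_apply, smul_eq_mul]
      have h1 : (π * x') ^ (n + 1) * (π * b2) * z =
          π * (π * b2) * (π ^ n * x' ^ (n + 1) * z) := by ring
      have hx' : x'.natDegree + d ≤ g := by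
        by_cases h0 : x' = 0
        · subst h0
          rw [Polynomial.natDegree_zero]
          omega
        · rw [Polynomial.natDegree_mul hπ0 h0] at hx
          omega
      have h2 : A (π * (π * b2) * (π ^ n * x' ^ (n + 1) * z)) = 0 := by
        apply hkill
        have h3 := Polynomial.natDegree_mul_le (p := π ^ n * x' ^ (n + 1)) (q := z)
        have h4 := Polynomial.natDegree_mul_le (p := π ^ n) (q := x' ^ (n + 1))
        have h5 := Polynomial.natDegree_pow_le (p := π) (n := n)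
        have h6 := Polynomial.natDegree_pow_le (p := x') (n := n + 1)
        rw [← hd] at h5
        have h7 : (n + 1) * (x'.natDegree + d) ≤ (n + 1) * g := Nat.mul_le_mul_left _ hx'
        have h8 : (n + 2) * g = (n + 1) * g + g := by ring
        have h9 : (n + 1) * (x'.natDegree + d) = (n + 1) * x'.natDegree + n * d + d := by ring
        omega
      rw [h1, h2, mul_zero]
  -- the inner sum
  have hin : ∀ x ∈ SS K g, ∑ z ∈ SS K e, ψ (A ((x + π * b2 * z) ^ (n + 2))) =
      ψ (A (x ^ (n + 2))) * (if π ∣ x then (Fintype.card K : ℂ) ^ (e + 1) else 0) := by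
    intro x hx
    have h1 := orth_SS hψ e ((((n + 2 : ℕ) : K)) • mulF A (x ^ (n + 1) * (π * b2)))
    have h2 : ∑ z ∈ SS K e, ψ (A ((x + π * b2 * z) ^ (n + 2))) = ∑ z ∈ SS K e,
        ψ (A (x ^ (n + 2))) * ψ (((((n + 2 : ℕ) : K)) • mulF A (x ^ (n + 1) * (π * b2))) z) := by
      apply Finset.sum_congr rfl
      intro z hz
      rw [hexp x hx z hz, AddChar.map_add_eq_mul]
    rw [h2, ← Finset.mul_sum, h1]
    congr 1
    by_cases h3 : π ∣ x
    · rw [if_pos h3, if_pos ((hker x hx).2 h3)]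
    · rw [if_neg h3, if_neg (fun h4 => h3 ((hker x hx).1 h4))]
  -- translation
  have htr : ∀ z ∈ SS K e, ∑ x ∈ SS K g, ψ (A ((x + π * b2 * z) ^ (n + 2))) =
      ∑ x ∈ SS K g, ψ (A (x ^ (n + 2))) := by
    intro z hz
    rw [mem_SS] at hz
    have hy : π * b2 * z ∈ SS K g := by
      rw [mem_SS]
      have := Polynomial.natDegree_mul_le (p := π * b2) (q := z)
      omega
    refine Finset.sum_nbij' (fun x => x + π * b2 * z) (fun x => x - π * b2 * z) ?_ ?_ ?_ ?_ ?_
    · intro x hx
      exact add_mem_SS hx hy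
    · intro x hx
      exact sub_mem_SS hx hy
    · intro x _
      exact add_sub_cancel_right _ _
    · intro x _
      exact sub_add_cancel _ _
    · intro x _
      rfl
  have hq : (Fintype.card K : ℂ) ^ (e + 1) ≠ 0 :=
    pow_ne_zero _ (Nat.cast_ne_zero.2 Fintype.card_ne_zero)
  have hmain : (Fintype.card K : ℂ) ^ (e + 1) * fS ψ (n + 2) A (SS K g) =
      (Fintype.card K : ℂ) ^ (e + 1) * ∑ x ∈ (SS K g).filter (fun x => π ∣ x),
        ψ (A (x ^ (n + 2))) := by
    have h1 : ∑ z ∈ SS K e, ∑ x ∈ SS K g, ψ (A ((x + π * b2 * z) ^ (n + 2))) =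
        (Fintype.card K : ℂ) ^ (e + 1) * fS ψ (n + 2) A (SS K g) := by
      rw [Finset.sum_congr rfl htr, Finset.sum_const, card_SS, nsmul_eq_mul, fS]
      push_cast
      ring
    rw [← h1, Finset.sum_comm, Finset.sum_congr rfl hin, Finset.sum_filter, Finset.mul_sum]
    apply Finset.sum_congr rfl
    intro x _
    split_ifs
    · ring
    · simp
  have h2 := mul_left_cancel₀ hq hmain
  rw [h2, fS]
  symm
  refine Finset.sum_nbij (fun x' => π * x') ?_ ?_ ?_ ?_
  · intro x' hx'
    rw [mem_SS] at hx'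
    rw [Finset.mem_filter, mem_SS]
    refine ⟨?_, dvd_mul_right _ _⟩
    have := Polynomial.natDegree_mul_le (p := π) (q := x')
    omega
  · intro a _ b _ hab
    exact mul_left_cancel₀ hπ0 hab
  · intro x hx
    rw [Finset.mem_coe, Finset.mem_filter, mem_SS] at hx
    obtain ⟨h3, x', rfl⟩ := hx
    refine ⟨x', ?_, rfl⟩
    rw [Finset.mem_coe, mem_SS]
    by_cases h0 : x' = 0
    · subst h0
      rw [Polynomial.natDegree_zero]
      omega
    · rw [Polynomial.natDegree_mul hπ0 h0] at h3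
      omega
  · intro x' _
    rw [mulF_apply, mul_pow]

end MP_570bef_ntF
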