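import Pool.Agent.Lib.MP_570bef_ntF.CFc
import Pool.Agent.Lib.MP_570bef_ntF.FoA

/-! JOB LrJ.  Step (ii): `π ∤ b1`.  `d = natDegree π ≥ 1`, `b = π * b1`, `natDegree b ≤ m ≤ g`, `Kill A (k g) b m`; so `b1.natDegree ≤ m - d`, `d ≤ m`.

Let `e := g - m + d`.  (1) The map `Φ : SS K e × SS K (g-d) → SS K g`, `(z, x') ↦ b1 * z + π * x'` is well defined (`natDegree (b1 z) ≤ (m-d) + e = g`).
(2) It is onto: `bezout_forms` with `u = b1` (`e1 = m - d`), `v = π` (`e2 = d`, exact), `D = g`, `IsCoprime b1 π` (irreducible, `π ∤ b1`), `(m-d) + d ≤ g + 1`: `x = b1 a + π c` with `a = 0` or `a.natDegree + (m-d) ≤ g`, i.e. `a ∈ SS e`;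
`c = 0` or `c.natDegree + d ≤ g`.
(3) All fibres have the same size `q^(g-m+1)`: `Φ` is additive (linear) and onto, so every fibre has `|SS e| |SS (g-d)| / |SS g| = q^((e+1)+(g-d+1)-(g+1)) = q^(g-m+1)` elements (translate by a preimage to the kernel; count).
(Alternatively determine the kernel: `b1 z = -π x'` forces `z = π w`, `x' = -b1 w`, `w ∈ SS K (g-m)`.)
(4) `A((b1 z + π x')^k) = A((b1 z)^k) + A((π x')^k)`: the mixed binomial terms are `A(b * w)`, `w = b1^(j-1) z^j π^(k-j-1) x'^(k-j)` (`1 ≤ j ≤ k-1`), of degree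
`≤ (j-1)(m-d) + j e + (k-j-1) d + (k-j)(g-d) = k g - m` (check with `e = g - m + d`), so `Kill` gives `0` (`add_pow`, `Finset.sum_range_succ`, `Finset.sum_range_succ'`).
(5) So `q^(g-m+1) * fS ψ k A (SS g) = ∑_{(z,x')} ψ(A((b1 z)^k)) ψ(A((π x')^k))`, the product of the two sums (`(b1 z)^k = b1^k z^k`). -/

open Polynomial

namespace MP_570bef_ntF

variable {K : Type} [Field K] [Fintype K]

omit [Fintype K] in
private theorem LrJ_split {k g m : ℕ} (hk : 2 ≤ k) (hmg : m ≤ g) (A : K[X] →ₗ[K] K) {π b1 : K[X]}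
    {p d : ℕ} (hm : m = p + d) (hπ : π.natDegree ≤ d) (hb1 : b1.natDegree ≤ p)
    (hkill : Kill A (k * g) (π * b1) m) {z x' : K[X]} (hz : z.natDegree ≤ g - p)
    (hx : x'.natDegree ≤ g - d) :
    A ((b1 * z + π * x') ^ k) = A (b1 ^ k * z ^ k) + A (π ^ k * x' ^ k) := by
  obtain ⟨k', rfl⟩ : ∃ k', k = k' + 1 := ⟨k - 1, by omega⟩
  obtain ⟨u, hu⟩ : ∃ u, g = p + u := ⟨g - p, by omega⟩
  obtain ⟨v, hv⟩ : ∃ v, g = d + v := ⟨g - d, by omega⟩
  have hz' : z.natDegree ≤ u := by omega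
  have hx' : x'.natDegree ≤ v := by omega
  rw [add_pow, Finset.sum_range_succ, Finset.sum_range_succ', map_add, map_add, map_sum,
    Finset.sum_eq_zero]
  · simp only [pow_zero, Nat.sub_zero, Nat.choose_zero_right, Nat.cast_one, mul_one, one_mul,
      Nat.sub_self, Nat.choose_self, mul_pow, zero_add]
    exact add_comm _ _
  · intro i hi
    rw [Finset.mem_range] at hi
    obtain ⟨l, hl⟩ : ∃ l, k' = i + 1 + l := ⟨k' - i - 1, by omega⟩
    have e1 : k' + 1 - (i + 1) = l + 1 := by omega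
    rw [e1]
    have e2 : (b1 * z) ^ (i + 1) * (π * x') ^ (l + 1) * (((k' + 1).choose (i + 1) : ℕ) : K[X]) =
        (π * b1) * (b1 ^ i * z ^ (i + 1) * (π ^ l * x' ^ (l + 1)) *
          (((k' + 1).choose (i + 1) : ℕ) : K[X])) := by
      rw [mul_pow, mul_pow]
      ring
    rw [e2]
    apply hkill
    have d1 : (b1 ^ i).natDegree ≤ i * p := natDegree_pow_le.trans (Nat.mul_le_mul_left _ hb1)
    have d2 : (z ^ (i + 1)).natDegree ≤ (i + 1) * u :=
      natDegree_pow_le.trans (Nat.mul_le_mul_left _ hz')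
    have d3 : (π ^ l).natDegree ≤ l * d := natDegree_pow_le.trans (Nat.mul_le_mul_left _ hπ)
    have d4 : (x' ^ (l + 1)).natDegree ≤ (l + 1) * v :=
      natDegree_pow_le.trans (Nat.mul_le_mul_left _ hx')
    have d5 : ((((k' + 1).choose (i + 1) : ℕ) : K[X])).natDegree = 0 := natDegree_natCast _
    have m1 := natDegree_mul_le (p := b1 ^ i * z ^ (i + 1) * (π ^ l * x' ^ (l + 1)))
      (q := (((k' + 1).choose (i + 1) : ℕ) : K[X]))
    have m2 := natDegree_mul_le (p := b1 ^ i * z ^ (i + 1)) (q := π ^ l * x' ^ (l + 1))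
    have m3 := natDegree_mul_le (p := b1 ^ i) (q := z ^ (i + 1))
    have m4 := natDegree_mul_le (p := π ^ l) (q := x' ^ (l + 1))
    calc _ ≤ (i * p + (i + 1) * u + (l * d + (l + 1) * v)) + m := by omega
      _ = (i + 1) * (p + u) + (l + 1) * (d + v) := by rw [hm]; ring
      _ = (i + 1) * g + (l + 1) * g := by rw [← hu, ← hv]
      _ = (k' + 1) * g := by rw [hl]; ring
      _ ≤ _ := le_rfl

open Classical in
private theorem LrJ_fibre {g p d : ℕ} {π b1 : K[X]} (hpd : p + d ≤ g) (hπ : Irreducible π)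
    (hd : π.natDegree = d) (hb10 : b1 ≠ 0) (hb1 : b1.natDegree ≤ p) (hdvd : ¬ π ∣ b1)
    {x : K[X]} (hx : x ∈ SS K g) :
    (((SS K (g - p)) ×ˢ (SS K (g - d))).filter fun w => b1 * w.1 + π * w.2 = x).card =
      Fintype.card K ^ (g - (p + d) + 1) := by
  have hπ0 : π ≠ 0 := hπ.ne_zero
  have hco : IsCoprime b1 π := ((hπ.coprime_iff_not_dvd).2 hdvd).symm
  obtain ⟨a, b, hab, ha, hb⟩ := bezout_forms hb10 hπ0 hb1 hd.le hco (Or.inr hd)
    (by omega : p + d ≤ g + 1) x (mem_SS.1 hx)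
  have ha' : a.natDegree ≤ g - p := by
    rcases ha with h | h
    · rw [h, natDegree_zero]; omega
    · omega
  have hb' : b.natDegree ≤ g - d := by
    rcases hb with h | h
    · rw [h, natDegree_zero]; omega
    · omega
  rw [← card_SS (K := K) (g - (p + d))]
  symm
  apply Finset.card_bij (fun w _ => (a + π * w, b - b1 * w))
  · intro w hw
    rw [mem_SS] at hw
    rw [Finset.mem_filter, Finset.mem_product, mem_SS, mem_SS]
    have h1 := natDegree_mul_le (p := π) (q := w)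
    have h2 := natDegree_mul_le (p := b1) (q := w)
    have h3 := natDegree_add_le a (π * w)
    have h4 := natDegree_sub_le b (b1 * w)
    refine ⟨⟨h3.trans (max_le ha' ?_), h4.trans (max_le hb' ?_)⟩, ?_⟩
    · omega
    · omega
    · simp only []
      rw [hab]
      ring
  · intro w _ w' _ h
    have h1 := congrArg Prod.fst h
    simp only [add_right_inj] at h1
    exact mul_left_cancel₀ hπ0 h1
  · rintro ⟨z, y⟩ hw
    rw [Finset.mem_filter, Finset.mem_product, mem_SS, mem_SS] at hw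
    obtain ⟨⟨h1, h2⟩, h3⟩ := hw
    simp only at h1 h2 h3
    have h4 : b1 * (z - a) = π * (b - y) := by
      have h5 : b1 * z + π * y = b1 * a + π * b := h3.trans hab
      linear_combination h5
    have h5 : π ∣ z - a := (hπ.prime.dvd_or_dvd ⟨_, h4⟩).resolve_left hdvd
    obtain ⟨w, hw⟩ := h5
    have h6 : b - y = b1 * w := by
      apply mul_left_cancel₀ hπ0
      rw [← h4, hw]
      ring
    refine ⟨w, ?_, ?_⟩
    · rw [mem_SS]
      by_cases hw0 : w = 0
      · rw [hw0, natDegree_zero]; omega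
      · have h7 : (π * w).natDegree = d + w.natDegree := by rw [natDegree_mul hπ0 hw0, hd]
        have h8 : (π * w).natDegree ≤ g - p := by
          rw [← hw]
          exact (natDegree_sub_le z a).trans (max_le h1 ha')
        omega
    · rw [← hw, ← h6]
      ext1
      · simp only []
        ring
      · simp only []
        ring

theorem step_ii {ψ : AddChar K ℂ} (k g m : ℕ) (hk : 2 ≤ k) (hmg : m ≤ g)
    (A : K[X] →ₗ[K] K) (π b1 : K[X]) (hπ : Irreducible π) (hb : π * b1 ≠ 0)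
    (hbm : (π * b1).natDegree ≤ m) (hkill : Kill A (k * g) (π * b1) m) (hdvd : ¬ π ∣ b1) :
    (Fintype.card K : ℂ) ^ (g - m + 1) * fS ψ k A (SS K g) =
      fS ψ k (mulF A (b1 ^ k)) (SS K (g - m + π.natDegree)) *
        fS ψ k (mulF A (π ^ k)) (SS K (g - π.natDegree)) := by
  classical
  have hπ0 : π ≠ 0 := hπ.ne_zero
  have hb10 : b1 ≠ 0 := fun h => hb (by rw [h, mul_zero])
  obtain ⟨d, hd⟩ : ∃ d, π.natDegree = d := ⟨_, rfl⟩
  have hdeg : d + b1.natDegree ≤ m := by
    rw [natDegree_mul hπ0 hb10, hd] at hbm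
    exact hbm
  obtain ⟨p, hp⟩ : ∃ p, m = p + d := ⟨m - d, by omega⟩
  have hb1 : b1.natDegree ≤ p := by omega
  have hpd : p + d ≤ g := by omega
  have e1 : g - m + π.natDegree = g - p := by omega
  have e2 : g - m = g - (p + d) := by omega
  rw [e1, hd, e2]
  have h1 : fS ψ k (mulF A (b1 ^ k)) (SS K (g - p)) * fS ψ k (mulF A (π ^ k)) (SS K (g - d)) =
      ∑ w ∈ (SS K (g - p)) ×ˢ (SS K (g - d)), ψ (A ((b1 * w.1 + π * w.2) ^ k)) := by
    unfold fS
    rw [Finset.sum_mul_sum, ← Finset.sum_product']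
    refine Finset.sum_congr rfl fun w hw => ?_
    rw [Finset.mem_product, mem_SS, mem_SS] at hw
    rw [LrJ_split hk hmg A hp hd.le hb1 hkill hw.1 hw.2, AddChar.map_add_eq_mul, mulF_apply,
      mulF_apply]
  have hmaps : ∀ w ∈ (SS K (g - p)) ×ˢ (SS K (g - d)), b1 * w.1 + π * w.2 ∈ SS K g := by
    intro w hw
    rw [Finset.mem_product, mem_SS, mem_SS] at hw
    rw [mem_SS]
    have h2 := natDegree_mul_le (p := b1) (q := w.1)
    have h3 := natDegree_mul_le (p := π) (q := w.2)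
    refine (natDegree_add_le _ _).trans (max_le ?_ ?_)
    · omega
    · omega
  rw [h1, ← Finset.sum_fiberwise_of_maps_to hmaps]
  unfold fS
  rw [Finset.mul_sum]
  refine Finset.sum_congr rfl fun x hx => ?_
  have h2 : ∑ w ∈ ((SS K (g - p)) ×ˢ (SS K (g - d))).filter (fun w => b1 * w.1 + π * w.2 = x),
      ψ (A ((b1 * w.1 + π * w.2) ^ k)) =
      ∑ w ∈ ((SS K (g - p)) ×ˢ (SS K (g - d))).filter (fun w => b1 * w.1 + π * w.2 = x),
      ψ (A (x ^ k)) := by
    refine Finset.sum_congr rfl fun w hw => ?_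
    rw [(Finset.mem_filter.1 hw).2]
  rw [h2, Finset.sum_const, LrJ_fibre hpd hπ hd hb10 hb1 hdvd hx, nsmul_eq_mul, Nat.cast_pow]

end MP_570bef_ntF
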