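import Pool.Agent.Lib.MP_570bef_ntF.CFc

/-! JOB LrQ.  Ranks of the functionals in steps (i), (ii).  `d = natDegree π ≥ 1`, `b = π * b1`, `natDegree b ≤ m ≤ g`, so `b1.natDegree ≤ m - d`, `d ≤ m ≤ g`; `A' := mulF A (π^k)`, `D' := k (g-d) = k g - k d`.

`rho_i` (no condition on `b1`): let `m' ≤ D'+1` with `IsRho A' D' m'` (`exists_rho`), witness `b'`.
 (a) `m' + d ≤ m`: `(b1, m-d)` kills `A'` on degree `≤ D'`: `A(π^k b1 z) = A(b * (π^(k-1) z))` and `(π^(k-1) z).natDegree + m ≤ (k-1) d + (k g - k d - (m - d)) + m = k g`.  `rho_le`.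
 (b) `m ≤ m' + k d`: `(π^k b', k d + m')` kills `A` on degree `≤ k g` (`A(π^k b' z) = 0` if `z.natDegree + m' ≤ D'`), `π^k b' ≠ 0` of degree `≤ k d + m'`.  `rho_le`.
`rho_ii` (`π ∤ b1`): `IsRho A' D' (m-d)`.  Let `m'` as above, `m' ≤ m - d` by (a); suppose `m' < m - d`.  Consider `A1 := mulF A π` on degree `≤ D1 := k g - d`.  `(b1, m-d)` kills `A1`, and `m - d` is the rank of `A1` on `D1`:
if `(β, μ)` kills `A1` (`β ≠ 0`) then `(π β, μ + d)` kills `A` on `k g`, so `m ≤ μ + d`.  Also `(π^(k-1) b', (k-1) d + m')` kills `A1` on `D1` (`A(π π^(k-1) b' z) = 0` for `z.natDegree + (k-1)d + m' ≤ k g - d`).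
`((k-1) d + m') + (m - d) ≤ D1 + 1`: because `m' ≤ m-d-1`, `d ≤ m - 1`, so the left side is `≤ 2m + (k-3) d - 1`.. `≤ k m - d + 1 ≤ k g - d + 1`
(precisely: `2m + (k-2) d - 2 ≤ 2m + (k-2)(m-1) ≤ k m ≤ k g`).  `rho_dvd` (for `A1`, `D1`, rank `m-d`, witness `b1`): `π^(k-1) b' = b1 y'` with `y'.natDegree + (m-d) ≤ (k-1) d + m'`.
`π` is prime and `π ∤ b1`, so `π^(k-1) ∣ y'`: `y' = π^(k-1) y''`, `b' = b1 y''`, `y''.natDegree + (m - d) ≤ m'` (`y' ≠ 0`), contradiction with `m' < m-d`.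
`kill_ii` (`π ∤ b1`): `A2 := mulF A (b1^k)` on degree `≤ k e`, `e := g - m + d` (`k e = k g - k (m-d)`).  (c) `Kill A2 (k e) π d`: `A(b1^k π z) = A(b * (b1^(k-1) z))`, degree `(k-1)(m-d) + z.natDegree + m ≤ k g` if `z.natDegree + d ≤ k e`
(`(k-1)(m-d) + k g - k(m-d) - d + m = k g`).  (d) `A2 ≠ 0` on degree `≤ k e`: otherwise `(b1^(k-1), (k-1)(m-d))` kills `mulF A b1` on degree `≤ D3 := k g - (m-d)`, and `(π, d)` kills it too, they are coprime, `π` exact, and
`(k-1)(m-d) + d ≤ D3 + 1` (`k (m-d) + d ≤ k m ≤ k g`; note `d ≥ 1`), so `kill_of_coprime`: `mulF A b1` vanishes on degree `≤ D3`, i.e. `(b1, m-d)` kills `A`: contradiction with `IsRho`.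
(If `z` is a polynomial with `z.natDegree + (k-1)(m-d) ≤ D3` then `z.natDegree ≤ k e`: `D3 - (k-1)(m-d) = k g - k(m-d)`.) -/

open Polynomial

namespace MP_570bef_ntF

variable {K : Type} [Field K]

private theorem LrQ_natDegree {π b1 : K[X]} {m : ℕ} (hb : π * b1 ≠ 0) (hbm : (π * b1).natDegree ≤ m) :
    π.natDegree + b1.natDegree ≤ m := by
  have h1 : π ≠ 0 := left_ne_zero_of_mul hb
  have h2 : b1 ≠ 0 := right_ne_zero_of_mul hb
  rw [Polynomial.natDegree_mul h1 h2] at hbm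
  exact hbm

private theorem LrQ_kill (k g m : ℕ) (hk : 2 ≤ k) (hmg : m ≤ g)
    (A : K[X] →ₗ[K] K) (π b1 : K[X]) (hb : π * b1 ≠ 0)
    (hbm : (π * b1).natDegree ≤ m) (hkill : Kill A (k * g) (π * b1) m) :
    Kill (mulF A (π ^ k)) (k * (g - π.natDegree)) b1 (m - π.natDegree) := by
  have hd := LrQ_natDegree hb hbm
  rw [kill_mulF (m := 0)]
  intro z hz
  have e1 : π ^ k * b1 * z = (π * b1) * (π ^ (k - 1) * z) := by
    obtain ⟨j, rfl⟩ : ∃ j, k = j + 1 := ⟨k - 1, by omega⟩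
    simp only [Nat.add_sub_cancel]
    ring
  rw [e1]
  apply hkill
  have h1 : (π ^ (k - 1) * z).natDegree ≤ (k - 1) * π.natDegree + z.natDegree :=
    (Polynomial.natDegree_mul_le).trans (Nat.add_le_add_right Polynomial.natDegree_pow_le _)
  generalize hdd : π.natDegree = d at *
  generalize b1.natDegree = b at *
  generalize z.natDegree = w at *
  generalize (π ^ (k - 1) * z).natDegree = W at *
  obtain ⟨j, rfl⟩ : ∃ j, k = j + 2 := ⟨k - 2, by omega⟩
  obtain ⟨n, rfl⟩ : ∃ n, m = d + n := ⟨m - d, by omega⟩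
  obtain ⟨r, rfl⟩ : ∃ r, g = d + n + r := ⟨g - (d + n), by omega⟩
  have q1 : d + n + r - d = n + r := by omega
  have q2 : d + n - d = n := by omega
  have q3 : j + 2 - 1 = j + 1 := by omega
  rw [q1, q2] at hz
  rw [q3] at h1
  nlinarith

theorem rho_i (k g m : ℕ) (hk : 2 ≤ k) (hmg : m ≤ g)
    (A : K[X] →ₗ[K] K) (hρ : IsRho A (k * g) m) (π b1 : K[X]) (hπ : Irreducible π) (hb : π * b1 ≠ 0)
    (hbm : (π * b1).natDegree ≤ m) (hkill : Kill A (k * g) (π * b1) m) :
    ∃ m' : ℕ, IsRho (mulF A (π ^ k)) (k * (g - π.natDegree)) m' ∧ m' + π.natDegree ≤ m ∧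
      m ≤ m' + k * π.natDegree := by
  have hd := LrQ_natDegree hb hbm
  have hπ0 : π ≠ 0 := hπ.ne_zero
  have hb1 : b1 ≠ 0 := right_ne_zero_of_mul hb
  obtain ⟨m', _, hr⟩ := exists_rho (mulF A (π ^ k)) (k * (g - π.natDegree))
  refine ⟨m', hr, ?_, ?_⟩
  · have h1 := rho_le hr hb1 (e := m - π.natDegree) (by omega)
      (LrQ_kill k g m hk hmg A π b1 hb hbm hkill)
    omega
  · obtain ⟨b', hb', hbd, hkb⟩ := hr.1
    have hne : π ^ k * b' ≠ 0 := mul_ne_zero (pow_ne_zero _ hπ0) hb'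
    have hdeg : (π ^ k * b').natDegree ≤ m' + k * π.natDegree := by
      have h1 : (π ^ k * b').natDegree ≤ k * π.natDegree + b'.natDegree :=
        (Polynomial.natDegree_mul_le).trans (Nat.add_le_add_right Polynomial.natDegree_pow_le _)
      omega
    refine rho_le hρ hne hdeg ?_
    intro z hz
    rw [kill_mulF (m := 0)] at hkb
    apply hkb
    have hmul : k * (g - π.natDegree) = k * g - k * π.natDegree := Nat.mul_sub _ _ _
    rw [hmul]
    omega

theorem rho_ii (k g m : ℕ) (hk : 2 ≤ k) (hmg : m ≤ g)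
    (A : K[X] →ₗ[K] K) (hρ : IsRho A (k * g) m) (π b1 : K[X]) (hπ : Irreducible π) (hb : π * b1 ≠ 0)
    (hbm : (π * b1).natDegree ≤ m) (hkill : Kill A (k * g) (π * b1) m) (hdvd : ¬ π ∣ b1) :
    IsRho (mulF A (π ^ k)) (k * (g - π.natDegree)) (m - π.natDegree) := by
  have hd := LrQ_natDegree hb hbm
  have hπ0 : π ≠ 0 := hπ.ne_zero
  have hd1 : 1 ≤ π.natDegree := hπ.natDegree_pos
  have hb1 : b1 ≠ 0 := right_ne_zero_of_mul hb
  obtain ⟨m', hr, h1, _⟩ := rho_i k g m hk hmg A hρ π b1 hπ hb hbm hkill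
  by_cases hm : m' = m - π.natDegree
  · rw [← hm]; exact hr
  exfalso
  have hlt : m' + π.natDegree < m := by omega
  obtain ⟨b', hb', hbd, hkb⟩ := hr.1
  rw [kill_mulF (m := 0)] at hkb
  have hgk : m ≤ k * g := by nlinarith
  -- `(b1, m - d)` kills `A1`
  have k1 : Kill (mulF A π) (k * g - π.natDegree) b1 (m - π.natDegree) := by
    rw [kill_mulF (m := 0)]
    intro z hz
    apply hkill
    omega
  have r1 : IsRho (mulF A π) (k * g - π.natDegree) (m - π.natDegree) := by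
    refine ⟨⟨b1, hb1, by omega, k1⟩, ?_⟩
    intro e he G hG hGe hK
    rw [kill_mulF (m := 0)] at hK
    have hne : π * G ≠ 0 := mul_ne_zero hπ0 hG
    have h3 : m ≤ e + π.natDegree := by
      refine rho_le hρ hne ?_ ?_
      · rw [Polynomial.natDegree_mul hπ0 hG]; omega
      · intro z hz
        apply hK
        omega
    omega
  have hne : π ^ (k - 1) * b' ≠ 0 := mul_ne_zero (pow_ne_zero _ hπ0) hb'
  have hdeg : (π ^ (k - 1) * b').natDegree ≤ (k - 1) * π.natDegree + m' :=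
    (Polynomial.natDegree_mul_le).trans (Nat.add_le_add Polynomial.natDegree_pow_le hbd)
  have hkd : (k - 1) * π.natDegree + π.natDegree = k * π.natDegree := by
    obtain ⟨j, rfl⟩ : ∃ j, k = j + 1 := ⟨k - 1, by omega⟩
    simp only [Nat.add_sub_cancel]
    ring
  have hmul : k * (g - π.natDegree) = k * g - k * π.natDegree := Nat.mul_sub _ _ _
  have k2 : Kill (mulF A π) (k * g - π.natDegree) (π ^ (k - 1) * b') ((k - 1) * π.natDegree + m') := by
    rw [kill_mulF (m := 0)]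
    intro z hz
    have e1 : π * (π ^ (k - 1) * b') * z = π ^ k * b' * z := by
      obtain ⟨j, rfl⟩ : ∃ j, k = j + 1 := ⟨k - 1, by omega⟩
      simp only [Nat.add_sub_cancel]
      ring
    rw [e1]
    apply hkb
    rw [hmul]
    omega
  have hYm : (k - 1) * π.natDegree + m' + (m - π.natDegree) ≤ k * g - π.natDegree + 1 := by
    have t1 : 2 * m + (k - 2) * π.natDegree ≤ k * g + 2 := by
      obtain ⟨j, rfl⟩ : ∃ j, k = j + 2 := ⟨k - 2, by omega⟩
      simp only [Nat.add_sub_cancel]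
      have t2 : j * π.natDegree ≤ j * g := Nat.mul_le_mul_left _ (by omega)
      nlinarith
    have t3 : (k - 1) * π.natDegree = (k - 2) * π.natDegree + π.natDegree := by
      obtain ⟨j, rfl⟩ : ∃ j, k = j + 2 := ⟨k - 2, by omega⟩
      have q3 : j + 2 - 1 = j + 1 := by omega
      rw [q3]
      simp only [Nat.add_sub_cancel]
      ring
    omega
  obtain ⟨y', hy', hyd⟩ := rho_dvd r1 hb1 (by omega) k1 hne hdeg k2 hYm
  have hp : Prime π := hπ.prime
  have hdv : π ^ (k - 1) ∣ b1 * y' := by rw [← hy']; exact dvd_mul_right _ _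
  obtain ⟨y'', rfl⟩ := hp.pow_dvd_of_dvd_mul_left (k - 1) hdvd hdv
  have hy0 : y'' ≠ 0 := by
    rintro rfl
    apply hne
    rw [hy']
    simp
  rw [Polynomial.natDegree_mul (pow_ne_zero _ hπ0) hy0, Polynomial.natDegree_pow] at hyd
  omega

theorem kill_ii (k g m : ℕ) (hk : 2 ≤ k) (hmg : m ≤ g)
    (A : K[X] →ₗ[K] K) (hρ : IsRho A (k * g) m) (π b1 : K[X]) (hπ : Irreducible π) (hb : π * b1 ≠ 0)
    (hbm : (π * b1).natDegree ≤ m) (hkill : Kill A (k * g) (π * b1) m) (hdvd : ¬ π ∣ b1) :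
    Kill (mulF A (b1 ^ k)) (k * (g - m + π.natDegree)) π π.natDegree ∧
      ∃ F : K[X], F.natDegree ≤ k * (g - m + π.natDegree) ∧ mulF A (b1 ^ k) F ≠ 0 := by
  have hd := LrQ_natDegree hb hbm
  have hπ0 : π ≠ 0 := hπ.ne_zero
  have hd1 : 1 ≤ π.natDegree := hπ.natDegree_pos
  have hb1 : b1 ≠ 0 := right_ne_zero_of_mul hb
  have hgk : m ≤ k * g := by nlinarith
  have hb1d : b1.natDegree ≤ m - π.natDegree := by omega
  have hpd : (b1 ^ (k - 1)).natDegree ≤ (k - 1) * (m - π.natDegree) :=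
    (Polynomial.natDegree_pow_le).trans (Nat.mul_le_mul_left _ hb1d)
  have hid : (k - 1) * (m - π.natDegree) + (m - π.natDegree) + k * (g - m + π.natDegree) = k * g := by
    obtain ⟨j, rfl⟩ : ∃ j, k = j + 1 := ⟨k - 1, by omega⟩
    obtain ⟨n, hn⟩ : ∃ n, m = π.natDegree + n := ⟨m - π.natDegree, by omega⟩
    obtain ⟨r, hr⟩ : ∃ r, g = π.natDegree + n + r := ⟨g - (π.natDegree + n), by omega⟩
    have q1 : m - π.natDegree = n := by omega
    have q2 : g - m + π.natDegree = r + π.natDegree := by omega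
    rw [q1, q2, hr]
    simp only [Nat.add_sub_cancel]
    ring
  have hkill2 : π.natDegree ≤ k * (g - m + π.natDegree) := by nlinarith
  constructor
  · rw [kill_mulF (m := 0)]
    intro z hz
    have e1 : b1 ^ k * π * z = (π * b1) * (b1 ^ (k - 1) * z) := by
      obtain ⟨j, rfl⟩ : ∃ j, k = j + 1 := ⟨k - 1, by omega⟩
      simp only [Nat.add_sub_cancel]
      ring
    rw [e1]
    apply hkill
    have h1 : (b1 ^ (k - 1) * z).natDegree ≤ (k - 1) * (m - π.natDegree) + z.natDegree :=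
      (Polynomial.natDegree_mul_le).trans (Nat.add_le_add_right hpd _)
    omega
  · by_contra hcon
    push Not at hcon
    have k1 : Kill (mulF A b1) (k * g - (m - π.natDegree)) (b1 ^ (k - 1)) ((k - 1) * (m - π.natDegree)) := by
      rw [kill_mulF (m := 0)]
      intro z hz
      have e1 : b1 * b1 ^ (k - 1) * z = b1 ^ k * z := by
        obtain ⟨j, rfl⟩ : ∃ j, k = j + 1 := ⟨k - 1, by omega⟩
        simp only [Nat.add_sub_cancel]
        ring
      rw [e1]
      exact hcon z (by omega)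
    have k2 : Kill (mulF A b1) (k * g - (m - π.natDegree)) π π.natDegree := by
      rw [kill_mulF (m := 0)]
      intro z hz
      rw [mul_comm b1 π]
      apply hkill
      omega
    have hco : IsCoprime (b1 ^ (k - 1)) π := by
      apply IsCoprime.pow_left
      exact ((Irreducible.coprime_iff_not_dvd hπ).2 hdvd).symm
    have hall := kill_of_coprime (pow_ne_zero _ hb1) hπ0 hpd le_rfl hco (Or.inr rfl)
      (by omega) k1 k2
    have h3 : m ≤ m - π.natDegree := by
      refine rho_le hρ hb1 hb1d ?_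
      intro z hz
      exact hall z (by omega)
    omega

end MP_570bef_ntF
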