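import Pool.Agent.Lib.MP_570bef_ntF.CFc

/-! JOB LrR.  Reflection (exchange of `0` and infinity).  `D := k g`.

`A* := A ∘ reflect D` as a linear map: `Polynomial.reflect D` is additive (`reflect_add`) and commutes with constants (`reflect_C_mul`).
Facts: `reflect N (reflect N f) = f` (`Polynomial.reflect_invol`? or by coefficients `coeff_reflect`, `Polynomial.revAt_invol`), `(reflect N f).natDegree ≤ N` if `f.natDegree ≤ N` (coefficients: `coeff_reflect`, `revAt_le`),
`reflect (M+N) (f * g) = reflect M f * reflect N g` for `f.natDegree ≤ M`, `g.natDegree ≤ N` (`Polynomial.reflect_mul`), hence `reflect (k g) (x^k) = (reflect g x)^k` for `x.natDegree ≤ g` (induction).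
(1) sum: `x ↦ reflect g x` is a permutation of `SS K g` (`Finset.sum_nbij'` or `Finset.sum_bij`), `A* (x^k) = A (reflect (k g) (x^k)) = A ((reflect g x)^k)`.
(2) `Kill`: if `b.natDegree ≤ m` and `Kill A D b m` then `Kill A* D (reflect m b) m`: for `z` with `z.natDegree + m ≤ D`: `reflect D (reflect m b * z) = b * reflect (D-m) z` (`reflect_mul` with `D = m + (D-m)`), whose factor
`reflect (D-m) z` has degree `≤ D - m`; so `A* (reflect m b * z) = A (b * reflect (D-m) z) = 0`.
(3) `IsRho`: by (2) applied to `A` and to `A*` (`A** = A` on all polynomials of degree `≤ D`: `reflect D (reflect D F) = F` always holds) a form of degree `m` kills `A` iff its reflection kills `A*`, and `reflect m b ≠ 0` iff `b ≠ 0`. -/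

open Polynomial

namespace MP_570bef_ntF

variable {K : Type} [Field K] [Fintype K]

private noncomputable def LrR_refl (A : K[X] →ₗ[K] K) (D : ℕ) : K[X] →ₗ[K] K where
  toFun F := A (reflect D F)
  map_add' F G := by rw [reflect_add, map_add]
  map_smul' a F := by
    rw [Polynomial.smul_eq_C_mul, reflect_C_mul, ← Polynomial.smul_eq_C_mul, map_smul, RingHom.id_apply]

omit [Fintype K] in
private theorem LrR_refl_apply (A : K[X] →ₗ[K] K) (D : ℕ) (F : K[X]) :
    LrR_refl A D F = A (reflect D F) := rfl

omit [Fintype K] in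
private theorem LrR_natDegree {N : ℕ} {f : K[X]} (hf : f.natDegree ≤ N) :
    (reflect N f).natDegree ≤ N :=
  (natDegree_reflect_le).trans (max_le le_rfl hf)

omit [Fintype K] in
private theorem LrR_pow {g : ℕ} {x : K[X]} (hx : x.natDegree ≤ g) (k : ℕ) :
    reflect (k * g) (x ^ k) = (reflect g x) ^ k := by
  induction k with
  | zero => simp
  | succ k ih =>
    rw [Nat.succ_mul, pow_succ, pow_succ, reflect_mul _ _ _ hx, ih]
    exact (Polynomial.natDegree_pow_le).trans (Nat.mul_le_mul_left k hx)

omit [Fintype K] in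
private theorem LrR_kill {A : K[X] →ₗ[K] K} {D : ℕ} {b : K[X]} {m : ℕ} (hb : b.natDegree ≤ m)
    (hk : Kill A D b m) : Kill (LrR_refl A D) D (reflect m b) m := by
  intro z hz
  rw [LrR_refl_apply]
  have hD : D = m + (D - m) := by omega
  have h1 : reflect D (reflect m b * z) = b * reflect (D - m) z := by
    conv_lhs => rw [hD]
    rw [reflect_mul _ _ (LrR_natDegree hb) (show z.natDegree ≤ D - m by omega), reflect_reflect]
  rw [h1]
  apply hk
  have := LrR_natDegree (show z.natDegree ≤ D - m by omega)
  omega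

omit [Fintype K] in
private theorem LrR_refl_refl (A : K[X] →ₗ[K] K) (D : ℕ) : LrR_refl (LrR_refl A D) D = A := by
  ext F
  simp [LrR_refl_apply]

theorem reflect_functional (ψ : AddChar K ℂ) (k g : ℕ) (A : K[X] →ₗ[K] K) :
    ∃ A' : K[X] →ₗ[K] K, fS ψ k A' (SS K g) = fS ψ k A (SS K g) ∧
      (∀ m, IsRho A (k * g) m → IsRho A' (k * g) m) ∧
      (∀ (b : K[X]) (m : ℕ), b.natDegree ≤ m → Kill A (k * g) b m → Kill A' (k * g) (reflect m b) m) := by
  refine ⟨LrR_refl A (k * g), ?_, ?_, ?_⟩
  · unfold fS
    refine Finset.sum_nbij' (fun x => reflect g x) (fun x => reflect g x) ?_ ?_ ?_ ?_ ?_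
    · intro x hx
      rw [mem_SS] at *
      exact LrR_natDegree hx
    · intro x hx
      rw [mem_SS] at *
      exact LrR_natDegree hx
    · intro x _
      exact reflect_reflect
    · intro x _
      exact reflect_reflect
    · intro x hx
      rw [mem_SS] at hx
      rw [LrR_refl_apply, LrR_pow hx]
  · rintro m ⟨⟨b, hb0, hbm, hbk⟩, hmin⟩
    refine ⟨⟨reflect m b, ?_, LrR_natDegree hbm, LrR_kill hbm hbk⟩, ?_⟩
    · rw [Ne, reflect_eq_zero_iff]
      exact hb0
    · intro e he G hG0 hGe hGk
      refine hmin e he (reflect e G) ?_ (LrR_natDegree hGe) ?_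
      · rw [Ne, reflect_eq_zero_iff]
        exact hG0
      · have := LrR_kill hGe hGk
        rwa [LrR_refl_refl] at this
  · intro b m hbm hbk
    exact LrR_kill hbm hbk

end MP_570bef_ntF
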