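import Pool.Agent.Lib.MP_570bef_ntF.LrP
import Pool.Agent.Lib.MP_570bef_ntF.LrR
import Pool.Agent.Lib.MP_570bef_ntF.LrI
import Pool.Agent.Lib.MP_570bef_ntF.LrJ
import Pool.Agent.Lib.MP_570bef_ntF.LrQ

/-! JOB Lr.  Complete sums of low rank.  `q = card K`, `Ck := (2k)^k`.

Strong induction on `m`, for all `g` and `A`.  `m = 0`: `‖fS‖ ≤ |SS K g| = q^(g+1)` (`norm_sum_le`, `norm_char`, `card_SS`).
`m ≥ 1`: `IsRho` gives `b ≠ 0`, `b.natDegree ≤ m`, `Kill A (k g) b m`.  If `b.natDegree = 0`, replace `A` by `A'` from `reflect_functional` and `b` by `reflect m b ≠ 0` (`Polynomial.reflect_eq_zero_iff` or coefficients):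
`(reflect m b).natDegree ≤ m`, and its degree is `≥ 1` (its `m`-th coefficient is `b.coeff 0 ≠ 0` and `m ≥ 1`); same sum, same rank.  So we may assume `1 ≤ b.natDegree`.
Take an irreducible `π ∣ b` (`b` not a unit: `WfDvdMonoid.exists_irreducible_factor`), `b = π * b1`, `d := π.natDegree ≥ 1` (`Irreducible.natDegree_pos`), `d ≤ m ≤ g`.
Case `π ∣ b1`: `step_i`: `fS = fS(A') (SS (g-d))`, `A' = mulF A (π^k)`, `rho_i`: `IsRho A' (k(g-d)) m'`, `m' + d ≤ m`, `m ≤ m' + k d`; so `m' < m`, `m' ≤ g - d`; induction: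
`‖fS‖^k q^m ≤ ‖fS‖^k q^(m'+kd) ≤ Ck^m' q^(k(g-d+1)) q^(kd) ≤ Ck^m q^(k(g+1))` (`q ≥ 1`, `Ck ≥ 1`, `(g-d)+1+d = g+1`).
Case `π ∤ b1`: `step_ii`, `prime_sum` with `e = g - m + d ≥ d`, `A2 = mulF A (b1^k)` (hypotheses from `kill_ii`), induction for `A'` with rank `m - d` (`rho_ii`):
`q^(k(g-m+1)) ‖fS‖^k q^m = (‖E‖^k q^d) (‖fS(A')‖^k q^(m-d)) ≤ (2k)^k q^(k(e+1)) * Ck^(m-d) q^(k(g-d+1))`, and `k(e+1) + k(g-d+1) = k(g-m+1) + k(g+1)`; divide by `q^(k(g-m+1)) > 0`;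
`Ck^(m-d+1) ≤ Ck^m`. -/

open Polynomial

namespace MP_570bef_ntF

variable {K : Type} [Field K] [Fintype K]

theorem Lr_real_i (S q C : ℝ) (k g m m' d : ℕ) (hS : 0 ≤ S) (hq : 1 ≤ q) (hC : 1 ≤ C)
    (h1 : m' ≤ m) (h2 : m ≤ m' + k * d) (hd : d ≤ g)
    (ih : S ^ k * q ^ m' ≤ C ^ m' * q ^ (k * (g - d + 1))) :
    S ^ k * q ^ m ≤ C ^ m * q ^ (k * (g + 1)) := by
  have hq0 : 0 ≤ q := le_trans zero_le_one hq
  have hC0 : 0 ≤ C := le_trans zero_le_one hC
  have hexp : k * (g + 1) = k * (g - d + 1) + k * d := by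
    rw [← Nat.mul_add]
    congr 1
    omega
  calc S ^ k * q ^ m ≤ S ^ k * q ^ (m' + k * d) :=
        mul_le_mul_of_nonneg_left (pow_le_pow_right₀ hq h2) (pow_nonneg hS _)
    _ = (S ^ k * q ^ m') * q ^ (k * d) := by rw [pow_add]; ring
    _ ≤ (C ^ m' * q ^ (k * (g - d + 1))) * q ^ (k * d) :=
        mul_le_mul_of_nonneg_right ih (pow_nonneg hq0 _)
    _ = C ^ m' * q ^ (k * (g + 1)) := by rw [hexp, pow_add]; ring
    _ ≤ C ^ m * q ^ (k * (g + 1)) :=
        mul_le_mul_of_nonneg_right (pow_le_pow_right₀ hC h1) (pow_nonneg hq0 _)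

theorem Lr_real_ii (S E T q C : ℝ) (k g m d : ℕ) (hE : 0 ≤ E) (hT : 0 ≤ T) (hq : 1 ≤ q) (hC : 1 ≤ C)
    (hd : 1 ≤ d) (hdm : d ≤ m) (hmg : m ≤ g) (hprod : q ^ (g - m + 1) * S = E * T)
    (h1 : E ^ k * q ^ d ≤ C * (q ^ (g - m + d + 1)) ^ k)
    (h2 : T ^ k * q ^ (m - d) ≤ C ^ (m - d) * q ^ (k * (g - d + 1))) :
    S ^ k * q ^ m ≤ C ^ m * q ^ (k * (g + 1)) := by
  have hq0 : 0 < q := lt_of_lt_of_le zero_lt_one hq
  have hC0 : 0 ≤ C := le_trans zero_le_one hC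
  have hpos : 0 < q ^ (k * (g - m + 1)) := pow_pos hq0 _
  have e1 : q ^ (k * (g - m + 1)) * (S ^ k * q ^ m) = (E ^ k * q ^ d) * (T ^ k * q ^ (m - d)) := by
    have hm : q ^ m = q ^ d * q ^ (m - d) := by
      rw [← pow_add]
      congr 1
      omega
    have h3 : q ^ (k * (g - m + 1)) * S ^ k = E ^ k * T ^ k := by
      rw [mul_comm k, pow_mul, ← mul_pow, ← mul_pow, hprod]
    calc q ^ (k * (g - m + 1)) * (S ^ k * q ^ m) = (q ^ (k * (g - m + 1)) * S ^ k) * q ^ m := by ring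
      _ = (E ^ k * T ^ k) * (q ^ d * q ^ (m - d)) := by rw [h3, hm]
      _ = _ := by ring
  have e2 : (E ^ k * q ^ d) * (T ^ k * q ^ (m - d)) ≤
      (C * (q ^ (g - m + d + 1)) ^ k) * (C ^ (m - d) * q ^ (k * (g - d + 1))) := by
    apply mul_le_mul h1 h2
    · exact mul_nonneg (pow_nonneg hT _) (pow_nonneg hq0.le _)
    · exact mul_nonneg hC0 (pow_nonneg (pow_nonneg hq0.le _) _)
  have e3 : (C * (q ^ (g - m + d + 1)) ^ k) * (C ^ (m - d) * q ^ (k * (g - d + 1))) =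
      C ^ (m - d + 1) * (q ^ (k * (g - m + 1)) * q ^ (k * (g + 1))) := by
    rw [← pow_add, ← pow_mul, pow_succ]
    have h4 : k * (g - m + 1) + k * (g + 1) = (g - m + d + 1) * k + k * (g - d + 1) := by
      obtain ⟨a, rfl⟩ := Nat.exists_eq_add_of_le hdm
      obtain ⟨c, rfl⟩ := Nat.exists_eq_add_of_le hmg
      have s1 : d + a + c - (d + a) = c := by omega
      have s2 : d + a + c - d = a + c := by omega
      rw [s1, s2]
      ring
    rw [h4, pow_add]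
    ring
  have e4 : C ^ (m - d + 1) ≤ C ^ m := pow_le_pow_right₀ hC (by omega)
  have e5 : q ^ (k * (g - m + 1)) * (S ^ k * q ^ m) ≤
      q ^ (k * (g - m + 1)) * (C ^ m * q ^ (k * (g + 1))) := by
    rw [e1]
    refine e2.trans ?_
    rw [e3]
    calc C ^ (m - d + 1) * (q ^ (k * (g - m + 1)) * q ^ (k * (g + 1)))
        ≤ C ^ m * (q ^ (k * (g - m + 1)) * q ^ (k * (g + 1))) :=
          mul_le_mul_of_nonneg_right e4 (mul_nonneg hpos.le (pow_nonneg hq0.le _))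
      _ = _ := by ring
  exact le_of_mul_le_mul_left e5 hpos

theorem Lr_core {ψ : AddChar K ℂ} (hψ : ψ ≠ 1) (k : ℕ) (hk : 2 ≤ k) (hkK : (k : K) ≠ 0)
    (m g : ℕ) (A : K[X] →ₗ[K] K) (hmg : m ≤ g) (hρ : IsRho A (k * g) m) (b : K[X]) (hb0 : b ≠ 0)
    (hbm : b.natDegree ≤ m) (hkill : Kill A (k * g) b m) (hb1 : 1 ≤ b.natDegree)
    (IH : ∀ m' < m, ∀ (g : ℕ) (A : K[X] →ₗ[K] K), m' ≤ g → IsRho A (k * g) m' →
      ‖fS ψ k A (SS K g)‖ ^ k * (Fintype.card K : ℝ) ^ m'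
        ≤ ((2 * (k : ℝ)) ^ k) ^ m' * (Fintype.card K : ℝ) ^ (k * (g + 1))) :
    ‖fS ψ k A (SS K g)‖ ^ k * (Fintype.card K : ℝ) ^ m
      ≤ ((2 * (k : ℝ)) ^ k) ^ m * (Fintype.card K : ℝ) ^ (k * (g + 1)) := by
  have hq : (1 : ℝ) ≤ (Fintype.card K : ℝ) := by
    exact_mod_cast (Fintype.card_pos : 0 < Fintype.card K)
  have hC : (1 : ℝ) ≤ (2 * (k : ℝ)) ^ k := by
    apply one_le_pow₀
    have : (2 : ℝ) ≤ (k : ℝ) := by exact_mod_cast hk
    linarith
  have hnu : ¬ IsUnit b := by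
    intro h
    have := Polynomial.natDegree_eq_zero_of_isUnit h
    omega
  obtain ⟨π, hπ, b1, rfl⟩ := WfDvdMonoid.exists_irreducible_factor hnu hb0
  have hd1 : 1 ≤ π.natDegree := hπ.natDegree_pos
  have hb10 : b1 ≠ 0 := right_ne_zero_of_mul hb0
  have hdeg : (π * b1).natDegree = π.natDegree + b1.natDegree := Polynomial.natDegree_mul hπ.ne_zero hb10
  have hdm : π.natDegree ≤ m := by omega
  by_cases hdvd : π ∣ b1
  · obtain ⟨m', hρ', h1, h2⟩ := rho_i k g m hk hmg A hρ π b1 hπ hb0 hbm hkill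
    have hstep := step_i hψ k g m hk hkK hmg A hρ π b1 hπ hb0 hbm hkill hdvd
    have ih := IH m' (by omega) (g - π.natDegree) (mulF A (π ^ k)) (by omega) hρ'
    rw [hstep]
    exact Lr_real_i _ _ _ k g m m' π.natDegree (norm_nonneg _) hq hC (by omega) h2 (by omega) ih
  · have hρ' := rho_ii k g m hk hmg A hρ π b1 hπ hb0 hbm hkill hdvd
    have hstep := step_ii (ψ := ψ) k g m hk hmg A π b1 hπ hb0 hbm hkill hdvd
    obtain ⟨hk1, hk2⟩ := kill_ii k g m hk hmg A hρ π b1 hπ hb0 hbm hkill hdvd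
    have hE := prime_sum hψ k hk π hπ (g - m + π.natDegree) (Nat.le_add_left _ _)
      (mulF A (b1 ^ k)) hk1 hk2
    have ih := IH (m - π.natDegree) (by omega) (g - π.natDegree) (mulF A (π ^ k)) (by omega) hρ'
    refine Lr_real_ii ‖fS ψ k A (SS K g)‖ ‖fS ψ k (mulF A (b1 ^ k)) (SS K (g - m + π.natDegree))‖
      ‖fS ψ k (mulF A (π ^ k)) (SS K (g - π.natDegree))‖ _ _ k g m π.natDegree (norm_nonneg _)
      (norm_nonneg _) hq hC hd1 hdm hmg ?_ hE ih
    have := congrArg (fun z : ℂ => ‖z‖) hstep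
    simp only [norm_mul, norm_pow, Complex.norm_natCast] at this
    exact this

theorem low_rank_sum {ψ : AddChar K ℂ} (hψ : ψ ≠ 1) (k : ℕ) (hk : 2 ≤ k) (hkK : (k : K) ≠ 0) :
    ∀ (m g : ℕ) (A : K[X] →ₗ[K] K), m ≤ g → IsRho A (k * g) m →
      ‖fS ψ k A (SS K g)‖ ^ k * (Fintype.card K : ℝ) ^ m
        ≤ ((2 * (k : ℝ)) ^ k) ^ m * (Fintype.card K : ℝ) ^ (k * (g + 1)) := by
  intro m
  induction m using Nat.strong_induction_on with
  | _ m IH =>
    intro g A hmg hρ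
    rcases Nat.eq_zero_or_pos m with hm0 | hm0
    · subst hm0
      rw [pow_zero, pow_zero, mul_one, one_mul]
      have h1 : ‖fS ψ k A (SS K g)‖ ≤ (Fintype.card K : ℝ) ^ (g + 1) := by
        unfold fS
        refine (norm_sum_le _ _).trans ?_
        rw [Finset.sum_congr rfl (fun x _ => norm_char ψ (A (x ^ k))), Finset.sum_const, card_SS]
        simp
      rw [mul_comm k, pow_mul]
      exact pow_le_pow_left₀ (norm_nonneg _) h1 k
    · obtain ⟨b, hb0, hbm, hkill⟩ := hρ.1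
      by_cases hb1 : 1 ≤ b.natDegree
      · exact Lr_core hψ k hk hkK m g A hmg hρ b hb0 hbm hkill hb1 IH
      · obtain ⟨A', hS, hR, hK⟩ := reflect_functional ψ k g A
        have hb00 : b.coeff 0 ≠ 0 := by
          intro h
          apply hb0
          rw [Polynomial.eq_C_of_natDegree_eq_zero (p := b) (by omega), h, map_zero]
        have hcoef : (reflect m b).coeff m = b.coeff 0 := by
          rw [Polynomial.coeff_reflect, Polynomial.revAt_le le_rfl, Nat.sub_self]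
        have hne : reflect m b ≠ 0 := by
          intro h
          rw [h, Polynomial.coeff_zero] at hcoef
          exact hb00 hcoef.symm
        have hle : (reflect m b).natDegree ≤ m := by
          rw [Polynomial.natDegree_le_iff_coeff_eq_zero]
          intro N hN
          rw [Polynomial.coeff_reflect, Polynomial.revAt_eq_self_of_lt hN]
          exact Polynomial.coeff_eq_zero_of_natDegree_lt (by omega)
        have hge : m ≤ (reflect m b).natDegree := by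
          apply Polynomial.le_natDegree_of_ne_zero
          rw [hcoef]
          exact hb00
        have := Lr_core hψ k hk hkK m g A' hmg (hR m hρ) (reflect m b) hne hle (hK b m hbm hkill)
          (by omega) IH
        rw [hS] at this
        exact this

end MP_570bef_ntF
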