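import Pool.Agent.Lib.MP_570bef_ntF.Gs
import Pool.Agent.Lib.MP_570bef_ntF.FoA

/-! JOB LrP.  The sum over `z` when the functional is killed by an irreducible polynomial `π` of degree `d`.

WLOG `π` monic (multiply by a constant; or work with `AdjoinRoot π` / `K[X] ⧸ (π)` directly).  `F := AdjoinRoot π`, a field with `q^d` elements (`Fact (Irreducible π)`, `AdjoinRoot.powerBasis`, finrank `= d`,
`Module.card_eq_pow_finrank`; it is a `Fintype` via `Fintype.ofFinite`/`Module.finite`).  For `w` of degree `≤ k e` : `w = π * (w / π) + w % π`, `(w / π).natDegree + d ≤ k e` (or `w / π = 0`), so `A w = A (w % π)` by `Kill`.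
The functional `λ : F → K`, `λ (mk w) := A (w % π)` is well defined and `K`-linear (`w ↦ w % π` is linear with kernel `(π)`: use `Ideal.Quotient.lift` / `Submodule.liftQ`, or `AdjoinRoot.modByMonicHom` composed with `A`).
So for `z ∈ SS K e`: `A (z^k) = λ ((mk z)^k)` (`natDegree (z^k) ≤ k e`).  `χ := ψ ∘ λ` is an additive character of `F`; it is nontrivial: `λ ≠ 0` since `A F₀ ≠ 0` for some `F₀` of degree `≤ k e`, so `λ` is onto `K`
(linear, nonzero), and `ψ ≠ 1`.
The map `SS K e → F`, `z ↦ mk z` is onto with all fibres of size `q^(e+1-d)` (`d ≤ e`; fibre of `r` (degree `< d`): `z = r + π y`, `y ∈ SS K (e-d)`, and `card_SS`).  Hence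
`fS ψ k A (SS K e) = q^(e+1-d) * ∑_{y∈F} χ(y^k)`, and by `gauss_pow` (card `F = q^d`):
`‖fS‖^k * q^d = q^(k(e+1-d)) * (‖∑ χ(y^k)‖^k * q^d) ≤ q^(k(e+1-d)) * (2k)^k * q^(dk) = (2k)^k * (q^(e+1))^k`. -/

open Polynomial

namespace MP_570bef_ntF

variable {K : Type} [Field K] [Fintype K]

omit [Fintype K] in
theorem LrP_mod (A : K[X] →ₗ[K] K) (D : ℕ) (π : K[X]) (hm : π.Monic)
    (hkill : Kill A D π π.natDegree) (hdD : π.natDegree ≤ D) {w : K[X]} (hw : w.natDegree ≤ D) :
    A (w %ₘ π) = A w := by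
  have h := Polynomial.modByMonic_add_div w π
  have h2 : A (π * (w /ₘ π)) = 0 := by
    apply hkill
    rw [Polynomial.natDegree_divByMonic w hm]
    omega
  conv_rhs => rw [← h]
  rw [map_add, h2, add_zero]

open Classical in
theorem LrP_fibre (e : ℕ) (π : K[X]) (hm : π.Monic) (hd1 : 1 ≤ π.natDegree) (hde : π.natDegree ≤ e)
    (y : AdjoinRoot π) :
    ((SS K e).filter (fun x => AdjoinRoot.mk π x = y)).card = Fintype.card K ^ (e - π.natDegree + 1) := by
  obtain ⟨f, hf⟩ := AdjoinRoot.mk_surjective y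
  have hr : AdjoinRoot.mk π (f %ₘ π) = y := by
    rw [← hf, AdjoinRoot.mk_eq_mk, Polynomial.modByMonic_eq_sub_mul_div, sub_sub_cancel_left, dvd_neg]
    exact dvd_mul_right _ _
  have hπ1 : π ≠ 1 := by
    rintro rfl
    simp at hd1
  have hrd : (f %ₘ π).natDegree < π.natDegree := Polynomial.natDegree_modByMonic_lt f hm hπ1
  rw [← card_SS]
  symm
  apply Finset.card_bij (fun z _ => f %ₘ π + π * z)
  · intro z hz
    rw [mem_SS] at hz
    rw [Finset.mem_filter, mem_SS]
    constructor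
    · refine (Polynomial.natDegree_add_le _ _).trans (max_le (by omega) ?_)
      refine (Polynomial.natDegree_mul_le).trans ?_
      omega
    · rw [map_add, hr, map_mul, AdjoinRoot.mk_self, zero_mul, add_zero]
  · intro z _ z' _ h
    exact mul_left_cancel₀ hm.ne_zero (add_left_cancel h)
  · intro x hx
    rw [Finset.mem_filter, mem_SS] at hx
    have h1 : AdjoinRoot.mk π x = AdjoinRoot.mk π (f %ₘ π) := by rw [hx.2, hr]
    rw [AdjoinRoot.mk_eq_mk] at h1
    obtain ⟨z, hz⟩ := h1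
    refine ⟨z, ?_, ?_⟩
    · rw [mem_SS]
      by_cases hz0 : z = 0
      · rw [hz0, Polynomial.natDegree_zero]
        exact Nat.zero_le _
      · have h2 : (π * z).natDegree ≤ e := by
          rw [← hz]
          exact (Polynomial.natDegree_sub_le _ _).trans (max_le hx.1 (by omega))
        rw [Polynomial.natDegree_mul hm.ne_zero hz0] at h2
        omega
    · rw [← hz]
      ring

theorem LrP_monic {ψ : AddChar K ℂ} (hψ : ψ ≠ 1) (k : ℕ) (hk : 2 ≤ k) (π : K[X]) (hπ : Irreducible π)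
    (hm : π.Monic) (e : ℕ) (hde : π.natDegree ≤ e) (A : K[X] →ₗ[K] K)
    (hkill : Kill A (k * e) π π.natDegree) (hA : ∃ F : K[X], F.natDegree ≤ k * e ∧ A F ≠ 0) :
    ‖fS ψ k A (SS K e)‖ ^ k * (Fintype.card K : ℝ) ^ π.natDegree
      ≤ (2 * (k : ℝ)) ^ k * ((Fintype.card K : ℝ) ^ (e + 1)) ^ k := by
  classical
  have hd1 : 1 ≤ π.natDegree := hπ.natDegree_pos
  have hek : e ≤ k * e := Nat.le_mul_of_pos_left e (by omega)
  haveI : Fact (Irreducible π) := ⟨hπ⟩
  haveI hfin : Module.Finite K (AdjoinRoot π) := (AdjoinRoot.powerBasis' hm).finite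
  haveI : Finite (AdjoinRoot π) := Module.finite_of_finite K
  letI : Fintype (AdjoinRoot π) := Fintype.ofFinite _
  have hcard : Fintype.card (AdjoinRoot π) = Fintype.card K ^ π.natDegree := by
    rw [Module.card_eq_pow_finrank (K := K) (V := AdjoinRoot π), (AdjoinRoot.powerBasis' hm).finrank,
      AdjoinRoot.powerBasis'_dim]
  let lam : AdjoinRoot π →ₗ[K] K := A ∘ₗ AdjoinRoot.modByMonicHom hm
  have hlam : ∀ w : K[X], w.natDegree ≤ k * e → lam (AdjoinRoot.mk π w) = A w := by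
    intro w hw
    change A (AdjoinRoot.modByMonicHom hm (AdjoinRoot.mk π w)) = A w
    rw [AdjoinRoot.modByMonicHom_mk]
    exact LrP_mod A (k * e) π hm hkill (hde.trans hek) hw
  let χ : AddChar (AdjoinRoot π) ℂ := ψ.compAddMonoidHom lam.toAddMonoidHom
  have hχa : ∀ y, χ y = ψ (lam y) := fun y => rfl
  have hχ : χ ≠ 1 := by
    obtain ⟨a, ha⟩ := AddChar.ne_one_iff.1 hψ
    obtain ⟨F0, hF0, hAF0⟩ := hA
    rw [AddChar.ne_one_iff]
    refine ⟨(a / A F0) • AdjoinRoot.mk π F0, ?_⟩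
    rw [hχa, map_smul, hlam F0 hF0, smul_eq_mul, div_mul_cancel₀ a hAF0]
    exact ha
  have hG := gauss_pow χ hχ k hk
  have hsum : fS ψ k A (SS K e) =
      (Fintype.card K : ℂ) ^ (e - π.natDegree + 1) * ∑ y : AdjoinRoot π, χ (y ^ k) := by
    have h1 : fS ψ k A (SS K e) = ∑ x ∈ SS K e, χ ((AdjoinRoot.mk π x) ^ k) := by
      unfold fS
      apply Finset.sum_congr rfl
      intro x hx
      rw [mem_SS] at hx
      rw [hχa, ← map_pow, hlam]
      exact (Polynomial.natDegree_pow_le).trans (Nat.mul_le_mul_left k hx)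
    rw [h1, ← Finset.sum_fiberwise (SS K e) (fun x => AdjoinRoot.mk π x), Finset.mul_sum]
    apply Finset.sum_congr rfl
    intro y _
    rw [Finset.sum_congr rfl (g := fun _ => χ (y ^ k)), Finset.sum_const, LrP_fibre e π hm hd1 hde y,
      nsmul_eq_mul, Nat.cast_pow]
    intro x hx
    rw [(Finset.mem_filter.1 hx).2]
  have hq0 : (0 : ℝ) ≤ (Fintype.card K : ℝ) := Nat.cast_nonneg _
  have hexp : e + 1 = (e - π.natDegree + 1) + π.natDegree := by omega
  rw [hcard, Nat.cast_pow] at hG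
  rw [hsum, norm_mul, norm_pow, Complex.norm_natCast]
  calc ((Fintype.card K : ℝ) ^ (e - π.natDegree + 1) * ‖∑ y : AdjoinRoot π, χ (y ^ k)‖) ^ k *
        (Fintype.card K : ℝ) ^ π.natDegree
      = ((Fintype.card K : ℝ) ^ (e - π.natDegree + 1)) ^ k *
          (‖∑ y : AdjoinRoot π, χ (y ^ k)‖ ^ k * (Fintype.card K : ℝ) ^ π.natDegree) := by
        rw [mul_pow]; ring
    _ ≤ ((Fintype.card K : ℝ) ^ (e - π.natDegree + 1)) ^ k *
          ((2 * (k : ℝ)) ^ k * ((Fintype.card K : ℝ) ^ π.natDegree) ^ k) :=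
        mul_le_mul_of_nonneg_left hG (pow_nonneg (pow_nonneg hq0 _) _)
    _ = (2 * (k : ℝ)) ^ k * ((Fintype.card K : ℝ) ^ (e + 1)) ^ k := by
        rw [hexp, pow_add (Fintype.card K : ℝ), mul_pow]; ring

theorem prime_sum {ψ : AddChar K ℂ} (hψ : ψ ≠ 1) (k : ℕ) (hk : 2 ≤ k) (π : K[X]) (hπ : Irreducible π)
    (e : ℕ) (hde : π.natDegree ≤ e) (A : K[X] →ₗ[K] K) (hkill : Kill A (k * e) π π.natDegree)
    (hA : ∃ F : K[X], F.natDegree ≤ k * e ∧ A F ≠ 0) :
    ‖fS ψ k A (SS K e)‖ ^ k * (Fintype.card K : ℝ) ^ π.natDegree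
      ≤ (2 * (k : ℝ)) ^ k * ((Fintype.card K : ℝ) ^ (e + 1)) ^ k := by
  have h0 : π.leadingCoeff ≠ 0 := Polynomial.leadingCoeff_ne_zero.2 hπ.ne_zero
  have h0' : π.leadingCoeff⁻¹ ≠ 0 := inv_ne_zero h0
  have hm : (π * C π.leadingCoeff⁻¹).Monic := Polynomial.monic_mul_leadingCoeff_inv hπ.ne_zero
  have hd : (π * C π.leadingCoeff⁻¹).natDegree = π.natDegree := Polynomial.natDegree_mul_C h0'
  have hirr : Irreducible (π * C π.leadingCoeff⁻¹) := by
    rw [irreducible_mul_isUnit (Polynomial.isUnit_C.2 h0'.isUnit)]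
    exact hπ
  have hk' : Kill A (k * e) (π * C π.leadingCoeff⁻¹) (π * C π.leadingCoeff⁻¹).natDegree := by
    rw [hd]
    intro z hz
    rw [mul_assoc]
    apply hkill
    rw [Polynomial.natDegree_C_mul h0']
    exact hz
  have key := LrP_monic hψ k hk (π * C π.leadingCoeff⁻¹) hirr hm e (by rw [hd]; exact hde) A hk' hA
  rw [hd] at key
  exact key

end MP_570bef_ntF
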