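import Pool.Agent.Lib.MP_570bef_ntF.FoA

/-! JOB LsA.  Bilinear large sieve.

Cauchy–Schwarz in `H`: `‖∑_H b H ∑_G a G ψ(A(G H))‖² ≤ (∑_H ‖b H‖²) * ∑_{H ∈ SS K β} ‖∑_G a G ψ(A(G H))‖²`.
`∑_H ‖∑_G ..‖² = ∑_{G, G'} a G * conj (a G') * ∑_{H ∈ SS K β} ψ (A ((G - G') H))`, and by `orth_SS` (for the functional `mulF A (G - G')`) the inner sum is `q^(β+1)` if `G - G' ∈ NN K A α β`
(`G - G' ∈ SS K α`) and `0` otherwise.  So it is `≤ q^(β+1) * ∑_{G, G' : G - G' ∈ NN} ‖a G‖ ‖a G'‖ ≤ q^(β+1) * ∑_{G,G' : G-G' ∈ NN} (‖a G‖² + ‖a G'‖²)/2 ≤ q^(β+1) * (NN).card * ∑_G ‖a G‖²`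
(for fixed `G` the number of `G'` with `G - G' ∈ NN` is at most `NN.card`, and `NN` is stable under negation). -/

open Polynomial

namespace MP_570bef_ntF

variable {K : Type} [Field K] [Fintype K]

private theorem LsA_conj (ψ : AddChar K ℂ) (x y : K) :
    ψ x * (starRingEnd ℂ) (ψ y) = ψ (x - y) := by
  rw [AddChar.map_sub_eq_div, ← Complex.inv_eq_conj (norm_char ψ y), div_eq_mul_inv]

private theorem LsA_mem {α β : ℕ} {A : K[X] →ₗ[K] K} {G : K[X]} :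
    G ∈ NN K A α β ↔ G.natDegree ≤ α ∧ ∀ H : K[X], H.natDegree ≤ β → A (G * H) = 0 := by
  classical
  unfold NN
  rw [Finset.mem_filter, mem_SS]

open Classical in
private theorem LsA_count (α β : ℕ) (A : K[X] →ₗ[K] K) (x : K[X] → ℝ) :
    ∑ G ∈ SS K α, ∑ G' ∈ SS K α, (if G - G' ∈ NN K A α β then (1 : ℝ) else 0) * (x G * x G')
      ≤ ((NN K A α β).card : ℝ) * ∑ G ∈ SS K α, x G ^ 2 := by
  have hc1 : ∀ G ∈ SS K α, ∑ G' ∈ SS K α, (if G - G' ∈ NN K A α β then (1 : ℝ) else 0) ≤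
      ((NN K A α β).card : ℝ) := by
    intro G _
    rw [← Finset.sum_filter, Finset.sum_const, nsmul_eq_mul, mul_one]
    have : ((SS K α).filter fun G' => G - G' ∈ NN K A α β).card ≤ (NN K A α β).card := by
      apply Finset.card_le_card_of_injOn (fun G' => G - G')
      · intro G' hG'
        exact (Finset.mem_filter.1 (Finset.mem_coe.1 hG')).2
      · intro G1 _ G2 _ h
        exact sub_right_injective h
    exact_mod_cast this
  have hc2 : ∀ G' ∈ SS K α, ∑ G ∈ SS K α, (if G - G' ∈ NN K A α β then (1 : ℝ) else 0) ≤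
      ((NN K A α β).card : ℝ) := by
    intro G' _
    rw [← Finset.sum_filter, Finset.sum_const, nsmul_eq_mul, mul_one]
    have : ((SS K α).filter fun G => G - G' ∈ NN K A α β).card ≤ (NN K A α β).card := by
      apply Finset.card_le_card_of_injOn (fun G => G - G')
      · intro G hG
        exact (Finset.mem_filter.1 (Finset.mem_coe.1 hG)).2
      · intro G1 _ G2 _ h
        exact sub_left_injective h
    exact_mod_cast this
  calc ∑ G ∈ SS K α, ∑ G' ∈ SS K α, (if G - G' ∈ NN K A α β then (1 : ℝ) else 0) * (x G * x G')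
      ≤ ∑ G ∈ SS K α, ∑ G' ∈ SS K α, ((if G - G' ∈ NN K A α β then (1 : ℝ) else 0) * (x G ^ 2 / 2)
          + (if G - G' ∈ NN K A α β then (1 : ℝ) else 0) * (x G' ^ 2 / 2)) := by
        refine Finset.sum_le_sum fun G _ => Finset.sum_le_sum fun G' _ => ?_
        rw [← mul_add]
        refine mul_le_mul_of_nonneg_left ?_ (by split_ifs <;> norm_num)
        nlinarith [sq_nonneg (x G - x G')]
    _ = ∑ G ∈ SS K α, (∑ G' ∈ SS K α, (if G - G' ∈ NN K A α β then (1 : ℝ) else 0)) * (x G ^ 2 / 2)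
        + ∑ G' ∈ SS K α, (∑ G ∈ SS K α, (if G - G' ∈ NN K A α β then (1 : ℝ) else 0)) *
          (x G' ^ 2 / 2) := by
        simp only [Finset.sum_add_distrib, Finset.sum_mul]
        congr 1
        exact Finset.sum_comm
    _ ≤ ∑ G ∈ SS K α, ((NN K A α β).card : ℝ) * (x G ^ 2 / 2)
        + ∑ G' ∈ SS K α, ((NN K A α β).card : ℝ) * (x G' ^ 2 / 2) := by
        refine add_le_add ?_ ?_
        · exact Finset.sum_le_sum fun G hG => mul_le_mul_of_nonneg_right (hc1 G hG) (by positivity)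
        · exact Finset.sum_le_sum fun G hG => mul_le_mul_of_nonneg_right (hc2 G hG) (by positivity)
    _ = ((NN K A α β).card : ℝ) * ∑ G ∈ SS K α, x G ^ 2 := by
        rw [← Finset.sum_add_distrib, Finset.mul_sum]
        refine Finset.sum_congr rfl fun G _ => ?_
        ring

theorem large_sieve {ψ : AddChar K ℂ} (hψ : ψ ≠ 1) (α β : ℕ) (A : K[X] →ₗ[K] K) (a b : K[X] → ℂ) :
    ‖∑ G ∈ SS K α, ∑ H ∈ SS K β, a G * b H * ψ (A (G * H))‖ ^ 2
      ≤ (∑ G ∈ SS K α, ‖a G‖ ^ 2) * (∑ H ∈ SS K β, ‖b H‖ ^ 2)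
          * ((Fintype.card K : ℝ) ^ (β + 1) * ((NN K A α β).card : ℝ)) := by
  classical
  have hcs : ‖∑ G ∈ SS K α, ∑ H ∈ SS K β, a G * b H * ψ (A (G * H))‖ ^ 2 ≤
      (∑ H ∈ SS K β, ‖b H‖ ^ 2) * ∑ H ∈ SS K β, ‖∑ G ∈ SS K α, a G * ψ (A (G * H))‖ ^ 2 := by
    have h1 : ∑ G ∈ SS K α, ∑ H ∈ SS K β, a G * b H * ψ (A (G * H)) =
        ∑ H ∈ SS K β, b H * ∑ G ∈ SS K α, a G * ψ (A (G * H)) := by
      rw [Finset.sum_comm]
      refine Finset.sum_congr rfl fun H _ => ?_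
      rw [Finset.mul_sum]
      refine Finset.sum_congr rfl fun G _ => ?_
      ring
    rw [h1]
    have h2 : ‖∑ H ∈ SS K β, b H * ∑ G ∈ SS K α, a G * ψ (A (G * H))‖ ≤
        ∑ H ∈ SS K β, ‖b H‖ * ‖∑ G ∈ SS K α, a G * ψ (A (G * H))‖ := by
      refine (norm_sum_le _ _).trans (le_of_eq ?_)
      exact Finset.sum_congr rfl fun H _ => norm_mul _ _
    calc _ ≤ (∑ H ∈ SS K β, ‖b H‖ * ‖∑ G ∈ SS K α, a G * ψ (A (G * H))‖) ^ 2 :=
          pow_le_pow_left₀ (norm_nonneg _) h2 2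
      _ ≤ _ := Finset.sum_mul_sq_le_sq_mul_sq _ _ _
  have hsum : ∑ H ∈ SS K β, ‖∑ G ∈ SS K α, a G * ψ (A (G * H))‖ ^ 2 ≤
      (Fintype.card K : ℝ) ^ (β + 1) *
        (((NN K A α β).card : ℝ) * ∑ G ∈ SS K α, ‖a G‖ ^ 2) := by
    have h1 : ((∑ H ∈ SS K β, ‖∑ G ∈ SS K α, a G * ψ (A (G * H))‖ ^ 2 : ℝ) : ℂ) =
        ∑ G ∈ SS K α, ∑ G' ∈ SS K α, a G * (starRingEnd ℂ) (a G') *
          (if G - G' ∈ NN K A α β then (Fintype.card K : ℂ) ^ (β + 1) else 0) := by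
      have h2 : ∀ H : K[X], ((‖∑ G ∈ SS K α, a G * ψ (A (G * H))‖ ^ 2 : ℝ) : ℂ) =
          ∑ G ∈ SS K α, ∑ G' ∈ SS K α, a G * (starRingEnd ℂ) (a G') * ψ (A ((G - G') * H)) := by
        intro H
        rw [Complex.ofReal_pow, ← Complex.mul_conj', map_sum, Finset.sum_mul_sum]
        refine Finset.sum_congr rfl fun G _ => Finset.sum_congr rfl fun G' _ => ?_
        rw [map_mul (starRingEnd ℂ), sub_mul, map_sub A, ← LsA_conj]
        ring
      rw [Complex.ofReal_sum, Finset.sum_congr rfl fun H _ => h2 H, Finset.sum_comm]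
      refine Finset.sum_congr rfl fun G hG => ?_
      rw [Finset.sum_comm]
      refine Finset.sum_congr rfl fun G' hG' => ?_
      rw [← Finset.mul_sum]
      congr 1
      have h4 : (G - G').natDegree ≤ α := mem_SS.1 (sub_mem_SS hG hG')
      have h := orth_SS hψ β (mulF A (G - G'))
      by_cases h5 : ∀ z : K[X], z.natDegree ≤ β → mulF A (G - G') z = 0
      · rw [if_pos h5] at h
        rw [if_pos (LsA_mem.2 ⟨h4, h5⟩)]
        exact h
      · rw [if_neg h5] at h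
        rw [if_neg (fun h6 => h5 (LsA_mem.1 h6).2)]
        exact h
    have h2 : ∑ H ∈ SS K β, ‖∑ G ∈ SS K α, a G * ψ (A (G * H))‖ ^ 2 =
        ‖((∑ H ∈ SS K β, ‖∑ G ∈ SS K α, a G * ψ (A (G * H))‖ ^ 2 : ℝ) : ℂ)‖ := by
      rw [Complex.norm_of_nonneg (Finset.sum_nonneg fun H _ => sq_nonneg _)]
    rw [h2, h1]
    calc ‖∑ G ∈ SS K α, ∑ G' ∈ SS K α, a G * (starRingEnd ℂ) (a G') *
          (if G - G' ∈ NN K A α β then (Fintype.card K : ℂ) ^ (β + 1) else 0)‖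
        ≤ ∑ G ∈ SS K α, ∑ G' ∈ SS K α, ‖a G * (starRingEnd ℂ) (a G') *
          (if G - G' ∈ NN K A α β then (Fintype.card K : ℂ) ^ (β + 1) else 0)‖ :=
          (norm_sum_le _ _).trans (Finset.sum_le_sum fun G _ => norm_sum_le _ _)
      _ = (Fintype.card K : ℝ) ^ (β + 1) * ∑ G ∈ SS K α, ∑ G' ∈ SS K α,
          (if G - G' ∈ NN K A α β then (1 : ℝ) else 0) * (‖a G‖ * ‖a G'‖) := by
          rw [Finset.mul_sum]
          refine Finset.sum_congr rfl fun G _ => ?_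
          rw [Finset.mul_sum]
          refine Finset.sum_congr rfl fun G' _ => ?_
          rw [norm_mul, norm_mul, RCLike.norm_conj]
          by_cases h5 : G - G' ∈ NN K A α β
          · rw [if_pos h5, if_pos h5, norm_pow, Complex.norm_natCast]
            ring
          · rw [if_neg h5, if_neg h5, norm_zero]
            ring
      _ ≤ _ := mul_le_mul_of_nonneg_left (LsA_count α β A (fun G => ‖a G‖)) (by positivity)
  calc _ ≤ (∑ H ∈ SS K β, ‖b H‖ ^ 2) * ∑ H ∈ SS K β, ‖∑ G ∈ SS K α, a G * ψ (A (G * H))‖ ^ 2 := hcs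
    _ ≤ (∑ H ∈ SS K β, ‖b H‖ ^ 2) * ((Fintype.card K : ℝ) ^ (β + 1) *
        (((NN K A α β).card : ℝ) * ∑ G ∈ SS K α, ‖a G‖ ^ 2)) :=
        mul_le_mul_of_nonneg_left hsum (Finset.sum_nonneg fun H _ => sq_nonneg _)
    _ = _ := by ring

end MP_570bef_ntF
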