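import Pool.Agent.Lib.MP_570bef_ntF.MvS
import Pool.Agent.Lib.MP_570bef_ntF.Rc
import Pool.Agent.Lib.MP_570bef_ntF.Rk

/-! JOB MvA.  Fibre bound.  `R := k n + 1`, `M := t (n+1)`, `q = card K`.

Take `f` from `mv_system k n t (∑ x_i^k)`.  For a tuple `y : Fin t → K[X]` of polynomials of degree `≤ n` let `y' (i, j) := (y i).coeff j` (so `toP (fun j => y' (i, j)) = y i`, `toP_coeff`).
(1) `vecMul c (jac f y') (i, j) = ∑ r, c r * (k * (y_i^(k-1) X^j).coeff r) = k * lin c (y_i^(k-1) * X^j)` (`lin_apply`), so, `k ≠ 0` in `K`, `vecMul c (jac f y') = 0` iff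
`lin c (y_i^(k-1) * h) = 0` for all `i` and all `h` of degree `≤ n` (`functional_ext` applied to `mulF (lin c) (y_i^(k-1))` and `0`).  Hence `card_left_ker`:
`Wt k n y * q^(rank (jac f y')) = q^R`.
(2) The matrix `jac f y'` does not depend on `F`; so also (with the same `f`) `Wt k n x * q^(r_x) = q^R`, `r_x := rank (jac f x')`.  In particular `r_x ≤ R`.
(3) If `Wt y ≤ Wt x` then `r_x ≤ rank (jac f y')` (from (1), (2), `q ≥ 2`, `Wt > 0`).
(4) The map `y ↦ y'` is injective on tuples of degree `≤ n`, and `∑ y_i^k = ∑ x_i^k` implies `eval y' (f r) = 0` for all `r`.  So the number of `y` in the filter is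
`≤ cnt (fun v => (∀ r, eval v (f r) = 0) ∧ r_x ≤ (jac f v).rank)`, and `rank_count` (with `D = k`): that number times `q^(r_x)` is `≤ 2^(R+M) (k+1)^(r_x) q^M`.
(5) Multiply by `Wt x`: `q^R * # = Wt x * q^(r_x) * # ≤ 2^(R+M) (k+1)^R q^M * Wt x`. -/

open Polynomial

namespace MP_570bef_ntF

variable {K : Type} [Field K] [Fintype K]

private noncomputable def MvA_vec {n t : ℕ} (y : Fin t → K[X]) : Fin t × Fin (n + 1) → K :=
  fun p => (y p.1).coeff (p.2 : ℕ)

omit [Fintype K] in
private theorem MvA_toP {n t : ℕ} {y : Fin t → K[X]} {i : Fin t} (hy : (y i).natDegree ≤ n) :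
    toP (fun j : Fin (n + 1) => MvA_vec (n := n) y (i, j)) = y i := by
  have h : (fun j : Fin (n + 1) => MvA_vec (n := n) y (i, j)) =
      fun j : Fin (n + 1) => (y i).coeff (j : ℕ) := by
    funext j
    rfl
  rw [h]
  exact toP_coeff hy

private theorem MvA_card (k n t : ℕ) (hk : (k : K) ≠ 0) (F : K[X])
    (f : Fin (k * n + 1) → MvPolynomial (Fin t × Fin (n + 1)) K)
    (hpd : ∀ (y : Fin t × Fin (n + 1) → K) (r : Fin (k * n + 1)) (i : Fin t) (j : Fin (n + 1)),
        MvPolynomial.eval y (MvPolynomial.pderiv (i, j) (f r)) =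
          (k : K) * (toP (fun j => y (i, j)) ^ (k - 1) * X ^ (j : ℕ)).coeff (r : ℕ))
    {y : Fin t → K[X]} (hy : ∀ i, (y i).natDegree ≤ n) :
    Wt k n y * Fintype.card K ^ (jac f (MvA_vec y)).rank = Fintype.card K ^ (k * n + 1) := by
  classical
  have h := card_left_ker (jac f (MvA_vec y))
  rw [Fintype.card_fin] at h
  rw [← h]
  congr 1
  unfold Wt
  congr 1
  funext c
  have key : ∀ (i : Fin t) (j : Fin (n + 1)), Matrix.vecMul c (jac f (MvA_vec y)) (i, j) =
      (k : K) * lin c (y i ^ (k - 1) * X ^ (j : ℕ)) := by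
    intro i j
    rw [lin_apply, Finset.mul_sum]
    simp only [Matrix.vecMul, dotProduct, jac_apply]
    refine Finset.sum_congr rfl fun r _ => ?_
    rw [hpd, MvA_toP (hy i)]
    ring
  apply propext
  constructor
  · intro h1
    funext p
    obtain ⟨i, j⟩ := p
    rw [key, h1 i _ (by rw [Polynomial.natDegree_X_pow]; have := j.2; omega), mul_zero]
    rfl
  · intro h1 i z hz
    have h2 : ∀ j ≤ n, mulF (lin c) (y i ^ (k - 1)) (X ^ j) = (0 : K[X] →ₗ[K] K) (X ^ j) := by
      intro j hj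
      have h3 := key i ⟨j, by omega⟩
      rw [h1] at h3
      have h4 : (k : K) * lin c (y i ^ (k - 1) * X ^ j) = 0 := h3.symm
      rcases mul_eq_zero.mp h4 with h5 | h5
      · exact absurd h5 hk
      · rw [mulF_apply, h5, LinearMap.zero_apply]
    have h3 := functional_ext h2 hz
    rw [mulF_apply, LinearMap.zero_apply] at h3
    exact h3

open Classical in
theorem mv_fibre (k n t : ℕ) (hk : (k : K) ≠ 0) (Y : Finset K[X]) (hY : ∀ y ∈ Y, y.natDegree ≤ n)
    (x : Fin t → K[X]) (hx : ∀ i, (x i).natDegree ≤ n) :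
    Fintype.card K ^ (k * n + 1) *
      ((Fintype.piFinset (fun _ : Fin t => Y)).filter
        (fun y => ∑ i, y i ^ k = ∑ i, x i ^ k ∧ Wt k n y ≤ Wt k n x)).card
      ≤ 2 ^ ((k * n + 1) + t * (n + 1)) * (k + 1) ^ (k * n + 1) * Fintype.card K ^ (t * (n + 1))
          * Wt k n x := by
  obtain ⟨f, hdeg, hev, hpd⟩ := mv_system (K := K) k n t (∑ i, x i ^ k)
  have hq : 2 ≤ Fintype.card K := two_le_q
  have hcx := MvA_card k n t hk (∑ i, x i ^ k) f hpd hx
  set rx := (jac f (MvA_vec x)).rank with hrx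
  have hWx : 0 < Wt k n x := by
    rcases Nat.eq_zero_or_pos (Wt k n x) with h | h
    · rw [h, zero_mul] at hcx
      have : 0 < Fintype.card K ^ (k * n + 1) := by positivity
      omega
    · exact h
  have hrxR : rx ≤ k * n + 1 := by
    have h1 : Fintype.card K ^ rx ≤ Fintype.card K ^ (k * n + 1) := by
      rw [← hcx]
      exact Nat.le_mul_of_pos_left _ hWx
    exact (Nat.pow_le_pow_iff_right (by omega)).mp h1
  have hcard : ((Fintype.piFinset (fun _ : Fin t => Y)).filter
        (fun y => ∑ i, y i ^ k = ∑ i, x i ^ k ∧ Wt k n y ≤ Wt k n x)).card ≤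
      cnt (fun v : Fin t × Fin (n + 1) → K =>
        (∀ r, MvPolynomial.eval v (f r) = 0) ∧ rx ≤ (jac f v).rank) := by
    rw [cnt_eq]
    apply Finset.card_le_card_of_injOn (MvA_vec (n := n))
    · intro y hy
      rw [Finset.mem_coe, Finset.mem_filter, Fintype.mem_piFinset] at hy
      obtain ⟨hyY, hs, hW⟩ := hy
      have hyd : ∀ i, (y i).natDegree ≤ n := fun i => hY _ (hyY i)
      rw [Finset.mem_coe, Finset.mem_filter]
      refine ⟨Finset.mem_univ _, fun r => ?_, ?_⟩
      · rw [hev]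
        have h1 : ∑ i, toP (fun j => MvA_vec (n := n) y (i, j)) ^ k = ∑ i, y i ^ k :=
          Finset.sum_congr rfl fun i _ => by rw [MvA_toP (hyd i)]
        rw [h1, hs, sub_self, Polynomial.coeff_zero]
      · have hcy := MvA_card k n t hk (∑ i, x i ^ k) f hpd hyd
        have h2 : Wt k n x * Fintype.card K ^ rx ≤
            Wt k n x * Fintype.card K ^ (jac f (MvA_vec y)).rank := by
          rw [hcx, ← hcy]
          exact Nat.mul_le_mul_right _ hW
        have h3 := Nat.le_of_mul_le_mul_left h2 hWx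
        exact (Nat.pow_le_pow_iff_right (by omega)).mp h3
    · intro y hy y' hy' heq
      rw [Finset.mem_coe, Finset.mem_filter, Fintype.mem_piFinset] at hy hy'
      funext i
      rw [← MvA_toP (hY _ (hy.1 i)), ← MvA_toP (hY _ (hy'.1 i)), heq]
  have hrc := rank_count k f hdeg rx
  rw [Fintype.card_fin, Fintype.card_prod, Fintype.card_fin, Fintype.card_fin] at hrc
  calc Fintype.card K ^ (k * n + 1) *
      ((Fintype.piFinset (fun _ : Fin t => Y)).filter
        (fun y => ∑ i, y i ^ k = ∑ i, x i ^ k ∧ Wt k n y ≤ Wt k n x)).card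
      ≤ Fintype.card K ^ (k * n + 1) * cnt (fun v : Fin t × Fin (n + 1) → K =>
        (∀ r, MvPolynomial.eval v (f r) = 0) ∧ rx ≤ (jac f v).rank) :=
        Nat.mul_le_mul_left _ hcard
    _ = Wt k n x * (cnt (fun v : Fin t × Fin (n + 1) → K =>
        (∀ r, MvPolynomial.eval v (f r) = 0) ∧ rx ≤ (jac f v).rank) * Fintype.card K ^ rx) := by
        rw [← hcx]; ring
    _ ≤ Wt k n x * (2 ^ (k * n + 1 + t * (n + 1)) * (k + 1) ^ rx *
        Fintype.card K ^ (t * (n + 1))) := Nat.mul_le_mul_left _ hrc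
    _ ≤ Wt k n x * (2 ^ (k * n + 1 + t * (n + 1)) * (k + 1) ^ (k * n + 1) *
        Fintype.card K ^ (t * (n + 1))) := by
        refine Nat.mul_le_mul_left _ (Nat.mul_le_mul_right _ (Nat.mul_le_mul_left _ ?_))
        exact Nat.pow_le_pow_right (by omega) hrxR
    _ = 2 ^ ((k * n + 1) + t * (n + 1)) * (k + 1) ^ (k * n + 1) * Fintype.card K ^ (t * (n + 1))
          * Wt k n x := by ring

end MP_570bef_ntF
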