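import Pool.Agent.Lib.MP_570bef_ntF.Pu

/-! JOB MvS.  The polynomial system `∑ y_i^k = F`.

`P := ∑ i, (∑ j : Fin (n+1), X (i, j) * C ((X : K[X]) ^ (j : ℕ))) ^ k - C F : MvPolynomial (Fin t × Fin (n+1)) K[X]`, `f r := push (Polynomial.lcoeff K r) P`.
`totalDegree_push` and `totalDegree P ≤ k` (`totalDegree_sub`, `totalDegree_finset_sum`, `totalDegree_pow`, `totalDegree_mul`, `totalDegree_X`, `totalDegree_C`).
`eval_push`: `eval (C ∘ y) P = ∑ i, (∑ j, C (y (i,j)) * X^j)^k - F` and the inner sum is `toP (fun j => y (i, j))` by definition.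
`pderiv_push` + `eval_push`: `pderiv (i, j) P = k * (∑ j', X (i,j') * C (X^j'))^(k-1) * C (X^j)` (`Derivation.leibniz_pow`, `pderiv_X`; only the `i`-th summand contributes, and in it only `j' = j`);
evaluate at `C ∘ y`: `(k : K[X]) * toP(..)^(k-1) * X^j`, whose `r`-th coefficient is `(k : K) * (toP(..)^(k-1) * X^j).coeff r`. -/

open Polynomial

namespace MP_570bef_ntF

variable {K : Type} [Field K]

private noncomputable def MvS_g (n t : ℕ) (i : Fin t) : MvPolynomial (Fin t × Fin (n + 1)) K[X] :=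
  ∑ j : Fin (n + 1), MvPolynomial.X (i, j) * MvPolynomial.C ((X : K[X]) ^ (j : ℕ))

private noncomputable def MvS_P (k n t : ℕ) (F : K[X]) :
    MvPolynomial (Fin t × Fin (n + 1)) K[X] :=
  (∑ i : Fin t, MvS_g n t i ^ k) - MvPolynomial.C F

private theorem MvS_deg_g (n t : ℕ) (i : Fin t) :
    (MvS_g n t i : MvPolynomial (Fin t × Fin (n + 1)) K[X]).totalDegree ≤ 1 := by
  unfold MvS_g
  refine MvPolynomial.totalDegree_finsetSum_le fun j _ => ?_
  refine (MvPolynomial.totalDegree_mul _ _).trans ?_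
  rw [MvPolynomial.totalDegree_X, MvPolynomial.totalDegree_C]

private theorem MvS_deg (k n t : ℕ) (F : K[X]) : (MvS_P k n t F).totalDegree ≤ k := by
  unfold MvS_P
  refine (MvPolynomial.totalDegree_sub _ _).trans (max_le ?_ ?_)
  · refine MvPolynomial.totalDegree_finsetSum_le fun i _ => ?_
    refine (MvPolynomial.totalDegree_pow _ _).trans ?_
    calc k * (MvS_g n t i : MvPolynomial (Fin t × Fin (n + 1)) K[X]).totalDegree ≤ k * 1 :=
          Nat.mul_le_mul_left k (MvS_deg_g n t i)
      _ = k := mul_one k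
  · rw [MvPolynomial.totalDegree_C]
    exact Nat.zero_le k

private theorem MvS_eval_g (n t : ℕ) (i : Fin t) (y : Fin t × Fin (n + 1) → K) :
    MvPolynomial.eval (fun z => (C (y z) : K[X])) (MvS_g n t i) = toP (fun j => y (i, j)) := by
  unfold MvS_g toP
  rw [map_sum]
  refine Finset.sum_congr rfl fun j _ => ?_
  rw [map_mul, MvPolynomial.eval_X, MvPolynomial.eval_C]

private theorem MvS_eval (k n t : ℕ) (F : K[X]) (y : Fin t × Fin (n + 1) → K) :
    MvPolynomial.eval (fun z => (C (y z) : K[X])) (MvS_P k n t F) =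
      (∑ i, toP (fun j => y (i, j)) ^ k) - F := by
  unfold MvS_P
  rw [map_sub, map_sum, MvPolynomial.eval_C]
  congr 1
  refine Finset.sum_congr rfl fun i _ => ?_
  rw [map_pow, MvS_eval_g]

private theorem MvS_pd_g (n t : ℕ) (i i' : Fin t) (j : Fin (n + 1)) :
    MvPolynomial.pderiv (i, j) (MvS_g n t i' : MvPolynomial (Fin t × Fin (n + 1)) K[X]) =
      if i' = i then MvPolynomial.C ((X : K[X]) ^ (j : ℕ)) else 0 := by
  classical
  have h1 : ∀ j' : Fin (n + 1), MvPolynomial.pderiv (i, j)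
      ((MvPolynomial.X (i', j') : MvPolynomial (Fin t × Fin (n + 1)) K[X]) *
        MvPolynomial.C ((X : K[X]) ^ (j' : ℕ))) =
      if (i', j') = (i, j) then MvPolynomial.C ((X : K[X]) ^ (j : ℕ)) else 0 := by
    intro j'
    rw [Derivation.leibniz, MvPolynomial.pderiv_C, smul_zero, zero_add]
    by_cases h : (i', j') = (i, j)
    · rw [if_pos h]
      have h2 : i' = i := congrArg Prod.fst h
      have h3 : j' = j := congrArg Prod.snd h
      rw [h2, h3, MvPolynomial.pderiv_X_self, smul_eq_mul, mul_one]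
    · rw [if_neg h, MvPolynomial.pderiv_X_of_ne h, smul_zero]
  unfold MvS_g
  rw [map_sum]
  simp_rw [h1]
  by_cases h : i' = i
  · rw [if_pos h, Finset.sum_eq_single j]
    · rw [if_pos (by rw [h])]
    · intro b _ hb
      rw [if_neg]
      intro hc
      exact hb (congrArg Prod.snd hc)
    · intro hc
      exact absurd (Finset.mem_univ j) hc
  · rw [if_neg h]
    refine Finset.sum_eq_zero fun b _ => ?_
    rw [if_neg]
    intro hc
    exact h (congrArg Prod.fst hc)

private theorem MvS_pd (k n t : ℕ) (F : K[X]) (i : Fin t) (j : Fin (n + 1)) :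
    MvPolynomial.pderiv (i, j) (MvS_P k n t F) =
      (k : MvPolynomial (Fin t × Fin (n + 1)) K[X]) * (MvS_g n t i ^ (k - 1) *
        MvPolynomial.C ((X : K[X]) ^ (j : ℕ))) := by
  classical
  unfold MvS_P
  rw [map_sub, MvPolynomial.pderiv_C, sub_zero, map_sum, Finset.sum_eq_single i]
  · rw [Derivation.leibniz_pow, MvS_pd_g, if_pos rfl, smul_eq_mul, nsmul_eq_mul]
  · intro b _ hb
    rw [Derivation.leibniz_pow, MvS_pd_g, if_neg hb, smul_zero, smul_zero]
  · intro hc
    exact absurd (Finset.mem_univ i) hc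

theorem mv_system (k n t : ℕ) (F : K[X]) :
    ∃ f : Fin (k * n + 1) → MvPolynomial (Fin t × Fin (n + 1)) K,
      (∀ r, (f r).totalDegree ≤ k) ∧
      (∀ (y : Fin t × Fin (n + 1) → K) (r : Fin (k * n + 1)),
        MvPolynomial.eval y (f r) = ((∑ i, toP (fun j => y (i, j)) ^ k) - F).coeff (r : ℕ)) ∧
      (∀ (y : Fin t × Fin (n + 1) → K) (r : Fin (k * n + 1)) (i : Fin t) (j : Fin (n + 1)),
        MvPolynomial.eval y (MvPolynomial.pderiv (i, j) (f r)) =
          (k : K) * (toP (fun j => y (i, j)) ^ (k - 1) * X ^ (j : ℕ)).coeff (r : ℕ)) := by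
  refine ⟨fun r => push (Polynomial.lcoeff K (r : ℕ)) (MvS_P k n t F), fun r => ?_,
    fun y r => ?_, fun y r i j => ?_⟩
  · exact (totalDegree_push _ _).trans (MvS_deg k n t F)
  · rw [eval_push, MvS_eval, Polynomial.lcoeff_apply]
  · rw [pderiv_push, eval_push, MvS_pd, Polynomial.lcoeff_apply, map_mul, map_mul, map_pow,
      map_natCast, MvPolynomial.eval_C, MvS_eval_g, Polynomial.coeff_natCast_mul]

end MP_570bef_ntF
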