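import Pool.Agent.Lib.MP_570bef_ntF.Ty

/-! JOB Nw.  Newton iteration: a nonsingular zero `a` of `f` lifts to a power series solution of `f + ε g = 0`.

Let `R = PowerSeries K`, `F i := map (PowerSeries.C) (f i) + C X * map C (g i) : MvPolynomial σ R` (`X = PowerSeries.X`), so `eval s (F i) = aeval s (f i) + X * aeval s (g i)`
(`MvPolynomial.aeval_def`, `eval₂_eq_eval_map`, or the like).  `I_n := Ideal.span {X^n}`; `y ∈ I_n ↔ X^n ∣ y ↔ ∀ m < n, coeff m y = 0` (`PowerSeries.X_pow_dvd_iff`).
Let `J := Matrix.of fun i j => eval a (pderiv j (f i))` over `K`, `B := J⁻¹` (`J * B = 1` since `det ≠ 0`).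
Sequence: `s 0 i := C (a i)`, `s (n+1) i := s n i - ∑ j, C (B i j) * eval (s n) (F j)`.
Claim for all `n`: (1) `X^(n+1) ∣ eval (s n) (F i)` for all `i`; (2) `constantCoeff (s n i) = a i`.
`n = 0`: `eval (C ∘ a) (F i) = C (eval a (f i)) + X * .. = X * ..`.
Step: `h j := - ∑ l, C (B j l) * eval (s n) (F l) ∈ I_(n+1)`.  `taylor_one` with `I = I_(n+1)`, `I^2 ⊆ I_(2n+2) ⊆ I_(n+2)`:
`eval (s (n+1)) (F i) ≡ eval (s n) (F i) + ∑ j, eval (s n) (pderiv j (F i)) * h j  (mod I_(n+2))`.  Moreover `eval (s n) (pderiv j (F i)) ≡ C (J i j) (mod X)`: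
its constant coefficient is `eval a (pderiv j (f i))` (apply the ring hom `constantCoeff`; `constantCoeff (s n) = a`, `X ↦ 0`), so, `h j` being in `I_(n+1)`,
`∑ j, eval (s n) (pderiv j (F i)) * h j ≡ ∑ j, C (J i j) * h j = - ∑ l, C ((J*B) i l) * eval (s n) (F l) = - eval (s n) (F i)  (mod I_(n+2))`.  So (1) for `n+1`.  (2) is clear.
Also `X^(n+1) ∣ s (n+1) i - s n i`, so for `N ≥ m`: `coeff m (s N i) = coeff m (s m i)`.  Put `s∞ i := PowerSeries.mk (fun m => coeff m (s m i))`; then
`X^(n+1) ∣ s∞ i - s n i`, so by `taylor_zero` (`I = I_(n+1)`) `X^(n+1) ∣ eval s∞ (F i) - eval (s n) (F i)`, hence `X^(n+1) ∣ eval s∞ (F i)` for all `n`, so `eval s∞ (F i) = 0`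
(all coefficients vanish).  `constantCoeff (s∞ i) = coeff 0 (s 0 i) = a i`. -/

open Polynomial

namespace MP_570bef_ntF

private noncomputable def Nw_F {σ : Type} {K : Type} [Field K] (f g : MvPolynomial σ K) :
    MvPolynomial σ (PowerSeries K) :=
  MvPolynomial.map PowerSeries.C f +
    MvPolynomial.C PowerSeries.X * MvPolynomial.map PowerSeries.C g

private theorem Nw_eval_F {σ : Type} {K : Type} [Field K] (f g : MvPolynomial σ K)
    (s : σ → PowerSeries K) :
    MvPolynomial.eval s (Nw_F f g) = MvPolynomial.aeval s f + PowerSeries.X * MvPolynomial.aeval s g := by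
  unfold Nw_F
  rw [map_add, map_mul, MvPolynomial.eval_C, MvPolynomial.eval_map, MvPolynomial.eval_map,
    MvPolynomial.aeval_def, MvPolynomial.aeval_def]
  rfl

private theorem Nw_const_aeval {σ : Type} {K : Type} [Field K] (p : MvPolynomial σ K)
    (s : σ → PowerSeries K) :
    PowerSeries.constantCoeff (MvPolynomial.aeval s p) =
      MvPolynomial.eval (fun i => PowerSeries.constantCoeff (s i)) p := by
  rw [MvPolynomial.aeval_def, MvPolynomial.hom_eval₂]
  have h : (PowerSeries.constantCoeff (R := K)).comp (algebraMap K (PowerSeries K)) = RingHom.id K := by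
    ext x
    change PowerSeries.constantCoeff (PowerSeries.C x) = x
    simp
  rw [h]
  rfl

private theorem Nw_pderiv_F {σ : Type} {K : Type} [Field K] (f g : MvPolynomial σ K) (j : σ) :
    MvPolynomial.pderiv j (Nw_F f g) = Nw_F (MvPolynomial.pderiv j f) (MvPolynomial.pderiv j g) := by
  unfold Nw_F
  rw [map_add, MvPolynomial.pderiv_C_mul, MvPolynomial.pderiv_map, MvPolynomial.pderiv_map]

private theorem Nw_step {σ : Type} [Fintype σ] [DecidableEq σ] {K : Type} [Field K]
    (f g : σ → MvPolynomial σ K) (a : σ → K) (B : Matrix σ σ K)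
    (hB : (Matrix.of fun i j => MvPolynomial.eval a (MvPolynomial.pderiv j (f i))) * B = 1)
    (s : σ → PowerSeries K) (n : ℕ) (hs : ∀ i, PowerSeries.constantCoeff (s i) = a i)
    (hF : ∀ i, PowerSeries.X ^ (n + 1) ∣ MvPolynomial.eval s (Nw_F (f i) (g i)))
    (s' : σ → PowerSeries K)
    (hs' : s' = fun i => s i - ∑ l, PowerSeries.C (B i l) * MvPolynomial.eval s (Nw_F (f l) (g l))) :
    (∀ i, PowerSeries.X ^ (n + 1) ∣ s' i - s i) ∧
    (∀ i, PowerSeries.constantCoeff (s' i) = a i) ∧
    (∀ i, PowerSeries.X ^ (n + 2) ∣ MvPolynomial.eval s' (Nw_F (f i) (g i))) := by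
  classical
  set h : σ → PowerSeries K :=
    fun i => - ∑ l, PowerSeries.C (B i l) * MvPolynomial.eval s (Nw_F (f l) (g l)) with hh
  have hsum : s' = s + h := by
    rw [hs', hh]; funext i; simp [sub_eq_add_neg]
  have hd : ∀ i, PowerSeries.X ^ (n + 1) ∣ h i := by
    intro i
    rw [hh]
    refine (dvd_neg).2 (Finset.dvd_sum fun l _ => Dvd.dvd.mul_left (hF l) _)
  have h1 : ∀ i, PowerSeries.X ^ (n + 1) ∣ s' i - s i := by
    intro i
    rw [hsum]
    simpa using hd i
  have h2 : ∀ i, PowerSeries.constantCoeff (s' i) = a i := by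
    intro i
    have := h1 i
    rw [PowerSeries.X_pow_dvd_iff] at this
    have h0 := this 0 (Nat.succ_pos n)
    rw [PowerSeries.coeff_zero_eq_constantCoeff_apply, map_sub, hs i] at h0
    exact sub_eq_zero.1 h0
  refine ⟨h1, h2, ?_⟩
  intro i
  set I : Ideal (PowerSeries K) := Ideal.span {PowerSeries.X ^ (n + 1)} with hI
  have hmem : ∀ j, h j ∈ I := fun j => Ideal.mem_span_singleton.2 (hd j)
  have ht := taylor_one I (Nw_F (f i) (g i)) s h hmem
  rw [hI, Ideal.span_singleton_pow, Ideal.mem_span_singleton] at ht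
  have ht2 : (PowerSeries.X : PowerSeries K) ^ (n + 2) ∣ MvPolynomial.eval (s + h) (Nw_F (f i) (g i))
      - MvPolynomial.eval s (Nw_F (f i) (g i))
      - ∑ j, MvPolynomial.eval s (MvPolynomial.pderiv j (Nw_F (f i) (g i))) * h j := by
    refine dvd_trans ?_ ht
    rw [← pow_mul]
    exact pow_dvd_pow _ (by omega)
  -- replace the derivatives by the constants
  have ht3 : (PowerSeries.X : PowerSeries K) ^ (n + 2) ∣
      ∑ j, MvPolynomial.eval s (MvPolynomial.pderiv j (Nw_F (f i) (g i))) * h j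
      - ∑ j, PowerSeries.C (MvPolynomial.eval a (MvPolynomial.pderiv j (f i))) * h j := by
    rw [← Finset.sum_sub_distrib]
    refine Finset.dvd_sum fun j _ => ?_
    rw [← sub_mul, pow_succ' (PowerSeries.X : PowerSeries K) (n + 1)]
    refine mul_dvd_mul ?_ (hd j)
    rw [PowerSeries.X_dvd_iff, map_sub, Nw_pderiv_F, Nw_eval_F, map_add, map_mul,
      PowerSeries.constantCoeff_X, zero_mul, add_zero, Nw_const_aeval, PowerSeries.constantCoeff_C]
    have : (fun i => PowerSeries.constantCoeff (s i)) = a := funext hs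
    rw [this, sub_self]
  have ht4 : ∑ j, PowerSeries.C (MvPolynomial.eval a (MvPolynomial.pderiv j (f i))) * h j
      = - MvPolynomial.eval s (Nw_F (f i) (g i)) := by
    have e1 : ∀ j, PowerSeries.C (MvPolynomial.eval a (MvPolynomial.pderiv j (f i))) * h j
        = - ∑ l, PowerSeries.C (MvPolynomial.eval a (MvPolynomial.pderiv j (f i)) * B j l)
          * MvPolynomial.eval s (Nw_F (f l) (g l)) := by
      intro j
      rw [hh]
      simp only [mul_neg, Finset.mul_sum]
      congr 1
      refine Finset.sum_congr rfl fun l _ => ?_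
      rw [map_mul, mul_assoc]
    rw [Finset.sum_congr rfl (fun j _ => e1 j), Finset.sum_neg_distrib, Finset.sum_comm]
    congr 1
    have e2 : ∀ l, ∑ j, PowerSeries.C (MvPolynomial.eval a (MvPolynomial.pderiv j (f i)) * B j l)
          * MvPolynomial.eval s (Nw_F (f l) (g l))
        = (if i = l then 1 else 0) * MvPolynomial.eval s (Nw_F (f l) (g l)) := by
      intro l
      rw [← Finset.sum_mul, ← map_sum]
      have := congrFun (congrFun hB i) l
      rw [Matrix.mul_apply, Matrix.one_apply] at this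
      simp only [Matrix.of_apply] at this
      rw [this]
      split_ifs <;> simp
    rw [Finset.sum_congr rfl (fun l _ => e2 l)]
    simp
  have : MvPolynomial.eval s' (Nw_F (f i) (g i)) =
      (MvPolynomial.eval (s + h) (Nw_F (f i) (g i))
      - MvPolynomial.eval s (Nw_F (f i) (g i))
      - ∑ j, MvPolynomial.eval s (MvPolynomial.pderiv j (Nw_F (f i) (g i))) * h j)
      + (∑ j, MvPolynomial.eval s (MvPolynomial.pderiv j (Nw_F (f i) (g i))) * h j
      - ∑ j, PowerSeries.C (MvPolynomial.eval a (MvPolynomial.pderiv j (f i))) * h j) := by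
    rw [ht4, hsum]; ring
  rw [this]
  exact dvd_add ht2 ht3

theorem newton_lift {σ : Type} [Fintype σ] [DecidableEq σ] {K : Type} [Field K]
    (f g : σ → MvPolynomial σ K) (a : σ → K) (hf : ∀ i, MvPolynomial.eval a (f i) = 0)
    (hdet : (Matrix.of fun i j => MvPolynomial.eval a (MvPolynomial.pderiv j (f i))).det ≠ 0) :
    ∃ s : σ → PowerSeries K, (∀ i, PowerSeries.constantCoeff (s i) = a i) ∧
      ∀ i, MvPolynomial.aeval s (f i) + PowerSeries.X * MvPolynomial.aeval s (g i) = 0 := by
  classical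
  set J : Matrix σ σ K := Matrix.of fun i j => MvPolynomial.eval a (MvPolynomial.pderiv j (f i)) with hJ
  have hB : J * J⁻¹ = 1 := Matrix.mul_nonsing_inv J (isUnit_iff_ne_zero.2 hdet)
  set B := J⁻¹ with hBdef
  let st : (σ → PowerSeries K) → (σ → PowerSeries K) := fun s i =>
    s i - ∑ l, PowerSeries.C (B i l) * MvPolynomial.eval s (Nw_F (f l) (g l))
  let S : ℕ → σ → PowerSeries K := fun n => st^[n] (fun i => PowerSeries.C (a i))
  have hS0 : S 0 = fun i => PowerSeries.C (a i) := rfl
  have hSs : ∀ n, S (n + 1) = st (S n) := fun n => Function.iterate_succ_apply' st n _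
  have key : ∀ n, (∀ i, PowerSeries.constantCoeff (S n i) = a i) ∧
      (∀ i, PowerSeries.X ^ (n + 1) ∣ MvPolynomial.eval (S n) (Nw_F (f i) (g i))) := by
    intro n
    induction n with
    | zero =>
      refine ⟨fun i => by rw [hS0]; simp, fun i => ?_⟩
      rw [zero_add, pow_one, PowerSeries.X_dvd_iff, Nw_eval_F, map_add, map_mul,
        PowerSeries.constantCoeff_X, zero_mul, add_zero, Nw_const_aeval]
      have : (fun i => PowerSeries.constantCoeff (S 0 i)) = a := by
        funext i; rw [hS0]; simp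
      rw [this, hf i]
    | succ n ih =>
      have := Nw_step f g a B hB (S n) n ih.1 ih.2 (S (n + 1)) (hSs n)
      exact ⟨this.2.1, this.2.2⟩
  have hdiff : ∀ n i, PowerSeries.X ^ (n + 1) ∣ S (n + 1) i - S n i := fun n =>
    (Nw_step f g a B hB (S n) n (key n).1 (key n).2 (S (n + 1)) (hSs n)).1
  have hcoef : ∀ m N, m ≤ N → ∀ i, PowerSeries.coeff m (S N i) = PowerSeries.coeff m (S m i) := by
    intro m N hmN i
    induction N, hmN using Nat.le_induction with
    | base => rfl
    | succ N hN ih =>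
      have := hdiff N i
      rw [PowerSeries.X_pow_dvd_iff] at this
      have h0 := this m (Nat.lt_succ_of_le hN)
      rw [map_sub] at h0
      rw [sub_eq_zero.1 h0, ih]
  let T : σ → PowerSeries K := fun i => PowerSeries.mk fun m => PowerSeries.coeff m (S m i)
  have hT : ∀ n i, PowerSeries.X ^ (n + 1) ∣ T i - S n i := by
    intro n i
    rw [PowerSeries.X_pow_dvd_iff]
    intro m hm
    rw [map_sub, PowerSeries.coeff_mk, hcoef m n (Nat.lt_succ_iff.1 hm) i, sub_self]
  refine ⟨T, fun i => ?_, fun i => ?_⟩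
  · rw [← PowerSeries.coeff_zero_eq_constantCoeff_apply, PowerSeries.coeff_mk,
      PowerSeries.coeff_zero_eq_constantCoeff_apply]
    exact (key 0).1 i
  · rw [← Nw_eval_F]
    have hd : ∀ n, (PowerSeries.X : PowerSeries K) ^ (n + 1) ∣
        MvPolynomial.eval T (Nw_F (f i) (g i)) := by
      intro n
      have h1 : ∀ j, (T - S n) j ∈ Ideal.span {(PowerSeries.X : PowerSeries K) ^ (n + 1)} :=
        fun j => Ideal.mem_span_singleton.2 (hT n j)
      have h2 := taylor_zero (Ideal.span {(PowerSeries.X : PowerSeries K) ^ (n + 1)})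
        (Nw_F (f i) (g i)) (S n) (T - S n) h1
      rw [add_sub_cancel, Ideal.mem_span_singleton] at h2
      have h3 := dvd_add h2 ((key n).2 i)
      rwa [sub_add_cancel] at h3
    ext m
    have := hd m
    rw [PowerSeries.X_pow_dvd_iff] at this
    rw [this m (Nat.lt_succ_self m), map_zero]

end MP_570bef_ntF
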