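import Pool.Agent.Lib.MP_570bef_ntF.Bx
import Pool.Agent.Lib.MP_570bef_ntF.Nw

/-! JOB Ns.  Elementary Bezout for nonsingular zeros: at most `(D+1)^(number of variables)`.

Apply `newton_lift` with `g i := X i ^ (D+1)` to every `a ∈ V`: lifts `s_a : σ → PowerSeries K`, `constantCoeff (s_a i) = a i`,
`aeval s_a (f i) + X * (s_a i)^(D+1) = 0`.  Let `L := FractionRing (PowerSeries K)` (or `LaurentSeries K`), `ι := algebraMap (PowerSeries K) L` injective, `ε := ι X ≠ 0`.
`W := V.image (fun a => fun i => ι (s_a i))` (choose the lift with `Classical.choose`, e.g. on `V.attach`); `a ↦ s_a` is injective (constant coefficients), so `W.card = V.card`.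
`h i := C (-ε⁻¹) * map (ι ∘ C) (f i) : MvPolynomial σ L` (`algebraMap K L`), `totalDegree ≤ D` (`MvPolynomial.totalDegree_mul`, `totalDegree_map_le`, `totalDegree_C`).  For `x = ι ∘ s_a`:
`x i ^ (D+1) = -ε⁻¹ * ι (aeval s_a (f i)) = eval x (h i)`.  Now `card_le_box`. -/

open Polynomial

namespace MP_570bef_ntF

theorem card_nonsing_le {σ : Type} [Fintype σ] [DecidableEq σ] {K : Type} [Field K] (D : ℕ)
    (f : σ → MvPolynomial σ K) (hdeg : ∀ i, (f i).totalDegree ≤ D) (V : Finset (σ → K))
    (hV : ∀ a ∈ V, (∀ i, MvPolynomial.eval a (f i) = 0) ∧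
      (Matrix.of fun i j => MvPolynomial.eval a (MvPolynomial.pderiv j (f i))).det ≠ 0) :
    V.card ≤ (D + 1) ^ Fintype.card σ := by
  classical
  have H : ∀ a : V, ∃ s : σ → PowerSeries K, (∀ i, PowerSeries.constantCoeff (s i) = a.1 i) ∧
      ∀ i, MvPolynomial.aeval s (f i)
        + PowerSeries.X * MvPolynomial.aeval s ((MvPolynomial.X i ^ (D + 1) : MvPolynomial σ K)) = 0 :=
    fun a => newton_lift f (fun i => MvPolynomial.X i ^ (D + 1)) a.1 (hV a.1 a.2).1 (hV a.1 a.2).2
  choose s hs1 hs2 using H
  let L := FractionRing (PowerSeries K)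
  let ι : PowerSeries K →+* L := algebraMap (PowerSeries K) L
  have hι : Function.Injective ι := IsFractionRing.injective (PowerSeries K) L
  have hε : ι PowerSeries.X ≠ 0 := by
    rw [Ne, map_eq_zero_iff ι hι]
    exact PowerSeries.X_ne_zero
  let ψ : K →+* L := ι.comp (algebraMap K (PowerSeries K))
  let W : Finset (σ → L) := Finset.univ.image (fun a : V => fun i => ι (s a i))
  have hcard : W.card = V.card := by
    have h1 : Function.Injective (fun a : V => fun i => ι (s a i)) := by
      intro a b hab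
      apply Subtype.ext
      funext i
      have h2 : ι (s a i) = ι (s b i) := congrFun hab i
      rw [← hs1 a i, ← hs1 b i, hι h2]
    rw [Finset.card_image_of_injective _ h1, Finset.card_univ, Fintype.card_coe]
  rw [← hcard]
  refine card_le_box D W
    (fun i => MvPolynomial.C (-(ι PowerSeries.X)⁻¹) * MvPolynomial.map ψ (f i)) (fun i => ?_) ?_
  · refine (MvPolynomial.totalDegree_mul _ _).trans ?_
    rw [MvPolynomial.totalDegree_C, zero_add]
    refine le_trans ?_ (hdeg i)
    unfold MvPolynomial.totalDegree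
    exact Finset.sup_mono (MvPolynomial.support_map_subset ψ (f i))
  · intro x hx i
    obtain ⟨a, _, rfl⟩ := Finset.mem_image.1 hx
    simp only
    rw [map_mul, MvPolynomial.eval_C, MvPolynomial.eval_map]
    have h1 : MvPolynomial.eval₂ ψ (fun i => ι (s a i)) (f i) = ι (MvPolynomial.aeval (s a) (f i)) := by
      rw [MvPolynomial.aeval_def, MvPolynomial.eval₂_comp_left]
      rfl
    have h2 := hs2 a i
    rw [map_pow, MvPolynomial.aeval_X] at h2
    have h3 : MvPolynomial.aeval (s a) (f i) = -(PowerSeries.X * s a i ^ (D + 1)) :=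
      eq_neg_of_add_eq_zero_left h2
    rw [h1, h3, map_neg, map_mul, map_pow]
    generalize (ι (s a i)) ^ (D + 1) = u
    generalize ι PowerSeries.X = v at hε
    rw [neg_mul_neg, inv_mul_cancel_left₀ hε]

end MP_570bef_ntF
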