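import Pool.Agent.Lib.MP_570bef_ntF.Base

/-! JOB Pu.  Applying a linear functional to the coefficients of a multivariate polynomial over `K[X]`.

`coeff_push`: `coeff m (push A p) = A (coeff m p)` (`MvPolynomial.coeff_sum`, `coeff_monomial`; if `m ∉ support` then `coeff m p = 0` and `A 0 = 0`).
`push_add`, `push_sum`: by `MvPolynomial.ext` and `coeff_push`.
`totalDegree_push`: the support of `push A p` is contained in the support of `p` (`MvPolynomial.totalDegree_le_of_support_subset` or `totalDegree_finset_sum`/`totalDegree_monomial_le`).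
`eval_push`: `eval x (push A p) = ∑_{m ∈ supp} A (coeff m p) * ∏ x_i^{m_i}` and `eval (C ∘ x) p = ∑_{m} coeff m p * ∏ (C (x_i))^{m_i} = ∑_m (∏ x_i^{m_i}) • coeff m p`; apply `A` (`MvPolynomial.eval_eq`).
`pderiv_push`: both sides are additive in `p`; check on `monomial m a` (`push A (monomial m a) = monomial m (A a)`, `MvPolynomial.pderiv_monomial`:
`monomial (m - single j 1) (a * m j)`, and `A (a * (m j : K[X])) = A a * (m j : K)` because `(m j : K[X]) = C (m j)`, `A` is `K`-linear). -/

open Polynomial

namespace MP_570bef_ntF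

variable {K : Type} [Field K]

theorem coeff_push {σ : Type} (A : K[X] →ₗ[K] K) (p : MvPolynomial σ K[X]) (m : σ →₀ ℕ) :
    (push A p).coeff m = A (p.coeff m) := by
  classical
  unfold push
  rw [MvPolynomial.coeff_sum]
  simp only [MvPolynomial.coeff_monomial]
  rw [Finset.sum_ite_eq']
  split_ifs with h
  · rfl
  · rw [MvPolynomial.notMem_support_iff.1 h, map_zero]

private theorem Pu_add {σ : Type} (A : K[X] →ₗ[K] K) (p q : MvPolynomial σ K[X]) :
    push A (p + q) = push A p + push A q := by
  apply MvPolynomial.ext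
  intro m
  rw [MvPolynomial.coeff_add, coeff_push, coeff_push, coeff_push, MvPolynomial.coeff_add, map_add]

private theorem Pu_monomial {σ : Type} (A : K[X] →ₗ[K] K) (m : σ →₀ ℕ) (a : K[X]) :
    push A (MvPolynomial.monomial m a) = MvPolynomial.monomial m (A a) := by
  classical
  apply MvPolynomial.ext
  intro m'
  rw [coeff_push, MvPolynomial.coeff_monomial, MvPolynomial.coeff_monomial]
  split_ifs
  · rfl
  · exact map_zero A

private theorem Pu_C_mul (A : K[X] →ₗ[K] K) (a : K) (F : K[X]) : A (F * C a) = A F * a := by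
  rw [mul_comm F, ← Polynomial.smul_eq_C_mul, map_smul, smul_eq_mul, mul_comm]

theorem totalDegree_push {σ : Type} (A : K[X] →ₗ[K] K) (p : MvPolynomial σ K[X]) :
    (push A p).totalDegree ≤ p.totalDegree := by
  apply Finset.sup_mono
  intro m hm
  rw [MvPolynomial.mem_support_iff] at hm ⊢
  intro h
  apply hm
  rw [coeff_push, h, map_zero]

theorem eval_push {σ : Type} (A : K[X] →ₗ[K] K) (p : MvPolynomial σ K[X]) (x : σ → K) :
    MvPolynomial.eval x (push A p) = A (MvPolynomial.eval (fun i => (C (x i) : K[X])) p) := by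
  unfold push
  rw [map_sum, MvPolynomial.eval_eq, map_sum]
  apply Finset.sum_congr rfl
  intro m _
  rw [MvPolynomial.eval_monomial]
  have h : ∏ i ∈ m.support, (C (x i) : K[X]) ^ m i = C (∏ i ∈ m.support, x i ^ m i) := by
    rw [map_prod]
    simp only [map_pow]
  rw [h, Pu_C_mul]
  rfl

theorem pderiv_push {σ : Type} (A : K[X] →ₗ[K] K) (p : MvPolynomial σ K[X]) (j : σ) :
    MvPolynomial.pderiv j (push A p) = push A (MvPolynomial.pderiv j p) := by
  induction p using MvPolynomial.induction_on' with
  | monomial m a =>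
    rw [Pu_monomial, MvPolynomial.pderiv_monomial, MvPolynomial.pderiv_monomial, Pu_monomial]
    congr 1
    rw [← Polynomial.C_eq_natCast, Pu_C_mul]
  | add p q hp hq =>
    rw [Pu_add, map_add, map_add, Pu_add, hp, hq]

end MP_570bef_ntF
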