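import Pool.Agent.Lib.MP_570bef_ntF.Ns

/-! JOB Sl.  Slicing: common zeros with a given nonzero minor.

Split the variables: a point `x : σ → K` is the same as the pair (restriction to `J`, restriction to the complement) (`Equiv.piEquivPiSubtypeProd (· ∈ J)` or by hand).  For fixed
`w : {i // i ∉ J} → K` consider the points `x` with these outside values.  Substitution: `φ_w : MvPolynomial σ K →ₐ[K] MvPolynomial J K`,
`φ_w := MvPolynomial.aeval (fun i => if h : i ∈ J then X ⟨i, h⟩ else C (w ⟨i, h⟩))`.  For `z : J → K` and `x` glued from `z, w`: `eval z (φ_w p) = eval x p`,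
`pderiv b (φ_w p) = φ_w (pderiv (b : σ) p)` for `b : J` (induction on `p`: `MvPolynomial.induction_on`, Leibniz), `(φ_w p).totalDegree ≤ p.totalDegree`
(each variable goes to a polynomial of degree `≤ 1`; e.g. write `p` as the sum of its monomials, `MvPolynomial.totalDegree_finset_sum`, `totalDegree_mul`, `totalDegree_pow`, or `MvPolynomial.aeval_sum..`).
The polynomials `f'_a := φ_w (f (e a))`, `a : J`, have at most `(D+1)^(J.card)` nonsingular zeros (`card_nonsing_le`).  Sum over the `q^(card σ - J.card)` values of `w`;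
multiply by `q^(J.card)` (`Fintype.card {i // i ∉ J} + J.card = card σ`). -/

open Polynomial

namespace MP_570bef_ntF

/-- glue -/
private def Sl_glue {σ : Type} [DecidableEq σ] {K : Type} (J : Finset σ) (z : {i // i ∈ J} → K)
    (w : {i // ¬ i ∈ J} → K) (i : σ) : K :=
  if h : i ∈ J then z ⟨i, h⟩ else w ⟨i, h⟩

/-- substituted variables -/
private noncomputable def Sl_sub {σ : Type} [DecidableEq σ] {K : Type} [Field K] (J : Finset σ)
    (w : {i // ¬ i ∈ J} → K) (i : σ) : MvPolynomial {i // i ∈ J} K :=
  if h : i ∈ J then MvPolynomial.X ⟨i, h⟩ else MvPolynomial.C (w ⟨i, h⟩)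

private theorem Sl_eval {σ : Type} [DecidableEq σ] {K : Type} [Field K] (J : Finset σ)
    (w : {i // ¬ i ∈ J} → K) (z : {i // i ∈ J} → K) (p : MvPolynomial σ K) :
    MvPolynomial.eval z (MvPolynomial.aeval (Sl_sub J w) p) = MvPolynomial.eval (Sl_glue J z w) p := by
  induction p using MvPolynomial.induction_on with
  | C a => rw [MvPolynomial.aeval_C, MvPolynomial.algebraMap_eq, MvPolynomial.eval_C, MvPolynomial.eval_C]
  | add p q hp hq => rw [map_add, map_add, map_add, hp, hq]
  | mul_X p i hp =>
    rw [map_mul, map_mul, map_mul, hp, MvPolynomial.aeval_X, MvPolynomial.eval_X]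
    congr 1
    unfold Sl_sub Sl_glue
    split_ifs with h
    · rw [MvPolynomial.eval_X]
    · rw [MvPolynomial.eval_C]

private theorem Sl_pd {σ : Type} [DecidableEq σ] {K : Type} [Field K] (J : Finset σ)
    (w : {i // ¬ i ∈ J} → K) (b : {i // i ∈ J}) (p : MvPolynomial σ K) :
    MvPolynomial.pderiv b (MvPolynomial.aeval (Sl_sub J w) p) =
      MvPolynomial.aeval (Sl_sub J w) (MvPolynomial.pderiv (b : σ) p) := by
  induction p using MvPolynomial.induction_on with
  | C a =>
    rw [MvPolynomial.aeval_C, MvPolynomial.algebraMap_eq, MvPolynomial.pderiv_C, MvPolynomial.pderiv_C,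
      map_zero]
  | add p q hp hq => rw [map_add, map_add, map_add, map_add, hp, hq]
  | mul_X p i hp =>
    rw [map_mul, MvPolynomial.pderiv_mul, MvPolynomial.pderiv_mul, map_add, map_mul, map_mul, hp,
      MvPolynomial.aeval_X]
    congr 2
    unfold Sl_sub
    by_cases h : i ∈ J
    · rw [dif_pos h]
      by_cases hb : i = b
      · subst hb
        rw [MvPolynomial.pderiv_X_self]
        rw [MvPolynomial.pderiv_X_self, map_one]
      · rw [MvPolynomial.pderiv_X_of_ne hb, MvPolynomial.pderiv_X_of_ne, map_zero]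
        intro h2
        exact hb (congrArg Subtype.val h2)
    · rw [dif_neg h, MvPolynomial.pderiv_C, MvPolynomial.pderiv_X_of_ne, map_zero]
      intro h2
      exact h (h2 ▸ b.2)

private theorem Sl_deg {σ : Type} [Fintype σ] [DecidableEq σ] {K : Type} [Field K] (J : Finset σ)
    (w : {i // ¬ i ∈ J} → K) (p : MvPolynomial σ K) :
    (MvPolynomial.aeval (Sl_sub J w) p).totalDegree ≤ p.totalDegree := by
  rw [MvPolynomial.aeval_def, MvPolynomial.eval₂_eq']
  apply MvPolynomial.totalDegree_finsetSum_le
  intro m hm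
  refine (MvPolynomial.totalDegree_mul _ _).trans ?_
  rw [MvPolynomial.algebraMap_eq, MvPolynomial.totalDegree_C, zero_add]
  refine (MvPolynomial.totalDegree_finsetProd _ _).trans ?_
  refine le_trans ?_ (MvPolynomial.le_totalDegree hm)
  rw [Finsupp.sum_fintype _ _ (fun _ => rfl)]
  apply Finset.sum_le_sum
  intro i _
  refine (MvPolynomial.totalDegree_pow _ _).trans ?_
  have h1 : (Sl_sub J w i).totalDegree ≤ 1 := by
    unfold Sl_sub
    split_ifs with h
    · rw [MvPolynomial.totalDegree_X]
    · rw [MvPolynomial.totalDegree_C]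
      exact zero_le_one
  calc m i * (Sl_sub J w i).totalDegree ≤ m i * 1 := Nat.mul_le_mul_left _ h1
    _ = m i := mul_one _

private theorem Sl_split {σ : Type} [Fintype σ] [DecidableEq σ] {K : Type} [Field K] [Fintype K]
    (J : Finset σ) (P : (σ → K) → Prop) :
    cnt P = ∑ w : {i // ¬ i ∈ J} → K, cnt (fun z : {i // i ∈ J} → K => P (Sl_glue J z w)) := by
  classical
  have h1 : ∀ w : {i // ¬ i ∈ J} → K, cnt (fun z : {i // i ∈ J} → K => P (Sl_glue J z w)) =
      ∑ z : {i // i ∈ J} → K, if P (Sl_glue J z w) then 1 else 0 := by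
    intro w
    rw [cnt_eq, Finset.card_filter]
  rw [cnt_eq, Finset.card_filter, Finset.sum_congr rfl (fun w _ => h1 w), ← Fintype.sum_prod_type_right']
  exact Fintype.sum_equiv (Equiv.piEquivPiSubtypeProd (fun i => i ∈ J) (fun _ => K)) _
    (fun zw : ({i // i ∈ J} → K) × ({i // ¬ i ∈ J} → K) => if P (Sl_glue J zw.1 zw.2) then 1 else 0)
    (fun x => by
      have : Sl_glue J ((Equiv.piEquivPiSubtypeProd (fun i => i ∈ J) (fun _ => K)) x).1
          ((Equiv.piEquivPiSubtypeProd (fun i => i ∈ J) (fun _ => K)) x).2 = x := by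
        funext i
        unfold Sl_glue
        split_ifs with h <;> rfl
      rw [this])

theorem card_slice {R σ : Type} [Fintype R] [Fintype σ] [DecidableEq R] [DecidableEq σ] {K : Type} [Field K]
    [Fintype K] (D : ℕ) (f : R → MvPolynomial σ K) (hdeg : ∀ i, (f i).totalDegree ≤ D)
    (I : Finset R) (J : Finset σ) (e : J ≃ I) :
    cnt (fun x : σ → K => (∀ i, MvPolynomial.eval x (f i) = 0) ∧
      (Matrix.of fun a b : J => jac f x (e a) b).det ≠ 0) * Fintype.card K ^ J.card
      ≤ (D + 1) ^ J.card * Fintype.card K ^ Fintype.card σ := by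
  classical
  rw [Sl_split J]
  have h1 : ∀ w : {i // ¬ i ∈ J} → K,
      cnt (fun z : {i // i ∈ J} → K => (∀ i, MvPolynomial.eval (Sl_glue J z w) (f i) = 0) ∧
      (Matrix.of fun a b : J => jac f (Sl_glue J z w) (e a) b).det ≠ 0) ≤ (D + 1) ^ J.card := by
    intro w
    rw [cnt_eq]
    have h2 := card_nonsing_le (σ := {i // i ∈ J}) D
      (fun a => MvPolynomial.aeval (Sl_sub J w) (f (e a))) (fun a => (Sl_deg J w _).trans (hdeg _))
      (Finset.univ.filter (fun z : {i // i ∈ J} → K =>
        (∀ i, MvPolynomial.eval (Sl_glue J z w) (f i) = 0) ∧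
        (Matrix.of fun a b : J => jac f (Sl_glue J z w) (e a) b).det ≠ 0)) (by
        intro z hz
        obtain ⟨h3, h4⟩ := (Finset.mem_filter.1 hz).2
        refine ⟨fun a => ?_, ?_⟩
        · rw [Sl_eval]
          exact h3 _
        · have h5 : (Matrix.of fun i j => MvPolynomial.eval z (MvPolynomial.pderiv j
              (MvPolynomial.aeval (Sl_sub J w) (f (e i))))) =
              (Matrix.of fun a b : J => jac f (Sl_glue J z w) (e a) b) := by
            ext a b
            rw [Matrix.of_apply, Matrix.of_apply, Sl_pd, Sl_eval, jac_apply]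
          rw [h5]
          exact h4)
    rwa [Fintype.card_coe] at h2
  have h6 : Fintype.card {i // ¬ i ∈ J} + J.card = Fintype.card σ := by
    rw [Fintype.card_subtype_compl, Fintype.card_coe]
    exact Nat.sub_add_cancel (Finset.card_le_univ J)
  calc _ ≤ (∑ _w : {i // ¬ i ∈ J} → K, (D + 1) ^ J.card) * Fintype.card K ^ J.card :=
        Nat.mul_le_mul_right _ (Finset.sum_le_sum (fun w _ => h1 w))
    _ = (D + 1) ^ J.card * Fintype.card K ^ Fintype.card σ := by
        rw [Finset.sum_const, Finset.card_univ, Fintype.card_fun, smul_eq_mul, ← h6, pow_add]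
        ring

end MP_570bef_ntF
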