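import Pool.Agent.Lib.MP_570bef_ntF.Base

/-! JOB Ty.  Taylor expansion of multivariate polynomials modulo the square of an ideal.

Both by `MvPolynomial.induction_on p` (constants, sums, multiplication by a variable `X i`).
`taylor_zero`: `eval (x+h) p - eval x p ∈ I`.  For `p * X i`: `eval (x+h) p * (x i + h i) - eval x p * x i = (eval (x+h) p - eval x p) * (x i + h i) + eval x p * h i`.
`taylor_one`: write `T p := eval (x+h) p - eval x p - ∑ j, eval x (pderiv j p) * h j`.  For `p * X i` : `pderiv j (p * X i) = pderiv j p * X i + p * (if i = j then 1 else 0)`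
(`Derivation.leibniz`, `MvPolynomial.pderiv_X`), so
`T (p * X i) = T p * x i + (eval (x+h) p - eval x p) * h i`, and the last term is in `I * I = I^2`. -/

open Polynomial

namespace MP_570bef_ntF

theorem taylor_zero {σ : Type} {R : Type} [CommRing R] (I : Ideal R)
    (p : MvPolynomial σ R) (x h : σ → R) (hh : ∀ i, h i ∈ I) :
    MvPolynomial.eval (x + h) p - MvPolynomial.eval x p ∈ I := by
  induction p using MvPolynomial.induction_on with
  | C a => simp
  | add p q hp hq =>
    rw [map_add, map_add]
    have e : MvPolynomial.eval (x + h) p + MvPolynomial.eval (x + h) q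
        - (MvPolynomial.eval x p + MvPolynomial.eval x q)
        = (MvPolynomial.eval (x + h) p - MvPolynomial.eval x p)
          + (MvPolynomial.eval (x + h) q - MvPolynomial.eval x q) := by ring
    rw [e]
    exact I.add_mem hp hq
  | mul_X p i hp =>
    rw [map_mul, map_mul, MvPolynomial.eval_X, MvPolynomial.eval_X, Pi.add_apply]
    have e : MvPolynomial.eval (x + h) p * (x i + h i) - MvPolynomial.eval x p * x i
        = (MvPolynomial.eval (x + h) p - MvPolynomial.eval x p) * (x i + h i)
          + MvPolynomial.eval x p * h i := by ring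
    rw [e]
    exact I.add_mem (I.mul_mem_right _ hp) (I.mul_mem_left _ (hh i))

theorem taylor_one {σ : Type} [Fintype σ] [DecidableEq σ] {R : Type} [CommRing R] (I : Ideal R)
    (p : MvPolynomial σ R) (x h : σ → R) (hh : ∀ i, h i ∈ I) :
    MvPolynomial.eval (x + h) p - MvPolynomial.eval x p
      - ∑ j, MvPolynomial.eval x (MvPolynomial.pderiv j p) * h j ∈ I ^ 2 := by
  induction p using MvPolynomial.induction_on with
  | C a => simp
  | add p q hp hq =>
    have e : MvPolynomial.eval (x + h) (p + q) - MvPolynomial.eval x (p + q)
        - ∑ j, MvPolynomial.eval x (MvPolynomial.pderiv j (p + q)) * h j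
        = (MvPolynomial.eval (x + h) p - MvPolynomial.eval x p
            - ∑ j, MvPolynomial.eval x (MvPolynomial.pderiv j p) * h j)
          + (MvPolynomial.eval (x + h) q - MvPolynomial.eval x q
            - ∑ j, MvPolynomial.eval x (MvPolynomial.pderiv j q) * h j) := by
      have e1 : ∑ j, MvPolynomial.eval x (MvPolynomial.pderiv j (p + q)) * h j
          = ∑ j, MvPolynomial.eval x (MvPolynomial.pderiv j p) * h j
            + ∑ j, MvPolynomial.eval x (MvPolynomial.pderiv j q) * h j := by
        rw [← Finset.sum_add_distrib]
        refine Finset.sum_congr rfl (fun j _ => ?_)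
        rw [map_add, map_add, add_mul]
      rw [e1, map_add, map_add]
      ring
    rw [e]
    exact (I ^ 2).add_mem hp hq
  | mul_X p i hp =>
    have e1 : ∑ j, MvPolynomial.eval x (MvPolynomial.pderiv j (p * MvPolynomial.X i)) * h j
        = (∑ j, MvPolynomial.eval x (MvPolynomial.pderiv j p) * h j) * x i
          + MvPolynomial.eval x p * h i := by
      have e2 : ∀ j, MvPolynomial.eval x (MvPolynomial.pderiv j (p * MvPolynomial.X i)) * h j
          = MvPolynomial.eval x (MvPolynomial.pderiv j p) * h j * x i
            + (if i = j then MvPolynomial.eval x p * h j else 0) := by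
        intro j
        rw [MvPolynomial.pderiv_mul, map_add, map_mul, map_mul, MvPolynomial.eval_X]
        by_cases hij : i = j
        · subst hij
          rw [MvPolynomial.pderiv_X_self, map_one, if_pos rfl]
          ring
        · rw [MvPolynomial.pderiv_X_of_ne hij, map_zero, if_neg hij]
          ring
      rw [Finset.sum_congr rfl (fun j _ => e2 j), Finset.sum_add_distrib, ← Finset.sum_mul,
        Finset.sum_ite_eq, if_pos (Finset.mem_univ i)]
    rw [e1, map_mul, map_mul, MvPolynomial.eval_X, MvPolynomial.eval_X, Pi.add_apply]
    have e : MvPolynomial.eval (x + h) p * (x i + h i) - MvPolynomial.eval x p * x i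
        - ((∑ j, MvPolynomial.eval x (MvPolynomial.pderiv j p) * h j) * x i
          + MvPolynomial.eval x p * h i)
        = (MvPolynomial.eval (x + h) p - MvPolynomial.eval x p
            - ∑ j, MvPolynomial.eval x (MvPolynomial.pderiv j p) * h j) * x i
          + (MvPolynomial.eval (x + h) p - MvPolynomial.eval x p) * h i := by ring
    rw [e]
    refine (I ^ 2).add_mem ((I ^ 2).mul_mem_right _ hp) ?_
    rw [pow_two]
    exact Ideal.mul_mem_mul (taylor_zero I p x h hh) (hh i)

end MP_570bef_ntF
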